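import Pool.Agent.H47.KO.Defs

/-! # KO.Acts : actions on the vertices of pyramids, bipyramids, glued families (definitions, no sorry) -/

namespace H47.KO

open Finset

variable {V X G ι W : Type} [Group G]

/-- action on a disjoint union -/
def actSum (a : G →* Equiv.Perm V) (b : G →* Equiv.Perm X) : G →* Equiv.Perm (V ⊕ X) :=
  (Equiv.Perm.sumCongrHom V X).comp (a.prod b)

@[simp] theorem actSum_inl (a : G →* Equiv.Perm V) (b : G →* Equiv.Perm X) (g : G) (v : V) :
    actSum a b g (Sum.inl v) = Sum.inl (a g v) := rfl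

@[simp] theorem actSum_inr (a : G →* Equiv.Perm V) (b : G →* Equiv.Perm X) (g : G) (x : X) :
    actSum a b g (Sum.inr x) = Sum.inr (b g x) := rfl

/-- action on a product -/
def actProd (a : G →* Equiv.Perm ι) (b : G →* Equiv.Perm W) : G →* Equiv.Perm (ι × W) where
  toFun g := Equiv.prodCongr (a g) (b g)
  map_one' := by ext ⟨i, w⟩ <;> simp
  map_mul' g h := by ext ⟨i, w⟩ <;> simp

@[simp] theorem actProd_apply (a : G →* Equiv.Perm ι) (b : G →* Equiv.Perm W) (g : G) (i : ι)
    (w : W) : actProd a b g (i, w) = (a g i, b g w) := rfl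

/-- left multiplication -/
def actL (G : Type) [Group G] : G →* Equiv.Perm G := MulAction.toPermHom G G

@[simp] theorem actL_apply (g h : G) : actL G g h = g * h := rfl

/-- the action of `G × Perm Bool` on the vertices of a bipyramid -/
def actBip (a : G →* Equiv.Perm V) : G × Equiv.Perm Bool →* Equiv.Perm (V ⊕ Bool) :=
  (Equiv.Perm.sumCongrHom V Bool).comp (a.prodMap (MonoidHom.id _))

@[simp] theorem actBip_inl (a : G →* Equiv.Perm V) (p : G × Equiv.Perm Bool) (v : V) :
    actBip a p (Sum.inl v) = Sum.inl (a p.1 v) := rfl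

@[simp] theorem actBip_inr (a : G →* Equiv.Perm V) (p : G × Equiv.Perm Bool) (b : Bool) :
    actBip a p (Sum.inr b) = Sum.inr (p.2 b) := rfl

/-- the enumerations of the orbit of a facet -/
def eG {D : ℕ} (act : G →* Equiv.Perm V) (e : Fin D → V) : G → Fin D → V := fun g j => act g (e j)

/-- equivariance of the gluing data -/
def EqGlue {D : ℕ} [DecidableEq W] (act : G →* Equiv.Perm V) (𝓖 : Finset (Finset (Fin D ⊕ W)))
    (e : ι → Fin D → V) (aι : G →* Equiv.Perm ι) (τ : G →* Equiv.Perm W) : Prop :=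
  ∀ g i, ∃ σ : Equiv.Perm (Fin D), (∀ j, act g (e i j) = e (aι g i) (σ j)) ∧
    ∀ A ∈ 𝓖, A.image (Sum.map σ (τ g)) ∈ 𝓖

end H47.KO
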