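import Pool.Agent.H47.KO.Cl

/-! # KO.AutOf : the automorphism of the lattice of closed sets given by a permutation preserving the facets

`A ↦ A.image σ`. `F ↦ F.image σ` is an injective self-map of the finite set `𝓕`, so bijective; so `σ.symm` preserves `𝓕` too (`inv_pres`). `IsCl 𝓕 (A.image σ)`: if `v` is in all facets containing `A.image σ` then `σ.symm v` is in all facets containing `A`. -/

namespace H47.KO

open Finset

variable {V : Type} [Fintype V] [DecidableEq V] {D : ℕ} {𝓕 : Finset (Finset V)}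

theorem inv_pres (σ : Equiv.Perm V) (h : ∀ F ∈ 𝓕, F.image σ ∈ 𝓕) :
    ∀ F ∈ 𝓕, F.image σ.symm ∈ 𝓕 := by
  intro F hF
  have h1 : Set.MapsTo (fun F : Finset V => F.image σ) (𝓕 : Set (Finset V)) 𝓕 := fun F hF => h F hF
  have h2 : Set.InjOn (fun F : Finset V => F.image σ) (𝓕 : Set (Finset V)) :=
    fun A _ B _ hAB => Finset.image_injective σ.injective hAB
  have h3 : Set.SurjOn (fun F : Finset V => F.image σ) (𝓕 : Set (Finset V)) 𝓕 :=
    Finset.surjOn_of_injOn_of_card_le _ h1 h2 le_rfl
  obtain ⟨G, hG, hGF⟩ := h3 hF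
  have hGF' : G.image σ = F := hGF
  rw [← hGF', Finset.image_image]
  have e : (σ.symm : V → V) ∘ σ = id := by
    funext v
    exact σ.symm_apply_apply v
  rw [e, Finset.image_id]
  exact hG

private theorem isCl_image (σ : Equiv.Perm V) (h : ∀ F ∈ 𝓕, F.image σ ∈ 𝓕) {A : Finset V}
    (hA : IsCl 𝓕 A) : IsCl 𝓕 (A.image σ) := by
  intro v hv
  have h1 : σ.symm v ∈ A := by
    apply hA
    intro F hF hAF
    have h2 := hv (F.image σ) (h F hF) (Finset.image_subset_image hAF)
    obtain ⟨u, hu, huv⟩ := Finset.mem_image.1 h2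
    rw [← huv, σ.symm_apply_apply]
    exact hu
  exact Finset.mem_image.2 ⟨_, h1, σ.apply_symm_apply v⟩

private theorem image_symm (σ : Equiv.Perm V) (A : Finset V) : (A.image σ).image σ.symm = A := by
  rw [Finset.image_image]
  have e : (σ.symm : V → V) ∘ σ = id := by
    funext v
    exact σ.symm_apply_apply v
  rw [e, Finset.image_id]

/-- the automorphism of the lattice given by a permutation preserving the facets -/
theorem exists_autOf (σ : Equiv.Perm V) (h : ∀ F ∈ 𝓕, F.image σ ∈ 𝓕) :
    ∃ θ : CLat 𝓕 ≃o CLat 𝓕, ∀ A, (θ A).1 = A.1.image σ := by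
  refine ⟨{ toFun := fun A => ⟨A.1.image σ, isCl_image σ h A.2⟩
            invFun := fun A => ⟨A.1.image σ.symm, isCl_image σ.symm (inv_pres σ h) A.2⟩
            left_inv := fun A => Subtype.ext (image_symm σ A.1)
            right_inv := fun A => Subtype.ext (image_symm σ.symm A.1)
            map_rel_iff' := ?_ }, fun A => rfl⟩
  intro A B
  exact Finset.image_subset_image_iff σ.injective

end H47.KO
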