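import Pool.Agent.H47.KO.Cl

/-! # KO.AutPerm : every automorphism of the lattice of closed sets comes from a permutation of the vertices

`θ ∅ = ∅` (`cl_empty`: `∅` is the bottom element). The atoms of `CLat 𝓕` are the `{v}` (`cl_single`; a closed nonempty set contains some `v`, so `{v}` is below it), `θ` and `θ.symm` map atoms to atoms, so `θ {v} = {σ v}` for a bijection `σ`. `v ∈ A` iff
`{v} ≤ A` iff `{σ v} ≤ θ A`, so `θ A = A.image σ`. The coatoms of `CLat 𝓕` are the facets (`isCl_facet`, `isCl_le_facet`, `anti`, `univ_nmem`), `θ` maps the top to the top and coatoms to coatoms. -/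

namespace H47.KO

open Finset

variable {V : Type} [Fintype V] [DecidableEq V] {D : ℕ} {𝓕 : Finset (Finset V)}

omit [DecidableEq V] in
/-- atoms go to atoms -/
theorem autPerm_single (hc : Cplx D 𝓕) (θ : CLat 𝓕 ≃o CLat 𝓕) (v : V) :
    ∃ w, (θ ⟨{v}, cl_single hc v⟩).1 = {w} := by
  have hbot : ∀ φ : CLat 𝓕 ≃o CLat 𝓕, (φ ⟨∅, cl_empty hc⟩).1 = ∅ := by
    intro φ
    have h1 : (⟨∅, cl_empty hc⟩ : CLat 𝓕) ≤ φ.symm ⟨∅, cl_empty hc⟩ := Finset.empty_subset _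
    have h2 : φ ⟨∅, cl_empty hc⟩ ≤ φ (φ.symm ⟨∅, cl_empty hc⟩) := φ.monotone h1
    rw [φ.apply_symm_apply] at h2
    exact Finset.subset_empty.1 h2
  have hne : (θ ⟨{v}, cl_single hc v⟩).1 ≠ ∅ := by
    intro h
    have h1 : θ ⟨{v}, cl_single hc v⟩ = θ ⟨∅, cl_empty hc⟩ := by
      apply Subtype.ext
      rw [h, hbot θ]
    have h2 := congrArg Subtype.val (θ.injective h1)
    simp at h2
  obtain ⟨w, hw⟩ := Finset.nonempty_iff_ne_empty.2 hne
  refine ⟨w, ?_⟩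
  have h1 : (⟨{w}, cl_single hc w⟩ : CLat 𝓕) ≤ θ ⟨{v}, cl_single hc v⟩ := by
    change ({w} : Finset V) ⊆ _
    rw [Finset.singleton_subset_iff]
    exact hw
  have h2 : θ.symm ⟨{w}, cl_single hc w⟩ ≤ (⟨{v}, cl_single hc v⟩ : CLat 𝓕) := by
    rw [← θ.symm_apply_apply (⟨{v}, cl_single hc v⟩ : CLat 𝓕)]
    exact θ.symm.monotone h1
  have h3 : (θ.symm ⟨{w}, cl_single hc w⟩).1 ⊆ {v} := h2
  rcases Finset.subset_singleton_iff.1 h3 with h | h
  · exfalso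
    have h4 : θ.symm ⟨{w}, cl_single hc w⟩ = θ.symm ⟨∅, cl_empty hc⟩ := by
      apply Subtype.ext
      rw [h, hbot θ.symm]
    have h5 := congrArg Subtype.val (θ.symm.injective h4)
    simp at h5
  · have h4 : θ.symm ⟨{w}, cl_single hc w⟩ = (⟨{v}, cl_single hc v⟩ : CLat 𝓕) := Subtype.ext h
    rw [← h4, θ.apply_symm_apply]

theorem exists_perm (hD : 1 ≤ D) (hc : Cplx D 𝓕) (θ : CLat 𝓕 ≃o CLat 𝓕) :
    ∃ σ : Equiv.Perm V, (∀ F ∈ 𝓕, F.image σ ∈ 𝓕) ∧ ∀ A, (θ A).1 = A.1.image σ := by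
  classical
  choose f hf using autPerm_single hc θ
  have hinj : Function.Injective f := by
    intro v w hvw
    have h1 : θ ⟨{v}, cl_single hc v⟩ = θ ⟨{w}, cl_single hc w⟩ := by
      apply Subtype.ext
      rw [hf v, hf w, hvw]
    have h2 := congrArg Subtype.val (θ.injective h1)
    simpa using h2
  let σ : Equiv.Perm V := Equiv.ofBijective f (Finite.injective_iff_bijective.1 hinj)
  have hσ : ∀ v, σ v = f v := fun v => rfl
  have hmem : ∀ (A : CLat 𝓕) (v : V), f v ∈ (θ A).1 ↔ v ∈ A.1 := by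
    intro A v
    have h1 : θ ⟨{v}, cl_single hc v⟩ ≤ θ A ↔ (⟨{v}, cl_single hc v⟩ : CLat 𝓕) ≤ A :=
      θ.le_iff_le
    have h2 : θ ⟨{v}, cl_single hc v⟩ ≤ θ A ↔ (θ ⟨{v}, cl_single hc v⟩).1 ⊆ (θ A).1 := Iff.rfl
    have h3 : (⟨{v}, cl_single hc v⟩ : CLat 𝓕) ≤ A ↔ ({v} : Finset V) ⊆ A.1 := Iff.rfl
    rw [h2, h3, hf v, Finset.singleton_subset_iff, Finset.singleton_subset_iff] at h1
    exact h1
  have himg : ∀ A : CLat 𝓕, (θ A).1 = A.1.image σ := by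
    intro A
    ext w
    obtain ⟨v, rfl⟩ := σ.surjective w
    rw [Finset.mem_image]
    constructor
    · intro h
      exact ⟨v, (hmem A v).1 h, rfl⟩
    · rintro ⟨u, hu, huv⟩
      have : u = v := σ.injective huv
      subst this
      exact (hmem A u).2 hu
  refine ⟨σ, ?_, himg⟩
  intro F hF
  have : Nontrivial V := nontrivial_of_cplx hD hc
  have hun : univ ∉ 𝓕 := univ_nmem hc
  have hnu : ∀ (φ : CLat 𝓕 ≃o CLat 𝓕) (G : CLat 𝓕), G.1 ≠ univ → (φ G).1 ≠ univ := by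
    intro φ G hG hu
    apply hG
    have h1 : (⟨univ, isCl_univ 𝓕⟩ : CLat 𝓕) ≤ φ G := by
      change (univ : Finset V) ⊆ (φ G).1
      rw [hu]
    have h2 : φ (⟨univ, isCl_univ 𝓕⟩ : CLat 𝓕) ≤ φ G := by
      refine le_trans ?_ h1
      exact Finset.subset_univ _
    have h3 : (⟨univ, isCl_univ 𝓕⟩ : CLat 𝓕) ≤ G := φ.le_iff_le.1 h2
    exact Finset.univ_subset_iff.1 h3
  have hFu : F ≠ univ := fun h => hun (h ▸ hF)
  obtain ⟨F', hF', hFF'⟩ := isCl_le_facet (θ ⟨F, isCl_facet hF⟩).2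
    (hnu θ ⟨F, isCl_facet hF⟩ hFu)
  have hF'u : F' ≠ univ := fun h => hun (h ▸ hF')
  obtain ⟨F'', hF'', hFF''⟩ := isCl_le_facet (θ.symm ⟨F', isCl_facet hF'⟩).2
    (hnu θ.symm ⟨F', isCl_facet hF'⟩ hF'u)
  have hle : θ ⟨F, isCl_facet hF⟩ ≤ (⟨F', isCl_facet hF'⟩ : CLat 𝓕) := hFF'
  have hle2 : (⟨F, isCl_facet hF⟩ : CLat 𝓕) ≤ θ.symm ⟨F', isCl_facet hF'⟩ := by
    rw [← θ.symm_apply_apply (⟨F, isCl_facet hF⟩ : CLat 𝓕)]
    exact θ.symm.monotone hle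
  have hle3 : F ⊆ (θ.symm ⟨F', isCl_facet hF'⟩).1 := hle2
  have heq : F = F'' := hc.anti F hF F'' hF'' (hle3.trans hFF'')
  have heq2 : (θ.symm ⟨F', isCl_facet hF'⟩) = (⟨F, isCl_facet hF⟩ : CLat 𝓕) := by
    apply Subtype.ext
    apply Finset.Subset.antisymm
    · change (θ.symm ⟨F', isCl_facet hF'⟩).1 ⊆ F
      rw [heq]
      exact hFF''
    · exact hle3
  have heq3 : θ (⟨F, isCl_facet hF⟩ : CLat 𝓕) = ⟨F', isCl_facet hF'⟩ := by
    rw [← heq2, θ.apply_symm_apply]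
  have := himg ⟨F, isCl_facet hF⟩
  rw [heq3] at this
  change F.image σ ∈ 𝓕
  have h4 : F.image σ = F' := this.symm
  rw [h4]
  exact hF'

end H47.KO
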