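import Pool.Agent.H47.KO.Rigid
import Pool.Agent.H47.KO.AutOf
import Pool.Agent.H47.KO.AutPerm

/-! # KO.Aut : a permutation preserving the facets which fixes all vertices of a simplex facet is the identity

Let `θ` be the automorphism of `CLat 𝓕` given by `σ` (`exists_autOf`). Let `Φ` be a flag containing `⟨F, _⟩` (the chain `{F}` is contained in a maximal chain: `IsChain.exists_subset_flag` or similar). Every element `A` of `Φ` is comparable with `F`: `A ⊆ F`,
then `A.image σ = A`; or `F ⊆ A`, then `A = F` or `A = univ` (`isCl_le_facet`, `anti`). So `θ • Φ = Φ`; `rigid` with `exists_lat` gives `θ = 1`; `{v}` is closed (`cl_single`), so `{σ v} = {v}`. -/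

namespace H47.KO

open Finset

variable {V : Type} [Fintype V] [DecidableEq V] {D : ℕ} {𝓕 : Finset (Finset V)}

theorem fix_sx (hD : 1 ≤ D) (hc : Cplx D 𝓕) (σ : Equiv.Perm V) (h : ∀ F ∈ 𝓕, F.image σ ∈ 𝓕)
    (F : Finset V) (hF : IsSx D 𝓕 F) (hfix : ∀ v ∈ F, σ v = v) : σ = 1 := by
  obtain ⟨θ, hθ⟩ := exists_autOf σ h
  obtain ⟨P, -⟩ := exists_lat hc hD
  have himg : ∀ A : Finset V, A ⊆ F → A.image σ = A := by
    intro A hA
    ext v
    rw [Finset.mem_image]
    constructor
    · rintro ⟨u, hu, rfl⟩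
      rw [hfix u (hA hu)]
      exact hu
    · intro hv
      exact ⟨v, hv, hfix v (hA hv)⟩
  obtain ⟨Φ, hΦ⟩ := (IsChain.singleton (r := (· ≤ ·)) (a := (⟨F, isCl_facet hF.1⟩ : CLat 𝓕))).exists_subset_flag
  have hFΦ : (⟨F, isCl_facet hF.1⟩ : CLat 𝓕) ∈ Φ := hΦ (Set.mem_singleton _)
  have hfixA : ∀ A ∈ Φ, θ A = A := by
    intro A hA
    apply Subtype.ext
    rw [hθ]
    rcases Φ.le_or_le hA hFΦ with h1 | h1
    · exact himg _ h1
    · have h1' : F ⊆ A.1 := h1
      by_cases hu : A.1 = univ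
      · rw [hu]
        exact Finset.image_univ_of_surjective σ.surjective
      · obtain ⟨F', hF', hAF'⟩ := isCl_le_facet A.2 hu
        have h2 : F = F' := hc.anti F hF.1 F' hF' (h1'.trans hAF')
        have h3 : A.1 = F := Finset.Subset.antisymm (by rw [h2]; exact hAF') h1'
        rw [h3]
        exact himg _ (Finset.Subset.refl _)
  have hθΦ : θ • Φ = Φ := by
    apply SetLike.coe_injective
    change θ '' (Φ : Set (CLat 𝓕)) = Φ
    ext A
    constructor
    · rintro ⟨B, hB, rfl⟩
      rw [hfixA B hB]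
      exact hB
    · intro hA
      exact ⟨A, hA, hfixA A hA⟩
  have hθ1 : θ = 1 := rigid P θ Φ hθΦ
  ext v
  have h4 := hθ ⟨{v}, cl_single hc v⟩
  rw [hθ1] at h4
  have h5 : ({v} : Finset V) = ({v} : Finset V).image σ := h4
  rw [Finset.image_singleton] at h5
  exact (Finset.singleton_injective h5).symm

end H47.KO
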