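import Pool.Agent.H47.KO.FlFac

/-! # KO.LowSum : flags below a closed set

`low_sum`: `fl_sum` for `L = Low 𝓕 B`, top `B`; the coatoms are exactly the `T ∈ S` (`hmax`, `hanti`), `Set.Iic ⟨T, _⟩ ≃o Low 𝓕 T`. (`hne`: `S` is nonempty, so `Low 𝓕 B` is not a point.)
`low_flat`: all subsets of `T` are closed: let `A ⊆ T`, `w` in all facets containing `A`; `w ∈ T` because `T` is closed and every facet containing `T` contains `A`; if `w ∉ A` take `G` with `T ∩ G = T.erase w ⊇ A`: `w ∈ G`, contradiction. So `Low 𝓕 T ≃o Finset T`, `fl_bool`. -/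

namespace H47.KO

open Finset

variable {V : Type} [DecidableEq V] {𝓕 : Finset (Finset V)}

theorem low_sum [Fintype V] (B : Finset V) (hB : IsCl 𝓕 B) (S : Finset (Finset V))
    (hne : S.Nonempty) (hS : ∀ T ∈ S, IsCl 𝓕 T ∧ T ⊂ B)
    (hmax : ∀ A, IsCl 𝓕 A → A ⊂ B → ∃ T ∈ S, A ⊆ T)
    (hanti : ∀ T ∈ S, ∀ T' ∈ S, T ⊆ T' → T = T') :
    fl (Low 𝓕 B) = ∑ T ∈ S, fl (Low 𝓕 T) := by
  classical
  let t : Low 𝓕 B := ⟨B, hB, Finset.Subset.refl B⟩
  have ht : ∀ x : Low 𝓕 B, x ≤ t := fun x => x.2.2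
  let j : {T // T ∈ S} → Low 𝓕 B := fun T => ⟨T.1, (hS T.1 T.2).1, (hS T.1 T.2).2.1⟩
  have hj : Function.Injective j := by
    intro F G hFG
    have h1 : (j F).1 = (j G).1 := by rw [hFG]
    exact Subtype.ext h1
  have hjt : ∀ T, j T < t := by
    intro T
    refine lt_of_le_of_ne (ht _) fun he => ?_
    have h1 : T.1 = B := congrArg Subtype.val he
    exact (hS T.1 T.2).2.ne h1
  have hex : ∃ x : Low 𝓕 B, x ≠ t := by
    obtain ⟨T, hT⟩ := hne
    exact ⟨j ⟨T, hT⟩, (hjt _).ne⟩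
  have hss : ∀ x : Low 𝓕 B, x ≠ t → x.1 ⊂ B := by
    intro x hx
    exact Finset.ssubset_iff_subset_ne.2 ⟨x.2.2, fun he => hx (Subtype.ext he)⟩
  have hmem : ∀ x, x ∈ S.attach.image j ↔ x ⋖ t := by
    intro x
    rw [Finset.mem_image]
    constructor
    · rintro ⟨T, -, rfl⟩
      refine ⟨hjt T, ?_⟩
      intro A hTA hAt
      obtain ⟨T', hT', hAT'⟩ := hmax A.1 A.2.1 (hss A hAt.ne)
      have hTA1 : T.1 ⊆ A.1 := hTA.le
      have h1 : T.1 = T' := hanti T.1 T.2 T' hT' (hTA1.trans hAT')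
      have h2 : A.1 ⊆ T.1 := by rw [h1]; exact hAT'
      exact hTA.ne (Subtype.ext (Finset.Subset.antisymm hTA1 h2))
    · intro hx
      obtain ⟨T, hT, hxT⟩ := hmax x.1 x.2.1 (hss x hx.1.ne)
      refine ⟨⟨T, hT⟩, Finset.mem_attach _ _, ?_⟩
      have hle : x ≤ j ⟨T, hT⟩ := hxT
      rcases hle.lt_or_eq with hlt | heq
      · exact absurd (hjt ⟨T, hT⟩) (hx.2 hlt)
      · exact heq.symm
  rw [fl_sum t ht hex (S.attach.image j) hmem, Finset.sum_image (fun F _ G _ h => hj h),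
    ← Finset.sum_attach S]
  refine Finset.sum_congr rfl fun T _ => ?_
  let e : Set.Iic (j T) ≃o Low 𝓕 T.1 :=
    { toFun := fun A => ⟨A.1.1, A.1.2.1, A.2⟩
      invFun := fun A => ⟨⟨A.1, A.2.1, A.2.2.trans (hS T.1 T.2).2.1⟩, A.2.2⟩
      left_inv := fun A => rfl
      right_inv := fun A => rfl
      map_rel_iff' := Iff.rfl }
  exact fl_congr e

private theorem cl_sub_flat {T : Finset V} (hT : IsCl 𝓕 T)
    (h : ∀ f ∈ T, ∃ G ∈ 𝓕, T ∩ G = T.erase f) {A : Finset V} (hA : A ⊆ T) : IsCl 𝓕 A := by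
  intro w hw
  have hwT : w ∈ T := hT w fun F hF hTF => hw F hF (hA.trans hTF)
  by_contra hwA
  obtain ⟨G, hG, hTG⟩ := h w hwT
  have h1 : A ⊆ G := by
    intro x hx
    have hx2 : x ∈ T.erase w := Finset.mem_erase.2 ⟨fun he => hwA (he ▸ hx), hA hx⟩
    rw [← hTG] at hx2
    exact (Finset.mem_inter.1 hx2).2
  have h2 : w ∈ T ∩ G := Finset.mem_inter.2 ⟨hwT, hw G hG h1⟩
  rw [hTG] at h2
  exact (Finset.mem_erase.1 h2).1 rfl

theorem low_flat (T : Finset V) (hT : IsCl 𝓕 T) (h : ∀ f ∈ T, ∃ G ∈ 𝓕, T ∩ G = T.erase f) :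
    fl (Low 𝓕 T) = T.card.factorial := by
  let e : Low 𝓕 T ≃o Finset {x // x ∈ T} :=
    { toFun := fun A => A.1.subtype (fun x => x ∈ T)
      invFun := fun B => ⟨B.map (Function.Embedding.subtype _), cl_sub_flat hT h (by
        intro x hx
        obtain ⟨y, -, rfl⟩ := Finset.mem_map.1 hx
        exact y.2), by
        intro x hx
        obtain ⟨y, -, rfl⟩ := Finset.mem_map.1 hx
        exact y.2⟩
      left_inv := by
        intro A
        apply Subtype.ext
        show (A.1.subtype (fun x => x ∈ T)).map (Function.Embedding.subtype _) = A.1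
        rw [Finset.subtype_map, Finset.filter_true_of_mem]
        intro x hx
        exact A.2.2 hx
      right_inv := by
        intro B
        ext x
        simp
      map_rel_iff' := by
        intro A B
        show A.1.subtype (fun x => x ∈ T) ⊆ B.1.subtype (fun x => x ∈ T) ↔ A.1 ⊆ B.1
        constructor
        · intro hAB x hx
          have h1 : (⟨x, A.2.2 hx⟩ : {x // x ∈ T}) ∈ A.1.subtype (fun x => x ∈ T) :=
            Finset.mem_subtype.2 hx
          exact Finset.mem_subtype.1 (hAB h1)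
        · intro hAB x hx
          exact Finset.mem_subtype.2 (hAB (Finset.mem_subtype.1 hx)) }
  rw [fl_congr e, fl_bool, Fintype.card_coe]

end H47.KO
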