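import Pool.Agent.H47.KO.ListFam
import Pool.Agent.H47.KO.LowSum

/-! # KO.BGad : the pyramid over a triangular bipyramid as a gadget (6 vertices, 7 facets, 180 flags)

Realisation in `ℝ^5` with coordinates `y, p, x1, x2, x3` (unit vectors for `inl 0, inl 1, inl 2, inl 3, inr 0`), `inr 1 = (0, -1, 1, 1, 1)`. The functionals of the seven facets of `BL`, in this order: `x3`, `y`, `x1`, `x2`, `p + x3`, `p + x1`, `p + x2`.
(facet 3 is `{y, p, x2, x3}`: functional `x1`; facet 4 is `{y, p, x1, x3}`: functional `x2`; facet 5 `{y, p', x1, x2}`: `p + x3`; facet 6 `{y, p', x2, x3}`: `p + x1`; facet 7 `{y, p', x1, x3}`: `p + x2`.)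
`compl`: if `p ≥ 0`: the coordinates. If `p < 0`: `x = |p| • (0,-1,1,1,1) + (y, 0, x1 - |p|, x2 - |p|, x3 - |p|)`.
`B_fl`: `fl_facets`; six simplex facets: `6 * 24`; the facet `B = {inl 1, inl 2, inl 3, inr 0, inr 1}`: `low_sum` with the six triangles `{p or p', xi, xj}`, `low_flat`: `6 * 6`. Total 180. `B_inv`: the permutation is `Sum.map (swap 2 3 or 1) 1`. -/

namespace H47.KO

open Finset

/-- membership is decidable (the derived boolean equality of a sum has no lawful instance) -/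
private instance decB (x : Fin 4 ⊕ Fin 2) (l : List (Fin 4 ⊕ Fin 2)) : Decidable (x ∈ l) :=
  @List.instDecidableMemOfLawfulBEq _ instBEqOfDecidableEq _ x l

private instance decBB (x : List (Fin 4 ⊕ Fin 2)) (l : List (List (Fin 4 ⊕ Fin 2))) :
    Decidable (x ∈ l) :=
  @List.instDecidableMemOfLawfulBEq _ instBEqOfDecidableEq _ x l

private def Bnor : List (List ℤ) :=
  [[0, 0, 0, 0, 1], [1, 0, 0, 0, 0], [0, 0, 1, 0, 0], [0, 0, 0, 1, 0], [0, 1, 0, 0, 1],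
   [0, 1, 1, 0, 0], [0, 1, 0, 1, 0]]

private def Bver : Fin 4 ⊕ Fin 2 → List ℤ
  | Sum.inl i => [[1, 0, 0, 0, 0], [0, 1, 0, 0, 0], [0, 0, 1, 0, 0], [0, 0, 0, 1, 0]].getD i []
  | Sum.inr i => [[0, 0, 0, 0, 1], [0, -1, 1, 1, 1]].getD i []

private theorem B_listA : ∀ l ∈ BL, ∀ m ∈ BL, (∀ x ∈ l, x ∈ m) → l = m := by
  decide +kernel

private theorem B_listO : ∀ v : Fin 4 ⊕ Fin 2, ∃ l ∈ BL, v ∉ l := by
  decide +kernel

private theorem B_listSep : ∀ v w : Fin 4 ⊕ Fin 2, v ≠ w → ∃ l ∈ BL, v ∈ l ∧ w ∉ l := by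
  decide +kernel

private theorem B_listN : BL.Nodup := by
  decide +kernel

private theorem B_listL : BL.length = 7 := rfl

private theorem B_int : ∀ i : Fin 7, ∀ v : Fin 4 ⊕ Fin 2,
    0 ≤ (Bnor.getD i []).getD 0 0 * (Bver v).getD 0 0 +
      (Bnor.getD i []).getD 1 0 * (Bver v).getD 1 0 +
      (Bnor.getD i []).getD 2 0 * (Bver v).getD 2 0 +
      (Bnor.getD i []).getD 3 0 * (Bver v).getD 3 0 +
      (Bnor.getD i []).getD 4 0 * (Bver v).getD 4 0 ∧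
    ((Bnor.getD i []).getD 0 0 * (Bver v).getD 0 0 +
      (Bnor.getD i []).getD 1 0 * (Bver v).getD 1 0 +
      (Bnor.getD i []).getD 2 0 * (Bver v).getD 2 0 +
      (Bnor.getD i []).getD 3 0 * (Bver v).getD 3 0 +
      (Bnor.getD i []).getD 4 0 * (Bver v).getD 4 0 = 0 ↔
        v ∈ BL.getD i []) := by
  decide +kernel

private theorem B_idx (F : Finset (Fin 4 ⊕ Fin 2)) (hF : F ∈ fam BL) :
    ∃ i : Fin 7, (BL.getD i []).toFinset = F := by
  obtain ⟨l, hl, rfl⟩ := mem_fam.1 hF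
  obtain ⟨n, hn, rfl⟩ := List.getElem_of_mem hl
  have h1 : n < 7 := by rw [← B_listL]; exact hn
  refine ⟨⟨n, h1⟩, ?_⟩
  rw [List.getD_eq_getElem _ _ hn]

private theorem B_idx_inj : ∀ i j : Fin 7,
    (BL.getD i []).toFinset = (BL.getD j []).toFinset → i = j := by
  decide +kernel

private theorem B_mem (i : Fin 7) : (BL.getD i []).toFinset ∈ fam BL := by
  have : ∀ i : Fin 7, BL.getD i [] ∈ BL := by decide +kernel
  exact mem_fam.2 ⟨_, this i, rfl⟩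

/-- the functional with integer coefficients -/
private noncomputable def Ba (i : Fin 7) : Module.Dual ℝ (Fin 5 → ℝ) :=
  ∑ j : Fin 5, (((Bnor.getD i []).getD j 0 : ℤ) : ℝ) • LinearMap.proj j

private noncomputable def Bs (v : Fin 4 ⊕ Fin 2) : Fin 5 → ℝ :=
  fun j => (((Bver v).getD j 0 : ℤ) : ℝ)

private theorem Ba_apply (i : Fin 7) (v : Fin 4 ⊕ Fin 2) : Ba i (Bs v) =
    (((Bnor.getD i []).getD 0 0 * (Bver v).getD 0 0 +
      (Bnor.getD i []).getD 1 0 * (Bver v).getD 1 0 +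
      (Bnor.getD i []).getD 2 0 * (Bver v).getD 2 0 +
      (Bnor.getD i []).getD 3 0 * (Bver v).getD 3 0 +
      (Bnor.getD i []).getD 4 0 * (Bver v).getD 4 0 : ℤ) : ℝ) := by
  rw [Ba, LinearMap.sum_apply, Fin.sum_univ_five]
  simp only [LinearMap.smul_apply, LinearMap.proj_apply, smul_eq_mul, Bs]
  push_cast
  rfl

private theorem Ba_val (i : Fin 7) (x : Fin 5 → ℝ) : Ba i x =
    (((Bnor.getD i []).getD 0 0 : ℤ) : ℝ) * x 0 + (((Bnor.getD i []).getD 1 0 : ℤ) : ℝ) * x 1 +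
    (((Bnor.getD i []).getD 2 0 : ℤ) : ℝ) * x 2 + (((Bnor.getD i []).getD 3 0 : ℤ) : ℝ) * x 3 +
    (((Bnor.getD i []).getD 4 0 : ℤ) : ℝ) * x 4 := by
  rw [Ba, LinearMap.sum_apply, Fin.sum_univ_five]
  simp only [LinearMap.smul_apply, LinearMap.proj_apply, smul_eq_mul]
  rfl

private theorem B_compl (x : Fin 5 → ℝ) (h : ∀ i, 0 ≤ Ba i x) :
    ∃ c : Fin 4 ⊕ Fin 2 → ℝ, (∀ v, 0 ≤ c v) ∧ x = ∑ v, c v • Bs v := by
  have h0 : 0 ≤ x 4 := by simpa [Ba_val, Bnor] using h 0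
  have h1 : 0 ≤ x 0 := by simpa [Ba_val, Bnor] using h 1
  have h2 : 0 ≤ x 2 := by simpa [Ba_val, Bnor] using h 2
  have h3 : 0 ≤ x 3 := by simpa [Ba_val, Bnor] using h 3
  have h4 : 0 ≤ x 1 + x 4 := by simpa [Ba_val, Bnor] using h 4
  have h5 : 0 ≤ x 1 + x 2 := by simpa [Ba_val, Bnor] using h 5
  have h6 : 0 ≤ x 1 + x 3 := by simpa [Ba_val, Bnor] using h 6
  rcases le_total 0 (x 1) with hp | hp
  · refine ⟨Sum.elim ![x 0, x 1, x 2, x 3] ![x 4, 0], ?_, ?_⟩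
    · rintro (v | v)
      · fin_cases v <;> simp [h1, hp, h2, h3]
      · fin_cases v <;> simp [h0]
    · rw [Fintype.sum_sum_type, Fin.sum_univ_four, Fin.sum_univ_two]
      funext j
      fin_cases j <;> simp [Bs, Bver]
  · refine ⟨Sum.elim ![x 0, 0, x 2 + x 1, x 3 + x 1] ![x 4 + x 1, - x 1], ?_, ?_⟩
    · rintro (v | v)
      · fin_cases v <;> simp [h1] <;> linarith
      · fin_cases v <;> simp <;> linarith
    · rw [Fintype.sum_sum_type, Fin.sum_univ_four, Fin.sum_univ_two]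
      funext j
      fin_cases j <;> simp [Bs, Bver]

theorem B_real : Realiz 4 (fam BL) := by
  classical
  choose! ix hix using B_idx
  have h0 : ∀ F ∈ fam BL, ∀ v, 0 ≤ Ba (ix F) (Bs v) := by
    intro F _ v
    rw [Ba_apply]
    exact Int.cast_nonneg (B_int (ix F) v).1
  have h1 : ∀ F ∈ fam BL, ∀ v, Ba (ix F) (Bs v) = 0 ↔ v ∈ F := by
    intro F hF v
    rw [Ba_apply, Int.cast_eq_zero, (B_int (ix F) v).2]
    conv_rhs => rw [← hix F hF]
    rw [List.mem_toFinset]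
  have hfr : Module.finrank ℝ (Fin 5 → ℝ) = 4 + 1 := by simp
  refine ⟨Fin 5 → ℝ, inferInstance, inferInstance, Bs, fun F => Ba (ix F),
    ⟨inferInstance, hfr, h0, h1, fun x hx => B_compl x fun i => ?_⟩⟩
  have h2 := hx _ (B_mem i)
  have h3 : ix (BL.getD i []).toFinset = i := B_idx_inj _ _ (hix _ (B_mem i))
  rwa [h3] at h2

theorem B_cplx : Cplx 4 (fam BL) :=
  ⟨fam_anti B_listA, fam_out B_listO, fam_sep B_listSep, B_real⟩

private theorem B_sx : ∀ l ∈ BL, l ≠ [.inl 1, .inl 2, .inl 3, .inr 0, .inr 1] →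
    l.length = 4 ∧ l.Nodup ∧ ∀ f ∈ l, ∃ m ∈ BL, ∀ x ∈ l, (x ∈ m ↔ x ≠ f) := by
  decide +kernel

theorem B_sx0 : IsSx 4 (fam BL) (im (Sum.inl : Fin 4 → Fin 4 ⊕ Fin 2)) := by
  have h : im (Sum.inl : Fin 4 → Fin 4 ⊕ Fin 2) =
      ([.inl 0, .inl 1, .inl 2, .inl 3] : List (Fin 4 ⊕ Fin 2)).toFinset := by
    unfold im
    decide +kernel
  rw [h]
  have hm : ([.inl 0, .inl 1, .inl 2, .inl 3] : List (Fin 4 ⊕ Fin 2)) ∈ BL := by decide +kernel
  obtain ⟨h1, h2, h3⟩ := B_sx _ hm (by decide +kernel)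
  exact fam_sx hm h1 h2 h3

theorem B_deg (x : Fin 4 ⊕ Fin 2) : 4 ≤ deg (fam BL) x := by
  rw [deg_fam B_listN B_listA]
  have : ∀ x : Fin 4 ⊕ Fin 2, 4 ≤ (BL.filter fun l => x ∈ l).length := by decide +kernel
  exact this x

private theorem B_five : ([.inl 1, .inl 2, .inl 3, .inr 0, .inr 1] : List (Fin 4 ⊕ Fin 2)).toFinset
    ∈ fam BL :=
  mem_fam.2 ⟨_, by decide +kernel, rfl⟩

theorem B_ns (x : Fin 4 ⊕ Fin 2) : ¬ SS 4 (fam BL) x := by
  rintro ⟨h1, h2⟩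
  rw [deg_fam B_listN B_listA] at h1
  have h3 : ∀ x : Fin 4 ⊕ Fin 2, (BL.filter fun l => x ∈ l).length = 4 →
      x ∈ ([.inl 1, .inl 2, .inl 3, .inr 0, .inr 1] : List (Fin 4 ⊕ Fin 2)) := by decide +kernel
  have h4 := h2 _ B_five (List.mem_toFinset.2 (h3 x h1))
  revert h4
  decide +kernel

theorem B_card : (fam BL).card = 7 := by
  rw [card_fam B_listN B_listA, B_listL]

theorem B_inv (g : ℤˣ × ℤˣ) (A : Finset (Fin 4 ⊕ Fin 2)) (hA : A ∈ fam BL) :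
    A.image (Sum.map (sigO g) ((1 : ℤˣ × ℤˣ →* Equiv.Perm (Fin 2)) g)) ∈ fam BL := by
  have h1 : ∀ l ∈ BL, ∃ m ∈ BL,
      (∀ x ∈ l, Sum.map (1 : Equiv.Perm (Fin 4)) (1 : Equiv.Perm (Fin 2)) x ∈ m) ∧
      ∀ y ∈ m, ∃ x ∈ l, Sum.map (1 : Equiv.Perm (Fin 4)) (1 : Equiv.Perm (Fin 2)) x = y := by
    decide +kernel
  have h2 : ∀ l ∈ BL, ∃ m ∈ BL,
      (∀ x ∈ l, Sum.map (Equiv.swap (2 : Fin 4) 3) (1 : Equiv.Perm (Fin 2)) x ∈ m) ∧
      ∀ y ∈ m, ∃ x ∈ l, Sum.map (Equiv.swap (2 : Fin 4) 3) (1 : Equiv.Perm (Fin 2)) x = y := by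
    decide +kernel
  have h3 : sigO g = 1 ∨ sigO g = Equiv.swap (2 : Fin 4) 3 := by
    obtain ⟨a, b⟩ := g
    rcases Int.units_eq_one_or a with rfl | rfl
    · left
      rcases Int.units_eq_one_or b with rfl | rfl <;> simp [sigO, hom2, hom1]
    · right
      rcases Int.units_eq_one_or b with rfl | rfl <;> simp [sigO, hom2, hom1]
  rw [MonoidHom.one_apply]
  rcases h3 with h3 | h3
  · rw [h3]
    exact fam_inv _ h1 A hA
  · rw [h3]
    exact fam_inv _ h2 A hA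

private def BT : List (List (Fin 4 ⊕ Fin 2)) :=
  [[.inl 1, .inl 2, .inl 3], [.inl 1, .inl 2, .inr 0], [.inl 1, .inl 3, .inr 0],
   [.inr 1, .inl 2, .inl 3], [.inr 1, .inl 2, .inr 0], [.inr 1, .inl 3, .inr 0]]

private theorem BT_cl : ∀ l ∈ BT, ∀ v : Fin 4 ⊕ Fin 2,
    (∀ m ∈ BL, (∀ x ∈ l, x ∈ m) → v ∈ m) → v ∈ l := by
  decide +kernel

private theorem BT_flat : ∀ l ∈ BT, ∀ f ∈ l, ∃ m ∈ BL, ∀ x, (x ∈ l ∧ x ∈ m ↔ x ≠ f ∧ x ∈ l) := by
  decide +kernel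

private theorem BT_anti : ∀ l ∈ BT, ∀ m ∈ BT, (∀ x ∈ l, x ∈ m) → l = m := by
  decide +kernel

private theorem BT_max : ∀ m ∈ BL,
    (∀ x ∈ ([.inl 1, .inl 2, .inl 3, .inr 0, .inr 1] : List (Fin 4 ⊕ Fin 2)), x ∈ m) ∨
    ∃ l ∈ BT, ∀ x ∈ ([.inl 1, .inl 2, .inl 3, .inr 0, .inr 1] : List (Fin 4 ⊕ Fin 2)),
      x ∈ m → x ∈ l := by
  decide +kernel

private theorem BT_sub : ∀ l ∈ BT,
    (∀ x ∈ l, x ∈ ([.inl 1, .inl 2, .inl 3, .inr 0, .inr 1] : List (Fin 4 ⊕ Fin 2))) ∧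
    ¬ ∀ x ∈ ([.inl 1, .inl 2, .inl 3, .inr 0, .inr 1] : List (Fin 4 ⊕ Fin 2)), x ∈ l := by
  decide +kernel

private theorem BT_len : ∀ l ∈ BT, l.length = 3 ∧ l.Nodup := by
  decide +kernel

private theorem BT_isCl {T : Finset (Fin 4 ⊕ Fin 2)} (hT : T ∈ fam BT) : IsCl (fam BL) T := by
  obtain ⟨l, hl, rfl⟩ := mem_fam.1 hT
  intro v hv
  rw [List.mem_toFinset]
  refine BT_cl l hl v fun m hm h => ?_
  have := hv m.toFinset (mem_fam.2 ⟨m, hm, rfl⟩) (by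
    intro x hx
    exact List.mem_toFinset.2 (h x (List.mem_toFinset.1 hx)))
  exact List.mem_toFinset.1 this

private theorem BT_fl {T : Finset (Fin 4 ⊕ Fin 2)} (hT : T ∈ fam BT) :
    fl (Low (fam BL) T) = 6 := by
  rw [low_flat T (BT_isCl hT)]
  · obtain ⟨l, hl, rfl⟩ := mem_fam.1 hT
    obtain ⟨h1, h2⟩ := BT_len l hl
    rw [List.toFinset_card_of_nodup h2, h1]
    rfl
  · obtain ⟨l, hl, rfl⟩ := mem_fam.1 hT
    intro f hf
    obtain ⟨m, hm, h⟩ := BT_flat l hl f (List.mem_toFinset.1 hf)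
    refine ⟨m.toFinset, mem_fam.2 ⟨m, hm, rfl⟩, ?_⟩
    ext x
    rw [Finset.mem_inter, Finset.mem_erase, List.mem_toFinset, List.mem_toFinset]
    exact h x

private theorem B_low : fl (Low (fam BL)
    ([.inl 1, .inl 2, .inl 3, .inr 0, .inr 1] : List (Fin 4 ⊕ Fin 2)).toFinset) = 36 := by
  rw [low_sum _ (isCl_facet B_five) (fam BT)]
  · rw [Finset.sum_congr rfl fun T hT => BT_fl hT, Finset.sum_const,
      card_fam (by decide +kernel) BT_anti]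
    rfl
  · exact ⟨_, mem_fam.2 ⟨[.inl 1, .inl 2, .inl 3], by decide +kernel, rfl⟩⟩
  · intro T hT
    refine ⟨BT_isCl hT, ?_⟩
    obtain ⟨l, hl, rfl⟩ := mem_fam.1 hT
    obtain ⟨h1, h2⟩ := BT_sub l hl
    refine ⟨fun x hx => List.mem_toFinset.2 (h1 x (List.mem_toFinset.1 hx)), fun h => h2 ?_⟩
    intro x hx
    exact List.mem_toFinset.1 (h (List.mem_toFinset.2 hx))
  · intro A hA hAB
    by_contra hno
    have h1 : ([.inl 1, .inl 2, .inl 3, .inr 0, .inr 1] : List (Fin 4 ⊕ Fin 2)).toFinset ⊆ A := by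
      intro v hv
      refine hA v fun F hF hAF => ?_
      obtain ⟨m, hm, rfl⟩ := mem_fam.1 hF
      rcases BT_max m hm with h | ⟨l, hl, h⟩
      · exact List.mem_toFinset.2 (h v (List.mem_toFinset.1 hv))
      · exfalso
        refine hno ⟨l.toFinset, mem_fam.2 ⟨l, hl, rfl⟩, fun x hx => ?_⟩
        exact List.mem_toFinset.2 (h x (List.mem_toFinset.1 (hAB.1 hx))
          (List.mem_toFinset.1 (hAF hx)))
    exact hAB.2 h1
  · intro T hT T' hT' h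
    exact fam_anti BT_anti T hT T' hT' h

theorem B_fl : fl (CLat (fam BL)) = 180 := by
  rw [fl_facets (D := 4) (by norm_num) B_cplx, ← Finset.add_sum_erase _ _ B_five, B_low]
  have h : ∀ F ∈ (fam BL).erase
      ([.inl 1, .inl 2, .inl 3, .inr 0, .inr 1] : List (Fin 4 ⊕ Fin 2)).toFinset,
      fl (Low (fam BL) F) = 24 := by
    intro F hF
    obtain ⟨hne, hF⟩ := Finset.mem_erase.1 hF
    obtain ⟨l, hl, rfl⟩ := mem_fam.1 hF
    obtain ⟨h1, h2, h3⟩ := B_sx l hl (fun he => hne (by rw [he]))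
    exact low_sx (fam_sx hl h1 h2 h3)
  rw [Finset.sum_congr rfl h, Finset.sum_const, Finset.card_erase_of_mem B_five, B_card]
  rfl

end H47.KO
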