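import Pool.Agent.H47.KO.Cl

/-! # KO.GlueMem : the facets of a glued family

`mem_glue`: unfold. `phi_inj`: `e i` and `Prod.mk i` are injective (`Sum.map_injective`). `exists_inr`: a facet `A ≠ im inl` of `𝓖` is not contained in `im inl` (`anti`). `glue_fac_inj`: `A` contains some `inr w` so `i = i'` (first components of `inr`), then `A = A'` (`Finset.image_injective`).
`inl_ne_phi`: `A.image (phi e i)` contains an `inr`. `im_card`: `card (im e) = D` for injective `e`. -/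

namespace H47.KO

open Finset

variable {V : Type} [Fintype V] [DecidableEq V] {D : ℕ} {𝓕 : Finset (Finset V)}
variable {ι W : Type} [Fintype ι] [DecidableEq ι] [Fintype W] [DecidableEq W]
variable {𝓖 : Finset (Finset (Fin D ⊕ W))} {e : ι → Fin D → V}

theorem mem_glue {B : Finset (V ⊕ (ι × W))} :
    B ∈ glue 𝓕 𝓖 e ↔ (∃ F ∈ 𝓕, (∀ i, im (e i) ≠ F) ∧ B = F.disjSum ∅) ∨
      ∃ i, ∃ A ∈ 𝓖, A ≠ im Sum.inl ∧ B = A.image (phi e i) := by
  unfold glue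
  rw [mem_union, mem_image, mem_biUnion]
  constructor
  · rintro (⟨F, hF, rfl⟩ | ⟨i, _, hB⟩)
    · rw [mem_filter] at hF
      exact Or.inl ⟨F, hF.1, hF.2, rfl⟩
    · rw [mem_image] at hB
      obtain ⟨A, hA, rfl⟩ := hB
      rw [mem_erase] at hA
      exact Or.inr ⟨i, A, hA.2, hA.1, rfl⟩
  · rintro (⟨F, hF, h2, rfl⟩ | ⟨i, A, hA, h1, rfl⟩)
    · exact Or.inl ⟨F, mem_filter.2 ⟨hF, h2⟩, rfl⟩
    · exact Or.inr ⟨i, mem_univ i, mem_image.2 ⟨A, mem_erase.2 ⟨h1, hA⟩, rfl⟩⟩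

theorem phi_inj (h : GlueOK D 𝓕 𝓖 e) (i : ι) :
    Function.Injective (phi (W := W) e i) :=
  Sum.map_injective.2 ⟨h.inj i, fun _ _ hw => (Prod.mk.inj hw).2⟩

theorem inr_mem_phi {i i' : ι} {w : W} {A : Finset (Fin D ⊕ W)} :
    (Sum.inr (i', w) : V ⊕ (ι × W)) ∈ A.image (phi e i) ↔ i' = i ∧ Sum.inr w ∈ A := by
  rw [mem_image]
  constructor
  · rintro ⟨x, hx, hxe⟩
    cases x with
    | inl j => simp [phi] at hxe
    | inr w' =>
      simp only [phi, Sum.map_inr, Sum.inr.injEq, Prod.mk.injEq] at hxe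
      obtain ⟨h1, h2⟩ := hxe
      subst h1
      subst h2
      exact ⟨rfl, hx⟩
  · rintro ⟨rfl, hw⟩
    exact ⟨Sum.inr w, hw, rfl⟩

theorem inl_mem_phi {i : ι} {v : V} {A : Finset (Fin D ⊕ W)} :
    (Sum.inl v : V ⊕ (ι × W)) ∈ A.image (phi e i) ↔ ∃ j, e i j = v ∧ Sum.inl j ∈ A := by
  rw [mem_image]
  constructor
  · rintro ⟨x, hx, hxe⟩
    cases x with
    | inl j =>
      simp only [phi, Sum.map_inl, Sum.inl.injEq] at hxe
      exact ⟨j, hxe, hx⟩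
    | inr w' => simp [phi] at hxe
  · rintro ⟨j, rfl, hj⟩
    exact ⟨Sum.inl j, hj, rfl⟩

theorem exists_inr (h : GlueOK D 𝓕 𝓖 e) {A : Finset (Fin D ⊕ W)} (hA : A ∈ 𝓖)
    (h1 : A ≠ im Sum.inl) : ∃ w, Sum.inr w ∈ A := by
  by_contra hc
  push Not at hc
  apply h1
  refine h.cG.anti A hA _ h.sx0.1 fun x hx => ?_
  cases x with
  | inl j => exact mem_image.2 ⟨j, mem_univ j, rfl⟩
  | inr w => exact absurd hx (hc w)

/-- distinct indices and facets give distinct glued facets -/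
theorem glue_fac_inj (h : GlueOK D 𝓕 𝓖 e) {i i' : ι} {A A' : Finset (Fin D ⊕ W)} (hA : A ∈ 𝓖)
    (hA' : A' ∈ 𝓖) (h1 : A ≠ im Sum.inl) (h2 : A' ≠ im Sum.inl)
    (heq : A.image (phi e i) = A'.image (phi e i')) : i = i' ∧ A = A' := by
  obtain ⟨w, hw⟩ := exists_inr h hA h1
  have h3 : (Sum.inr (i, w) : V ⊕ (ι × W)) ∈ A.image (phi e i) := inr_mem_phi.2 ⟨rfl, hw⟩
  rw [heq] at h3
  obtain ⟨rfl, _⟩ := inr_mem_phi.1 h3
  exact ⟨rfl, Finset.image_injective (phi_inj h i) heq⟩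

theorem inl_ne_phi (h : GlueOK D 𝓕 𝓖 e) (i : ι) {A : Finset (Fin D ⊕ W)} (hA : A ∈ 𝓖)
    (h1 : A ≠ im Sum.inl) (F : Finset V) :
    (F.disjSum ∅ : Finset (V ⊕ (ι × W))) ≠ A.image (phi e i) := by
  intro heq
  obtain ⟨w, hw⟩ := exists_inr h hA h1
  have h3 : (Sum.inr (i, w) : V ⊕ (ι × W)) ∈ A.image (phi e i) := inr_mem_phi.2 ⟨rfl, hw⟩
  rw [← heq, Finset.inr_mem_disjSum] at h3
  exact absurd h3 (Finset.notMem_empty _)

theorem im_card (f : Fin D → V) (hf : Function.Injective f) : (im f).card = D := by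
  unfold im
  rw [card_image_of_injective _ hf, card_univ, Fintype.card_fin]

theorem mem_im (f : Fin D → V) (v : V) : v ∈ im f ↔ ∃ j, f j = v := by
  simp [im]

end H47.KO
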