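import Pool.Agent.H47.KO.P1Cx
import Pool.Agent.H47.KO.GlueMem

/-! # KO.P1Good : `P1` is a good system

`G = ℤˣ × ℤˣ`, `actP`, `r = (-1, 1)` (so `actP r = p0`, which is `rho0`), `κ = id`, `W = ∅`. `inv`: for the generators `fam_inv` with `rho0`, `rho3` (list checks by `decide +kernel`), `actP (x, y)` is a product of them (`Int.units_eq_one_or`). `inj`: the four permutations are different (values at `0`: `0, 1, 10, 9`).
`core`: `coreF` members are facets (`decide` on the eight, `mem_fam`). `cG`: `card (ℤˣ × ℤˣ) = 4 = 2 ^ (5 / 2)`.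
`P1_free`: `im eFr = {1, 2, 4, 6}`, its images: `{0, 2, 5, 6}`, `{2, 4, 6, 9}` (`p3`: 1 -> 9, 2, 4, 6 fixed), `{2, 5, 6, 10}`: pairwise different, none is in `coreF`.
`P1_eqT`: `σ = sigT g`: `actP g (eT () j) = eT () (sigT g j)`. `P1_eqO`: `actP g (eO b j) = eO (aO g b) (sigO g j)`. (`decide` over `g`, `j`; or `Int.units_eq_one_or` first.)
The remaining statements are finite checks. -/

namespace H47.KO

open Finset

private theorem core_mem : ∀ C ∈ coreF, C ∈ P1F := by decide +kernel

private theorem act0 : ∀ x : Fin 11, actP ((-1 : ℤˣ), (1 : ℤˣ)) x = rho0 x := by decide +kernel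

private theorem inv0 : ∀ F ∈ P1F, F.image rho0 ∈ P1F :=
  fam_inv rho0 (by decide +kernel)

private theorem inv3 : ∀ F ∈ P1F, F.image rho3 ∈ P1F :=
  fam_inv rho3 (by decide +kernel)

private theorem act_cases : ∀ g : ℤˣ × ℤˣ, (∀ x, actP g x = x) ∨ (∀ x, actP g x = rho0 x) ∨
    (∀ x, actP g x = rho3 x) ∨ (∀ x, actP g x = rho0 (rho3 x)) := by decide +kernel

private theorem act_inj : ∀ g h : ℤˣ × ℤˣ, actP g 0 = actP h 0 → g = h := by decide +kernel

private theorem img_congr {f g : Fin 11 → Fin 11} (h : ∀ x, f x = g x) (F : Finset (Fin 11)) :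
    F.image f = F.image g := by
  rw [funext h]

theorem P1_good : Good 4 P1F actP ((-1 : ℤˣ), (1 : ℤˣ)) id ∅ where
  four := le_rfl
  cx := P1_cplx
  inv := by
    intro g F hF
    rcases act_cases g with h | h | h | h
    · rw [img_congr h, show (fun x : Fin 11 => x) = id from rfl, image_id]
      exact hF
    · rw [img_congr h]
      exact inv0 F hF
    · rw [img_congr h]
      exact inv3 F hF
    · rw [img_congr h]
      have h1 := inv0 _ (inv3 F hF)
      rw [image_image] at h1
      exact h1
  cG := by decide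
  inj := by
    intro g h hgh
    exact act_inj g h (by rw [hgh])
  deg := fun v => le_trans (by norm_num) (P1_deg v)
  cF := by rw [P1_card]; norm_num
  cW := rfl
  κinj := Function.injective_id
  κW := fun i => notMem_empty _
  core := by
    intro C hC
    rw [image_id, union_empty]
    exact core_mem C hC
  core0 := by
    rw [image_id, union_empty]
    exact P1_sx _ (core_mem _ (by decide +kernel))
  rκ := fun i => act0 i
  rW := fun w hw => absurd hw (notMem_empty w)

theorem P1_free : FreeF 4 P1F actP id ∅ eFr where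
  inj := by unfold Function.Injective; decide +kernel
  sx := P1_sx _ (by decide +kernel)
  free := by decide +kernel
  core := by
    have h : ∀ g : ℤˣ × ℤˣ, ∀ C ∈ coreF, (im eFr).image (actP g) ≠ C := by decide +kernel
    intro g C hC
    rw [image_id, union_empty]
    exact h g C hC

theorem P1_ns (v : Fin 11) : ¬ SS 4 P1F v := by
  rintro ⟨h, -⟩
  have := P1_deg v
  omega

theorem P1_actT (g : ℤˣ × ℤˣ) (j : Fin 4) : actP g (eT () j) = eT () (sigT g j) := by
  revert g j
  decide +kernel

theorem P1_actO (g : ℤˣ × ℤˣ) (b : Bool) (j : Fin 4) :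
    actP g (eO b j) = eO (aO g b) (sigO g j) := by
  revert g b j
  decide +kernel

theorem P1_T (u : Unit) : Function.Injective (eT u) ∧ im (eT u) ∈ P1F ∧
    (∀ C ∈ coreF, im (eT u) ≠ C.image id ∪ ∅) ∧ im (eT u) ≠ im eFr ∧
    ∀ b, im (eT u) ≠ im (eO b) := by
  refine ⟨?_, ?_, ?_, ?_, ?_⟩
  · unfold Function.Injective
    cases u
    decide +kernel
  · cases u
    decide +kernel
  · have h : ∀ C ∈ coreF, im (eT ()) ≠ C := by decide +kernel
    intro C hC
    rw [image_id, union_empty]
    cases u
    exact h C hC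
  · cases u
    decide +kernel
  · cases u
    decide +kernel

theorem P1_O (b : Bool) : Function.Injective (eO b) ∧ im (eO b) ∈ P1F ∧
    (∀ C ∈ coreF, im (eO b) ≠ C.image id ∪ ∅) ∧ im (eO b) ≠ im eFr := by
  refine ⟨?_, ?_, ?_, ?_⟩
  · unfold Function.Injective
    revert b
    decide +kernel
  · revert b
    decide +kernel
  · have h : ∀ b, ∀ C ∈ coreF, im (eO b) ≠ C := by decide +kernel
    intro C hC
    rw [image_id, union_empty]
    exact h b C hC
  · revert b
    decide +kernel

theorem P1_O_dist (b c : Bool) (h : im (eO b) = im (eO c)) : b = c := by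
  revert b c
  decide +kernel

end H47.KO
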