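import Pool.Agent.H47.KO.ListFam
import Pool.Agent.H47.KO.LowSum

/-! # KO.RGad : the gadget `R` (7 vertices, 10 facets, 252 flags)

Realisation in `ℝ^5` with coordinates `x3, x4, x5, x7, xv` (unit vectors for `inl 0, inl 1, inl 2, inl 3, inr 0`), `s = inr 1 = (1, 1, 1, -1, 1)`, `t = inr 2 = (-1, 1, 1, 1, 1)`. The functionals of the ten facets of `RL`, in this order: `xv`, `x3 + x7`, `x5`, `x4`, `xv + x7`, `xv + x3`, `x5 + x7`, `x4 + x7`, `x5 + x3`, `x4 + x3`.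
`nonneg`, `zero`: 70 values. `compl`: if `x3, x7 ≥ 0` then `x` is the combination with the coordinates (all `≥ 0`: `x4, x5, xv ≥ 0` are functionals). If `x7 < 0`: `x = |x7| • s + (x3 - |x7|, x4 - |x7|, x5 - |x7|, 0, xv - |x7|)`, the brackets are `x3 + x7`, `x4 + x7`, `x5 + x7`, `xv + x7 ≥ 0`. If `x3 < 0`: the same with `t`. (Both negative is impossible: `x3 + x7 ≥ 0`.)
The functional as a function of the facet: e.g. for `B : Finset (Fin 4 ⊕ Fin 3)` use a chain of `if B = ...` or an index `i : Fin 10` chosen by `∃ i, (RL.getD i []).toFinset = B`.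
`R_fl`: `fl_facets`; nine simplex facets (`fam_sx`, `low_sx`): `9 * 24`; the facet `B = {inl 1, inl 2, inr 0, inr 1, inr 2}`: `low_sum` with `S` = the six triangles `{1,2,s}, {1,2,t}, {1,v,s}, {2,v,s}, {1,v,t}, {2,v,t}` (each is `B ∩ G` for a facet `G`; `B ∩ G` for every facet `G ≠ B` is in one of them), `low_flat`: `6 * 6`. Total 252.
`hmax`: `A` closed, `A ⊂ B`: some facet `G ⊇ A` does not contain `B`, so `A ⊆ B ∩ G`. -/

namespace H47.KO

open Finset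

/-- membership is decidable (the derived boolean equality of a sum has no lawful instance) -/
private instance decR (x : Fin 4 ⊕ Fin 3) (l : List (Fin 4 ⊕ Fin 3)) : Decidable (x ∈ l) :=
  @List.instDecidableMemOfLawfulBEq _ instBEqOfDecidableEq _ x l

private instance decRR (x : List (Fin 4 ⊕ Fin 3)) (l : List (List (Fin 4 ⊕ Fin 3))) :
    Decidable (x ∈ l) :=
  @List.instDecidableMemOfLawfulBEq _ instBEqOfDecidableEq _ x l

private def Rnor : List (List ℤ) :=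
  [[0, 0, 0, 0, 1], [1, 0, 0, 1, 0], [0, 0, 1, 0, 0], [0, 1, 0, 0, 0], [0, 0, 0, 1, 1],
   [1, 0, 0, 0, 1], [0, 0, 1, 1, 0], [0, 1, 0, 1, 0], [1, 0, 1, 0, 0], [1, 1, 0, 0, 0]]

private def Rver : Fin 4 ⊕ Fin 3 → List ℤ
  | Sum.inl i => [[1, 0, 0, 0, 0], [0, 1, 0, 0, 0], [0, 0, 1, 0, 0], [0, 0, 0, 1, 0]].getD i []
  | Sum.inr i => [[0, 0, 0, 0, 1], [1, 1, 1, -1, 1], [-1, 1, 1, 1, 1]].getD i []

private theorem R_listA : ∀ l ∈ RL, ∀ m ∈ RL, (∀ x ∈ l, x ∈ m) → l = m := by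
  decide +kernel

private theorem R_listO : ∀ v : Fin 4 ⊕ Fin 3, ∃ l ∈ RL, v ∉ l := by
  decide +kernel

private theorem R_listSep : ∀ v w : Fin 4 ⊕ Fin 3, v ≠ w → ∃ l ∈ RL, v ∈ l ∧ w ∉ l := by
  decide +kernel

private theorem R_listN : RL.Nodup := by
  decide +kernel

private theorem R_listL : RL.length = 10 := rfl

private theorem R_int : ∀ i : Fin 10, ∀ v : Fin 4 ⊕ Fin 3,
    0 ≤ (Rnor.getD i []).getD 0 0 * (Rver v).getD 0 0 +
      (Rnor.getD i []).getD 1 0 * (Rver v).getD 1 0 +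
      (Rnor.getD i []).getD 2 0 * (Rver v).getD 2 0 +
      (Rnor.getD i []).getD 3 0 * (Rver v).getD 3 0 +
      (Rnor.getD i []).getD 4 0 * (Rver v).getD 4 0 ∧
    ((Rnor.getD i []).getD 0 0 * (Rver v).getD 0 0 +
      (Rnor.getD i []).getD 1 0 * (Rver v).getD 1 0 +
      (Rnor.getD i []).getD 2 0 * (Rver v).getD 2 0 +
      (Rnor.getD i []).getD 3 0 * (Rver v).getD 3 0 +
      (Rnor.getD i []).getD 4 0 * (Rver v).getD 4 0 = 0 ↔
        v ∈ RL.getD i []) := by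
  decide +kernel

private theorem R_idx (F : Finset (Fin 4 ⊕ Fin 3)) (hF : F ∈ fam RL) :
    ∃ i : Fin 10, (RL.getD i []).toFinset = F := by
  obtain ⟨l, hl, rfl⟩ := mem_fam.1 hF
  obtain ⟨n, hn, rfl⟩ := List.getElem_of_mem hl
  have h1 : n < 10 := by rw [← R_listL]; exact hn
  refine ⟨⟨n, h1⟩, ?_⟩
  rw [List.getD_eq_getElem _ _ hn]

private theorem R_idx_inj : ∀ i j : Fin 10,
    (RL.getD i []).toFinset = (RL.getD j []).toFinset → i = j := by
  decide +kernel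

private theorem R_mem (i : Fin 10) : (RL.getD i []).toFinset ∈ fam RL := by
  have : ∀ i : Fin 10, RL.getD i [] ∈ RL := by decide +kernel
  exact mem_fam.2 ⟨_, this i, rfl⟩

/-- the functional with integer coefficients -/
private noncomputable def Ra (i : Fin 10) : Module.Dual ℝ (Fin 5 → ℝ) :=
  ∑ j : Fin 5, (((Rnor.getD i []).getD j 0 : ℤ) : ℝ) • LinearMap.proj j

private noncomputable def Rs (v : Fin 4 ⊕ Fin 3) : Fin 5 → ℝ :=
  fun j => (((Rver v).getD j 0 : ℤ) : ℝ)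

private theorem Ra_apply (i : Fin 10) (v : Fin 4 ⊕ Fin 3) : Ra i (Rs v) =
    (((Rnor.getD i []).getD 0 0 * (Rver v).getD 0 0 +
      (Rnor.getD i []).getD 1 0 * (Rver v).getD 1 0 +
      (Rnor.getD i []).getD 2 0 * (Rver v).getD 2 0 +
      (Rnor.getD i []).getD 3 0 * (Rver v).getD 3 0 +
      (Rnor.getD i []).getD 4 0 * (Rver v).getD 4 0 : ℤ) : ℝ) := by
  rw [Ra, LinearMap.sum_apply, Fin.sum_univ_five]
  simp only [LinearMap.smul_apply, LinearMap.proj_apply, smul_eq_mul, Rs]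
  push_cast
  rfl

private theorem Ra_val (i : Fin 10) (x : Fin 5 → ℝ) : Ra i x =
    (((Rnor.getD i []).getD 0 0 : ℤ) : ℝ) * x 0 + (((Rnor.getD i []).getD 1 0 : ℤ) : ℝ) * x 1 +
    (((Rnor.getD i []).getD 2 0 : ℤ) : ℝ) * x 2 + (((Rnor.getD i []).getD 3 0 : ℤ) : ℝ) * x 3 +
    (((Rnor.getD i []).getD 4 0 : ℤ) : ℝ) * x 4 := by
  rw [Ra, LinearMap.sum_apply, Fin.sum_univ_five]
  simp only [LinearMap.smul_apply, LinearMap.proj_apply, smul_eq_mul]
  rfl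

private theorem R_compl (x : Fin 5 → ℝ) (h : ∀ i, 0 ≤ Ra i x) :
    ∃ c : Fin 4 ⊕ Fin 3 → ℝ, (∀ v, 0 ≤ c v) ∧ x = ∑ v, c v • Rs v := by
  have h0 : 0 ≤ x 4 := by simpa [Ra_val, Rnor] using h 0
  have h1 : 0 ≤ x 0 + x 3 := by simpa [Ra_val, Rnor] using h 1
  have h2 : 0 ≤ x 2 := by simpa [Ra_val, Rnor] using h 2
  have h3 : 0 ≤ x 1 := by simpa [Ra_val, Rnor] using h 3
  have h4 : 0 ≤ x 3 + x 4 := by simpa [Ra_val, Rnor] using h 4
  have h5 : 0 ≤ x 0 + x 4 := by simpa [Ra_val, Rnor] using h 5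
  have h6 : 0 ≤ x 2 + x 3 := by simpa [Ra_val, Rnor] using h 6
  have h7 : 0 ≤ x 1 + x 3 := by simpa [Ra_val, Rnor] using h 7
  have h8 : 0 ≤ x 0 + x 2 := by simpa [Ra_val, Rnor] using h 8
  have h9 : 0 ≤ x 0 + x 1 := by simpa [Ra_val, Rnor] using h 9
  rcases le_total 0 (x 3) with hp | hp
  · rcases le_total 0 (x 0) with hq | hq
    · refine ⟨Sum.elim ![x 0, x 1, x 2, x 3] ![x 4, 0, 0], ?_, ?_⟩
      · rintro (v | v)
        · fin_cases v <;> simp [hq, h3, h2, hp]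
        · fin_cases v <;> simp [h0]
      · rw [Fintype.sum_sum_type, Fin.sum_univ_four, Fin.sum_univ_three]
        funext j
        fin_cases j <;> simp [Rs, Rver]
    · refine ⟨Sum.elim ![0, x 1 + x 0, x 2 + x 0, x 3 + x 0] ![x 4 + x 0, 0, - x 0], ?_, ?_⟩
      · rintro (v | v)
        · fin_cases v <;> simp <;> linarith
        · fin_cases v <;> simp <;> linarith
      · rw [Fintype.sum_sum_type, Fin.sum_univ_four, Fin.sum_univ_three]
        funext j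
        fin_cases j <;> simp [Rs, Rver]
  · refine ⟨Sum.elim ![x 0 + x 3, x 1 + x 3, x 2 + x 3, 0] ![x 4 + x 3, - x 3, 0], ?_, ?_⟩
    · rintro (v | v)
      · fin_cases v <;> simp <;> linarith
      · fin_cases v <;> simp <;> linarith
    · rw [Fintype.sum_sum_type, Fin.sum_univ_four, Fin.sum_univ_three]
      funext j
      fin_cases j <;> simp [Rs, Rver]

theorem R_real : Realiz 4 (fam RL) := by
  classical
  choose! ix hix using R_idx
  have h0 : ∀ F ∈ fam RL, ∀ v, 0 ≤ Ra (ix F) (Rs v) := by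
    intro F _ v
    rw [Ra_apply]
    exact Int.cast_nonneg (R_int (ix F) v).1
  have h1 : ∀ F ∈ fam RL, ∀ v, Ra (ix F) (Rs v) = 0 ↔ v ∈ F := by
    intro F hF v
    rw [Ra_apply, Int.cast_eq_zero, (R_int (ix F) v).2]
    conv_rhs => rw [← hix F hF]
    rw [List.mem_toFinset]
  have hfr : Module.finrank ℝ (Fin 5 → ℝ) = 4 + 1 := by simp
  refine ⟨Fin 5 → ℝ, inferInstance, inferInstance, Rs, fun F => Ra (ix F),
    ⟨inferInstance, hfr, h0, h1, fun x hx => R_compl x fun i => ?_⟩⟩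
  have h2 := hx _ (R_mem i)
  have h3 : ix (RL.getD i []).toFinset = i := R_idx_inj _ _ (hix _ (R_mem i))
  rwa [h3] at h2

theorem R_cplx : Cplx 4 (fam RL) :=
  ⟨fam_anti R_listA, fam_out R_listO, fam_sep R_listSep, R_real⟩

private theorem R_sx : ∀ l ∈ RL, l ≠ [.inl 1, .inl 2, .inr 0, .inr 1, .inr 2] →
    l.length = 4 ∧ l.Nodup ∧ ∀ f ∈ l, ∃ m ∈ RL, ∀ x ∈ l, (x ∈ m ↔ x ≠ f) := by
  decide +kernel

theorem R_sx0 : IsSx 4 (fam RL) (im (Sum.inl : Fin 4 → Fin 4 ⊕ Fin 3)) := by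
  have h : im (Sum.inl : Fin 4 → Fin 4 ⊕ Fin 3) =
      ([.inl 0, .inl 1, .inl 2, .inl 3] : List (Fin 4 ⊕ Fin 3)).toFinset := by
    unfold im
    decide +kernel
  rw [h]
  have hm : ([.inl 0, .inl 1, .inl 2, .inl 3] : List (Fin 4 ⊕ Fin 3)) ∈ RL := by decide +kernel
  obtain ⟨h1, h2, h3⟩ := R_sx _ hm (by decide +kernel)
  exact fam_sx hm h1 h2 h3

theorem R_deg (x : Fin 4 ⊕ Fin 3) : 4 ≤ deg (fam RL) x := by
  rw [deg_fam R_listN R_listA]
  have : ∀ x : Fin 4 ⊕ Fin 3, 4 ≤ (RL.filter fun l => x ∈ l).length := by decide +kernel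
  exact this x

private theorem R_five : ([.inl 1, .inl 2, .inr 0, .inr 1, .inr 2] : List (Fin 4 ⊕ Fin 3)).toFinset
    ∈ fam RL :=
  mem_fam.2 ⟨_, by decide +kernel, rfl⟩

theorem R_ns (x : Fin 4 ⊕ Fin 3) : ¬ SS 4 (fam RL) x := by
  rintro ⟨h1, h2⟩
  rw [deg_fam R_listN R_listA] at h1
  have h3 : ∀ x : Fin 4 ⊕ Fin 3, (RL.filter fun l => x ∈ l).length = 4 →
      x ∈ ([.inl 1, .inl 2, .inr 0, .inr 1, .inr 2] : List (Fin 4 ⊕ Fin 3)) := by decide +kernel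
  have h4 := h2 _ R_five (List.mem_toFinset.2 (h3 x h1))
  revert h4
  decide +kernel

theorem R_card : (fam RL).card = 10 := by
  rw [card_fam R_listN R_listA, R_listL]

theorem R_inv (g : ℤˣ × ℤˣ) (A : Finset (Fin 4 ⊕ Fin 3)) (hA : A ∈ fam RL) :
    A.image (Sum.map (sigT g) (tauT g)) ∈ fam RL := by
  have hk : ∀ p ∈ ([(1, 1), (Equiv.swap 1 2, 1), (Equiv.swap 0 3, Equiv.swap 1 2),
      (Equiv.swap 1 2 * Equiv.swap 0 3, Equiv.swap 1 2)] : List (Equiv.Perm (Fin 4) × Equiv.Perm (Fin 3))),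
      ∀ l ∈ RL, ∃ m ∈ RL, (∀ x ∈ l, Sum.map p.1 p.2 x ∈ m) ∧
        ∀ y ∈ m, ∃ x ∈ l, Sum.map p.1 p.2 x = y := by
    decide +kernel
  have h3 : (sigT g, tauT g) ∈ ([(1, 1), (Equiv.swap 1 2, 1), (Equiv.swap 0 3, Equiv.swap 1 2),
      (Equiv.swap 1 2 * Equiv.swap 0 3, Equiv.swap 1 2)] : List (Equiv.Perm (Fin 4) × Equiv.Perm (Fin 3))) := by
    obtain ⟨a, b⟩ := g
    rcases Int.units_eq_one_or a with rfl | rfl
    · rcases Int.units_eq_one_or b with rfl | rfl <;> simp [sigT, tauT, hom2, hom1]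
    · rcases Int.units_eq_one_or b with rfl | rfl <;> simp [sigT, tauT, hom2, hom1]
  exact fam_inv _ (hk _ h3) A hA

private def RT : List (List (Fin 4 ⊕ Fin 3)) :=
  [[.inl 1, .inl 2, .inr 1], [.inl 1, .inl 2, .inr 2], [.inl 1, .inr 0, .inr 1],
   [.inl 2, .inr 0, .inr 1], [.inl 1, .inr 0, .inr 2], [.inl 2, .inr 0, .inr 2]]

private theorem RT_cl : ∀ l ∈ RT, ∀ v : Fin 4 ⊕ Fin 3,
    (∀ m ∈ RL, (∀ x ∈ l, x ∈ m) → v ∈ m) → v ∈ l := by
  decide +kernel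

private theorem RT_flat : ∀ l ∈ RT, ∀ f ∈ l, ∃ m ∈ RL, ∀ x, (x ∈ l ∧ x ∈ m ↔ x ≠ f ∧ x ∈ l) := by
  decide +kernel

private theorem RT_anti : ∀ l ∈ RT, ∀ m ∈ RT, (∀ x ∈ l, x ∈ m) → l = m := by
  decide +kernel

private theorem RT_max : ∀ m ∈ RL,
    (∀ x ∈ ([.inl 1, .inl 2, .inr 0, .inr 1, .inr 2] : List (Fin 4 ⊕ Fin 3)), x ∈ m) ∨
    ∃ l ∈ RT, ∀ x ∈ ([.inl 1, .inl 2, .inr 0, .inr 1, .inr 2] : List (Fin 4 ⊕ Fin 3)),
      x ∈ m → x ∈ l := by
  decide +kernel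

private theorem RT_sub : ∀ l ∈ RT,
    (∀ x ∈ l, x ∈ ([.inl 1, .inl 2, .inr 0, .inr 1, .inr 2] : List (Fin 4 ⊕ Fin 3))) ∧
    ¬ ∀ x ∈ ([.inl 1, .inl 2, .inr 0, .inr 1, .inr 2] : List (Fin 4 ⊕ Fin 3)), x ∈ l := by
  decide +kernel

private theorem RT_len : ∀ l ∈ RT, l.length = 3 ∧ l.Nodup := by
  decide +kernel

private theorem RT_isCl {T : Finset (Fin 4 ⊕ Fin 3)} (hT : T ∈ fam RT) : IsCl (fam RL) T := by
  obtain ⟨l, hl, rfl⟩ := mem_fam.1 hT
  intro v hv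
  rw [List.mem_toFinset]
  refine RT_cl l hl v fun m hm h => ?_
  have := hv m.toFinset (mem_fam.2 ⟨m, hm, rfl⟩) (by
    intro x hx
    exact List.mem_toFinset.2 (h x (List.mem_toFinset.1 hx)))
  exact List.mem_toFinset.1 this

private theorem RT_fl {T : Finset (Fin 4 ⊕ Fin 3)} (hT : T ∈ fam RT) :
    fl (Low (fam RL) T) = 6 := by
  rw [low_flat T (RT_isCl hT)]
  · obtain ⟨l, hl, rfl⟩ := mem_fam.1 hT
    obtain ⟨h1, h2⟩ := RT_len l hl
    rw [List.toFinset_card_of_nodup h2, h1]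
    rfl
  · obtain ⟨l, hl, rfl⟩ := mem_fam.1 hT
    intro f hf
    obtain ⟨m, hm, h⟩ := RT_flat l hl f (List.mem_toFinset.1 hf)
    refine ⟨m.toFinset, mem_fam.2 ⟨m, hm, rfl⟩, ?_⟩
    ext x
    rw [Finset.mem_inter, Finset.mem_erase, List.mem_toFinset, List.mem_toFinset]
    exact h x

private theorem R_low : fl (Low (fam RL)
    ([.inl 1, .inl 2, .inr 0, .inr 1, .inr 2] : List (Fin 4 ⊕ Fin 3)).toFinset) = 36 := by
  rw [low_sum _ (isCl_facet R_five) (fam RT)]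
  · rw [Finset.sum_congr rfl fun T hT => RT_fl hT, Finset.sum_const,
      card_fam (by decide +kernel) RT_anti]
    rfl
  · exact ⟨_, mem_fam.2 ⟨[.inl 1, .inl 2, .inr 1], by decide +kernel, rfl⟩⟩
  · intro T hT
    refine ⟨RT_isCl hT, ?_⟩
    obtain ⟨l, hl, rfl⟩ := mem_fam.1 hT
    obtain ⟨h1, h2⟩ := RT_sub l hl
    refine ⟨fun x hx => List.mem_toFinset.2 (h1 x (List.mem_toFinset.1 hx)), fun h => h2 ?_⟩
    intro x hx
    exact List.mem_toFinset.1 (h (List.mem_toFinset.2 hx))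
  · intro A hA hAB
    by_contra hno
    have h1 : ([.inl 1, .inl 2, .inr 0, .inr 1, .inr 2] : List (Fin 4 ⊕ Fin 3)).toFinset ⊆ A := by
      intro v hv
      refine hA v fun F hF hAF => ?_
      obtain ⟨m, hm, rfl⟩ := mem_fam.1 hF
      rcases RT_max m hm with h | ⟨l, hl, h⟩
      · exact List.mem_toFinset.2 (h v (List.mem_toFinset.1 hv))
      · exfalso
        refine hno ⟨l.toFinset, mem_fam.2 ⟨l, hl, rfl⟩, fun x hx => ?_⟩
        exact List.mem_toFinset.2 (h x (List.mem_toFinset.1 (hAB.1 hx))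
          (List.mem_toFinset.1 (hAF hx)))
    exact hAB.2 h1
  · intro T hT T' hT' h
    exact fam_anti RT_anti T hT T' hT' h

theorem R_fl : fl (CLat (fam RL)) = 252 := by
  rw [fl_facets (D := 4) (by norm_num) R_cplx, ← Finset.add_sum_erase _ _ R_five, R_low]
  have h : ∀ F ∈ (fam RL).erase
      ([.inl 1, .inl 2, .inr 0, .inr 1, .inr 2] : List (Fin 4 ⊕ Fin 3)).toFinset,
      fl (Low (fam RL) F) = 24 := by
    intro F hF
    obtain ⟨hne, hF⟩ := Finset.mem_erase.1 hF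
    obtain ⟨l, hl, rfl⟩ := mem_fam.1 hF
    obtain ⟨h1, h2, h3⟩ := R_sx l hl (fun he => hne (by rw [he]))
    exact low_sx (fam_sx hl h1 h2 h3)
  rw [Finset.sum_congr rfl h, Finset.sum_const, Finset.card_erase_of_mem R_five, R_card]
  rfl

end H47.KO
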