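import Pool.Agent.H47.KO.PreOps
import Pool.Agent.H47.KO.P1Good
import Pool.Agent.H47.KO.RGad
import Pool.Agent.H47.KO.BGad

/-! # KO.Base : the four base polytopes in dimension 4 (glue) -/

namespace H47.KO

open Finset

variable {V G : Type} [Fintype V] [DecidableEq V] [Group G] [Fintype G]
  {𝓕 : Finset (Finset V)} {act : G →* Equiv.Perm V} {r : G} {κ : Fin 11 → V} {W₀ : Finset V}
  {e0 : Fin 4 → V}
variable {ι W : Type} [Fintype ι] [DecidableEq ι] [Fintype W] [DecidableEq W]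
  {𝓖 : Finset (Finset (Fin 4 ⊕ W))} {e : ι → Fin 4 → V}

theorem base_step (hg : Good 4 𝓕 act r κ W₀) (hf : FreeF 4 𝓕 act κ W₀ e0)
    (hs : ∀ v, ¬ SS 4 𝓕 v) (cG : Cplx 4 𝓖)
    (sx0 : IsSx 4 𝓖 (im (Sum.inl : Fin 4 → Fin 4 ⊕ W))) (hdeg : ∀ x, 4 ≤ deg 𝓖 x)
    (hns : ∀ x, ¬ SS 4 𝓖 x) (hcard : 2 ≤ 𝓖.card) (inj : ∀ i, Function.Injective (e i))
    (sx : ∀ i, IsSx 4 𝓕 (im (e i))) (dist : ∀ i j, im (e i) = im (e j) → i = j)
    (hcore : ∀ i, ∀ C ∈ coreF, im (e i) ≠ C.image κ ∪ W₀) (hne : ∀ i, im (e i) ≠ im e0)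
    (aι : G →* Equiv.Perm ι) (τ : G →* Equiv.Perm W) (heq : EqGlue act 𝓖 e aι τ) :
    Good 4 (glue 𝓕 𝓖 e) (actSum act (actProd aι τ)) r (fun i => Sum.inl (κ i))
        (W₀.image Sum.inl) ∧
      FreeF 4 (glue 𝓕 𝓖 e) (actSum act (actProd aι τ)) (fun i => Sum.inl (κ i))
        (W₀.image Sum.inl) (fun j => Sum.inl (e0 j)) ∧
      (∀ v, ¬ SS 4 (glue 𝓕 𝓖 e) v) ∧
      fl (CLat (glue 𝓕 𝓖 e)) + Fintype.card ι * 48 =
        fl (CLat 𝓕) + Fintype.card ι * fl (CLat 𝓖) := by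
  have hok : GlueOK 4 𝓕 𝓖 e := ⟨by norm_num, hg.cx, cG, sx, inj, dist, sx0⟩
  refine ⟨good_glue hg hok hdeg hcard hcore aι τ heq, freeF_glue_inl hok aι τ hf hne, ?_,
    fl_glue' hok⟩
  rintro (v | ⟨g, w⟩)
  · rw [ss_glue_inl hok (by norm_num) hdeg]
    exact fun h => hs v h.1
  · rw [ss_glue_inr hok]
    exact hns _

theorem eqT : EqGlue actP (fam RL) eT (1 : ℤˣ × ℤˣ →* Equiv.Perm Unit) tauT :=
  fun g u => ⟨sigT g, fun j => P1_actT g j, fun A hA => R_inv g A hA⟩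

theorem eqO : EqGlue actP (fam BL) eO aO (1 : ℤˣ × ℤˣ →* Equiv.Perm (Fin 2)) :=
  fun g b => ⟨sigO g, fun j => P1_actO g b j, fun A hA => B_inv g A hA⟩

theorem pre_198 : Pre 4 198 :=
  ⟨Fin 11, ℤˣ × ℤˣ, inferInstance, inferInstance, inferInstance, inferInstance, inferInstance,
    P1F, actP, (-1, 1), id, ∅, eFr, P1_good, P1_free, P1_ns, by rw [P1_fl]; norm_num⟩

theorem pre_249 : Pre 4 249 := by
  obtain ⟨h1, h2, h3, h4⟩ := base_step P1_good P1_free P1_ns R_cplx R_sx0 R_deg R_ns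
    (by rw [R_card]; norm_num) (fun u => (P1_T u).1) (fun u => P1_sx _ (P1_T u).2.1)
    (fun _ _ _ => rfl) (fun u => (P1_T u).2.2.1) (fun u => (P1_T u).2.2.2.1)
    (1 : ℤˣ × ℤˣ →* Equiv.Perm Unit) tauT eqT
  refine ⟨_, ℤˣ × ℤˣ, inferInstance, inferInstance, inferInstance, inferInstance, inferInstance,
    _, _, _, _, _, _, h1, h2, h3, ?_⟩
  rw [P1_fl, R_fl, Fintype.card_unit] at h4
  norm_num
  omega

theorem pre_264 : Pre 4 264 := by
  obtain ⟨h1, h2, h3, h4⟩ := base_step P1_good P1_free P1_ns B_cplx B_sx0 B_deg B_ns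
    (by rw [B_card]; norm_num) (fun b => (P1_O b).1) (fun b => P1_sx _ (P1_O b).2.1)
    P1_O_dist (fun b => (P1_O b).2.2.1) (fun b => (P1_O b).2.2.2)
    aO (1 : ℤˣ × ℤˣ →* Equiv.Perm (Fin 2)) eqO
  refine ⟨_, ℤˣ × ℤˣ, inferInstance, inferInstance, inferInstance, inferInstance, inferInstance,
    _, _, _, _, _, _, h1, h2, h3, ?_⟩
  rw [P1_fl, B_fl, Fintype.card_bool] at h4
  norm_num
  omega

omit [Fintype V] [Fintype ι] [Fintype W] in
theorem im_inl (f : Fin 4 → V) :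
    im (fun j => (Sum.inl (f j) : V ⊕ (ι × W))) = (im f).image Sum.inl := by
  unfold im
  rw [Finset.image_image]
  rfl

theorem pre_315 : Pre 4 315 := by
  obtain ⟨h1, h2, h3, h4⟩ := base_step P1_good P1_free P1_ns R_cplx R_sx0 R_deg R_ns
    (by rw [R_card]; norm_num) (fun u => (P1_T u).1) (fun u => P1_sx _ (P1_T u).2.1)
    (fun _ _ _ => rfl) (fun u => (P1_T u).2.2.1) (fun u => (P1_T u).2.2.2.1)
    (1 : ℤˣ × ℤˣ →* Equiv.Perm Unit) tauT eqT
  have hok : GlueOK 4 P1F (fam RL) eT := ⟨by norm_num, P1_cplx, R_cplx,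
    fun u => P1_sx _ (P1_T u).2.1, fun u => (P1_T u).1, fun _ _ _ => rfl, R_sx0⟩
  have hinj : Function.Injective (Finset.image (Sum.inl : Fin 11 → Fin 11 ⊕ (Unit × Fin 3))) :=
    Finset.image_injective Sum.inl_injective
  have hstep := base_step h1 h2 h3 B_cplx B_sx0 B_deg B_ns (by rw [B_card]; norm_num)
    (e := fun (b : Bool) (j : Fin 4) => (Sum.inl (eO b j) : Fin 11 ⊕ (Unit × Fin 3)))
    (fun b x y hxy => (P1_O b).1 (Sum.inl_injective hxy))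
    (fun b => by
      rw [im_inl]
      exact isSx_glue_inl hok (P1_sx _ (P1_O b).2.1) (fun u => (P1_T u).2.2.2.2 b))
    (fun b c hbc => by
      rw [im_inl, im_inl] at hbc
      exact P1_O_dist b c (hinj hbc))
    (fun b C hC hcon => by
      rw [im_inl] at hcon
      refine (P1_O b).2.2.1 C hC (hinj (hcon.trans ?_))
      rw [Finset.image_union, Finset.image_image]
      rfl)
    (fun b hcon => by
      rw [im_inl, im_inl] at hcon
      exact (P1_O b).2.2.2 (hinj hcon))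
    aO (1 : ℤˣ × ℤˣ →* Equiv.Perm (Fin 2))
    (fun g b => ⟨sigO g, fun j => by
      rw [actSum_inl, P1_actO], fun A hA => B_inv g A hA⟩)
  obtain ⟨k1, k2, k3, k4⟩ := hstep
  refine ⟨_, ℤˣ × ℤˣ, inferInstance, inferInstance, inferInstance, inferInstance, inferInstance,
    _, _, _, _, _, _, k1, k2, k3, ?_⟩
  rw [P1_fl, R_fl, Fintype.card_unit] at h4
  rw [B_fl, Fintype.card_bool] at k4
  norm_num
  omega

end H47.KO
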