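import Pool.Agent.H47.KO.Acts

/-! # KO.BaseDefs : the data of the base polytopes (definitions, no sorry) -/

namespace H47.KO

open Finset

/-- the family given by a list of lists -/
def fam {α : Type} [DecidableEq α] (L : List (List α)) : Finset (Finset α) :=
  (L.map List.toFinset).toFinset

/-- the 33 facets of `P1` -/
def P1list : List (List (Fin 11)) :=
  [[0, 1, 2, 3], [1, 2, 3, 4], [0, 2, 3, 5], [0, 1, 2, 6], [0, 1, 3, 6], [1, 2, 4, 6], [0, 2, 5,
   6], [2, 3, 4, 7], [2, 3, 5, 7], [3, 4, 5, 7], [1, 3, 4, 8], [0, 3, 5, 8], [3, 4, 5, 8], [0,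
   3, 6, 8], [1, 3, 6, 8], [4, 5, 7, 8], [1, 4, 6, 9], [2, 4, 6, 9], [2, 4, 7, 9], [1, 4, 8, 9],
   [1, 6, 8, 9], [4, 7, 8, 9], [6, 7, 8, 9], [0, 5, 6, 10], [2, 5, 6, 10], [2, 5, 7, 10], [0, 5,
   8, 10], [0, 6, 8, 10], [5, 7, 8, 10], [6, 7, 8, 10], [2, 6, 9, 10], [2, 7, 9, 10], [6, 7, 9,
   10]]

/-- integer normal vectors of the facets of `P1` -/
def P1nor : List (List ℤ) :=
  [[0, 0, 0, 1, 3], [3, 0, 0, 16, 18], [0, 22, 0, 17, 7], [0, 0, 1, 0, 12], [0, 0, 0, 0, 1],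
   [17, 0, 16, 0, 22], [0, 98, 17, 0, 8], [72, 65, 0, 319, 107], [18, 32, 0, 91, 29], [18, 5, 0,
   37, 2], [3, 0, 0, 4, 0], [0, 5, 0, 1, 0], [32, 7, 0, 59, 0], [0, 1, 0, 0, 0], [1, 0, 0, 0,
   0], [122, 27, 2, 221, 0], [3, 0, 2, 0, 1], [213, 14, 198, 0, 218], [2588, 511, 2266, 451,
   1643], [61, 0, 34, 2, 0], [11, 0, 6, 0, 0], [538, 11, 306, 29, 0], [2, 5, 2, 0, 0], [0, 21,
   3, 0, 1], [7, 105, 24, 0, 8], [82, 660, 178, 19, 53], [0, 15, 1, 1, 0], [0, 11, 1, 0, 0],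
   [14, 39, 11, 11, 0], [10, 31, 11, 0, 0], [53, 415, 116, 0, 32], [378, 2942, 824, 1, 227], [2,
   14, 4, 0, 1]]

/-- integer coordinates of the vertices of `P1` -/
def P1ver : List (List ℤ) :=
  [[1, 0, 0, 0, 0], [0, 1, 0, 0, 0], [10, 2, -12, -3, 1], [0, 0, 1, 0, 0], [4, 7, -7, -3, 2],
   [9, 1, -10, -5, 9], [0, 0, 0, 1, 0], [7, 2, -12, -4, 6], [0, 0, 0, 0, 1], [6, 2, -11, 4, 4],
   [9, 1, -11, -4, 12]]

/-- the facets of `P1` -/
def P1F : Finset (Finset (Fin 11)) := fam P1list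

/-- the involution (0 10)(1 9)(3 7) -/
def rho3 : Fin 11 → Fin 11 := ![10, 9, 2, 7, 4, 5, 6, 3, 8, 1, 0]

/-- the homomorphism from the group of order two given by an involution -/
def hom1 {H : Type} [Group H] (a : H) (ha : a * a = 1) : ℤˣ →* H where
  toFun x := if x = 1 then 1 else a
  map_one' := by simp
  map_mul' x y := by
    rcases Int.units_eq_one_or x with rfl | rfl <;>
      rcases Int.units_eq_one_or y with rfl | rfl <;> simp [ha]

/-- the homomorphism given by two commuting involutions -/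
def hom2 {H : Type} [Group H] (a b : H) (ha : a * a = 1) (hb : b * b = 1) (hab : Commute a b) :
    ℤˣ × ℤˣ →* H :=
  MonoidHom.noncommCoprod (hom1 a ha) (hom1 b hb) (fun x y => by
    rcases Int.units_eq_one_or x with rfl | rfl
    · simp
    · rcases Int.units_eq_one_or y with rfl | rfl
      · simp
      · simpa [hom1] using hab)

/-- the two involutions as permutations -/
def p0 : Equiv.Perm (Fin 11) := Function.Involutive.toPerm rho0 (by unfold Function.Involutive; decide)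

def p3 : Equiv.Perm (Fin 11) := Function.Involutive.toPerm rho3 (by unfold Function.Involutive; decide)

/-- the action of the group of order four on `P1` -/
def actP : ℤˣ × ℤˣ →* Equiv.Perm (Fin 11) :=
  hom2 p0 p3 (Equiv.ext (by decide)) (Equiv.ext (by decide)) (Equiv.ext (by decide))

/-- the free facet 1246 -/
def eFr : Fin 4 → Fin 11 := ![1, 2, 4, 6]

/-- the fixed facet 3457 -/
def eT : Unit → Fin 4 → Fin 11 := fun _ => ![3, 4, 5, 7]

/-- the orbit of the facet 0123 -/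
def eO : Bool → Fin 4 → Fin 11 := fun b => bif b then ![7, 2, 10, 9] else ![3, 2, 0, 1]

/-- the facets of the gadget `R` with 7 vertices (`inl 0, 1, 2, 3` are the vertices 3, 4, 5, 7 of the paper,
`inr 0, 1, 2` are `v, s, t`) -/
def RL : List (List (Fin 4 ⊕ Fin 3)) :=
  [[.inl 0, .inl 1, .inl 2, .inl 3], [.inl 1, .inl 2, .inr 0, .inr 1, .inr 2],
   [.inl 0, .inl 3, .inl 1, .inr 0], [.inl 0, .inl 3, .inl 2, .inr 0],
   [.inl 0, .inl 1, .inl 2, .inr 1], [.inl 3, .inl 1, .inl 2, .inr 2],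
   [.inl 0, .inl 1, .inr 0, .inr 1], [.inl 0, .inl 2, .inr 0, .inr 1],
   [.inl 3, .inl 1, .inr 0, .inr 2], [.inl 3, .inl 2, .inr 0, .inr 2]]

/-- the facets of the pyramid over a triangular bipyramid (`inl 0` apex, `inl 1`, `inr 1` poles,
`inl 2, inl 3, inr 0` equator) -/
def BL : List (List (Fin 4 ⊕ Fin 2)) :=
  [[.inl 0, .inl 1, .inl 2, .inl 3], [.inl 1, .inl 2, .inl 3, .inr 0, .inr 1],
   [.inl 0, .inl 1, .inl 3, .inr 0], [.inl 0, .inl 1, .inl 2, .inr 0],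
   [.inl 0, .inr 1, .inl 2, .inl 3], [.inl 0, .inr 1, .inl 3, .inr 0],
   [.inl 0, .inr 1, .inl 2, .inr 0]]

/-- the permutations used for the gadgets -/
def tauT : ℤˣ × ℤˣ →* Equiv.Perm (Fin 3) :=
  hom2 1 (Equiv.swap 1 2) (mul_one 1) (Equiv.swap_mul_self 1 2) (Commute.one_left _)

def sigT : ℤˣ × ℤˣ →* Equiv.Perm (Fin 4) :=
  hom2 (Equiv.swap 1 2) (Equiv.swap 0 3) (Equiv.swap_mul_self 1 2) (Equiv.swap_mul_self 0 3)
    (Equiv.ext (by decide))

def aO : ℤˣ × ℤˣ →* Equiv.Perm Bool :=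
  hom2 1 (Equiv.swap false true) (mul_one 1) (Equiv.swap_mul_self false true)
    (Commute.one_left _)

def sigO : ℤˣ × ℤˣ →* Equiv.Perm (Fin 4) :=
  hom2 (Equiv.swap 2 3) 1 (Equiv.swap_mul_self 2 3) (mul_one 1) (Commute.one_right _)

end H47.KO
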