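import Pool.Agent.H47.KO.Faces
import Pool.Agent.H63.KO.FamLat

/-! # KO.Lat : the lattice of closed sets is a `PolyLat`; ranks

`exists_lat`: `H63.KO.famLat` for the family `s` (`pos_fun`, `rkF s univ = finrank (span (s '' univ)) = D + 1` by `span_top`) and `PolyLat.comap` along `face_iso`.
`grd_cl`: `rk` of the `PolyLat`; if `x ⋖ y` then `P.step` gives `z`, `x < z ≤ y`, `rk z = rk x + 1`, and `z = y`. `grd_low`: restrict `rk` to the closed sets inside `F`; top `F` has rank `D` because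
`F ⋖ univ` in `CLat` (`anti`: a closed set strictly above `F`, different from `univ`, lies in a facet which contains `F` strictly). A cover in `Low 𝓕 F` is a cover in `CLat 𝓕`
(an element between two closed subsets of `F` is a subset of `F`). -/

namespace H47.KO

open Finset

variable {V : Type} [Fintype V] {D : ℕ} {𝓕 : Finset (Finset V)}

theorem exists_lat (h : Cplx D 𝓕) (hD : 1 ≤ D) : ∃ P : H63.KO.PolyLat (CLat 𝓕), P.d = D := by
  obtain ⟨E, i1, i2, s, a, hs⟩ := h.real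
  have hfd : FiniteDimensional ℝ E := hs.fin
  have hr : H63.KO.rkF s Set.univ = D + 1 := by
    unfold H63.KO.rkF
    rw [Set.image_univ, span_top hs h hD, finrank_top, hs.rank]
  obtain ⟨P, hP⟩ := H63.KO.famLat s (pos_fun hs h) D hr
  obtain ⟨e, _⟩ := face_iso hs
  obtain ⟨Q, hQ⟩ := H63.KO.PolyLat.comap e P
  exact ⟨Q, hQ.trans hP⟩

theorem rk_covBy {L : Type} [PartialOrder L] (P : H63.KO.PolyLat L) {x y : L} (hxy : x ⋖ y) :
    P.rk y = P.rk x + 1 := by
  obtain ⟨z, h1, h2, h3⟩ := P.step x y hxy.1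
  rcases h2.lt_or_eq with h4 | h4
  · exact absurd h4 (hxy.2 h1)
  · rw [← h4, h3]

theorem grd_cl (h : Cplx D 𝓕) (hD : 1 ≤ D) : Grd (D + 1) (CLat 𝓕) := by
  obtain ⟨P, hP⟩ := exists_lat h hD
  exact ⟨P.rk, P.bot, P.top, P.bot_le, P.le_top, P.rk_bot, by rw [P.rk_top, hP],
    fun x y hxy => rk_covBy P hxy⟩

theorem grd_low (h : Cplx D 𝓕) (hD : 1 ≤ D) {F : Finset V} (hF : F ∈ 𝓕) : Grd D (Low 𝓕 F) := by
  classical
  obtain ⟨P, hP⟩ := exists_lat h hD
  have hnt := nontrivial_of_cplx hD h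
  have hFc : IsCl 𝓕 F := isCl_facet hF
  have hne : F ≠ univ := fun h1 => univ_nmem h (h1 ▸ hF)
  have htop : P.top = ⟨univ, isCl_univ 𝓕⟩ :=
    le_antisymm (Finset.subset_univ _) (P.le_top ⟨univ, isCl_univ 𝓕⟩)
  have hcov : (⟨F, hFc⟩ : CLat 𝓕) ⋖ P.top := by
    rw [htop]
    refine ⟨lt_of_le_of_ne (Finset.subset_univ F) fun h1 => hne (congrArg Subtype.val h1), ?_⟩
    intro B h1 h2
    have h3 : B.1 ≠ univ := fun h4 => h2.ne (Subtype.ext h4)
    obtain ⟨F', hF', h4⟩ := isCl_le_facet B.2 h3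
    have h5 : F ⊆ F' := Finset.Subset.trans h1.le h4
    have h6 := h.anti F hF F' hF' h5
    rw [← h6] at h4
    exact absurd (show B ≤ ⟨F, hFc⟩ from h4) (not_le_of_gt h1)
  refine ⟨fun x => P.rk ⟨x.1, x.2.1⟩, ⟨P.bot.1, P.bot.2, P.bot_le ⟨F, hFc⟩⟩,
    ⟨F, hFc, Finset.Subset.refl F⟩, fun x => P.bot_le ⟨x.1, x.2.1⟩, fun x => x.2.2, P.rk_bot,
    ?_, ?_⟩
  · have h1 := rk_covBy P hcov
    rw [P.rk_top, hP] at h1
    show P.rk ⟨F, hFc⟩ = D
    omega
  · intro x y hxy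
    refine rk_covBy P ⟨?_, ?_⟩
    · exact hxy.1
    · intro z h1 h2
      have h3 : z.1 ⊆ F := Finset.Subset.trans h2.le y.2.2
      exact hxy.2 (show x < ⟨z.1, z.2, h3⟩ from h1) h2

end H47.KO
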