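import Pool.Agent.H47.KO.FlFac
import Pool.Agent.H47.KO.Lat

/-! # KO.BipCl : closed sets and flags of a bipyramid

Facets of `bip 𝓕`: `F.disjSum {b}`, `F ∈ 𝓕`, `b : Bool`. Closed sets: `univ`, and `A.disjSum X` with `A` closed, `A ≠ univ`, `X ≠ univ` (that is `X = ∅`, `{true}`, `{false}`):
`A.disjSum ∅` is contained in `F.disjSum {true}` and `F.disjSum {false}` for all facets `F ⊇ A` (there is one, `isCl_le_facet`), so `inr b` is excluded; `A.disjSum {b}` is contained in `F.disjSum {b}`. If `X = univ`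
no facet contains the set, so only `univ` is closed. If `A = univ` no facet contains `A` (`univ_nmem`), same.
`fl_bip`: `fl_facets` for `bip 𝓕`: `∑ (F,b) fl (Low (bip 𝓕) (F.disjSum {b}))`, and `Low (bip 𝓕) (F.disjSum {b}) ≃o Low 𝓕 F × Bool` (`A.disjSum X ↦ (A, X = {b})`), `fl_prod` with `grd_low`: `(D + 1) * fl (Low 𝓕 F)`.
The hypothesis `Cplx (D+1) (bip 𝓕)` is proved in `BipCx` and assumed here. -/

namespace H47.KO

open Finset

variable {V : Type} [Fintype V] [DecidableEq V] {D : ℕ} {𝓕 : Finset (Finset V)}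

theorem mem_bip {B : Finset (V ⊕ Bool)} :
    B ∈ bip 𝓕 ↔ ∃ F ∈ 𝓕, ∃ b : Bool, B = F.disjSum {b} := by
  unfold bip
  constructor
  · intro h
    obtain ⟨p, hp, rfl⟩ := mem_image.1 h
    exact ⟨p.1, (mem_product.1 hp).1, p.2, rfl⟩
  · rintro ⟨F, hF, b, rfl⟩
    exact mem_image.2 ⟨(F, b), mem_product.2 ⟨hF, mem_univ b⟩, rfl⟩

private theorem BipCl_sub {A F : Finset V} {X : Finset Bool} {b : Bool} :
    A.disjSum X ⊆ F.disjSum {b} ↔ A ⊆ F ∧ ∀ c ∈ X, c = b := by
  constructor
  · intro h
    refine ⟨fun v hv => ?_, fun c hc => ?_⟩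
    · exact inl_mem_disjSum.1 (h (inl_mem_disjSum.2 hv))
    · exact mem_singleton.1 (inr_mem_disjSum.1 (h (inr_mem_disjSum.2 hc)))
  · rintro ⟨h1, h2⟩ x hx
    rcases x with v | c
    · exact inl_mem_disjSum.2 (h1 (inl_mem_disjSum.1 hx))
    · exact inr_mem_disjSum.2 (mem_singleton.2 (h2 c (inr_mem_disjSum.1 hx)))

private theorem BipCl_ex {X : Finset Bool} {c : Bool} (hc : c ∉ X) : ∀ d ∈ X, d = !c := by
  intro d hd
  cases d <;> cases c <;> simp_all

theorem isCl_bip (hD : 1 ≤ D) (h : Cplx D 𝓕) (A : Finset V) (X : Finset Bool) :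
    IsCl (bip 𝓕) (A.disjSum X) ↔ (A = univ ∧ X = univ) ∨ (IsCl 𝓕 A ∧ A ≠ univ ∧ X ≠ univ) := by
  have hnt : Nontrivial V := nontrivial_of_cplx hD h
  have hun : univ ∉ 𝓕 := univ_nmem h
  have hall : (∀ F ∈ 𝓕, ∀ b : Bool, ¬ A.disjSum X ⊆ F.disjSum {b}) →
      IsCl (bip 𝓕) (A.disjSum X) → A = univ ∧ X = univ := by
    intro h1 h2
    have h3 : ∀ v, v ∈ A.disjSum X := by
      intro v
      apply h2 v
      intro B hB hs
      obtain ⟨F, hF, b, rfl⟩ := mem_bip.1 hB
      exact absurd hs (h1 F hF b)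
    exact ⟨eq_univ_iff_forall.2 fun v => inl_mem_disjSum.1 (h3 (Sum.inl v)),
      eq_univ_iff_forall.2 fun c => inr_mem_disjSum.1 (h3 (Sum.inr c))⟩
  constructor
  · intro hcl
    by_cases hA : A = univ
    · left
      apply hall _ hcl
      intro F hF b hs
      have h1 := (BipCl_sub.1 hs).1
      rw [hA] at h1
      exact hun (univ_subset_iff.1 h1 ▸ hF)
    by_cases hX : X = univ
    · left
      apply hall _ hcl
      intro F hF b hs
      have h1 := (BipCl_sub.1 hs).2 (!b) (by rw [hX]; exact mem_univ _)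
      cases b <;> simp at h1
    · right
      refine ⟨?_, hA, hX⟩
      intro v hv
      have h1 : Sum.inl v ∈ A.disjSum X := by
        apply hcl (Sum.inl v)
        intro B hB hs
        obtain ⟨F, hF, b, rfl⟩ := mem_bip.1 hB
        exact inl_mem_disjSum.2 (hv F hF (BipCl_sub.1 hs).1)
      exact inl_mem_disjSum.1 h1
  · rintro (⟨rfl, rfl⟩ | ⟨hcl, hA, hX⟩)
    · intro v _
      rcases v with v | c
      · exact inl_mem_disjSum.2 (mem_univ v)
      · exact inr_mem_disjSum.2 (mem_univ c)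
    · intro v hv
      rcases v with v | c
      · apply inl_mem_disjSum.2
        apply hcl v
        intro F hF hAF
        obtain ⟨c, hc⟩ : ∃ c, c ∉ X := by
          by_contra hno
          push Not at hno
          exact hX (eq_univ_iff_forall.2 hno)
        exact inl_mem_disjSum.1 (hv (F.disjSum {!c}) (mem_bip.2 ⟨F, hF, _, rfl⟩)
          (BipCl_sub.2 ⟨hAF, BipCl_ex hc⟩))
      · apply inr_mem_disjSum.2
        by_contra hc
        obtain ⟨F, hF, hAF⟩ := isCl_le_facet hcl hA
        have h1 := inr_mem_disjSum.1 (hv (F.disjSum {!c}) (mem_bip.2 ⟨F, hF, _, rfl⟩)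
          (BipCl_sub.2 ⟨hAF, BipCl_ex hc⟩))
        rw [mem_singleton] at h1
        cases c <;> simp at h1

private theorem BipCl_sgl {b : Bool} : ({b} : Finset Bool) ≠ univ := by
  cases b <;> decide

private theorem BipCl_emp : (∅ : Finset Bool) ≠ univ := by
  decide

private theorem BipCl_ite (b c : Bool) : (if c = true then ({b} : Finset Bool) else ∅) ≠ univ := by
  cases c
  · simpa using BipCl_emp
  · simpa using BipCl_sgl

/-- closed sets inside a facet of the bipyramid -/
private def BipCl_iso (hD : 1 ≤ D) (h : Cplx D 𝓕) {F : Finset V} (hF : F ∈ 𝓕) (b : Bool) :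
    Low (bip 𝓕) (F.disjSum {b}) ≃o Low 𝓕 F × Bool where
  toFun B := (⟨B.1.toLeft, by
      have h1 : B.1.toLeft.disjSum B.1.toRight = B.1 := toLeft_disjSum_toRight
      have h2 := B.2
      rw [← h1] at h2
      have h3 := BipCl_sub.1 h2.2
      rcases (isCl_bip hD h _ _).1 h2.1 with ⟨_, h5⟩ | h4
      · exfalso
        have h6 := h3.2 (!b) (by rw [h5]; exact mem_univ _)
        cases b <;> simp at h6
      · exact ⟨h4.1, h3.1⟩⟩, decide (Sum.inr b ∈ B.1))
  invFun p := ⟨p.1.1.disjSum (if p.2 = true then {b} else ∅), by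
      have hne : p.1.1 ≠ univ := by
        intro h1
        have hnt : Nontrivial V := nontrivial_of_cplx hD h
        have h2 := p.1.2.2
        rw [h1] at h2
        exact univ_nmem h (univ_subset_iff.1 h2 ▸ hF)
      refine ⟨(isCl_bip hD h _ _).2 (Or.inr ⟨p.1.2.1, hne, BipCl_ite b p.2⟩), ?_⟩
      refine BipCl_sub.2 ⟨p.1.2.2, ?_⟩
      intro c hc
      split_ifs at hc
      · exact mem_singleton.1 hc
      · exact absurd hc (notMem_empty c)⟩
  left_inv B := by
    apply Subtype.ext
    have h2 : B.1 ⊆ F.disjSum {b} := B.2.2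
    ext x
    rcases x with v | c
    · show Sum.inl v ∈ disjSum _ _ ↔ _
      rw [inl_mem_disjSum, mem_toLeft]
    · show Sum.inr c ∈ disjSum _ _ ↔ _
      rw [inr_mem_disjSum]
      constructor
      · intro h3
        by_cases h4 : Sum.inr b ∈ B.1
        · rw [if_pos (decide_eq_true h4), mem_singleton] at h3
          rw [h3]
          exact h4
        · rw [if_neg (by simpa using h4)] at h3
          exact absurd h3 (notMem_empty c)
      · intro h3
        have h4 : c = b := mem_singleton.1 (inr_mem_disjSum.1 (h2 h3))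
        subst h4
        rw [if_pos (decide_eq_true h3)]
        exact mem_singleton_self _
  right_inv p := by
    obtain ⟨⟨A, hA⟩, c⟩ := p
    apply Prod.ext
    · apply Subtype.ext
      show (A.disjSum _).toLeft = A
      exact toLeft_disjSum
    · show decide (Sum.inr b ∈ A.disjSum _) = c
      cases c
      · simp
      · simp
  map_rel_iff' := by
    intro B B'
    show (B.1.toLeft ⊆ B'.1.toLeft ∧ decide (Sum.inr b ∈ B.1) ≤ decide (Sum.inr b ∈ B'.1)) ↔
      B.1 ⊆ B'.1
    constructor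
    · rintro ⟨h1, h2⟩ x hx
      rcases x with v | c
      · exact mem_toLeft.1 (h1 (mem_toLeft.2 hx))
      · have h4 : c = b := mem_singleton.1 (inr_mem_disjSum.1 (B.2.2 hx))
        subst h4
        rw [decide_eq_true hx] at h2
        exact of_decide_eq_true (top_le_iff.1 h2)
    · intro h1
      refine ⟨fun v hv => mem_toLeft.2 (h1 (mem_toLeft.1 hv)), ?_⟩
      by_cases h2 : Sum.inr b ∈ B.1
      · rw [decide_eq_true (h1 h2)]
        exact le_top
      · rw [decide_eq_false h2]
        exact bot_le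

theorem fl_bip (hD : 1 ≤ D) (h : Cplx D 𝓕) (h' : Cplx (D + 1) (bip 𝓕)) :
    fl (CLat (bip 𝓕)) = 2 * (D + 1) * fl (CLat 𝓕) := by
  rw [fl_facets (by omega) h', fl_facets hD h]
  have h1 : ∀ F ∈ 𝓕, ∀ b : Bool, fl (Low (bip 𝓕) (F.disjSum {b})) = (D + 1) * fl (Low 𝓕 F) := by
    intro F hF b
    rw [fl_congr (BipCl_iso hD h hF b), fl_prod (grd_low h hD hF)]
  have h2 : ∑ B ∈ bip 𝓕, fl (Low (bip 𝓕) B) =
      ∑ p ∈ 𝓕 ×ˢ (univ : Finset Bool), fl (Low (bip 𝓕) (p.1.disjSum {p.2})) := by
    unfold bip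
    rw [sum_image]
    rintro ⟨F, b⟩ _ ⟨F', b'⟩ _ hp
    have h3 : F.disjSum {b} = F'.disjSum {b'} := hp
    have h4 : F = F' := by
      have h5 := congrArg toLeft h3
      rwa [toLeft_disjSum, toLeft_disjSum] at h5
    have h6 : b = b' := by
      have h5 := congrArg toRight h3
      rw [toRight_disjSum, toRight_disjSum] at h5
      exact singleton_injective h5
    rw [h4, h6]
  rw [h2, sum_product, mul_sum]
  apply sum_congr rfl
  intro F hF
  rw [Fintype.sum_bool, h1 F hF true, h1 F hF false]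
  ring

end H47.KO
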