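import Pool.Agent.H47.KO.BipReal

/-! # KO.BipCx : a bipyramid is a complex; simplex facets, degrees

(`mem_bip'` : facets are `F.disjSum {b}`.) `anti`: `F.disjSum {b} ⊆ F'.disjSum {b'}` gives `F ⊆ F'`, `b = b'`. `out`: `inl v`: `out v`, any `b`; `inr b`: any facet with `!b` (`𝓕` is nonempty by `out`; `V` nonempty).
`sep`: `inl v, inl w`: `sep`, any `b`; `inl v, inr b`: a facet containing `v` (`sep v w` for some `w ≠ v`, `nontrivial_of_cplx`) with `!b`; `inr b, inl v`: `out v` with `b`; `inr b, inr b'`: any `F` with `b`.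
`real`: `real_bip` (`univ_nmem`).
`isSx_bip`: card `D + 1`; erase `inl f`: `G.disjSum {b}`; erase `inr b`: `F.disjSum {!b}`.
`deg (inl v) = 2 * deg v`, `deg (inr b) = card 𝓕`, `card (bip 𝓕) = 2 * card 𝓕` (`(F, b) ↦ F.disjSum {b}` is injective).
`ss_bip`: `2 * deg v ≥ 2 D > D + 1` (`D ≥ 2`); `card 𝓕 ≥ D + 2`. -/

namespace H47.KO

open Finset

variable {V : Type} [Fintype V] [DecidableEq V] {D : ℕ} {𝓕 : Finset (Finset V)}

omit [Fintype V] in
private theorem mem_bipC {B : Finset (V ⊕ Bool)} :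
    B ∈ bip 𝓕 ↔ ∃ F ∈ 𝓕, ∃ b : Bool, B = F.disjSum {b} := by
  unfold bip
  rw [mem_image]
  constructor
  · rintro ⟨⟨F, b⟩, hp, rfl⟩
    exact ⟨F, (mem_product.1 hp).1, b, rfl⟩
  · rintro ⟨F, hF, b, rfl⟩
    exact ⟨(F, b), mem_product.2 ⟨hF, mem_univ _⟩, rfl⟩

omit [Fintype V] [DecidableEq V] in
private theorem bipC_inj :
    Function.Injective (fun p : Finset V × Bool => (p.1.disjSum {p.2} : Finset (V ⊕ Bool))) := by
  rintro ⟨F, b⟩ ⟨F', b'⟩ h
  have h1 : F = F' := by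
    ext v
    have := Finset.ext_iff.1 h (Sum.inl v)
    simpa using this
  have h2 : b = b' := by
    have := Finset.ext_iff.1 h (Sum.inr b)
    simpa using this
  rw [h1, h2]

theorem cplx_bip (hD : 1 ≤ D) (h : Cplx D 𝓕) : Cplx (D + 1) (bip 𝓕) := by
  have hnt := nontrivial_of_cplx hD h
  have hun : (univ : Finset V) ∉ 𝓕 := univ_nmem h
  constructor
  · intro B hB B' hB' hs
    obtain ⟨F, hF, b, rfl⟩ := mem_bipC.1 hB
    obtain ⟨F', hF', b', rfl⟩ := mem_bipC.1 hB'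
    have hFF : F ⊆ F' := by
      intro v hv
      exact Finset.inl_mem_disjSum.1 (hs (Finset.inl_mem_disjSum.2 hv))
    have hbb : b = b' := by
      have := hs (Finset.inr_mem_disjSum.2 (mem_singleton_self b))
      exact mem_singleton.1 (Finset.inr_mem_disjSum.1 this)
    rw [h.anti F hF F' hF' hFF, hbb]
  · rintro (v | b)
    · obtain ⟨F, hF, hv⟩ := h.out v
      exact ⟨F.disjSum {true}, mem_bipC.2 ⟨F, hF, true, rfl⟩, by
        rw [Finset.inl_mem_disjSum]; exact hv⟩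
    · obtain ⟨v, _⟩ := hnt
      obtain ⟨F, hF, hv⟩ := h.out v
      exact ⟨F.disjSum {!b}, mem_bipC.2 ⟨F, hF, !b, rfl⟩, by
        rw [Finset.inr_mem_disjSum]; cases b <;> simp⟩
  · rintro (v | b) (w | b') hne
    · have hvw : v ≠ w := fun hh => hne (by rw [hh])
      obtain ⟨F, hF, hv, hw⟩ := h.sep v w hvw
      exact ⟨F.disjSum {true}, mem_bipC.2 ⟨F, hF, true, rfl⟩, by
        rw [Finset.inl_mem_disjSum]; exact hv, by
        rw [Finset.inl_mem_disjSum]; exact hw⟩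
    · obtain ⟨w, hvw⟩ := exists_ne v
      obtain ⟨F, hF, hv, hw⟩ := h.sep v w hvw.symm
      exact ⟨F.disjSum {!b'}, mem_bipC.2 ⟨F, hF, !b', rfl⟩, by
        rw [Finset.inl_mem_disjSum]; exact hv, by
        rw [Finset.inr_mem_disjSum]; cases b' <;> simp⟩
    · obtain ⟨F, hF, hv⟩ := h.out w
      exact ⟨F.disjSum {b}, mem_bipC.2 ⟨F, hF, b, rfl⟩, by
        rw [Finset.inr_mem_disjSum]; exact mem_singleton_self b, by
        rw [Finset.inl_mem_disjSum]; exact hv⟩
    · have hbb : b ≠ b' := fun hh => hne (by rw [hh])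
      obtain ⟨v, _⟩ := hnt
      obtain ⟨F, hF, hv⟩ := h.out v
      exact ⟨F.disjSum {b}, mem_bipC.2 ⟨F, hF, b, rfl⟩, by
        rw [Finset.inr_mem_disjSum]; exact mem_singleton_self b, by
        rw [Finset.inr_mem_disjSum, mem_singleton]; exact fun hh => hbb hh.symm⟩
  · exact real_bip (fun F hF hh => hun (hh ▸ hF)) h.real

theorem isSx_bip {F : Finset V} (hF : IsSx D 𝓕 F) (b : Bool) :
    IsSx (D + 1) (bip 𝓕) (F.disjSum {b}) := by
  obtain ⟨h1, h2, h3⟩ := hF
  refine ⟨mem_bipC.2 ⟨F, h1, b, rfl⟩, ?_, ?_⟩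
  · rw [Finset.card_disjSum, h2, card_singleton]
  · rintro (f | u) hf
    · obtain ⟨G, hG, hFG⟩ := h3 f (Finset.inl_mem_disjSum.1 hf)
      refine ⟨G.disjSum {b}, mem_bipC.2 ⟨G, hG, b, rfl⟩, ?_⟩
      ext x
      rcases x with v | w
      · have := Finset.ext_iff.1 hFG v
        rw [mem_inter, mem_erase] at this
        rw [mem_inter, mem_erase, Finset.inl_mem_disjSum, Finset.inl_mem_disjSum, this]
        simp
      · simp
    · have hu : u = b := mem_singleton.1 (Finset.inr_mem_disjSum.1 hf)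
      subst hu
      refine ⟨F.disjSum {!u}, mem_bipC.2 ⟨F, h1, !u, rfl⟩, ?_⟩
      ext x
      rcases x with v | w
      · simp
      · cases w <;> cases u <;> simp

theorem deg_bip_inl (v : V) : deg (bip 𝓕) (Sum.inl v) = 2 * deg 𝓕 v := by
  unfold deg bip
  rw [filter_image, card_image_of_injective _ bipC_inj]
  have : (𝓕 ×ˢ (univ : Finset Bool)).filter
      (fun p => Sum.inl v ∈ (p.1.disjSum {p.2} : Finset (V ⊕ Bool))) =
      (𝓕.filter fun F => v ∈ F) ×ˢ (univ : Finset Bool) := by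
    ext ⟨F, b⟩
    simp
  rw [this, card_product]
  simp [mul_comm]

theorem deg_bip_inr (b : Bool) : deg (bip 𝓕) (Sum.inr b) = 𝓕.card := by
  unfold deg bip
  rw [filter_image, card_image_of_injective _ bipC_inj]
  have : (𝓕 ×ˢ (univ : Finset Bool)).filter
      (fun p => Sum.inr b ∈ (p.1.disjSum {p.2} : Finset (V ⊕ Bool))) =
      𝓕 ×ˢ {b} := by
    ext ⟨F, b'⟩
    simp [eq_comm]
  rw [this, card_product]
  simp

theorem card_bip : (bip 𝓕).card = 2 * 𝓕.card := by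
  unfold bip
  rw [card_image_of_injective _ bipC_inj, card_product]
  simp [mul_comm]

theorem ss_bip (hD : 2 ≤ D) (hdeg : ∀ v, D ≤ deg 𝓕 v) (hF : D + 2 ≤ 𝓕.card) (x : V ⊕ Bool) :
    ¬ SS (D + 1) (bip 𝓕) x := by
  rintro ⟨h1, h2⟩
  rcases x with v | u
  · rw [deg_bip_inl] at h1
    have := hdeg v
    omega
  · rw [deg_bip_inr] at h1
    omega

end H47.KO
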