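import Pool.Agent.H47.KO.Cl

/-! # KO.BipReal : realisation of a bipyramid

On `E × ℝ`, `o = ∑ v, s v`, `s' (inl v) = (s v, 0)`, `s' (inr true) = (0, 1)`, `s' (inr false) = (o, -1)`; functionals: for `F.disjSum {true}`: `(y, c) ↦ a F y`; value at `inr false`: `a F o > 0` (some `v ∉ F` by `hF`). For `F.disjSum {false}`: `(y, c) ↦ a F y + c * a F o`;
value at `inr true`: `a F o > 0`, at `inr false`: `0`. As a function of the set `B`: `B.toLeft`, and `if Sum.inr true ∈ B`.
`compl`: `x = (y, c)`. If `c ≥ 0`: `a F y ≥ 0` for all `F`, `y = ∑ c v • s v`, `x = ∑ c v • (s v, 0) + c • (0, 1)`. If `c < 0`: `a F (y + c • o) ≥ 0` for all `F`, `y + c • o = ∑ c v • s v`, `x = ∑ c v • (s v, 0) + (- c) • (o, -1)`. -/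

namespace H47.KO

open Finset

variable {V : Type} [Fintype V] [DecidableEq V] {D : ℕ} {𝓕 : Finset (Finset V)}

omit [Fintype V] in
private theorem mem_bipR {B : Finset (V ⊕ Bool)} :
    B ∈ bip 𝓕 ↔ ∃ F ∈ 𝓕, ∃ b : Bool, B = F.disjSum {b} := by
  unfold bip
  rw [mem_image]
  constructor
  · rintro ⟨⟨F, b⟩, hp, rfl⟩
    exact ⟨F, (mem_product.1 hp).1, b, rfl⟩
  · rintro ⟨F, hF, b, rfl⟩
    exact ⟨(F, b), mem_product.2 ⟨hF, mem_univ _⟩, rfl⟩

theorem real_bip (hF : ∀ F ∈ 𝓕, F ≠ univ) (h : Realiz D 𝓕) : Realiz (D + 1) (bip 𝓕) := by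
  obtain ⟨E, _, _, s, a, h⟩ := h
  have := h.fin
  set o : E := ∑ v, s v with ho
  have hopos : ∀ F ∈ 𝓕, 0 < a F o := by
    intro F hFm
    obtain ⟨w, hw⟩ : ∃ w, w ∉ F := by
      by_contra hno
      push Not at hno
      exact hF F hFm (eq_univ_iff_forall.2 hno)
    rw [ho, map_sum]
    apply sum_pos' (fun v _ => h.nonneg F hFm v)
    refine ⟨w, mem_univ _, lt_of_le_of_ne (h.nonneg F hFm w) ?_⟩
    intro h0
    exact hw ((h.zero F hFm w).1 h0.symm)
  let s' : V ⊕ Bool → E × ℝ := Sum.elim (fun v => (s v, 0))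
    (fun b => if b then ((0 : E), (1 : ℝ)) else (o, -1))
  let a' : Finset (V ⊕ Bool) → Module.Dual ℝ (E × ℝ) := fun B =>
    if Sum.inr true ∈ B then (a B.toLeft).comp (LinearMap.fst ℝ E ℝ)
    else (a B.toLeft).comp (LinearMap.fst ℝ E ℝ) + (a B.toLeft o) • LinearMap.snd ℝ E ℝ
  have hT : ∀ F : Finset V, a' (F.disjSum {true}) = (a F).comp (LinearMap.fst ℝ E ℝ) := by
    intro F
    simp only [a']
    rw [if_pos (by simp), toLeft_disjSum]
  have hB : ∀ F : Finset V, a' (F.disjSum {false}) =
      (a F).comp (LinearMap.fst ℝ E ℝ) + (a F o) • LinearMap.snd ℝ E ℝ := by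
    intro F
    simp only [a']
    rw [if_neg (by simp), toLeft_disjSum]
  refine ⟨E × ℝ, inferInstance, inferInstance, s', a', inferInstance, ?_, ?_, ?_, ?_⟩
  · rw [Module.finrank_prod, h.rank, Module.finrank_self]
  · intro B hBm w
    obtain ⟨F, hFm, b, rfl⟩ := mem_bipR.1 hBm
    rcases b with _ | _
    · rw [hB]
      rcases w with v | (_ | _)
      · simpa [s'] using h.nonneg F hFm v
      · simp [s']
      · simpa [s'] using (hopos F hFm).le
    · rw [hT]
      rcases w with v | (_ | _)
      · simpa [s'] using h.nonneg F hFm v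
      · simpa [s'] using (hopos F hFm).le
      · simp [s']
  · intro B hBm w
    obtain ⟨F, hFm, b, rfl⟩ := mem_bipR.1 hBm
    rcases b with _ | _
    · rw [hB]
      rcases w with v | (_ | _)
      · simpa [s'] using h.zero F hFm v
      · simp [s']
      · have := (hopos F hFm).ne'
        simpa [s'] using this
    · rw [hT]
      rcases w with v | (_ | _)
      · simpa [s'] using h.zero F hFm v
      · have := (hopos F hFm).ne'
        simpa [s'] using this
      · simp [s']
  · rintro ⟨y, c⟩ hx
    rcases le_or_gt 0 c with hc | hc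
    · obtain ⟨d, hd0, hd⟩ := h.compl y (by
        intro F hFm
        have := hx (F.disjSum {true}) (mem_bipR.2 ⟨F, hFm, true, rfl⟩)
        rw [hT] at this
        simpa using this)
      refine ⟨Sum.elim d (fun b => if b then c else 0), ?_, ?_⟩
      · rintro (v | (_ | _))
        · exact hd0 v
        · simp
        · simpa using hc
      · rw [Fintype.sum_sum_type, Fintype.sum_bool]
        ext
        · simp only [Sum.elim_inl, Sum.elim_inr, s', Prod.fst_add, Prod.fst_sum, Prod.smul_mk,
            smul_zero, if_true, Bool.false_eq_true, if_false, zero_smul, add_zero]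
          exact hd
        · simp [s', Prod.snd_sum]
    · obtain ⟨d, hd0, hd⟩ := h.compl (y + c • o) (by
        intro F hFm
        have := hx (F.disjSum {false}) (mem_bipR.2 ⟨F, hFm, false, rfl⟩)
        rw [hB] at this
        simp only [LinearMap.add_apply, LinearMap.comp_apply, LinearMap.fst_apply,
          LinearMap.smul_apply, LinearMap.snd_apply, smul_eq_mul] at this
        rw [map_add, map_smul, smul_eq_mul, mul_comm c]
        exact this)
      refine ⟨Sum.elim d (fun b => if b then 0 else -c), ?_, ?_⟩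
      · rintro (v | (_ | _))
        · exact hd0 v
        · simpa using hc.le
        · simp
      · rw [Fintype.sum_sum_type, Fintype.sum_bool]
        ext
        · simp only [Sum.elim_inl, Sum.elim_inr, s', Prod.fst_add, Prod.fst_sum, Prod.smul_mk,
            smul_zero, if_true, Bool.false_eq_true, if_false, zero_smul]
          rw [← hd]
          simp
        · simp [s', Prod.snd_sum]

end H47.KO
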