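import Pool.Agent.H47.KO.Defs

/-! # KO.Cl : closed sets

All short. `isCl_iff`: (=>) take `S = {F in 𝓕 : A ⊆ F}`. `cl_empty`: a `v` in all facets contradicts `out`. `cl_single`: for `w ≠ v` the facet of `sep v w` contains `{v}` and
not `w`. `cl_sub_sx`: `w` in all facets containing `A`; `w ∈ F` because `A ⊆ F`; if `w ∉ A` take `G` with `F ∩ G = F.erase w`: `A ⊆ F.erase w ⊆ G`, so `w ∈ G`, so `w ∈ F ∩ G = F.erase w`,
contradiction. `univ_nmem`: if `univ ∈ 𝓕` then by `anti` it is the only facet, `out` fails for any `v`. `two_le_card`: use the dimension: if `V` has at most one element, the cone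
`{∑ c v • s v}` is a ray or zero, but `finrank E = D + 1 ≥ 2`; the set `𝓕` is empty or `{univ}` or `{∅}` (`anti`), and `{x | 0 ≤ a F x}` for at most one functional contains a line, contradiction with
`compl` (both `x` and `-x` are nonnegative multiples of one vector); simpler: it is enough to prove `Nonempty V` (if `V` is empty then `compl` says that every `x` with all `a F x ≥ 0` is `0`; `𝓕 ⊆ {∅}`, one functional has
a nonzero kernel vector in dimension ≥ 2) and then `Nontrivial V`: take `v`; `out v` gives `F ∌ v`; if `V = {v}` then `F = ∅`, by `anti` `𝓕 = {∅}`, same argument. -/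

namespace H47.KO

open Finset

variable {V : Type}

theorem isCl_univ [Fintype V] (𝓕 : Finset (Finset V)) : IsCl 𝓕 univ := fun v _ => mem_univ v

theorem isCl_facet {𝓕 : Finset (Finset V)} {F : Finset V} (hF : F ∈ 𝓕) : IsCl 𝓕 F :=
  fun _ h => h F hF (Subset.refl F)

theorem isCl_inter [DecidableEq V] {𝓕 : Finset (Finset V)} {A B : Finset V} (hA : IsCl 𝓕 A)
    (hB : IsCl 𝓕 B) : IsCl 𝓕 (A ∩ B) := by
  intro v hv
  rw [mem_inter]
  exact ⟨hA v fun F hF h => hv F hF (inter_subset_left.trans h),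
    hB v fun F hF h => hv F hF (inter_subset_right.trans h)⟩

theorem isCl_iff {𝓕 : Finset (Finset V)} {A : Finset V} :
    IsCl 𝓕 A ↔ ∃ S : Finset (Finset V), S ⊆ 𝓕 ∧ ∀ v, v ∈ A ↔ ∀ F ∈ S, v ∈ F := by
  classical
  constructor
  · intro h
    refine ⟨𝓕.filter fun F => A ⊆ F, filter_subset _ _, fun v => ⟨?_, ?_⟩⟩
    · intro hv F hF
      exact (mem_filter.1 hF).2 hv
    · intro hv
      exact h v fun F hF hAF => hv F (mem_filter.2 ⟨hF, hAF⟩)
  · rintro ⟨S, hS, h⟩ v hv
    exact (h v).2 fun F hF => hv F (hS hF) fun w hw => (h w).1 hw F hF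

/-- a closed set different from `univ` lies in a facet -/
theorem isCl_le_facet [Fintype V] {𝓕 : Finset (Finset V)} {A : Finset V} (hA : IsCl 𝓕 A)
    (h : A ≠ univ) : ∃ F ∈ 𝓕, A ⊆ F := by
  by_contra hno
  push Not at hno
  exact h (eq_univ_iff_forall.2 fun v => hA v fun F hF hAF => absurd hAF (hno F hF))

theorem cl_empty [Fintype V] {D : ℕ} {𝓕 : Finset (Finset V)} (h : Cplx D 𝓕) : IsCl 𝓕 ∅ := by
  intro v hv
  obtain ⟨F, hF, hvF⟩ := h.out v
  exact absurd (hv F hF (empty_subset F)) hvF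

theorem cl_single [Fintype V] {D : ℕ} {𝓕 : Finset (Finset V)} (h : Cplx D 𝓕) (v : V) :
    IsCl 𝓕 {v} := by
  intro w hw
  rw [mem_singleton]
  by_contra hne
  obtain ⟨F, hF, hvF, hwF⟩ := h.sep v w (Ne.symm hne)
  exact hwF (hw F hF (singleton_subset_iff.2 hvF))

theorem cl_sub_sx [DecidableEq V] {D : ℕ} {𝓕 : Finset (Finset V)} {F A : Finset V}
    (hF : IsSx D 𝓕 F) (hA : A ⊆ F) : IsCl 𝓕 A := by
  intro w hw
  have hwF : w ∈ F := hw F hF.1 hA
  by_contra hwA
  obtain ⟨G, hG, hFG⟩ := hF.2.2 w hwF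
  have h1 : A ⊆ F.erase w := by
    intro v hv
    rw [mem_erase]
    refine ⟨?_, hA hv⟩
    rintro rfl
    exact hwA hv
  have h2 : A ⊆ G := by
    intro v hv
    have h3 := h1 hv
    rw [← hFG] at h3
    exact (mem_inter.1 h3).2
  have h3 : w ∈ F ∩ G := mem_inter.2 ⟨hwF, hw G hG h2⟩
  rw [hFG] at h3
  exact absurd h3 (notMem_erase w F)

theorem univ_nmem [Fintype V] [Nonempty V] {D : ℕ} {𝓕 : Finset (Finset V)} (h : Cplx D 𝓕) :
    univ ∉ 𝓕 := by
  intro hu
  obtain ⟨v⟩ := ‹Nonempty V›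
  obtain ⟨F, hF, hvF⟩ := h.out v
  have h1 := h.anti F hF univ hu (subset_univ F)
  rw [h1] at hvF
  exact hvF (mem_univ v)

theorem nontrivial_of_cplx [Fintype V] {D : ℕ} {𝓕 : Finset (Finset V)} (hD : 1 ≤ D)
    (h : Cplx D 𝓕) : Nontrivial V := by
  by_contra hnt
  rw [not_nontrivial_iff_subsingleton] at hnt
  have hall : ∀ F ∈ 𝓕, F = ∅ := by
    intro F hF
    rw [eq_empty_iff_forall_notMem]
    intro v hv
    obtain ⟨F', hF', hvF'⟩ := h.out v
    have h1 : F' ⊆ F := by
      intro w hw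
      rw [Subsingleton.elim w v] at hw
      exact absurd hw hvF'
    have h2 := h.anti F' hF' F hF h1
    rw [h2] at hvF'
    exact hvF' hv
  obtain ⟨E, i1, i2, s, a, hR⟩ := h.real
  have := hR.fin
  have hker : LinearMap.ker (a ∅) ≠ ⊥ := by
    apply LinearMap.ker_ne_bot_of_finrank_lt
    rw [Module.finrank_self, hR.rank]
    omega
  obtain ⟨x, hx, hx0⟩ := Submodule.exists_mem_ne_zero_of_ne_bot hker
  rw [LinearMap.mem_ker] at hx
  obtain ⟨c, hc, hxc⟩ := hR.compl x (by
    intro F hF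
    rw [hall F hF, hx])
  apply hx0
  have hz : ∀ v, c v = 0 := by
    intro v
    obtain ⟨F, hF, hvF⟩ := h.out v
    have hF0 := hall F hF
    rw [hF0] at hF hvF
    have h1 : ∑ w, c w * a ∅ (s w) = 0 := by
      rw [← hx, hxc, map_sum]
      refine sum_congr rfl fun w _ => ?_
      rw [map_smul, smul_eq_mul]
    have h2 : c v * a ∅ (s v) = 0 :=
      (sum_eq_zero_iff_of_nonneg fun w _ => mul_nonneg (hc w) (hR.nonneg ∅ hF w)).1 h1 v
        (mem_univ v)
    have h3 : a ∅ (s v) ≠ 0 := fun h4 => hvF ((hR.zero ∅ hF v).1 h4)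
    exact (mul_eq_zero.1 h2).resolve_right h3
  rw [hxc]
  exact sum_eq_zero fun v _ => by rw [hz v, zero_smul]

/-- every facet is nonempty -/
theorem facet_nonempty [Fintype V] {D : ℕ} {𝓕 : Finset (Finset V)} (hD : 1 ≤ D)
    (h : Cplx D 𝓕) {F : Finset V} (hF : F ∈ 𝓕) : F.Nonempty := by
  by_contra hno
  rw [not_nonempty_iff_eq_empty] at hno
  obtain ⟨v, w, hvw⟩ := nontrivial_of_cplx hD h
  obtain ⟨F', hF', hvF', -⟩ := h.sep v w hvw
  have h1 := h.anti F hF F' hF' (by rw [hno]; exact empty_subset F')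
  rw [← h1, hno] at hvF'
  exact absurd hvF' (notMem_empty v)

end H47.KO
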