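import Pool.Agent.H47.KO.Defs

/-! # KO.CoreGeo : the core lemma

Coordinates in the basis `u 0, u 1, u 3, u 6, u 8`; `A` exchanges the first two coordinates. Each functional gives
linear relations between the coordinates of `u 4, u 5, u 7, u 9, u 10`. -/

namespace H47.KO

open Finset

/-- the inequalities between the coordinates `p, q, c, d, h` of `u 4`, `u 7`, `u 9` contradict each other -/
theorem core_alg (p4 q4 c4 d4 h4 p7 c7 d7 h7 p9 q9 c9 h9 : ℝ)
    (α1 γ1 α2 γ2 η2 α3 β3 γ3 α4 β4 γ4 η4 α5 β5 δ5 η5 α6 β6 δ6 : ℝ)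
    (hh4 : 0 < h4) (hh7 : 0 < h7) (hh9 : 0 < h9)
    (hp4 : 0 < p4) (hq4 : 0 < q4) (hp7 : 0 < p7) (hp9 : 0 < p9) (hq9 : 0 < q9)
    -- 1689
    (hα1 : 0 < α1) (hγ1 : 0 < γ1) (e19 : α1 * p9 + γ1 * c9 = 0) (e14 : 0 < α1 * p4 + γ1 * c4)
    -- 1469
    (hα2 : 0 < α2) (hγ2 : 0 < γ2) (hη2 : 0 < η2)
    (e24 : α2 * p4 + γ2 * c4 + η2 * h4 = 0) (e29 : α2 * p9 + γ2 * c9 + η2 * h9 = 0)
    (e25 : 0 < α2 * q4 + γ2 * c4 + η2 * h4) (e2a : 0 < α2 * q9 + γ2 * c9 + η2 * h9)
    -- 6789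
    (hα3 : 0 < α3) (hβ3 : 0 < β3) (hγ3 : 0 < γ3)
    (e37 : α3 * p7 + β3 * p7 + γ3 * c7 = 0) (e39 : α3 * p9 + β3 * q9 + γ3 * c9 = 0)
    (e3a : 0 < α3 * q9 + β3 * p9 + γ3 * c9)
    -- 679a
    (hα4 : 0 < α4) (hβ4 : 0 < β4) (hγ4 : 0 < γ4) (hη4 : 0 < η4)
    (e47 : α4 * p7 + β4 * p7 + γ4 * c7 + η4 * h7 = 0)
    (e49 : α4 * p9 + β4 * q9 + γ4 * c9 + η4 * h9 = 0)
    (e4a : α4 * q9 + β4 * p9 + γ4 * c9 + η4 * h9 = 0)
    (e44 : 0 < α4 * p4 + β4 * q4 + γ4 * c4 + η4 * h4)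
    -- 2347
    (hα5 : 0 < α5) (hβ5 : 0 < β5) (hδ5 : 0 < δ5) (hη5 : 0 < η5)
    (e57 : α5 * p7 + β5 * p7 + δ5 * d7 + η5 * h7 = 0)
    (e54 : α5 * p4 + β5 * q4 + δ5 * d4 + η5 * h4 = 0)
    (e55 : 0 < α5 * q4 + β5 * p4 + δ5 * d4 + η5 * h4)
    -- 3458
    (hα6 : 0 < α6) (hβ6 : 0 < β6) (hδ6 : 0 < δ6)
    (e64 : α6 * p4 + β6 * q4 + δ6 * d4 = 0) (e65 : α6 * q4 + β6 * p4 + δ6 * d4 = 0)
    (e67 : 0 < α6 * p7 + β6 * p7 + δ6 * d7) : False := by
  have q4p4 : p4 < q4 := by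
    have : 0 < α2 * (q4 - p4) := by linarith
    have := (mul_pos_iff_of_pos_left hα2).1 this
    linarith
  have q9p9 : p9 < q9 := by
    have : 0 < α2 * (q9 - p9) := by linarith
    have := (mul_pos_iff_of_pos_left hα2).1 this
    linarith
  -- (A)
  have A1 : 0 < c4 * p9 - c9 * p4 := by
    have : 0 < γ1 * (c4 * p9 - c9 * p4) := by
      have h1 : γ1 * (c4 * p9 - c9 * p4) = (α1 * p4 + γ1 * c4) * p9 - (α1 * p9 + γ1 * c9) * p4 := by
        ring
      rw [h1, e19]; nlinarith [mul_pos e14 hp9]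
    exact (mul_pos_iff_of_pos_left hγ1).1 this
  have A2 : h4 * p9 - h9 * p4 < 0 := by
    have h1 : η2 * (h4 * p9 - h9 * p4) = - (γ2 * (c4 * p9 - c9 * p4)) := by
      linear_combination p9 * e24 - p4 * e29
    have h2 := mul_pos hγ2 A1
    by_contra hcon
    push Not at hcon
    have := mul_nonneg hη2.le hcon
    linarith
  have A3 : c4 * h9 - c9 * h4 < 0 := by
    have h1 : γ2 * (c4 * h9 - c9 * h4) = α2 * (h4 * p9 - h9 * p4) := by
      linear_combination h9 * e24 - h4 * e29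
    have h2 := mul_neg_of_pos_of_neg hα2 A2
    by_contra hcon
    push Not at hcon
    have := mul_nonneg hγ2.le hcon
    linarith
  -- (B), (C)
  have ab3 : 0 < α3 - β3 := by
    have : 0 < (α3 - β3) * (q9 - p9) := by nlinarith
    exact (mul_pos_iff_of_pos_right (show (0:ℝ) < q9 - p9 by linarith)).1 this
  have B1 : 0 < 2 * p7 * c9 - (p9 + q9) * c7 := by
    have h1 : γ3 * (2 * p7 * c9 - (p9 + q9) * c7) = p7 * ((α3 - β3) * (q9 - p9)) := by
      linear_combination 2 * p7 * e39 - (p9 + q9) * e37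
    have h2 : 0 < p7 * ((α3 - β3) * (q9 - p9)) := mul_pos hp7 (mul_pos ab3 (by linarith))
    rw [← h1] at h2
    exact (mul_pos_iff_of_pos_left hγ3).1 h2
  have ab4 : α4 = β4 := by
    have : (α4 - β4) * (q9 - p9) = 0 := by linarith
    rcases mul_eq_zero.1 this with h | h
    · linarith
    · linarith
  subst ab4
  have B2 : 0 < c7 * h9 - c9 * h7 := by
    have h1 : η4 * (c7 * h9 - c9 * h7) = α4 * (2 * p7 * c9 - (p9 + q9) * c7) := by
      linear_combination c7 * e49 - c9 * e47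
    have h2 := mul_pos hα4 B1
    rw [← h1] at h2
    exact (mul_pos_iff_of_pos_left hη4).1 h2
  -- (H)
  have H1 : c4 * h7 - c7 * h4 < 0 := by
    have h1 : h9 * (c4 * h7 - c7 * h4) = h7 * (c4 * h9 - c9 * h4) - h4 * (c7 * h9 - c9 * h7) := by
      ring
    have h2 := mul_neg_of_pos_of_neg hh7 A3
    have h3 := mul_pos hh4 B2
    by_contra hcon
    push Not at hcon
    have := mul_nonneg hh9.le hcon
    linarith
  -- (E), (I)
  have ab6 : α6 = β6 := by
    have : (α6 - β6) * (q4 - p4) = 0 := by linarith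
    rcases mul_eq_zero.1 this with h | h
    · linarith
    · linarith
  subst ab6
  have E1 : 0 < d7 * (p4 + q4) - d4 * (2 * p7) := by
    have h1 : δ6 * (d7 * (p4 + q4) - d4 * (2 * p7)) =
        (α6 * p7 + α6 * p7 + δ6 * d7) * (p4 + q4) := by
      linear_combination - 2 * p7 * e64
    have h2 : 0 < (α6 * p7 + α6 * p7 + δ6 * d7) * (p4 + q4) := mul_pos e67 (by linarith)
    rw [← h1] at h2
    exact (mul_pos_iff_of_pos_left hδ6).1 h2
  have I1 : 0 < (2 * p7) * h4 - (p4 + q4) * h7 := by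
    have h0 : 0 < (α5 + β5) * (p4 + q4) + 2 * δ5 * d4 + 2 * η5 * h4 := by nlinarith
    have h1 : η5 * ((2 * p7) * h4 - (p4 + q4) * h7) =
        ((α5 + β5) * (p4 + q4) + 2 * δ5 * d4 + 2 * η5 * h4) * p7 +
          δ5 * (d7 * (p4 + q4) - d4 * (2 * p7)) := by
      linear_combination - (p4 + q4) * e57
    have h2 : 0 < ((α5 + β5) * (p4 + q4) + 2 * δ5 * d4 + 2 * η5 * h4) * p7 := mul_pos h0 hp7
    have h3 := mul_pos hδ5 E1
    have h4' : 0 < η5 * ((2 * p7) * h4 - (p4 + q4) * h7) := by rw [h1]; linarith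
    exact (mul_pos_iff_of_pos_left hη5).1 h4'
  -- the end
  have h1 : (α4 * p4 + α4 * q4 + γ4 * c4 + η4 * h4) * h7 =
      α4 * ((p4 + q4) * h7 - (2 * p7) * h4) + γ4 * (c4 * h7 - c7 * h4) := by
    linear_combination h4 * e47
  have h2 := mul_pos e44 hh7
  have h3 : α4 * ((p4 + q4) * h7 - (2 * p7) * h4) < 0 :=
    mul_neg_of_pos_of_neg hα4 (by linarith)
  have h4' := mul_neg_of_pos_of_neg hγ4 H1
  linarith

theorem core_geo {E : Type} [AddCommGroup E] [Module ℝ E] [FiniteDimensional ℝ E]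
    (hE : Module.finrank ℝ E = 5) (u : Fin 11 → E) (l : Finset (Fin 11) → Module.Dual ℝ E)
    (h0 : ∀ C ∈ coreF, ∀ i, 0 ≤ l C (u i)) (h1 : ∀ C ∈ coreF, ∀ i, l C (u i) = 0 ↔ i ∈ C)
    (A : E →ₗ[ℝ] E) (hA : ∀ i, A (u i) = u (rho0 i))
    (hind : LinearIndependent ℝ ![u 0, u 1, u 3, u 6]) : False := by
  have hpos : ∀ C ∈ coreF, ∀ i, i ∉ C → 0 < l C (u i) := fun C hC i hi =>
    lt_of_le_of_ne (h0 C hC i) (fun h => hi ((h1 C hC i).1 h.symm))
  have hzero : ∀ C ∈ coreF, ∀ i, i ∈ C → l C (u i) = 0 := fun C hC i hi => (h1 C hC i).2 hi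
  have m1 : ({0, 1, 3, 6} : Finset (Fin 11)) ∈ coreF := by decide
  have m2 : ({1, 3, 6, 8} : Finset (Fin 11)) ∈ coreF := by decide
  have m3 : ({1, 4, 6, 9} : Finset (Fin 11)) ∈ coreF := by decide
  have m4 : ({1, 6, 8, 9} : Finset (Fin 11)) ∈ coreF := by decide
  have m5 : ({2, 3, 4, 7} : Finset (Fin 11)) ∈ coreF := by decide
  have m6 : ({3, 4, 5, 8} : Finset (Fin 11)) ∈ coreF := by decide
  have m7 : ({6, 7, 8, 9} : Finset (Fin 11)) ∈ coreF := by decide
  have m8 : ({6, 7, 9, 10} : Finset (Fin 11)) ∈ coreF := by decide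
  -- the basis
  have hli : LinearIndependent ℝ ![u 0, u 1, u 3, u 6, u 8] := by
    rw [linearIndependent_finSucc']
    refine ⟨?_, ?_⟩
    · have hinit : Fin.init ![u 0, u 1, u 3, u 6, u 8] = ![u 0, u 1, u 3, u 6] := by
        funext i
        fin_cases i <;> rfl
      rw [hinit]
      exact hind
    · intro hmem
      have hle : Submodule.span ℝ (Set.range (Fin.init ![u 0, u 1, u 3, u 6, u 8])) ≤
          LinearMap.ker (l {0, 1, 3, 6}) := by
        rw [Submodule.span_le]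
        rintro _ ⟨i, rfl⟩
        fin_cases i
        · exact hzero _ m1 0 (by decide)
        · exact hzero _ m1 1 (by decide)
        · exact hzero _ m1 3 (by decide)
        · exact hzero _ m1 6 (by decide)
      have h8 : l {0, 1, 3, 6} (u 8) = 0 := hle hmem
      exact absurd h8 (hpos _ m1 8 (by decide)).ne'
  let b : Module.Basis (Fin 5) ℝ E := basisOfLinearIndependentOfCardEqFinrank hli (by simp [hE])
  have hb : ∀ i, b i = ![u 0, u 1, u 3, u 6, u 8] i := fun i => by simp [b]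
  have b0 : b 0 = u 0 := hb 0
  have b1 : b 1 = u 1 := hb 1
  have b2 : b 2 = u 3 := hb 2
  have b3 : b 3 = u 6 := hb 3
  have b4 : b 4 = u 8 := hb 4
  have hf : ∀ (f : Module.Dual ℝ E) (x : E), f x = f (u 0) * b.coord 0 x + f (u 1) * b.coord 1 x +
      f (u 3) * b.coord 2 x + f (u 6) * b.coord 3 x + f (u 8) * b.coord 4 x := by
    intro f x
    conv_lhs => rw [← b.sum_repr x]
    rw [map_sum, Fin.sum_univ_five]
    simp only [map_smul, smul_eq_mul, b0, b1, b2, b3, b4, Module.Basis.coord_apply]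
    ring
  have hA0 : ∀ x, b.coord 0 (A x) = b.coord 1 x := by
    intro x
    have : (b.coord 0).comp A = b.coord 1 := by
      apply b.ext
      intro i
      fin_cases i
      · show b.coord 0 (A (b 0)) = b.coord 1 (b 0)
        rw [b0, hA]
        show b.coord 0 (u 1) = b.coord 1 (u 0)
        rw [← b1, ← b0]; simp
      · show b.coord 0 (A (b 1)) = b.coord 1 (b 1)
        rw [b1, hA]
        show b.coord 0 (u 0) = b.coord 1 (u 1)
        rw [← b1, ← b0]; simp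
      · show b.coord 0 (A (b 2)) = b.coord 1 (b 2)
        rw [b2, hA]
        show b.coord 0 (u 3) = b.coord 1 (u 3)
        rw [← b2]; simp
      · show b.coord 0 (A (b 3)) = b.coord 1 (b 3)
        rw [b3, hA]
        show b.coord 0 (u 6) = b.coord 1 (u 6)
        rw [← b3]; simp
      · show b.coord 0 (A (b 4)) = b.coord 1 (b 4)
        rw [b4, hA]
        show b.coord 0 (u 8) = b.coord 1 (u 8)
        rw [← b4]; simp
    exact congrArg (fun g : E →ₗ[ℝ] ℝ => g x) this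
  have hA1 : ∀ x, b.coord 1 (A x) = b.coord 0 x := by
    intro x
    have : (b.coord 1).comp A = b.coord 0 := by
      apply b.ext
      intro i
      fin_cases i
      · show b.coord 1 (A (b 0)) = b.coord 0 (b 0)
        rw [b0, hA]
        show b.coord 1 (u 1) = b.coord 0 (u 0)
        rw [← b1, ← b0]; simp
      · show b.coord 1 (A (b 1)) = b.coord 0 (b 1)
        rw [b1, hA]
        show b.coord 1 (u 0) = b.coord 0 (u 1)
        rw [← b1, ← b0]; simp
      · show b.coord 1 (A (b 2)) = b.coord 0 (b 2)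
        rw [b2, hA]
        show b.coord 1 (u 3) = b.coord 0 (u 3)
        rw [← b2]; simp
      · show b.coord 1 (A (b 3)) = b.coord 0 (b 3)
        rw [b3, hA]
        show b.coord 1 (u 6) = b.coord 0 (u 6)
        rw [← b3]; simp
      · show b.coord 1 (A (b 4)) = b.coord 0 (b 4)
        rw [b4, hA]
        show b.coord 1 (u 8) = b.coord 0 (u 8)
        rw [← b4]; simp
    exact congrArg (fun g : E →ₗ[ℝ] ℝ => g x) this
  have hA2 : ∀ j : Fin 5, 2 ≤ j → ∀ x, b.coord j (A x) = b.coord j x := by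
    intro j hj x
    have : (b.coord j).comp A = b.coord j := by
      apply b.ext
      intro i
      fin_cases i
      · show b.coord j (A (b 0)) = b.coord j (b 0)
        rw [b0, hA]
        show b.coord j (u 1) = b.coord j (u 0)
        rw [← b1, ← b0]
        fin_cases j <;> simp at hj ⊢
      · show b.coord j (A (b 1)) = b.coord j (b 1)
        rw [b1, hA]
        show b.coord j (u 0) = b.coord j (u 1)
        rw [← b1, ← b0]
        fin_cases j <;> simp at hj ⊢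
      · show b.coord j (A (b 2)) = b.coord j (b 2)
        rw [b2, hA]; rfl
      · show b.coord j (A (b 3)) = b.coord j (b 3)
        rw [b3, hA]; rfl
      · show b.coord j (A (b 4)) = b.coord j (b 4)
        rw [b4, hA]; rfl
    exact congrArg (fun g : E →ₗ[ℝ] ℝ => g x) this
  -- coordinates of the reflected points
  have q7 : b.coord 1 (u 7) = b.coord 0 (u 7) := by
    rw [← hA0 (u 7), hA]; rfl
  have p5 : b.coord 0 (u 5) = b.coord 1 (u 4) := by
    rw [← hA0 (u 4), hA]; rfl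
  have q5 : b.coord 1 (u 5) = b.coord 0 (u 4) := by
    rw [← hA1 (u 4), hA]; rfl
  have x5 : ∀ j : Fin 5, 2 ≤ j → b.coord j (u 5) = b.coord j (u 4) := by
    intro j hj
    rw [← hA2 j hj (u 4), hA]; rfl
  have pa : b.coord 0 (u 10) = b.coord 1 (u 9) := by
    rw [← hA0 (u 9), hA]; rfl
  have qa : b.coord 1 (u 10) = b.coord 0 (u 9) := by
    rw [← hA1 (u 9), hA]; rfl
  have xa : ∀ j : Fin 5, 2 ≤ j → b.coord j (u 10) = b.coord j (u 9) := by
    intro j hj
    rw [← hA2 j hj (u 9), hA]; rfl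
  -- values
  have f1 : ∀ i, i ∉ ({0, 1, 3, 6} : Finset (Fin 11)) → 0 < b.coord 4 (u i) := by
    intro i hi
    have h := hpos _ m1 i hi
    rw [hf, hzero _ m1 0 (by decide), hzero _ m1 1 (by decide), hzero _ m1 3 (by decide),
      hzero _ m1 6 (by decide)] at h
    have h8 := hpos _ m1 8 (by decide)
    refine (mul_pos_iff_of_pos_left h8).1 ?_
    linarith
  have f2 : ∀ i, i ∉ ({1, 3, 6, 8} : Finset (Fin 11)) → 0 < b.coord 0 (u i) := by
    intro i hi
    have h := hpos _ m2 i hi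
    rw [hf, hzero _ m2 1 (by decide), hzero _ m2 3 (by decide), hzero _ m2 6 (by decide),
      hzero _ m2 8 (by decide)] at h
    have h8 := hpos _ m2 0 (by decide)
    refine (mul_pos_iff_of_pos_left h8).1 ?_
    linarith
  have g4 : ∀ i, i ∉ ({1, 6, 8, 9} : Finset (Fin 11)) →
      0 < l {1, 6, 8, 9} (u 0) * b.coord 0 (u i) + l {1, 6, 8, 9} (u 3) * b.coord 2 (u i) := by
    intro i hi
    have h := hpos _ m4 i hi
    rw [hf, hzero _ m4 1 (by decide), hzero _ m4 6 (by decide), hzero _ m4 8 (by decide)] at h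
    linarith
  have g4' : l {1, 6, 8, 9} (u 0) * b.coord 0 (u 9) + l {1, 6, 8, 9} (u 3) * b.coord 2 (u 9) = 0 := by
    have h := hzero _ m4 9 (by decide)
    rw [hf, hzero _ m4 1 (by decide), hzero _ m4 6 (by decide), hzero _ m4 8 (by decide)] at h
    linarith
  have g3 : ∀ i, l {1, 4, 6, 9} (u i) = l {1, 4, 6, 9} (u 0) * b.coord 0 (u i) +
      l {1, 4, 6, 9} (u 3) * b.coord 2 (u i) + l {1, 4, 6, 9} (u 8) * b.coord 4 (u i) := by
    intro i
    have h := hf (l {1, 4, 6, 9}) (u i)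
    rw [hzero _ m3 1 (by decide), hzero _ m3 6 (by decide)] at h
    linarith
  have g5 : ∀ i, l {2, 3, 4, 7} (u i) = l {2, 3, 4, 7} (u 0) * b.coord 0 (u i) +
      l {2, 3, 4, 7} (u 1) * b.coord 1 (u i) + l {2, 3, 4, 7} (u 6) * b.coord 3 (u i) +
      l {2, 3, 4, 7} (u 8) * b.coord 4 (u i) := by
    intro i
    have h := hf (l {2, 3, 4, 7}) (u i)
    rw [hzero _ m5 3 (by decide)] at h
    linarith
  have g6 : ∀ i, l {3, 4, 5, 8} (u i) = l {3, 4, 5, 8} (u 0) * b.coord 0 (u i) +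
      l {3, 4, 5, 8} (u 1) * b.coord 1 (u i) + l {3, 4, 5, 8} (u 6) * b.coord 3 (u i) := by
    intro i
    have h := hf (l {3, 4, 5, 8}) (u i)
    rw [hzero _ m6 3 (by decide), hzero _ m6 8 (by decide)] at h
    linarith
  have g7 : ∀ i, l {6, 7, 8, 9} (u i) = l {6, 7, 8, 9} (u 0) * b.coord 0 (u i) +
      l {6, 7, 8, 9} (u 1) * b.coord 1 (u i) + l {6, 7, 8, 9} (u 3) * b.coord 2 (u i) := by
    intro i
    have h := hf (l {6, 7, 8, 9}) (u i)
    rw [hzero _ m7 6 (by decide), hzero _ m7 8 (by decide)] at h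
    linarith
  have g8 : ∀ i, l {6, 7, 9, 10} (u i) = l {6, 7, 9, 10} (u 0) * b.coord 0 (u i) +
      l {6, 7, 9, 10} (u 1) * b.coord 1 (u i) + l {6, 7, 9, 10} (u 3) * b.coord 2 (u i) +
      l {6, 7, 9, 10} (u 8) * b.coord 4 (u i) := by
    intro i
    have h := hf (l {6, 7, 9, 10}) (u i)
    rw [hzero _ m8 6 (by decide)] at h
    linarith
  refine core_alg (b.coord 0 (u 4)) (b.coord 1 (u 4)) (b.coord 2 (u 4)) (b.coord 3 (u 4))
    (b.coord 4 (u 4)) (b.coord 0 (u 7)) (b.coord 2 (u 7)) (b.coord 3 (u 7)) (b.coord 4 (u 7))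
    (b.coord 0 (u 9)) (b.coord 1 (u 9)) (b.coord 2 (u 9)) (b.coord 4 (u 9))
    (l {1, 6, 8, 9} (u 0)) (l {1, 6, 8, 9} (u 3))
    (l {1, 4, 6, 9} (u 0)) (l {1, 4, 6, 9} (u 3)) (l {1, 4, 6, 9} (u 8))
    (l {6, 7, 8, 9} (u 0)) (l {6, 7, 8, 9} (u 1)) (l {6, 7, 8, 9} (u 3))
    (l {6, 7, 9, 10} (u 0)) (l {6, 7, 9, 10} (u 1)) (l {6, 7, 9, 10} (u 3))
    (l {6, 7, 9, 10} (u 8))
    (l {2, 3, 4, 7} (u 0)) (l {2, 3, 4, 7} (u 1)) (l {2, 3, 4, 7} (u 6)) (l {2, 3, 4, 7} (u 8))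
    (l {3, 4, 5, 8} (u 0)) (l {3, 4, 5, 8} (u 1)) (l {3, 4, 5, 8} (u 6))
    (f1 4 (by decide)) (f1 7 (by decide)) (f1 9 (by decide))
    (f2 4 (by decide)) ?_ (f2 7 (by decide)) (f2 9 (by decide)) ?_
    (hpos _ m4 0 (by decide)) (hpos _ m4 3 (by decide)) g4' (g4 4 (by decide))
    (hpos _ m3 0 (by decide)) (hpos _ m3 3 (by decide)) (hpos _ m3 8 (by decide)) ?_ ?_ ?_ ?_
    (hpos _ m7 0 (by decide)) (hpos _ m7 1 (by decide)) (hpos _ m7 3 (by decide)) ?_ ?_ ?_
    (hpos _ m8 0 (by decide)) (hpos _ m8 1 (by decide)) (hpos _ m8 3 (by decide))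
    (hpos _ m8 8 (by decide)) ?_ ?_ ?_ ?_
    (hpos _ m5 0 (by decide)) (hpos _ m5 1 (by decide)) (hpos _ m5 6 (by decide))
    (hpos _ m5 8 (by decide)) ?_ ?_ ?_
    (hpos _ m6 0 (by decide)) (hpos _ m6 1 (by decide)) (hpos _ m6 6 (by decide)) ?_ ?_ ?_
  · rw [← p5]; exact f2 5 (by decide)
  · rw [← pa]; exact f2 10 (by decide)
  · rw [← g3 4]; exact hzero _ m3 4 (by decide)
  · rw [← g3 9]; exact hzero _ m3 9 (by decide)
  · have := hpos _ m3 5 (by decide)
    rwa [g3 5, p5, x5 2 (by decide), x5 4 (by decide)] at this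
  · have := hpos _ m3 10 (by decide)
    rwa [g3 10, pa, xa 2 (by decide), xa 4 (by decide)] at this
  · have := hzero _ m7 7 (by decide)
    rwa [g7 7, q7] at this
  · have := hzero _ m7 9 (by decide)
    rwa [g7 9] at this
  · have := hpos _ m7 10 (by decide)
    rwa [g7 10, pa, qa, xa 2 (by decide)] at this
  · have := hzero _ m8 7 (by decide)
    rwa [g8 7, q7] at this
  · have := hzero _ m8 9 (by decide)
    rwa [g8 9] at this
  · have := hzero _ m8 10 (by decide)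
    rwa [g8 10, pa, qa, xa 2 (by decide), xa 4 (by decide)] at this
  · have := hpos _ m8 4 (by decide)
    rwa [g8 4] at this
  · have := hzero _ m5 7 (by decide)
    rwa [g5 7, q7] at this
  · have := hzero _ m5 4 (by decide)
    rwa [g5 4] at this
  · have := hpos _ m5 5 (by decide)
    rwa [g5 5, p5, q5, x5 3 (by decide), x5 4 (by decide)] at this
  · have := hzero _ m6 4 (by decide)
    rwa [g6 4] at this
  · have := hzero _ m6 5 (by decide)
    rwa [g6 5, p5, q5, x5 3 (by decide)] at this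
  · have := hpos _ m6 7 (by decide)
    rwa [g6 7, q7] at this

end H47.KO
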