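import Pool.Agent.H47.KO.CoreGeo

/-! # KO.CoreLin : reduction of the core to dimension 5

`W` has `D - 4` elements. Independence: `F1 = {κ 0, κ 1, κ 3, κ 6} ∪ W` is a simplex facet; for `f ∈ F1` there is `G ∈ 𝓕` with `F1 ∩ G = F1.erase f`, `a G (s f) > 0`, `a G (s f') = 0` for `f' ∈ F1.erase f`. So the `s f`, `f ∈ F1`, are independent. Let `N = span (s '' W)`, dimension `D - 4`;
`E / N` has dimension `D + 1 - (D - 4) = 5`. The functionals `a (κ '' C ∪ W)` vanish on `N`, so descend to `l C` on `E / N`; `A` fixes `s w`, `w ∈ W`, so descends to `A'`. `u i = class of s (κ i)`. `l C (u i) = 0` iff `κ i ∈ κ '' C ∪ W` iff `i ∈ C` (`κ` injective, `κ i ∉ W`).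
`A' (u i) = u (rho0 i)`. `u 0, u 1, u 3, u 6` are independent (with the same `G`: those for `f = κ 0, κ 1, κ 3, κ 6` contain `W`, their functionals descend). Then `core_geo`. -/

namespace H47.KO

open Finset

private theorem li_of_dual {ι E : Type} [Fintype ι] [AddCommGroup E] [Module ℝ E]
    (v : ι → E) (φ : ι → Module.Dual ℝ E) (h : ∀ i, φ i (v i) ≠ 0)
    (h' : ∀ i j, i ≠ j → φ i (v j) = 0) : LinearIndependent ℝ v := by
  classical
  rw [Fintype.linearIndependent_iff]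
  intro g hg i
  have h2 := congrArg (φ i) hg
  rw [map_sum, map_zero, Finset.sum_eq_single i] at h2
  · rw [map_smul, smul_eq_mul] at h2
    exact (mul_eq_zero.1 h2).resolve_right (h i)
  · intro j _ hj
    rw [map_smul, h' i j (Ne.symm hj), smul_zero]
  · intro hi
    exact absurd (Finset.mem_univ i) hi

theorem core_lin {V : Type} [Fintype V] [DecidableEq V] {D : ℕ} {𝓕 : Finset (Finset V)}
    {E : Type} [AddCommGroup E] [Module ℝ E] [FiniteDimensional ℝ E]
    (hE : Module.finrank ℝ E = D + 1) (s : V → E) (a : Finset V → Module.Dual ℝ E)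
    (h0 : ∀ F ∈ 𝓕, ∀ v, 0 ≤ a F (s v)) (h1 : ∀ F ∈ 𝓕, ∀ v, a F (s v) = 0 ↔ v ∈ F)
    (A : E →ₗ[ℝ] E) (σ : V → V) (hA : ∀ v, A (s v) = s (σ v)) (κ : Fin 11 → V) (W : Finset V)
    (cW : W.card + 4 = D) (κinj : Function.Injective κ) (κW : ∀ i, κ i ∉ W)
    (core : ∀ C ∈ coreF, C.image κ ∪ W ∈ 𝓕)
    (core0 : IsSx D 𝓕 (({0, 1, 3, 6} : Finset (Fin 11)).image κ ∪ W))
    (rκ : ∀ i, σ (κ i) = κ (rho0 i)) (rW : ∀ w ∈ W, σ w = w) : False := by
  classical
  obtain ⟨-, -, hG⟩ := core0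
  choose! G hG𝓕 hGi using hG
  set F1 : Finset V := ({0, 1, 3, 6} : Finset (Fin 11)).image κ ∪ W with hF1
  have hne : ∀ f ∈ F1, a (G f) (s f) ≠ 0 := by
    intro f hf h
    have h2 : f ∈ G f := (h1 _ (hG𝓕 f hf) f).1 h
    have h3 : f ∈ F1 ∩ G f := Finset.mem_inter.2 ⟨hf, h2⟩
    rw [hGi f hf] at h3
    exact Finset.notMem_erase _ _ h3
  have hz : ∀ f ∈ F1, ∀ f' ∈ F1, f ≠ f' → a (G f) (s f') = 0 := by
    intro f hf f' hf' hff
    refine (h1 _ (hG𝓕 f hf) f').2 ?_
    have h3 : f' ∈ F1.erase f := Finset.mem_erase.2 ⟨Ne.symm hff, hf'⟩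
    rw [← hGi f hf] at h3
    exact (Finset.mem_inter.1 h3).2
  have hWF : ∀ w ∈ W, w ∈ F1 := fun w hw => Finset.mem_union_right _ hw
  have hκF : ∀ i ∈ ({0, 1, 3, 6} : Finset (Fin 11)), κ i ∈ F1 := fun i hi =>
    Finset.mem_union_left _ (Finset.mem_image_of_mem _ hi)
  -- the subspace
  let N : Submodule ℝ E := Submodule.span ℝ (Set.range fun w : W => s w)
  have hli : LinearIndependent ℝ (fun w : W => s w) :=
    li_of_dual _ (fun w => a (G w)) (fun w => hne w (hWF w w.2)) (fun w w' hw =>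
      hz w (hWF w w.2) w' (hWF w' w'.2) (fun h => hw (Subtype.ext h)))
  have hN : Module.finrank ℝ N = W.card := by
    rw [finrank_span_eq_card hli, Fintype.card_coe]
  have hQ : Module.finrank ℝ (E ⧸ N) = 5 := by
    have := Submodule.finrank_quotient_add_finrank N
    omega
  have hNle : ∀ φ : Module.Dual ℝ E, (∀ w ∈ W, φ (s w) = 0) → N ≤ LinearMap.ker φ := by
    intro φ h
    rw [Submodule.span_le]
    rintro _ ⟨w, rfl⟩
    exact h w w.2
  have hNA : N ≤ N.comap A := by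
    rw [Submodule.span_le]
    rintro _ ⟨w, rfl⟩
    show A (s w) ∈ N
    rw [hA, rW w w.2]
    exact Submodule.subset_span ⟨w, rfl⟩
  have hCN : ∀ C ∈ coreF, N ≤ LinearMap.ker (a (C.image κ ∪ W)) := fun C hC =>
    hNle _ fun w hw => (h1 _ (core C hC) w).2 (Finset.mem_union_right _ hw)
  let l : Finset (Fin 11) → Module.Dual ℝ (E ⧸ N) := fun C =>
    if h : N ≤ LinearMap.ker (a (C.image κ ∪ W)) then N.liftQ _ h else 0
  have hl : ∀ C ∈ coreF, ∀ x, l C (N.mkQ x) = a (C.image κ ∪ W) x := by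
    intro C hC x
    simp only [l, dif_pos (hCN C hC)]
    exact Submodule.liftQ_apply _ _ _
  refine core_geo hQ (fun i => N.mkQ (s (κ i))) l ?_ ?_ (N.mapQ N A hNA) ?_ ?_
  · intro C hC i
    rw [hl C hC]
    exact h0 _ (core C hC) _
  · intro C hC i
    rw [hl C hC, h1 _ (core C hC)]
    constructor
    · intro h
      rcases Finset.mem_union.1 h with h | h
      · obtain ⟨j, hj, hji⟩ := Finset.mem_image.1 h
        rwa [← κinj hji]
      · exact absurd h (κW i)
    · intro h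
      exact Finset.mem_union_left _ (Finset.mem_image_of_mem _ h)
  · intro i
    show N.mapQ N A hNA (Submodule.Quotient.mk (s (κ i))) = _
    rw [Submodule.mapQ_apply, hA, rκ]
    rfl
  · have key : ∀ i ∈ ({0, 1, 3, 6} : Finset (Fin 11)), ∃ φ : Module.Dual ℝ (E ⧸ N),
        ∀ x, φ (N.mkQ x) = a (G (κ i)) x := by
      intro i hi
      have h : N ≤ LinearMap.ker (a (G (κ i))) := hNle _ fun w hw =>
        hz _ (hκF i hi) w (hWF w hw) (fun h => κW i (h ▸ hw))
      exact ⟨N.liftQ _ h, fun x => Submodule.liftQ_apply _ _ _⟩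
    choose! φ hφ using key
    have hv : ∀ j : Fin 4, ![N.mkQ (s (κ 0)), N.mkQ (s (κ 1)), N.mkQ (s (κ 3)), N.mkQ (s (κ 6))] j =
        N.mkQ (s (κ (![0, 1, 3, 6] j))) := by
      intro j
      fin_cases j <;> rfl
    have hm : ∀ j : Fin 4, (![0, 1, 3, 6] : Fin 4 → Fin 11) j ∈ ({0, 1, 3, 6} : Finset (Fin 11)) := by
      decide
    have hinj : ∀ i j : Fin 4, (![0, 1, 3, 6] : Fin 4 → Fin 11) i = ![0, 1, 3, 6] j → i = j := by
      decide
    refine li_of_dual _ (fun j : Fin 4 => φ (![0, 1, 3, 6] j)) ?_ ?_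
    · intro j
      rw [hv, hφ _ (hm j)]
      exact hne _ (hκF _ (hm j))
    · intro i j hij
      rw [hv, hφ _ (hm i)]
      exact hz _ (hκF _ (hm i)) _ (hκF _ (hm j)) (fun h => hij (hinj _ _ (κinj h)))

end H47.KO
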