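import Mathlib
import Pool.Agent.H63.KO.Stmt

/-! # KO.Defs : definitions (no sorry)

Paper: `/team-store/h47_korbit_paper.md`. A polytope is described by the family of its facets (as sets of
vertices); its face lattice is the lattice of closed sets = intersections of facets. -/

namespace H47.KO

open Finset

/-- closed sets: the intersections of facets (the whole set is the empty intersection) -/
def IsCl {V : Type} (𝓕 : Finset (Finset V)) (A : Finset V) : Prop :=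
  ∀ v, (∀ F ∈ 𝓕, A ⊆ F → v ∈ F) → v ∈ A

/-- the lattice of closed sets -/
abbrev CLat {V : Type} (𝓕 : Finset (Finset V)) : Type := {A : Finset V // IsCl 𝓕 A}

/-- the closed sets inside `F` -/
abbrev Low {V : Type} (𝓕 : Finset (Finset V)) (F : Finset V) : Type :=
  {A : Finset V // IsCl 𝓕 A ∧ A ⊆ F}

/-- the number of flags (maximal chains) -/
noncomputable def fl (L : Type) [PartialOrder L] : ℕ := Nat.card (Flag L)

/-- bounded graded posets of rank `n` -/
def Grd (n : ℕ) (L : Type) [PartialOrder L] : Prop :=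
  ∃ (rk : L → ℕ) (b t : L), (∀ x, b ≤ x) ∧ (∀ x, x ≤ t) ∧ rk b = 0 ∧ rk t = n ∧
    ∀ x y : L, x ⋖ y → rk y = rk x + 1

/-- a realisation: vectors `s v`, functionals `a F` of the facets, and completeness
(the cone cut out by the functionals is generated by the vectors) -/
structure RData {V : Type} [Fintype V] (D : ℕ) (𝓕 : Finset (Finset V)) (E : Type)
    [AddCommGroup E] [Module ℝ E] (s : V → E) (a : Finset V → Module.Dual ℝ E) : Prop where
  fin : FiniteDimensional ℝ E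
  rank : Module.finrank ℝ E = D + 1
  nonneg : ∀ F ∈ 𝓕, ∀ v, 0 ≤ a F (s v)
  zero : ∀ F ∈ 𝓕, ∀ v, a F (s v) = 0 ↔ v ∈ F
  compl : ∀ x : E, (∀ F ∈ 𝓕, 0 ≤ a F x) → ∃ c : V → ℝ, (∀ v, 0 ≤ c v) ∧ x = ∑ v, c v • s v

/-- `𝓕` has a realisation of dimension `D` -/
def Realiz {V : Type} [Fintype V] (D : ℕ) (𝓕 : Finset (Finset V)) : Prop :=
  ∃ (E : Type) (_ : AddCommGroup E) (_ : Module ℝ E) (s : V → E)
    (a : Finset V → Module.Dual ℝ E), RData D 𝓕 E s a

/-- `𝓕` is the family of facets of a `D`-polytope with vertex set `V` -/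
structure Cplx {V : Type} [Fintype V] (D : ℕ) (𝓕 : Finset (Finset V)) : Prop where
  anti : ∀ F ∈ 𝓕, ∀ F' ∈ 𝓕, F ⊆ F' → F = F'
  out : ∀ v, ∃ F ∈ 𝓕, v ∉ F
  sep : ∀ v w, v ≠ w → ∃ F ∈ 𝓕, v ∈ F ∧ w ∉ F
  real : Realiz D 𝓕

section
variable {V : Type} [DecidableEq V]

/-- simplex facets -/
def IsSx (D : ℕ) (𝓕 : Finset (Finset V)) (F : Finset V) : Prop :=
  F ∈ 𝓕 ∧ F.card = D ∧ ∀ f ∈ F, ∃ G ∈ 𝓕, F ∩ G = F.erase f

/-- the number of facets containing `v` -/
def deg (𝓕 : Finset (Finset V)) (v : V) : ℕ := (𝓕.filter fun F => v ∈ F).card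

/-- super-simple vertices: in exactly `D` facets, all of them simplices -/
def SS (D : ℕ) (𝓕 : Finset (Finset V)) (v : V) : Prop :=
  deg 𝓕 v = D ∧ ∀ F ∈ 𝓕, v ∈ F → F.card = D

/-- the image of an enumeration -/
def im {D : ℕ} (e : Fin D → V) : Finset V := univ.image e

/-- renaming of the vertices -/
def ren {V' : Type} [DecidableEq V'] (f : V → V') (𝓕 : Finset (Finset V)) : Finset (Finset V') :=
  𝓕.image fun F => F.image f

end

section ops
variable {V : Type} [Fintype V] [DecidableEq V]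

/-- pyramid -/
def pyr (𝓕 : Finset (Finset V)) : Finset (Finset (V ⊕ Unit)) :=
  insert (univ.disjSum ∅) (𝓕.image fun F => F.disjSum univ)

/-- bipyramid -/
def bip (𝓕 : Finset (Finset V)) : Finset (Finset (V ⊕ Bool)) :=
  (𝓕 ×ˢ (univ : Finset Bool)).image fun p => p.1.disjSum {p.2}

variable {ι W : Type} [Fintype ι] [DecidableEq ι] [Fintype W] [DecidableEq W]

/-- the vertices of the `i`-th gadget -/
def phi {D : ℕ} (e : ι → Fin D → V) (i : ι) : Fin D ⊕ W → V ⊕ (ι × W) :=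
  Sum.map (e i) (Prod.mk i)

/-- gluing copies of the gadget `𝓖` along its facet `inl '' univ` on the facets `im (e i)` of `𝓕` -/
def glue {D : ℕ} (𝓕 : Finset (Finset V)) (𝓖 : Finset (Finset (Fin D ⊕ W))) (e : ι → Fin D → V) :
    Finset (Finset (V ⊕ (ι × W))) :=
  (𝓕.filter fun F => ∀ i, im (e i) ≠ F).image (fun F => F.disjSum ∅) ∪
    (univ : Finset ι).biUnion fun i =>
      (𝓖.erase (im (Sum.inl : Fin D → Fin D ⊕ W))).image fun A => A.image (phi e i)

/-- the hypotheses for gluing -/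
structure GlueOK (D : ℕ) (𝓕 : Finset (Finset V)) (𝓖 : Finset (Finset (Fin D ⊕ W)))
    (e : ι → Fin D → V) : Prop where
  two : 2 ≤ D
  cF : Cplx D 𝓕
  cG : Cplx D 𝓖
  sx : ∀ i, IsSx D 𝓕 (im (e i))
  inj : ∀ i, Function.Injective (e i)
  dist : ∀ i j, im (e i) = im (e j) → i = j
  sx0 : IsSx D 𝓖 (im (Sum.inl : Fin D → Fin D ⊕ W))

/-- the simplex, as a gadget -/
def simp (D : ℕ) : Finset (Finset (Fin D ⊕ Unit)) := univ.filter fun A => A.card = D

end ops

section gadgets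

/-- gadgets with `f` flags: complexes with two simplex facets -/
structure IsGad (D f : ℕ) {U : Type} [Fintype U] [DecidableEq U] (𝓖 : Finset (Finset U))
    (e0 e1 : Fin D → U) : Prop where
  cx : Cplx D 𝓖
  i0 : Function.Injective e0
  i1 : Function.Injective e1
  s0 : IsSx D 𝓖 (im e0)
  s1 : IsSx D 𝓖 (im e1)
  ne : im e0 ≠ im e1
  deg : ∀ v, D ≤ deg 𝓖 v
  cU : D + 2 ≤ Fintype.card U
  cF : D + 2 ≤ 𝓖.card
  fl : fl (CLat 𝓖) = f

/-- weak gadgets -/
def GadW (D f : ℕ) : Prop :=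
  ∃ (U : Type) (_ : Fintype U) (_ : DecidableEq U) (𝓖 : Finset (Finset U)) (e0 e1 : Fin D → U),
    IsGad D f 𝓖 e0 e1

/-- gadgets without super-simple vertices -/
def GadS (D f : ℕ) : Prop :=
  ∃ (U : Type) (_ : Fintype U) (_ : DecidableEq U) (𝓖 : Finset (Finset U)) (e0 e1 : Fin D → U),
    IsGad D f 𝓖 e0 e1 ∧ ∀ v, ¬ SS D 𝓖 v

/-- the same in the normal form used by `glue` -/
def GadN (D f : ℕ) : Prop :=
  ∃ (W : Type) (_ : Fintype W) (_ : DecidableEq W) (𝓖 : Finset (Finset (Fin D ⊕ W)))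
    (e1 : Fin D → Fin D ⊕ W),
    IsGad D f 𝓖 (Sum.inl : Fin D → Fin D ⊕ W) e1 ∧ ∀ v, ¬ SS D 𝓖 v

end gadgets

section core

/-- the eight core facets of the polytope `P1` -/
def coreF : Finset (Finset (Fin 11)) :=
  {{0, 1, 3, 6}, {1, 3, 6, 8}, {1, 4, 6, 9}, {1, 6, 8, 9}, {2, 3, 4, 7}, {3, 4, 5, 8},
    {6, 7, 8, 9}, {6, 7, 9, 10}}

/-- the involution (0 1)(4 5)(9 10) -/
def rho0 : Fin 11 → Fin 11 := ![1, 0, 2, 3, 5, 4, 6, 7, 8, 10, 9]

/-- a system with a group action and the core -/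
structure Good (D : ℕ) {V G : Type} [Fintype V] [DecidableEq V] [Group G] [Fintype G]
    (𝓕 : Finset (Finset V)) (act : G →* Equiv.Perm V) (r : G) (κ : Fin 11 → V) (W : Finset V) :
    Prop where
  four : 4 ≤ D
  cx : Cplx D 𝓕
  inv : ∀ g, ∀ F ∈ 𝓕, F.image (act g) ∈ 𝓕
  cG : Fintype.card G = 2 ^ ((D + 1) / 2)
  inj : Function.Injective act
  deg : ∀ v, D ≤ deg 𝓕 v
  cF : D + 2 ≤ 𝓕.card
  cW : W.card + 4 = D
  κinj : Function.Injective κ
  κW : ∀ i, κ i ∉ W
  core : ∀ C ∈ coreF, C.image κ ∪ W ∈ 𝓕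
  core0 : IsSx D 𝓕 (({0, 1, 3, 6} : Finset (Fin 11)).image κ ∪ W)
  rκ : ∀ i, act r (κ i) = κ (rho0 i)
  rW : ∀ w ∈ W, act r w = w

/-- a simplex facet with a free orbit, no image of which is a core facet -/
structure FreeF (D : ℕ) {V G : Type} [Fintype V] [DecidableEq V] [Group G] [Fintype G]
    (𝓕 : Finset (Finset V)) (act : G →* Equiv.Perm V) (κ : Fin 11 → V) (W : Finset V)
    (e : Fin D → V) : Prop where
  inj : Function.Injective e
  sx : IsSx D 𝓕 (im e)
  free : ∀ g, (im e).image (act g) = im e → g = 1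
  core : ∀ g, ∀ C ∈ coreF, (im e).image (act g) ≠ C.image κ ∪ W

/-- good systems of dimension `D` with `k * |G|` flags, a free facet, and no super-simple vertex -/
def Pre (D k : ℕ) : Prop :=
  ∃ (V G : Type) (_ : Fintype V) (_ : DecidableEq V) (_ : Group G) (_ : Fintype G)
    (_ : DecidableEq G) (𝓕 : Finset (Finset V)) (act : G →* Equiv.Perm V) (r : G)
    (κ : Fin 11 → V) (W : Finset V) (e : Fin D → V),
    Good D 𝓕 act r κ W ∧ FreeF D 𝓕 act κ W e ∧ (∀ v, ¬ SS D 𝓕 v) ∧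
      fl (CLat 𝓕) = 2 ^ ((D + 1) / 2) * k

/-- every automorphism comes from the group -/
def Exact {V G : Type} [DecidableEq V] [Group G] (𝓕 : Finset (Finset V))
    (act : G →* Equiv.Perm V) : Prop :=
  ∀ σ : Equiv.Perm V, (∀ F ∈ 𝓕, F.image σ ∈ 𝓕) → ∃ g, σ = act g

end core

end H47.KO
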