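import Pool.Agent.H47.KO.Cl
import Pool.Agent.H63.KO.Fam

/-! # KO.Faces : the faces of the vector family are the closed sets

`H63.KO.IsFace s A : ∃ l, (∀ i, 0 ≤ l (s i)) ∧ ∀ i, i ∈ A ↔ l (s i) = 0`.
(<=) `l = ∑ F in 𝓕.filter (A ⊆ ·), a F`: a sum of nonnegative terms, zero at `v` iff all `a F (s v) = 0`, iff `v ∈ F` for all facets `F ⊇ A`, iff `v ∈ A` (`IsCl`).
(=>) let `l` define `A`, let `v` be in all facets containing `A`. Put `x = ∑ u ∈ A, s u`. For each facet `F`: if `A ⊆ F` then `a F x = 0 = a F (s v)`; otherwise `a F x > 0`. So for some `δ > 0`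
all `a F (x - δ • s v) ≥ 0` (finitely many conditions). By `compl` `x - δ • s v = ∑ c u • s u` with `c ≥ 0`, so `0 ≤ l (x - δ • s v) = - δ * l (s v)`, so `l (s v) = 0` and `v ∈ A`.
`pos_fun`: `l = ∑ F in 𝓕, a F`, positive at `s v` by `out`. `span_top`: `x0 = ∑ s v` has `a F x0 > 0` for all `F` (as `F ≠ univ`, `univ_nmem`; `V` is nonempty); for every `y` and small `δ > 0`
`x0 + δ • y` satisfies all inequalities, so it is in the span, so `y` is in the span. -/

namespace H47.KO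

open Finset

variable {V : Type} [Fintype V] {D : ℕ} {𝓕 : Finset (Finset V)} {E : Type} [AddCommGroup E]
  [Module ℝ E] {s : V → E} {a : Finset V → Module.Dual ℝ E}

omit [Fintype V] in
/-- finitely many conditions with positive value at `0` hold for some small positive number -/
theorem exists_small (𝓕 : Finset (Finset V)) (f g : Finset V → ℝ)
    (h : ∀ F ∈ 𝓕, 0 < f F ∨ (f F = 0 ∧ g F = 0)) :
    ∃ δ : ℝ, 0 < δ ∧ ∀ F ∈ 𝓕, 0 ≤ f F + δ * g F := by
  have h1 : ∀ F ∈ 𝓕, ∀ᶠ δ in nhdsWithin (0 : ℝ) (Set.Ioi 0), 0 ≤ f F + δ * g F := by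
    intro F hF
    rcases h F hF with h2 | ⟨h2, h3⟩
    · have h3 : Filter.Tendsto (fun δ : ℝ => f F + δ * g F) (nhdsWithin (0 : ℝ) (Set.Ioi 0))
          (nhds (f F + 0 * g F)) := by
        refine Filter.Tendsto.mono_left ?_ nhdsWithin_le_nhds
        exact Continuous.tendsto (by fun_prop) 0
      rw [zero_mul, add_zero] at h3
      exact (h3.eventually (lt_mem_nhds h2)).mono fun δ hδ => le_of_lt hδ
    · exact Filter.Eventually.of_forall fun δ => by rw [h2, h3]; simp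
  have h2 := (Filter.eventually_all_finset 𝓕).2 h1
  obtain ⟨δ, h3, h4⟩ := (h2.and self_mem_nhdsWithin).exists
  exact ⟨δ, h4, h3⟩

theorem isFace_iff (h : RData D 𝓕 E s a) (A : Finset V) :
    H63.KO.IsFace s (A : Set V) ↔ IsCl 𝓕 A := by
  classical
  constructor
  · rintro ⟨l, hl1, hl2⟩ v hv
    have h0 : ∀ F ∈ 𝓕, 0 < a F (∑ u ∈ A, s u) ∨
        (a F (∑ u ∈ A, s u) = 0 ∧ -(a F (s v)) = 0) := by
      intro F hF
      rw [map_sum]
      by_cases hA : A ⊆ F
      · right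
        refine ⟨Finset.sum_eq_zero fun u hu => (h.zero F hF u).2 (hA hu), ?_⟩
        rw [(h.zero F hF v).2 (hv F hF hA), neg_zero]
      · left
        obtain ⟨u, hu, huF⟩ := Finset.not_subset.1 hA
        refine Finset.sum_pos' (fun w _ => h.nonneg F hF w) ⟨u, hu, ?_⟩
        exact lt_of_le_of_ne (h.nonneg F hF u) fun h1 => huF ((h.zero F hF u).1 h1.symm)
    obtain ⟨δ, hδ, hδ2⟩ := exists_small 𝓕 _ _ h0
    obtain ⟨c, hc, hx⟩ := h.compl ((∑ u ∈ A, s u) - δ • s v) (fun F hF => by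
      have h1 := hδ2 F hF
      rw [map_sub, map_smul, smul_eq_mul]
      linarith)
    have h1 : 0 ≤ l ((∑ u ∈ A, s u) - δ • s v) := by
      rw [hx, map_sum]
      refine Finset.sum_nonneg fun u _ => ?_
      rw [map_smul, smul_eq_mul]
      exact mul_nonneg (hc u) (hl1 u)
    have h2 : l (∑ u ∈ A, s u) = 0 := by
      rw [map_sum]
      exact Finset.sum_eq_zero fun u hu => (hl2 u).1 (Finset.mem_coe.2 hu)
    rw [map_sub, map_smul, smul_eq_mul, h2, zero_sub] at h1
    have h3 := mul_nonneg hδ.le (hl1 v)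
    have h4 : δ * l (s v) = 0 := by linarith
    have h5 : l (s v) = 0 := (mul_eq_zero.1 h4).resolve_left hδ.ne'
    exact Finset.mem_coe.1 ((hl2 v).2 h5)
  · intro hA
    have h0 : ∀ v, (∑ F ∈ 𝓕.filter (fun F => A ⊆ F), a F) (s v) =
        ∑ F ∈ 𝓕.filter (fun F => A ⊆ F), a F (s v) := fun v => by
      rw [LinearMap.sum_apply]
    have h1 : ∀ v, ∀ F ∈ 𝓕.filter (fun F => A ⊆ F), 0 ≤ a F (s v) := fun v F hF =>
      h.nonneg F (Finset.mem_filter.1 hF).1 v
    refine ⟨∑ F ∈ 𝓕.filter (fun F => A ⊆ F), a F, fun v => ?_, fun v => ?_⟩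
    · rw [h0]; exact Finset.sum_nonneg (h1 v)
    · rw [h0, Finset.sum_eq_zero_iff_of_nonneg (h1 v)]
      constructor
      · intro hv F hF
        rw [Finset.mem_filter] at hF
        exact (h.zero F hF.1 v).2 (hF.2 (Finset.mem_coe.1 hv))
      · intro hv
        refine Finset.mem_coe.2 (hA v fun F hF hAF => ?_)
        exact (h.zero F hF v).1 (hv F (Finset.mem_filter.2 ⟨hF, hAF⟩))

/-- the lattice of closed sets is the face lattice of the vector family -/
theorem face_iso (h : RData D 𝓕 E s a) :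
    ∃ e : CLat 𝓕 ≃o {A : Set V // H63.KO.IsFace s A}, ∀ A, ((e A : Set V)) = (A.1 : Set V) := by
  classical
  refine ⟨{
    toFun := fun A => ⟨(A.1 : Set V), (isFace_iff h A.1).2 A.2⟩
    invFun := fun A => ⟨A.1.toFinset, (isFace_iff h A.1.toFinset).1 (by
      rw [Set.coe_toFinset]; exact A.2)⟩
    left_inv := fun A => Subtype.ext (by simp)
    right_inv := fun A => Subtype.ext (by simp)
    map_rel_iff' := fun {A B} => ?_ }, fun A => rfl⟩
  exact Finset.coe_subset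

theorem pos_fun (h : RData D 𝓕 E s a) (hc : Cplx D 𝓕) :
    ∃ l : Module.Dual ℝ E, ∀ v, 0 < l (s v) := by
  classical
  refine ⟨∑ F ∈ 𝓕, a F, fun v => ?_⟩
  rw [LinearMap.sum_apply]
  obtain ⟨F, hF, hv⟩ := hc.out v
  refine Finset.sum_pos' (fun F' hF' => h.nonneg F' hF' v) ⟨F, hF, ?_⟩
  exact lt_of_le_of_ne (h.nonneg F hF v) fun h1 => hv ((h.zero F hF v).1 h1.symm)

theorem span_top (h : RData D 𝓕 E s a) (hc : Cplx D 𝓕) (hD : 1 ≤ D) :
    Submodule.span ℝ (Set.range s) = ⊤ := by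
  classical
  have := nontrivial_of_cplx hD hc
  have hspan : ∀ x : E, (∀ F ∈ 𝓕, 0 ≤ a F x) → x ∈ Submodule.span ℝ (Set.range s) := by
    intro x hx
    obtain ⟨c, _, hc2⟩ := h.compl x hx
    rw [hc2]
    exact Submodule.sum_mem _ fun v _ => Submodule.smul_mem _ _ (Submodule.subset_span ⟨v, rfl⟩)
  rw [eq_top_iff]
  intro y _
  have h0 : ∀ F ∈ 𝓕, 0 < a F (∑ u, s u) ∨ (a F (∑ u, s u) = 0 ∧ a F y = 0) := by
    intro F hF
    left
    rw [map_sum]
    have hne : F ≠ univ := fun h1 => univ_nmem hc (h1 ▸ hF)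
    obtain ⟨u, hu⟩ : ∃ u, u ∉ F := by
      by_contra hcon
      push Not at hcon
      exact hne (Finset.eq_univ_iff_forall.2 hcon)
    refine Finset.sum_pos' (fun w _ => h.nonneg F hF w) ⟨u, Finset.mem_univ u, ?_⟩
    exact lt_of_le_of_ne (h.nonneg F hF u) fun h1 => hu ((h.zero F hF u).1 h1.symm)
  obtain ⟨δ, hδ, hδ2⟩ := exists_small 𝓕 _ _ h0
  have h1 : (∑ u, s u) + δ • y ∈ Submodule.span ℝ (Set.range s) := hspan _ fun F hF => by
    rw [map_add, map_smul, smul_eq_mul]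
    exact hδ2 F hF
  have h2 : (∑ u, s u) ∈ Submodule.span ℝ (Set.range s) :=
    Submodule.sum_mem _ fun v _ => Submodule.subset_span ⟨v, rfl⟩
  have h3 : δ • y ∈ Submodule.span ℝ (Set.range s) := by
    have := Submodule.sub_mem _ h1 h2
    rwa [add_sub_cancel_left] at this
  have h4 := Submodule.smul_mem _ δ⁻¹ h3
  rwa [smul_smul, inv_mul_cancel₀ hδ.ne', one_smul] at h4

end H47.KO
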