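import Pool.Agent.H47.KO.Rigid
import Pool.Agent.H63.KO.PolyLatFin

/-! # KO.Geo : if the isometries have as many flag orbits as the automorphisms, every automorphism is induced by an isometry

`Face Q` is finite and a `PolyLat` (`H63.KO.polytope_lat`). `GeomEquiv Q` is an equivalence relation (identity; inverse isometry with `φ.symm`; composition); `GeomEquiv Q Φ Ψ` implies that `Φ, Ψ` are in one orbit of `Face Q ≃o Face Q`. So there is a surjection from
`Quot (GeomEquiv Q)` onto the set of orbits; both are finite with the same number of elements, so it is injective. Let `Φ` be any flag (exists: `Flag` is nonempty), `θ` the automorphism: `θ • Φ` and `Φ` are in one orbit, so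
`GeomEquiv Q Φ (θ • Φ)`: an isometry `g`, `g '' Q = Q`, and `φ` with `(φ F) = g '' F`, `φ • Φ = θ • Φ`. So `(θ⁻¹ * φ) • Φ = Φ`, `rigid` gives `φ = θ`. -/

namespace H47.KO

open KOrbit

private theorem geo_refl {d : ℕ} (Q : Set (Euc d)) (Φ : Flag (Face Q)) : GeomEquiv Q Φ Φ := by
  refine ⟨IsometryEquiv.refl _, ?_, 1, ?_, one_smul _ _⟩
  · ext x
    constructor
    · rintro ⟨y, hy, rfl⟩
      exact hy
    · intro hx
      exact ⟨x, hx, rfl⟩
  · intro F
    ext x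
    constructor
    · intro hx
      exact ⟨x, hx, rfl⟩
    · rintro ⟨y, hy, rfl⟩
      exact hy

private theorem geo_symm {d : ℕ} (Q : Set (Euc d)) {Φ Ψ : Flag (Face Q)}
    (h : GeomEquiv Q Φ Ψ) : GeomEquiv Q Ψ Φ := by
  obtain ⟨g, hg, φ, hφ, rfl⟩ := h
  refine ⟨g.symm, ?_, φ⁻¹, ?_, inv_smul_smul _ _⟩
  · conv_lhs => rw [← hg]
    rw [← Set.image_comp]
    ext x
    constructor
    · rintro ⟨y, hy, rfl⟩
      simpa using hy
    · intro hx
      exact ⟨x, hx, by simp⟩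
  · intro F
    have h1 := hφ (φ⁻¹ F)
    have h2 : φ (φ⁻¹ F) = F := φ.apply_symm_apply F
    rw [h2] at h1
    rw [h1, ← Set.image_comp]
    ext x
    constructor
    · intro hx
      exact ⟨x, hx, by simp⟩
    · rintro ⟨y, hy, rfl⟩
      simpa using hy

private theorem geo_trans {d : ℕ} (Q : Set (Euc d)) {Φ Ψ Θ : Flag (Face Q)}
    (h : GeomEquiv Q Φ Ψ) (h' : GeomEquiv Q Ψ Θ) : GeomEquiv Q Φ Θ := by
  obtain ⟨g, hg, φ, hφ, rfl⟩ := h
  obtain ⟨g', hg', φ', hφ', rfl⟩ := h'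
  refine ⟨g.trans g', ?_, φ' * φ, ?_, mul_smul _ _ _⟩
  · have : (g.trans g') '' Q = g' '' (g '' Q) := by
      rw [← Set.image_comp]
      rfl
    rw [this, hg, hg']
  · intro F
    have h1 : (φ' * φ) F = φ' (φ F) := rfl
    rw [h1, hφ', hφ, ← Set.image_comp]
    rfl

theorem isometry_of_auto {d : ℕ} (Q : Set (Euc d)) (hQ : IsPolytope Q)
    (hk : geomOrbits Q = combOrbits Q) (θ : Face Q ≃o Face Q) :
    ∃ g : Euc d ≃ᵢ Euc d, g '' Q = Q ∧ ∀ F : Face Q, ((θ F : Face Q) : Set (Euc d)) = g '' F := by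
  obtain ⟨hfinL, ⟨P⟩⟩ : Finite (Face Q) ∧ Nonempty (H63.KO.PolyLat (Face Q)) := by
    obtain ⟨⟨T, rfl⟩, hint⟩ := hQ
    obtain ⟨hfin, P, -⟩ := H63.KO.polytope_lat T hint
    exact ⟨hfin, ⟨P⟩⟩
  have hfinF : Finite (Flag (Face Q)) :=
    Finite.of_injective (fun Φ : Flag (Face Q) => (Φ : Set (Face Q))) SetLike.coe_injective
  let s : Quot (GeomEquiv Q) → MulAction.orbitRel.Quotient (Face Q ≃o Face Q) (Flag (Face Q)) :=
    Quot.lift (fun Φ => Quotient.mk (MulAction.orbitRel (Face Q ≃o Face Q) (Flag (Face Q))) Φ) (by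
      rintro Φ Ψ ⟨g, hg, φ, hφ, rfl⟩
      apply Quotient.sound
      change Φ ∈ MulAction.orbit (Face Q ≃o Face Q) (φ • Φ)
      exact ⟨φ⁻¹, inv_smul_smul _ _⟩)
  have hsurj : Function.Surjective s := by
    intro q
    induction q using Quotient.inductionOn with
    | h Φ => exact ⟨Quot.mk _ Φ, rfl⟩
  have hfinQ : Finite (Quot (GeomEquiv Q)) :=
    Finite.of_surjective (Quot.mk (GeomEquiv Q)) Quot.mk_surjective
  have hbij : Function.Bijective s := by
    refine hsurj.bijective_of_nat_card_le ?_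
    exact le_of_eq hk
  obtain ⟨Φ⟩ : Nonempty (Flag (Face Q)) := inferInstance
  have h1 : s (Quot.mk _ Φ) = s (Quot.mk _ (θ • Φ)) := by
    apply Quotient.sound
    change Φ ∈ MulAction.orbit (Face Q ≃o Face Q) (θ • Φ)
    exact ⟨θ⁻¹, inv_smul_smul _ _⟩
  have h2 : Quot.mk (GeomEquiv Q) Φ = Quot.mk _ (θ • Φ) := hbij.1 h1
  have heq : Equivalence (GeomEquiv Q) := ⟨geo_refl Q, geo_symm Q, geo_trans Q⟩
  obtain ⟨g, hg, φ, hφ, h3⟩ := heq.quot_mk_eq_iff _ _ |>.1 h2
  have h4 : (θ⁻¹ * φ) • Φ = Φ := by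
    rw [mul_smul, h3, inv_smul_smul]
  have h5 : θ⁻¹ * φ = 1 := rigid P _ Φ h4
  have h6 : θ = φ := (inv_mul_eq_one.1 h5)
  refine ⟨g, hg, fun F => ?_⟩
  rw [h6]
  exact hφ F

end H47.KO
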