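import Pool.Agent.H63.KO.FaceIso
import Pool.Agent.H63.KO.Stmt

/-! # KO.LinAtom : atoms of the face lattice of a polytope are points; exposed faces by linear functionals

`atom_point`: `Q = convexHull ℝ T`; `ext = Q.extremePoints ℝ ⊆ T` finite (`extremePoints_convexHull_subset`), `Q = convexHull ℝ ext` (Krein-Milman for compact convex `Q`: `closure_convexHull_extremePoints`, and `convexHull` of a finite set is closed; or choose `T` minimal). Every `p ∈ ext` is exposed: `p ∉ convexHull ℝ (ext \ {p}) = C`
(compact convex; otherwise `p` is not extreme: `convexHull_min`, or by minimality of `T`), so `geometric_hahn_banach_point_closed` / `_closed_point` gives a continuous linear `l` and `u` with `l < u` on `C`, `u < l p`; then the maximum of `l` on `Q = convexHull ({p} ∪ C)` is attained only at `p`. So `{p}` is an exposed face.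
A nonempty exposed face `F` contains a point of `ext` (`IsExposed` sets are compact convex faces: `F` nonempty exposed, `IsExposed.isExtreme`, its extreme points are extreme in `Q`: `IsExtreme.extremePoints_subset_extremePoints`; or: `F = {x ∈ Q | l x maximal}` and the maximum of `l` on `convexHull ext` is attained at a point of `ext`).
Hence if `F` is an atom (minimal among the nonempty exposed faces) then `F = {p}`. `Face Q` is ordered by inclusion; the empty set is an exposed face (by definition `IsExposed 𝕜 A B : B.Nonempty → ∃ l, ..`).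
`exposed_fun`: definition of `IsExposed` for nonempty `F`: `F = {x ∈ Q | ∀ y ∈ Q, l y ≤ l x}`; take `M = l x0` for some `x0 ∈ F`. -/

namespace H47.KO

open KOrbit

/-- an extreme point of a polytope is exposed -/
private theorem LinAtom_exposed {d : ℕ} (T : Finset (Euc d)) (p : Euc d)
    (hp : p ∈ (convexHull ℝ (T : Set (Euc d))).extremePoints ℝ) :
    IsExposed ℝ (convexHull ℝ (T : Set (Euc d))) {p} := by
  classical
  intro _
  have hpT : p ∈ (T : Set (Euc d)) := extremePoints_convexHull_subset hp
  set T' : Set (Euc d) := (T : Set (Euc d)) \ {p} with hT'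
  have hins : insert p T' = (T : Set (Euc d)) := by
    rw [hT', Set.insert_sdiff_singleton, Set.insert_eq_of_mem hpT]
  have hfin : T'.Finite := T.finite_toSet.subset Set.sdiff_subset
  have hpC : p ∉ convexHull ℝ T' := by
    intro hmem
    have h1 : p ∈ (convexHull ℝ T').extremePoints ℝ :=
      inter_extremePoints_subset_extremePoints_of_subset (convexHull_mono Set.sdiff_subset)
        ⟨hmem, hp⟩
    exact (extremePoints_convexHull_subset h1).2 rfl
  have hclosed : IsClosed (convexHull ℝ T') := (hfin.isCompact_convexHull (𝕜 := ℝ)).isClosed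
  obtain ⟨f, u, hfu, hfc⟩ := geometric_hahn_banach_point_closed (convex_convexHull ℝ T') hclosed hpC
  refine ⟨-f, ?_⟩
  have hlow : ∀ x ∈ convexHull ℝ (T : Set (Euc d)), f p ≤ f x ∧ (f x = f p → x = p) := by
    intro x hx
    rw [← hins] at hx
    rcases T'.eq_empty_or_nonempty with h0 | h0
    · rw [h0, insert_empty_eq, convexHull_singleton] at hx
      rw [Set.mem_singleton_iff.1 hx]
      exact ⟨le_refl _, fun _ => rfl⟩
    · rw [convexHull_insert h0, mem_convexJoin] at hx
      obtain ⟨p', hp', c, hc, hx⟩ := hx
      rw [Set.mem_singleton_iff.1 hp'] at hx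
      obtain ⟨a, b, ha, hb, hab, rfl⟩ := hx
      have h1 := hfc c hc
      have h2 : f (a • p + b • c) = f p + b * (f c - f p) := by
        rw [map_add, map_smul, map_smul, smul_eq_mul, smul_eq_mul]
        have : a = 1 - b := by linarith
        rw [this]
        ring
      have h3 : 0 < f c - f p := by linarith
      constructor
      · rw [h2]
        have := mul_nonneg hb h3.le
        linarith
      · intro h4
        rw [h2] at h4
        have h5 : b * (f c - f p) = 0 := by linarith
        have h6 : b = 0 := by
          rcases mul_eq_zero.1 h5 with h | h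
          · exact h
          · exact absurd h h3.ne'
        have h7 : a = 1 := by linarith
        rw [h6, h7, one_smul, zero_smul, add_zero]
  have hpQ : p ∈ convexHull ℝ (T : Set (Euc d)) := hp.1
  ext x
  constructor
  · intro hx
    rw [Set.mem_singleton_iff.1 hx]
    refine ⟨hpQ, ?_⟩
    intro y hy
    have := (hlow y hy).1
    simpa using this
  · rintro ⟨hx, hy⟩
    have h1 := hy p hpQ
    have h2 : f x ≤ f p := by simpa using h1
    exact (hlow x hx).2 (le_antisymm h2 (hlow x hx).1)

theorem atom_point {d : ℕ} (Q : Set (Euc d)) (hQ : IsPolytope Q) (F : Face Q)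
    (hne : (F : Set (Euc d)).Nonempty)
    (hmin : ∀ G : Face Q, G ≤ F → (G : Set (Euc d)).Nonempty → G = F) :
    ∃ p, (F : Set (Euc d)) = {p} := by
  obtain ⟨⟨T, rfl⟩, _⟩ := hQ
  have hcomp : IsCompact (convexHull ℝ (T : Set (Euc d))) :=
    T.finite_toSet.isCompact_convexHull (𝕜 := ℝ)
  have hF : IsCompact (F : Set (Euc d)) := F.2.isCompact hcomp
  obtain ⟨p, hp⟩ := hF.extremePoints_nonempty hne
  have hp' : p ∈ (convexHull ℝ (T : Set (Euc d))).extremePoints ℝ :=
    F.2.isExtreme.extremePoints_subset_extremePoints hp
  refine ⟨p, ?_⟩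
  have h1 := hmin ⟨{p}, LinAtom_exposed T p hp'⟩
    (show ({p} : Set (Euc d)) ⊆ (F : Set (Euc d)) from Set.singleton_subset_iff.2 hp.1)
    (Set.singleton_nonempty p)
  rw [← h1]

theorem exposed_fun {d : ℕ} (Q : Set (Euc d)) (F : Face Q) (hne : (F : Set (Euc d)).Nonempty) :
    ∃ (l : Module.Dual ℝ (Euc d)) (M : ℝ), ∀ x ∈ Q, l x ≤ M ∧ (l x = M ↔ x ∈ (F : Set (Euc d))) := by
  obtain ⟨l, hl⟩ := F.2 hne
  obtain ⟨x0, hx0⟩ := hne
  refine ⟨(l : Euc d →ₗ[ℝ] ℝ), l x0, ?_⟩
  intro x hx
  have h0 := hx0
  rw [hl] at h0
  have h1 : l x ≤ l x0 := h0.2 x hx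
  refine ⟨h1, ?_⟩
  constructor
  · intro h
    have h' : l x = l x0 := h
    rw [hl]
    refine ⟨hx, ?_⟩
    intro y hy
    rw [h']
    exact h0.2 y hy
  · intro h
    rw [hl] at h
    exact le_antisymm h1 (h.2 x0 h0.1)

end H47.KO
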