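import Pool.Agent.H47.KO.Cl
import Pool.Agent.H47.KO.LinAtom

/-! # KO.Lin : linear data of a polytope with a symmetry

`ψ : CLat 𝓕 ≃o Face Q`. The empty face is the bottom of `Face Q` and `∅` (`cl_empty`) the bottom of `CLat 𝓕`, so `ψ ∅` is the empty face. For `v : V` the set `{v}` is closed (`cl_single`) and minimal among the nonempty closed sets, so `ψ {v}` is nonempty and minimal: `atom_point`: `ψ {v} = {p v}`.
`p v ∈ ψ A` iff `ψ {v} ≤ ψ A` iff `{v} ≤ A` iff `v ∈ A`. For `F ∈ 𝓕`: `ψ F` is nonempty (`facet_nonempty`), `exposed_fun` gives `l`, `M`; the functional `(x, r) ↦ M * r - l x` is `≥ 0` at `s v = (p v, 1)`, and `= 0` iff `p v ∈ ψ F` iff `v ∈ F` (`p v ∈ Q`: an exposed face is a subset, `IsExposed.subset`).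
The isometry `g` is affine (`IsometryEquiv.toRealAffineIsometryEquiv`): `g x = L x + b` with `b = g 0`, `A (x, r) = (L x + r • b, r)`. `g (p v) = p (σ v)`: `{g (p v)} = g '' (ψ {v}) = ψ (θ {v}) = ψ {σ v} = {p (σ v)}`. -/

namespace H47.KO

open Finset KOrbit

private theorem iso_aff {D : ℕ} (g : Euc D ≃ᵢ Euc D) :
    ∃ (L : Euc D →ₗ[ℝ] Euc D) (b : Euc D), ∀ x, g x = L x + b := by
  refine ⟨(g.toRealAffineIsometryEquiv.linearIsometryEquiv.toLinearEquiv : Euc D →ₗ[ℝ] Euc D),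
    g 0, fun x => ?_⟩
  have h := g.toRealAffineIsometryEquiv.map_vadd 0 x
  rw [vadd_eq_add, vadd_eq_add, add_zero] at h
  exact h

theorem lin_data {V : Type} [Fintype V] [DecidableEq V] {D : ℕ} {𝓕 : Finset (Finset V)}
    (hD : 1 ≤ D) (hc : Cplx D 𝓕) (Q : Set (Euc D)) (hQ : IsPolytope Q)
    (ψ : CLat 𝓕 ≃o Face Q) (σ : Equiv.Perm V) (θ : CLat 𝓕 ≃o CLat 𝓕)
    (hθ : ∀ A, (θ A).1 = A.1.image σ) (g : Euc D ≃ᵢ Euc D)
    (hg : ∀ A : CLat 𝓕, ((ψ (θ A) : Face Q) : Set (Euc D)) = g '' ((ψ A : Face Q) : Set (Euc D))) :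
    ∃ (s : V → Euc D × ℝ) (a : Finset V → Module.Dual ℝ (Euc D × ℝ))
      (A : (Euc D × ℝ) →ₗ[ℝ] (Euc D × ℝ)),
      (∀ F ∈ 𝓕, ∀ v, 0 ≤ a F (s v)) ∧ (∀ F ∈ 𝓕, ∀ v, a F (s v) = 0 ↔ v ∈ F) ∧
      ∀ v, A (s v) = s (σ v) := by
  obtain ⟨e0, he0⟩ : ∃ e : CLat 𝓕, e.1 = ∅ := ⟨⟨∅, cl_empty hc⟩, rfl⟩
  have hbot : ((ψ e0 : Face Q) : Set (Euc D)) = ∅ := by
    have h1 : e0 ≤ ψ.symm ⟨∅, isExposed_empty⟩ := by
      show e0.1 ⊆ _
      rw [he0]
      exact empty_subset _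
    have h2 : ψ e0 ≤ ⟨∅, isExposed_empty⟩ := by
      rw [← ψ.apply_symm_apply ⟨∅, isExposed_empty⟩]
      exact ψ.monotone h1
    exact Set.subset_empty_iff.1 h2
  obtain ⟨sv, hsv⟩ : ∃ sv : V → CLat 𝓕, ∀ v, (sv v).1 = {v} :=
    ⟨fun v => ⟨{v}, cl_single hc v⟩, fun v => rfl⟩
  have hp : ∀ v, ∃ p, ((ψ (sv v) : Face Q) : Set (Euc D)) = {p} := by
    intro v
    refine atom_point Q hQ (ψ (sv v)) ?_ ?_
    · rw [Set.nonempty_iff_ne_empty]
      intro h1
      have h2 : ψ (sv v) = ψ e0 := Subtype.ext (h1.trans hbot.symm)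
      have h3 := congrArg Subtype.val (ψ.injective h2)
      rw [hsv, he0] at h3
      exact singleton_ne_empty v h3
    · intro G hG hne
      have h1 : ψ.symm G ≤ sv v := by
        rw [← ψ.symm_apply_apply (sv v)]
        exact ψ.symm.monotone hG
      have h2 : (ψ.symm G).1 ⊆ {v} := by
        rw [← hsv v]
        exact h1
      rcases subset_singleton_iff.1 h2 with h3 | h3
      · exfalso
        have h4 : ψ.symm G = e0 := Subtype.ext (h3.trans he0.symm)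
        have h5 : G = ψ e0 := by rw [← h4, ψ.apply_symm_apply]
        rw [h5, hbot] at hne
        exact Set.not_nonempty_empty hne
      · have h4 : ψ.symm G = sv v := Subtype.ext (h3.trans (hsv v).symm)
        rw [← h4, ψ.apply_symm_apply]
  choose p hp using hp
  have hmem : ∀ (A : CLat 𝓕) (v : V), p v ∈ ((ψ A : Face Q) : Set (Euc D)) ↔ v ∈ A.1 := by
    intro A v
    constructor
    · intro h
      have h1 : ψ (sv v) ≤ ψ A := by
        show ((ψ (sv v) : Face Q) : Set (Euc D)) ⊆ ((ψ A : Face Q) : Set (Euc D))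
        rw [hp v]
        exact Set.singleton_subset_iff.2 h
      have h2 : sv v ≤ A := ψ.le_iff_le.1 h1
      have h3 : (sv v).1 ⊆ A.1 := h2
      rw [hsv v] at h3
      exact singleton_subset_iff.1 h3
    · intro h
      have h3 : sv v ≤ A := by
        show (sv v).1 ⊆ A.1
        rw [hsv v]
        exact singleton_subset_iff.2 h
      have h1 : ((ψ (sv v) : Face Q) : Set (Euc D)) ⊆ ((ψ A : Face Q) : Set (Euc D)) :=
        ψ.monotone h3
      rw [hp v] at h1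
      exact Set.singleton_subset_iff.1 h1
  have hpQ : ∀ v, p v ∈ Q := by
    intro v
    have h1 : ((ψ (sv v) : Face Q) : Set (Euc D)) ⊆ Q := (ψ (sv v)).2.subset
    rw [hp v] at h1
    exact Set.singleton_subset_iff.1 h1
  have ha : ∀ F : Finset V, ∃ f : Module.Dual ℝ (Euc D × ℝ), F ∈ 𝓕 →
      ∀ v, 0 ≤ f (p v, 1) ∧ (f (p v, 1) = 0 ↔ v ∈ F) := by
    intro F
    by_cases hF : F ∈ 𝓕
    · obtain ⟨w, hw⟩ := facet_nonempty hD hc hF
      obtain ⟨l, M, hl⟩ := exposed_fun Q (ψ ⟨F, isCl_facet hF⟩)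
        ⟨p w, (hmem ⟨F, isCl_facet hF⟩ w).2 hw⟩
      refine ⟨M • LinearMap.snd ℝ (Euc D) ℝ - l.comp (LinearMap.fst ℝ (Euc D) ℝ), fun _ v => ?_⟩
      have e : (M • LinearMap.snd ℝ (Euc D) ℝ - l.comp (LinearMap.fst ℝ (Euc D) ℝ)) (p v, 1)
          = M - l (p v) := by
        simp
      rw [e]
      obtain ⟨h1, h2⟩ := hl (p v) (hpQ v)
      refine ⟨by linarith, ?_⟩
      rw [← hmem ⟨F, isCl_facet hF⟩ v, ← h2]
      constructor
      · intro h
        linarith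
      · intro h
        linarith
    · exact ⟨0, fun h => absurd h hF⟩
  choose a ha using ha
  obtain ⟨L, b, hL⟩ := iso_aff g
  have hgp : ∀ v, g (p v) = p (σ v) := by
    intro v
    have h1 := hg (sv v)
    have h2 : θ (sv v) = sv (σ v) := by
      apply Subtype.ext
      rw [hθ, hsv, hsv, image_singleton]
    rw [h2, hp, hp, Set.image_singleton] at h1
    exact (Set.singleton_injective h1).symm
  refine ⟨fun v => (p v, 1), a,
    LinearMap.prod (L.comp (LinearMap.fst ℝ (Euc D) ℝ) + (LinearMap.snd ℝ (Euc D) ℝ).smulRight b)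
      (LinearMap.snd ℝ (Euc D) ℝ), fun F hF v => (ha F hF v).1, fun F hF v => (ha F hF v).2,
      fun v => ?_⟩
  show (L (p v) + (1 : ℝ) • b, (1 : ℝ)) = (p (σ v), 1)
  rw [one_smul, ← hL, hgp]

end H47.KO
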