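import Pool.Agent.H47.KO.Aut

/-! # KO.Orb : the number of orbits

`L = CLat 𝓕`. `θ g` (`exists_autOf`) for `g : G`; `G → Aut L` is injective (`act` injective, `{v}` closed) and surjective (`exists_perm`, `Exact`), so `Nat.card (L ≃o L) = card G`. `Aut L` acts freely on `Flag L` (`rigid`, `exists_lat`),
so every orbit has `card G` elements and `Nat.card (Flag L) = card G * number of orbits` (`Flag L` is finite; e.g. `MulAction.selfEquivSigmaOrbits` and `Nat.card` of an orbit = `Nat.card` of the group for trivial stabilisers).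
`orb_congr`: an order isomorphism `e : L ≃o L'` induces a bijection of flags and an isomorphism of groups compatible with the actions. -/

namespace H47.KO

open Finset

theorem orb_congr {L L' : Type} [PartialOrder L] [PartialOrder L'] (e : L ≃o L') :
    Nat.card (MulAction.orbitRel.Quotient (L ≃o L) (Flag L)) =
      Nat.card (MulAction.orbitRel.Quotient (L' ≃o L') (Flag L')) := by
  have key : ∀ (g : L ≃o L) (Φ : Flag L),
      Flag.map e (g • Φ) = ((e.symm.trans g).trans e) • Flag.map e Φ := by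
    intro g Φ
    apply SetLike.coe_injective
    change e '' (g '' (Φ : Set L)) = ((e.symm.trans g).trans e) '' (e '' (Φ : Set L))
    rw [Set.image_image, Set.image_image]
    refine Set.image_congr fun x _ => ?_
    simp
  refine Nat.card_congr (Quotient.congr (Flag.map e) ?_)
  intro Φ Ψ
  constructor
  · rintro ⟨g, hg⟩
    refine ⟨(e.symm.trans g).trans e, ?_⟩
    change ((e.symm.trans g).trans e) • Flag.map e Ψ = Flag.map e Φ
    rw [← key]
    exact congrArg _ hg
  · rintro ⟨g', hg'⟩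
    refine ⟨(e.trans g').trans e.symm, ?_⟩
    change ((e.trans g').trans e.symm) • Ψ = Φ
    apply (Flag.map e).injective
    rw [key]
    refine Eq.trans ?_ hg'
    change _ = g' • Flag.map e Ψ
    congr 1
    ext x
    simp

theorem orb_mul {V G : Type} [Fintype V] [DecidableEq V] [Group G] [Fintype G] {D : ℕ}
    {𝓕 : Finset (Finset V)} (hD : 1 ≤ D) (hc : Cplx D 𝓕) (act : G →* Equiv.Perm V)
    (hinv : ∀ g, ∀ F ∈ 𝓕, F.image (act g) ∈ 𝓕) (hinj : Function.Injective act)
    (hex : Exact 𝓕 act) :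
    Fintype.card G * Nat.card (MulAction.orbitRel.Quotient (CLat 𝓕 ≃o CLat 𝓕) (Flag (CLat 𝓕))) =
      fl (CLat 𝓕) := by
  classical
  have hfF : Finite (Flag (CLat 𝓕)) :=
    Finite.of_injective (fun Φ : Flag (CLat 𝓕) => (Φ : Set (CLat 𝓕))) SetLike.coe_injective
  obtain ⟨P, _⟩ := exists_lat hc hD
  have hfree : ∀ (g : CLat 𝓕 ≃o CLat 𝓕) (Φ : Flag (CLat 𝓕)), g • Φ = Φ → g = 1 :=
    fun g Φ h => rigid P g Φ h
  choose θ hθ using fun g => exists_autOf (𝓕 := 𝓕) (act g) (hinv g)
  have hbij : Function.Bijective θ := by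
    constructor
    · intro g g' hgg
      apply hinj
      ext v
      have h1 := hθ g ⟨{v}, cl_single hc v⟩
      have h2 := hθ g' ⟨{v}, cl_single hc v⟩
      rw [hgg, h2] at h1
      simp only [image_singleton] at h1
      exact (singleton_injective h1).symm
    · intro τ
      obtain ⟨σ, h1, h2⟩ := exists_perm hD hc τ
      obtain ⟨g, rfl⟩ := hex σ h1
      refine ⟨g, ?_⟩
      refine RelIso.ext fun A => Subtype.ext ?_
      rw [hθ, h2]
  have hcard : Nat.card (CLat 𝓕 ≃o CLat 𝓕) = Fintype.card G := by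
    rw [← Nat.card_congr (Equiv.ofBijective θ hbij), Nat.card_eq_fintype_card]
  have hfQ : Finite (MulAction.orbitRel.Quotient (CLat 𝓕 ≃o CLat 𝓕) (Flag (CLat 𝓕))) :=
    Finite.of_surjective (fun Φ => (Quotient.mk _ Φ)) Quotient.mk_surjective
  have := Fintype.ofFinite (MulAction.orbitRel.Quotient (CLat 𝓕 ≃o CLat 𝓕) (Flag (CLat 𝓕)))
  have horb : ∀ ω : MulAction.orbitRel.Quotient (CLat 𝓕 ≃o CLat 𝓕) (Flag (CLat 𝓕)),
      Nat.card ω.orbit = Fintype.card G := by
    intro ω
    induction ω using Quotient.inductionOn' with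
    | h Φ =>
      rw [← hcard]
      refine (Nat.card_congr (Equiv.ofBijective
        (fun g : CLat 𝓕 ≃o CLat 𝓕 => (⟨g • Φ, MulAction.mem_orbit _ _⟩ :
          MulAction.orbit (CLat 𝓕 ≃o CLat 𝓕) Φ)) ⟨?_, ?_⟩)).symm
      · intro g g' hgg
        have h1 : g • Φ = g' • Φ := congrArg Subtype.val hgg
        have h2 : (g'⁻¹ * g) • Φ = Φ := by
          rw [mul_smul, h1, inv_smul_smul]
        have h3 := hfree _ _ h2
        exact (inv_mul_eq_one.1 h3).symm
      · rintro ⟨Ψ, g, rfl⟩
        exact ⟨g, rfl⟩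
  have h1 : Nat.card (Flag (CLat 𝓕)) =
      ∑ ω : MulAction.orbitRel.Quotient (CLat 𝓕 ≃o CLat 𝓕) (Flag (CLat 𝓕)),
        Nat.card ω.orbit := by
    rw [← Nat.card_sigma]
    exact Nat.card_congr (MulAction.selfEquivSigmaOrbits' (CLat 𝓕 ≃o CLat 𝓕) (Flag (CLat 𝓕)))
  unfold fl
  rw [h1, sum_congr rfl fun ω _ => horb ω, sum_const, smul_eq_mul, Nat.card_eq_fintype_card,
    card_univ, mul_comm]

end H47.KO
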