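import Pool.Agent.H47.KO.Poly
import Pool.Agent.H47.KO.Orb
import Pool.Agent.H47.KO.Geo
import Pool.Agent.H47.KO.Lin
import Pool.Agent.H47.KO.CoreLin

/-! # KO.NonR : a good system whose automorphisms all come from the group gives a pair without property (R) (glue) -/

namespace H47.KO

open Finset KOrbit

theorem not_R {D k : ℕ} {V G : Type} [Fintype V] [DecidableEq V] [Group G] [Fintype G]
    {𝓕 : Finset (Finset V)} {act : G →* Equiv.Perm V} {r : G} {κ : Fin 11 → V} {W : Finset V}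
    (hg : Good D 𝓕 act r κ W) (hex : Exact 𝓕 act)
    (hk : fl (CLat 𝓕) = 2 ^ ((D + 1) / 2) * k) : ¬ PropertyR k D := by
  intro hR
  have hD : 1 ≤ D := by have := hg.four; omega
  obtain ⟨Q, hQ, ⟨e⟩⟩ := exists_polytope hD hg.cx
  have horb := orb_mul hD hg.cx act hg.inv hg.inj hex
  have hpow : 0 < 2 ^ ((D + 1) / 2) := by positivity
  have hL : Nat.card (MulAction.orbitRel.Quotient (CLat 𝓕 ≃o CLat 𝓕) (Flag (CLat 𝓕))) = k := by
    rw [hk, hg.cG] at horb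
    exact Nat.eq_of_mul_eq_mul_left hpow horb
  have hcomb : ∀ (Q : Set (Euc D)), Nonempty (CLat 𝓕 ≃o Face Q) → combOrbits Q = k := by
    rintro Q ⟨e⟩
    rw [← hL]
    exact (orb_congr e).symm
  obtain ⟨Q', hQ', ⟨e'⟩, hk'⟩ := hR Q hQ (hcomb Q ⟨e⟩)
  let ψ : CLat 𝓕 ≃o Face Q' := e.trans e'
  obtain ⟨θ, hθ⟩ := exists_autOf (act r) (hg.inv r)
  let θ' : Face Q' ≃o Face Q' := ψ.symm.trans (θ.trans ψ)
  obtain ⟨g, -, hg2⟩ := isometry_of_auto Q' hQ' (by rw [hk', hcomb Q' ⟨ψ⟩]) θ'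
  obtain ⟨s, a, A, h0, h1, hA⟩ := lin_data hD hg.cx Q' hQ' ψ (act r) θ hθ g (by
    intro A
    have := hg2 (ψ A)
    rw [← this]
    show _ = ((ψ (θ (ψ.symm (ψ A))) : Face Q') : Set (Euc D))
    rw [OrderIso.symm_apply_apply])
  refine core_lin (D := D) (𝓕 := 𝓕) ?_ s a h0 h1 A (act r) hA κ W hg.cW hg.κinj hg.κW hg.core
    hg.core0 hg.rκ hg.rW
  rw [Module.finrank_prod, finrank_euclideanSpace, Fintype.card_fin, Module.finrank_self]

end H47.KO
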