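import Pool.Agent.H47.KO.Snake
import Pool.Agent.H47.KO.Aut

/-! # KO.SnakeEnd : after the snake all automorphisms come from the group (paper 4)

State `Snk D D` and one more round. Let `𝓕' = glue 𝓕 (simp D) (eG act e)`, `act'` the action, `x g = inr (g, ())`. Facets containing `x 1`: `A.image (phi (eG act e) 1)`, `inr () ∈ A`, `A ∈ simp D`, that is `{x 1} ∪ (inl '' (im e).erase (e j))` for `j : Fin D` (`act 1 = id`).
Let `σ` preserve `𝓕'` (so does `σ⁻¹`: finite), then `deg` and `SS` are preserved. `x 1` is super-simple (`ss_glue_inr`, `simp_ss`), so `σ (x 1)` is; by `snk_step`, field `ss`, `σ (x 1) = act' g (nextE e j)`, `j = 0`, so `= x g`. Let `σ' = (act' g)⁻¹ * σ`, it preserves `𝓕'` (`good.inv` for `g⁻¹`) and fixes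
`x 1`. It maps facets containing `x 1` to facets containing `x 1`, so (for `D ≥ 2` their union minus `x 1` is `inl '' im e`) it maps `inl '' im e` to itself. The degrees in `𝓕'`: `deg (inl (e j)) = D + (j + 1) * (D - 2)` for all `j : Fin D` (as in `snk_step`: `deg_glue_inl`, exactly one pair), pairwise different (`D ≥ 3`).
So `σ'` fixes every `inl (e j)`. The facet `{x 1} ∪ inl '' (im e).erase (e (D - 1)) = im (nextE e)` is a simplex facet (field `free` of `snk_step`), fixed pointwise: `fix_sx` gives `σ' = 1`. -/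

namespace H47.KO

open Finset

variable {V G : Type} [Fintype V] [DecidableEq V] [Group G] [Fintype G] [DecidableEq G] {D : ℕ}
  {𝓕 : Finset (Finset V)} {act : G →* Equiv.Perm V} {r : G} {κ : Fin 11 → V} {W : Finset V}

omit [Fintype V] in
private theorem SnakeEnd_image_eq (σ : Equiv.Perm V) (h : ∀ F ∈ 𝓕, F.image σ ∈ 𝓕) :
    𝓕.image (fun F => F.image σ) = 𝓕 := by
  apply Finset.eq_of_subset_of_card_le
  · intro B hB
    obtain ⟨F, hF, rfl⟩ := Finset.mem_image.1 hB
    exact h F hF
  · rw [Finset.card_image_of_injective _ (Finset.image_injective σ.injective)]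

/-- degrees and super-simple vertices are preserved by automorphisms -/
theorem deg_auto (σ : Equiv.Perm V) (h : ∀ F ∈ 𝓕, F.image σ ∈ 𝓕) (v : V) :
    deg 𝓕 (σ v) = deg 𝓕 v := by
  unfold deg
  have h1 : (𝓕.filter fun F => σ v ∈ F) =
      (𝓕.filter fun F => v ∈ F).image (fun F => F.image σ) := by
    ext B
    simp only [Finset.mem_filter, Finset.mem_image]
    constructor
    · rintro ⟨hB, hv⟩
      rw [← SnakeEnd_image_eq σ h] at hB
      obtain ⟨F, hF, rfl⟩ := Finset.mem_image.1 hB
      refine ⟨F, ⟨hF, ?_⟩, rfl⟩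
      obtain ⟨w, hw, hwv⟩ := Finset.mem_image.1 hv
      rwa [← σ.injective hwv]
    · rintro ⟨F, ⟨hF, hv⟩, rfl⟩
      exact ⟨h F hF, Finset.mem_image_of_mem σ hv⟩
  rw [h1, Finset.card_image_of_injective _ (Finset.image_injective σ.injective)]

theorem ss_auto (σ : Equiv.Perm V) (h : ∀ F ∈ 𝓕, F.image σ ∈ 𝓕) (v : V) (hv : SS D 𝓕 v) :
    SS D 𝓕 (σ v) := by
  refine ⟨(deg_auto σ h v).trans hv.1, fun B hB hvB => ?_⟩
  rw [← SnakeEnd_image_eq σ h] at hB
  obtain ⟨F, hF, rfl⟩ := Finset.mem_image.1 hB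
  obtain ⟨w, hw, hwv⟩ := Finset.mem_image.1 hvB
  rw [Finset.card_image_of_injective _ σ.injective]
  exact hv.2 F hF (by rwa [← σ.injective hwv])

theorem snk_exact {e : Fin D → V} (h : Snk D D 𝓕 act r κ W e) :
    Exact (glue 𝓕 (simp D) (eG act e)) (actSum act (actProd (actL G) 1)) := by
  intro σ hσ
  have hok := snk_ok h
  have hst := snk_step h
  have h4 : 4 ≤ D := h.good.four
  have hx1 : SS D (glue 𝓕 (simp D) (eG act e)) (Sum.inr ((1 : G), ())) :=
    (ss_glue_inr hok 1 ()).2 (simp_ss D (Sum.inr ()))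
  have hx2 := ss_auto σ hσ _ hx1
  obtain ⟨-, g, j, hj, hgj⟩ := hst.ss _ hx2
  have hnj : nextE (G := G) e j = Sum.inr ((1 : G), ()) := by
    unfold nextE
    rw [if_pos hj]
  rw [hnj] at hgj
  refine ⟨g, ?_⟩
  set act' := actSum act (actProd (actL G) (1 : G →* Equiv.Perm Unit)) with hact'
  set σ' : Equiv.Perm (V ⊕ (G × Unit)) := act' g⁻¹ * σ with hσ'
  have hpres : ∀ F ∈ glue 𝓕 (simp D) (eG act e), F.image σ' ∈ glue 𝓕 (simp D) (eG act e) := by
    intro F hF
    have h1 : F.image σ' = (F.image σ).image (act' g⁻¹) := by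
      rw [Finset.image_image]
      rfl
    rw [h1]
    exact hst.good.inv g⁻¹ _ (hσ F hF)
  have hfx : σ' (Sum.inr ((1 : G), ())) = Sum.inr ((1 : G), ()) := by
    rw [hσ', Equiv.Perm.mul_apply, hgj, ← Equiv.Perm.mul_apply, ← map_mul, inv_mul_cancel, map_one,
      Equiv.Perm.one_apply]
  have hfe : ∀ j : Fin D, σ' (Sum.inl (e j)) = Sum.inl (e j) := by
    intro j
    obtain ⟨j', hj'⟩ : ∃ j' : Fin D, j' ≠ j := by
      by_cases h0 : j.val = 0
      · exact ⟨⟨1, by omega⟩, fun h => by rw [← h] at h0; simp at h0⟩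
      · exact ⟨⟨0, by omega⟩, fun h => h0 (by rw [← h])⟩
    -- the facet
    have hA : (univ.erase (Sum.inl j' : Fin D ⊕ Unit)) ∈ simp D := by
      unfold simp
      rw [Finset.mem_filter]
      refine ⟨Finset.mem_univ _, ?_⟩
      rw [Finset.card_erase_of_mem (Finset.mem_univ _), Finset.card_univ, Fintype.card_sum,
        Fintype.card_fin, Fintype.card_unit]
      rfl
    have hA1 : (univ.erase (Sum.inl j' : Fin D ⊕ Unit)) ≠ im Sum.inl := by
      intro h0
      have h1 : (Sum.inr () : Fin D ⊕ Unit) ∈ univ.erase (Sum.inl j' : Fin D ⊕ Unit) := by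
        simp
      rw [h0, mem_im] at h1
      obtain ⟨a, ha⟩ := h1
      cases ha
    have hB : (univ.erase (Sum.inl j' : Fin D ⊕ Unit)).image (phi (eG act e) (1 : G)) ∈
        glue 𝓕 (simp D) (eG act e) := mem_glue.2 (Or.inr ⟨1, _, hA, hA1, rfl⟩)
    have hB2 := hpres _ hB
    have hx : (Sum.inr ((1 : G), ()) : V ⊕ (G × Unit)) ∈
        ((univ.erase (Sum.inl j' : Fin D ⊕ Unit)).image (phi (eG act e) (1 : G))).image σ' := by
      rw [← hfx]
      refine Finset.mem_image_of_mem σ' ?_
      exact inr_mem_phi.2 ⟨rfl, by simp⟩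
    have he : σ' (Sum.inl (e j)) ∈
        ((univ.erase (Sum.inl j' : Fin D ⊕ Unit)).image (phi (eG act e) (1 : G))).image σ' := by
      refine Finset.mem_image_of_mem σ' ?_
      refine inl_mem_phi.2 ⟨j, ?_, ?_⟩
      · unfold eG
        rw [map_one, Equiv.Perm.one_apply]
      · rw [Finset.mem_erase]
        exact ⟨fun h => hj' (Sum.inl_injective h).symm, Finset.mem_univ _⟩
    rcases mem_glue.1 hB2 with ⟨F, -, -, hF⟩ | ⟨i, A', -, -, hA'⟩
    · rw [hF] at hx
      simp at hx
    · rw [hA'] at hx he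
      obtain ⟨hi, -⟩ := inr_mem_phi.1 hx
      subst hi
      cases hc : σ' (Sum.inl (e j)) with
      | inr p =>
        exfalso
        obtain ⟨g', u⟩ := p
        rw [hc] at he
        obtain ⟨hg', -⟩ := inr_mem_phi.1 he
        subst hg'
        have h1 : σ' (Sum.inl (e j)) = σ' (Sum.inr ((1 : G), ())) := by
          rw [hc, hfx]
        exact absurd (σ'.injective h1) (by simp)
      | inl v =>
        rw [hc] at he
        obtain ⟨j2, hj2, -⟩ := inl_mem_phi.1 he
        have hv : v = e j2 := by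
          rw [← hj2]
          unfold eG
          rw [map_one, Equiv.Perm.one_apply]
        have hd := deg_auto σ' hpres (Sum.inl (e j))
        rw [hc, hv, snk_deg_inl h j2 j2.2, snk_deg_inl h j j.2] at hd
        have h5 : (j2.val + 1) * (D - 2) = (j.val + 1) * (D - 2) := Nat.add_left_cancel hd
        have h6 : j2.val + 1 = j.val + 1 := Nat.eq_of_mul_eq_mul_right (by omega) h5
        have h7 : j2 = j := Fin.ext (by omega)
        rw [hv, h7]
  have hone : σ' = 1 := by
    refine fix_sx (by omega) hst.good.cx σ' hpres _ hst.free.sx ?_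
    intro v hv
    obtain ⟨j, rfl⟩ := (mem_im _ _).1 hv
    unfold nextE
    split_ifs with h0
    · exact hfx
    · exact hfe _
  have h8 : act' g * σ' = σ := by
    rw [hσ', ← mul_assoc, ← map_mul, mul_inv_cancel, map_one, one_mul]
  rw [← h8, hone, mul_one]

end H47.KO
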