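import Pool.Agent.H47.KO.PreOps
import Pool.Agent.H47.KO.SnakeEnd
import Pool.Agent.H47.KO.NonR

/-! # KO.FinR : `Pre D k` gives a pair without property (R) (glue) -/

namespace H47.KO

open Finset KOrbit

theorem snk_run {D k : ℕ} (h : Pre D k) (t : ℕ) :
    ∃ (V G : Type) (_ : Fintype V) (_ : DecidableEq V) (_ : Group G) (_ : Fintype G)
      (_ : DecidableEq G) (𝓕 : Finset (Finset V)) (act : G →* Equiv.Perm V) (r : G)
      (κ : Fin 11 → V) (W : Finset V) (e : Fin D → V), Snk D t 𝓕 act r κ W e ∧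
      fl (CLat 𝓕) = 2 ^ ((D + 1) / 2) * (k + t * ((D - 1) * D.factorial)) := by
  induction t with
  | zero =>
    obtain ⟨V, G, _, _, _, _, _, 𝓕, act, r, κ, W, e, hg, hf, hs, hfl⟩ := h
    refine ⟨V, G, inferInstance, inferInstance, inferInstance, inferInstance, inferInstance, 𝓕,
      act, r, κ, W, e, ⟨hg, hf, fun v hv => absurd hv (hs v), fun j hj => absurd hj (by omega),
        fun j hj => absurd hj (by omega)⟩, by simpa using hfl⟩
  | succ t ih =>
    obtain ⟨V, G, _, _, _, _, _, 𝓕, act, r, κ, W, e, hS, hfl⟩ := ih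
    refine ⟨V ⊕ (G × Unit), G, inferInstance, inferInstance, inferInstance, inferInstance,
      inferInstance, _, _, r, _, _, _, snk_step hS, ?_⟩
    rw [snk_fl hS, hfl, hS.good.cG]
    ring

theorem not_R_of_pre {D k : ℕ} (h : Pre D k) :
    ¬ PropertyR (k + (D + 1) * ((D - 1) * D.factorial)) D := by
  obtain ⟨V, G, _, _, _, _, _, 𝓕, act, r, κ, W, e, hS, hfl⟩ := snk_run h D
  refine not_R (snk_step hS).good (snk_exact hS) ?_
  rw [snk_fl hS, hfl, hS.good.cG]
  ring

end H47.KO
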