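import Pool.Agent.H47.KO.FlProd
import Pool.Agent.H47.KO.Cl

/-! # KO.FlFac : flags counted by facets; flags of a simplex facet

`fl_facets`: `fl_sum` for `L = CLat 𝓕`, `t = univ`: the coatoms are exactly the facets (`isCl_le_facet`, `anti`, `univ_nmem`), and `Set.Iic ⟨F, _⟩ ≃o Low 𝓕 F`. `∑` over the finset of
coatoms is transported to `∑ F ∈ 𝓕` (`Finset.sum_bij` or `Finset.sum_attach`).
`low_sx`: all subsets of `F` are closed (`cl_sub_sx`), so `Low 𝓕 F ≃o Finset F` (subtype of elements of `F`), `fl_bool`, `F.card = D`.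
`low_congr`: `A ↦ A.image j` is an order isomorphism `Low 𝓕 F ≃o Low 𝓕' (F.image j)`: a subset `B` of `F.image j` is `A.image j` for `A = F.filter (j · ∈ B)`. -/

namespace H47.KO

open Finset

variable {V : Type}

theorem fl_facets [Fintype V] {D : ℕ} {𝓕 : Finset (Finset V)} (hD : 1 ≤ D) (h : Cplx D 𝓕) :
    fl (CLat 𝓕) = ∑ F ∈ 𝓕, fl (Low 𝓕 F) := by
  classical
  have : Nontrivial V := nontrivial_of_cplx hD h
  have hun : univ ∉ 𝓕 := univ_nmem h
  let t : CLat 𝓕 := ⟨univ, isCl_univ 𝓕⟩
  have ht : ∀ x : CLat 𝓕, x ≤ t := fun x => Finset.subset_univ x.1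
  have hne : ∃ x : CLat 𝓕, x ≠ t := by
    refine ⟨⟨∅, cl_empty h⟩, fun he => ?_⟩
    have h1 : (∅ : Finset V) = univ := congrArg Subtype.val he
    exact Finset.univ_nonempty.ne_empty h1.symm
  let j : {F // F ∈ 𝓕} → CLat 𝓕 := fun F => ⟨F.1, isCl_facet F.2⟩
  have hj : Function.Injective j := by
    intro F G hFG
    have h1 : (j F).1 = (j G).1 := by rw [hFG]
    exact Subtype.ext h1
  have hS : ∀ x, x ∈ 𝓕.attach.image j ↔ x ⋖ t := by
    intro x
    rw [Finset.mem_image]
    constructor
    · rintro ⟨F, -, rfl⟩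
      refine ⟨lt_of_le_of_ne (ht _) ?_, ?_⟩
      · intro he
        have h1 : F.1 = univ := congrArg Subtype.val he
        exact hun (h1 ▸ F.2)
      · intro A hFA hAt
        have hA : A.1 ≠ univ := fun he => hAt.ne (Subtype.ext he)
        obtain ⟨G, hG, hAG⟩ := isCl_le_facet A.2 hA
        have hFA1 : F.1 ⊆ A.1 := hFA.le
        have h1 : F.1 = G := h.anti F.1 F.2 G hG (hFA1.trans hAG)
        have h2 : A.1 ⊆ F.1 := by rw [h1]; exact hAG
        exact hFA.ne (Subtype.ext (Finset.Subset.antisymm hFA1 h2))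
    · intro hx
      have hx1 : x.1 ≠ univ := fun he => hx.1.ne (Subtype.ext he)
      obtain ⟨G, hG, hxG⟩ := isCl_le_facet x.2 hx1
      refine ⟨⟨G, hG⟩, Finset.mem_attach _ _, ?_⟩
      have hle : x ≤ j ⟨G, hG⟩ := hxG
      rcases hle.lt_or_eq with hlt | heq
      · exfalso
        refine hx.2 hlt (lt_of_le_of_ne (ht _) fun he => ?_)
        have h1 : G = univ := congrArg Subtype.val he
        exact hun (h1 ▸ hG)
      · exact heq.symm
  rw [fl_sum t ht hne (𝓕.attach.image j) hS, Finset.sum_image (fun F _ G _ h => hj h),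
    ← Finset.sum_attach 𝓕]
  refine Finset.sum_congr rfl fun F _ => ?_
  let e : Set.Iic (j F) ≃o Low 𝓕 F.1 :=
    { toFun := fun A => ⟨A.1.1, A.1.2, A.2⟩
      invFun := fun A => ⟨⟨A.1, A.2.1⟩, A.2.2⟩
      left_inv := fun A => rfl
      right_inv := fun A => rfl
      map_rel_iff' := Iff.rfl }
  exact fl_congr e

theorem low_sx [DecidableEq V] {D : ℕ} {𝓕 : Finset (Finset V)} {F : Finset V}
    (hF : IsSx D 𝓕 F) : fl (Low 𝓕 F) = D.factorial := by
  let e : Low 𝓕 F ≃o Finset {x // x ∈ F} :=
    { toFun := fun A => A.1.subtype (fun x => x ∈ F)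
      invFun := fun B => ⟨B.map (Function.Embedding.subtype _), cl_sub_sx hF (by
        intro x hx
        obtain ⟨y, -, rfl⟩ := Finset.mem_map.1 hx
        exact y.2), by
        intro x hx
        obtain ⟨y, -, rfl⟩ := Finset.mem_map.1 hx
        exact y.2⟩
      left_inv := by
        intro A
        apply Subtype.ext
        show (A.1.subtype (fun x => x ∈ F)).map (Function.Embedding.subtype _) = A.1
        rw [Finset.subtype_map, Finset.filter_true_of_mem]
        intro x hx
        exact A.2.2 hx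
      right_inv := by
        intro B
        ext x
        simp
      map_rel_iff' := by
        intro A B
        show A.1.subtype (fun x => x ∈ F) ⊆ B.1.subtype (fun x => x ∈ F) ↔ A.1 ⊆ B.1
        constructor
        · intro hAB x hx
          have h1 : (⟨x, A.2.2 hx⟩ : {x // x ∈ F}) ∈ A.1.subtype (fun x => x ∈ F) :=
            Finset.mem_subtype.2 hx
          exact Finset.mem_subtype.1 (hAB h1)
        · intro hAB x hx
          exact Finset.mem_subtype.2 (hAB (Finset.mem_subtype.1 hx)) }
  rw [fl_congr e, fl_bool, Fintype.card_coe, hF.2.1]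

theorem low_congr {V' : Type} [DecidableEq V'] {𝓕 : Finset (Finset V)}
    {𝓕' : Finset (Finset V')} {F : Finset V} (j : V → V') (hj : Function.Injective j)
    (h : ∀ A, A ⊆ F → (IsCl 𝓕' (A.image j) ↔ IsCl 𝓕 A)) :
    fl (Low 𝓕' (F.image j)) = fl (Low 𝓕 F) := by
  have key : ∀ B : Finset V', B ⊆ F.image j → (F.filter (fun x => j x ∈ B)).image j = B := by
    intro B hB
    ext y
    rw [Finset.mem_image]
    constructor
    · rintro ⟨x, hx, rfl⟩
      exact (Finset.mem_filter.1 hx).2
    · intro hy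
      obtain ⟨x, hx, rfl⟩ := Finset.mem_image.1 (hB hy)
      exact ⟨x, Finset.mem_filter.2 ⟨hx, hy⟩, rfl⟩
  let e : Low 𝓕 F ≃o Low 𝓕' (F.image j) :=
    { toFun := fun A => ⟨A.1.image j, (h A.1 A.2.2).2 A.2.1, Finset.image_subset_image A.2.2⟩
      invFun := fun B => ⟨F.filter (fun x => j x ∈ B.1), by
        rw [← h _ (Finset.filter_subset _ _), key B.1 B.2.2]
        exact B.2.1, Finset.filter_subset _ _⟩
      left_inv := by
        intro A
        apply Subtype.ext
        show F.filter (fun x => j x ∈ A.1.image j) = A.1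
        ext x
        rw [Finset.mem_filter, Finset.mem_image]
        constructor
        · rintro ⟨-, y, hy, hyx⟩
          rw [← hj hyx]
          exact hy
        · intro hx
          exact ⟨A.2.2 hx, x, hx, rfl⟩
      right_inv := by
        intro B
        apply Subtype.ext
        exact key B.1 B.2.2
      map_rel_iff' := by
        intro A B
        show A.1.image j ⊆ B.1.image j ↔ A.1 ⊆ B.1
        exact Finset.image_subset_image_iff hj }
  exact (fl_congr e).symm

end H47.KO
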