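import Pool.Agent.H47.KO.FlSum

/-! # KO.FlProd : flags of the product with a two element chain

`fl_prod`: induction on `n` for all `L`. `n = 0`: `b = t` (if `b < t` then there is a cover `x ⋖ y` above `b`, `rk` would be positive: in a finite poset `rk` is strictly monotone along covers), so `L` is a
point, `L × Bool ≃o Bool`, one flag (`fl_sum` for `Bool` or directly). `n + 1`: `L` is not a point (`rk b = 0 ≠ n+1 = rk t`), `L × Bool` has top `(t, true)`, its coatoms are `(t, false)` and
`(x, true)` for `x ⋖ t` (`Prod.mk_covBy_mk_iff`). `Set.Iic (t, false) ≃o L`; `Set.Iic (x, true) ≃o Set.Iic x × Bool`, and `Grd n (Set.Iic x)` by restriction of `rk` (`grd_Iic`; a cover in `Set.Iic x`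
is a cover in `L`). `fl_sum` twice: `fl (L × Bool) = fl L + ∑ (n+1) fl (Iic x) = (n+2) fl L`.
`grd_Iic`: `rk x = n` because `rk t = rk x + 1`.
`fl_bool`: `fl (Finset α) = (card α)!` by `Finset (Option α) ≃o Finset α × Bool` and `fl_prod` with `Grd (card α) (Finset α)` (`rk = card`), induction with `Fintype.induction_empty_option`
(`Finset PEmpty` is a point). -/

namespace H47.KO

open Finset

theorem grd_Iic {L : Type} [PartialOrder L] {n : ℕ} (h : Grd (n + 1) L) (t x : L)
    (ht : ∀ y, y ≤ t) (hx : x ⋖ t) : Grd n (Set.Iic x) := by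
  obtain ⟨rk, b, t', hb, ht', h0, h1, h2⟩ := h
  have htt : t' = t := le_antisymm (ht _) (ht' _)
  subst htt
  have hrx : rk x = n := by
    have h3 := h2 x t' hx
    omega
  refine ⟨fun y => rk y, ⟨b, hb x⟩, ⟨x, le_refl x⟩, fun y => hb y, fun y => y.2, h0, hrx, ?_⟩
  intro y z hyz
  apply h2
  refine ⟨hyz.lt, ?_⟩
  intro w hyw hwz
  exact hyz.2 (c := ⟨w, hwz.le.trans z.2⟩) hyw hwz

private theorem bool_cov (a : Bool) : a ⋖ true ↔ a = false := by
  constructor
  · intro h
    cases a with
    | false => rfl
    | true => exact absurd h.lt (lt_irrefl _)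
  · rintro rfl
    refine ⟨Bool.false_lt_true, ?_⟩
    intro c h1 h2
    cases c with
    | false => exact lt_irrefl _ h1
    | true => exact lt_irrefl _ h2

private theorem bool_le {i : Bool} (h : i ≤ false) : i = false := by
  cases i with
  | false => rfl
  | true => exact (le_antisymm h (Bool.false_le true))

private def isoA {L : Type} [PartialOrder L] (t : L) (ht : ∀ x, x ≤ t) :
    Set.Iic ((t, false) : L × Bool) ≃o L where
  toFun z := z.1.1
  invFun x := ⟨(x, false), ⟨ht x, le_refl _⟩⟩
  left_inv := by
    rintro ⟨⟨x, i⟩, h⟩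
    have h1 : i ≤ false := h.2
    have h2 : i = false := bool_le h1
    subst h2
    rfl
  right_inv x := rfl
  map_rel_iff' := by
    rintro ⟨⟨x, i⟩, h⟩ ⟨⟨y, j⟩, h'⟩
    have h2 : i = false := bool_le h.2
    have h3 : j = false := bool_le h'.2
    subst h2
    subst h3
    constructor
    · intro h4
      exact ⟨h4, le_refl _⟩
    · intro h4
      exact h4.1

private def isoB {L : Type} [PartialOrder L] (x : L) :
    Set.Iic ((x, true) : L × Bool) ≃o Set.Iic x × Bool where
  toFun z := (⟨z.1.1, z.2.1⟩, z.1.2)
  invFun p := ⟨(p.1.1, p.2), ⟨p.1.2, Bool.le_true _⟩⟩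
  left_inv z := rfl
  right_inv p := rfl
  map_rel_iff' := Iff.rfl

private theorem fl_step {L : Type} [PartialOrder L] [Finite L] (t : L) (ht : ∀ x, x ≤ t)
    (S : Finset L) (hS : ∀ x, x ∈ S ↔ x ⋖ t) :
    fl (L × Bool) = fl L + ∑ x ∈ S, fl (Set.Iic x × Bool) := by
  classical
  have h1 := fl_sum (L := L × Bool) (t, true) (fun x => Prod.mk_le_mk.2 ⟨ht x.1, Bool.le_true _⟩)
    ⟨(t, false), fun h => Bool.false_ne_true (congrArg Prod.snd h)⟩
    (insert (t, false) (S.image fun x => (x, true))) (by
      rintro ⟨x, i⟩
      rw [Prod.mk_covBy_mk_iff, bool_cov, Finset.mem_insert, Finset.mem_image]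
      constructor
      · rintro (h | ⟨y, hy, h⟩)
        · have h3 := congrArg Prod.fst h
          have h4 := congrArg Prod.snd h
          exact Or.inr ⟨h4, h3⟩
        · have h3 : y = x := congrArg Prod.fst h
          have h4 : true = i := congrArg Prod.snd h
          left
          exact ⟨h3 ▸ (hS y).1 hy, h4.symm⟩
      · rintro (⟨h, h'⟩ | ⟨h, h'⟩)
        · right
          exact ⟨x, (hS x).2 h, by rw [h']⟩
        · left
          rw [h, h'])
  have h2 : ((t, false) : L × Bool) ∉ S.image fun x => (x, true) := by
    intro h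
    obtain ⟨y, _, hy⟩ := Finset.mem_image.1 h
    exact Bool.false_ne_true (congrArg Prod.snd hy).symm
  rw [Finset.sum_insert h2, Finset.sum_image (by
    intro a _ b _ h
    exact congrArg Prod.fst h), fl_congr (isoA t ht)] at h1
  rw [h1]
  congr 1
  exact Finset.sum_congr rfl fun x _ => fl_congr (isoB x)

theorem fl_prod {L : Type} [PartialOrder L] [Finite L] {n : ℕ} (h : Grd n L) :
    fl (L × Bool) = (n + 1) * fl L := by
  induction n generalizing L with
  | zero =>
    obtain ⟨rk, b, t, hb, ht, h0, h1, h2⟩ := h
    rw [fl_step t ht ∅ (by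
      intro x
      constructor
      · intro hx
        exact absurd hx (Finset.notMem_empty x)
      · intro hx
        have h3 := h2 x t hx
        omega), Finset.sum_empty]
    ring
  | succ n ih =>
    have h' := h
    obtain ⟨rk, b, t, hb, ht, h0, h1, h2⟩ := h
    have hS : ∀ x, x ∈ (Set.toFinite {x | x ⋖ t}).toFinset ↔ x ⋖ t := by
      intro x
      rw [Set.Finite.mem_toFinset]
      rfl
    have hne : ∃ x, x ≠ t := by
      refine ⟨b, ?_⟩
      rintro rfl
      omega
    rw [fl_step t ht _ hS, fl_sum t ht hne _ hS]
    have h3 : ∀ x ∈ (Set.toFinite {x | x ⋖ t}).toFinset,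
        fl (Set.Iic x × Bool) = (n + 1) * fl (Set.Iic x) := by
      intro x hx
      exact ih (grd_Iic h' t x ht ((hS x).1 hx))
    rw [Finset.sum_congr rfl h3, ← Finset.mul_sum]
    ring

private theorem grd_finset (α : Type) [Fintype α] : Grd (Fintype.card α) (Finset α) := by
  classical
  refine ⟨Finset.card, ∅, Finset.univ, fun x => Finset.empty_subset x,
    fun x => Finset.subset_univ x, Finset.card_empty, Finset.card_univ, ?_⟩
  intro x y h
  obtain ⟨a, ha, rfl⟩ := Finset.covBy_iff_exists_insert.1 h
  exact Finset.card_insert_of_notMem ha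

private noncomputable def isoC (α : Type) : Finset (Option α) ≃o Finset α × Bool := by
  classical
  exact
  { toFun := fun s => (Finset.eraseNone s, decide (none ∈ s))
    invFun := fun p => if p.2 then Finset.insertNone p.1 else p.1.map Function.Embedding.some
    left_inv := by
      intro s
      ext a
      by_cases h : none ∈ s
      · simp only [h, decide_true, if_true]
        cases a with
        | none => simp [h]
        | some a => simp
      · simp only [h, decide_false]
        cases a with
        | none => simp [h]
        | some a => simp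
    right_inv := by
      rintro ⟨s, b⟩
      cases b with
      | true => simp
      | false => simp
    map_rel_iff' := by
      intro s s'
      change (Finset.eraseNone s ⊆ Finset.eraseNone s' ∧ decide (none ∈ s) ≤ decide (none ∈ s')) ↔
        s ⊆ s'
      constructor
      · rintro ⟨h1, h2⟩ a ha
        cases a with
        | none =>
          have h3 : decide (none ∈ s) = true := decide_eq_true ha
          rw [h3] at h2
          exact of_decide_eq_true (Bool.eq_true_of_true_le h2)
        | some a => exact Finset.mem_eraseNone.1 (h1 (Finset.mem_eraseNone.2 ha))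
      · intro h
        refine ⟨fun a ha => Finset.mem_eraseNone.2 (h (Finset.mem_eraseNone.1 ha)), ?_⟩
        by_cases h1 : none ∈ s
        · rw [decide_eq_true (h h1)]
          exact Bool.le_true _
        · rw [decide_eq_false h1]
          exact Bool.false_le _ }

theorem fl_bool (α : Type) [Fintype α] : fl (Finset α) = (Fintype.card α).factorial := by
  refine Fintype.induction_empty_option
    (P := fun (α : Type) [Fintype α] => fl (Finset α) = (Fintype.card α).factorial) ?_ ?_ ?_ α
  · intro α β _ e ih
    have h1 : fl (Finset α) = fl (Finset β) := fl_congr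
      { e.finsetCongr with
        map_rel_iff' := by
          intro s s'
          exact Finset.map_subset_map }
    rw [← h1, ih]
    congr 1
    exact @Fintype.card_congr _ _ (Fintype.ofEquiv β e.symm) _ e
  · rw [fl_unique]
    rfl
  · intro α _ ih
    rw [fl_congr (isoC α), fl_prod (grd_finset α), ih, Fintype.card_option,
      Nat.factorial_succ]

end H47.KO
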