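import Pool.Agent.H47.KO.Defs

/-! # KO.FlSum : counting flags by coatoms

`L` finite with top `t`, `S` = the coatoms. A maximal chain `C` contains `t`; `C \ {t}` is a nonempty chain (`hne`: some `x ≠ t`; if `C = {t}` then `C` is not maximal as `{x, t}` is a chain), it has a largest
element `x` (finite), and `x ⋖ t` (an element strictly between could be added to `C`). `C ∩ Iic x` is a maximal chain of `Set.Iic x`, and `C = (C ∩ Iic x) ∪ {t}`. Conversely a maximal chain `C'` of
`Set.Iic x`, `x ⋖ t`, gives the maximal chain `C' ∪ {t}` (an element comparable with all elements of `C' ∪ {t}` is comparable with `x`, so is `≤ x` or `= t`). So `Flag L ≃ Σ x : S, Flag (Set.Iic x)`.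
`fl_congr`: an order isomorphism maps flags to flags (`Flag.map` or by hand). -/

namespace H47.KO

open Finset

theorem fl_congr {L L' : Type} [PartialOrder L] [PartialOrder L'] (e : L ≃o L') : fl L = fl L' := by
  exact Nat.card_congr (Flag.map e)

theorem fl_unique {L : Type} [PartialOrder L] [Unique L] : fl L = 1 := by
  have h1 : ∀ (C : Flag L) (x : L), x ∈ C := by
    intro C x
    rw [Flag.mem_iff_forall_le_or_ge]
    intro b _
    exact Or.inl (le_of_eq (Subsingleton.elim _ _))
  have hsub : Subsingleton (Flag L) := ⟨fun C D => by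
    apply SetLike.ext
    intro x
    exact iff_of_true (h1 C x) (h1 D x)⟩
  have hne : Nonempty (Flag L) := by
    refine ⟨⟨Set.univ, ?_, ?_⟩⟩
    · intro a _ b _ hab
      exact absurd (Subsingleton.elim a b) hab
    · intro s _ hs
      exact (Set.eq_univ_of_univ_subset hs).symm
  exact Nat.card_eq_one_iff_unique.2 ⟨hsub, hne⟩

private theorem top_mem_flag {L : Type} [PartialOrder L] (t : L) (ht : ∀ x, x ≤ t) (C : Flag L) :
    t ∈ C := by
  rw [Flag.mem_iff_forall_le_or_ge]
  intro b _
  exact Or.inr (ht b)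

private theorem self_mem_flag {L : Type} [PartialOrder L] (x : L) (C : Flag (Set.Iic x)) :
    (⟨x, le_refl x⟩ : Set.Iic x) ∈ C :=
  top_mem_flag (⟨x, le_refl x⟩ : Set.Iic x) (fun y => y.2) C

/-- the flag of `L` obtained from a flag below a coatom -/
private noncomputable def upFlag {L : Type} [PartialOrder L] (t : L) (ht : ∀ x, x ≤ t) (x : L)
    (hx : x ⋖ t) (C : Flag (Set.Iic x)) : Flag L where
  carrier := insert t (Subtype.val '' (C : Set (Set.Iic x)))
  Chain' := by
    refine IsChain.insert ?_ ?_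
    · rintro _ ⟨a, ha, rfl⟩ _ ⟨b, hb, rfl⟩ _
      exact C.le_or_le ha hb
    · intro b _ _
      exact Or.inr (ht b)
  max_chain' := by
    intro s hs hsub
    refine Set.Subset.antisymm hsub ?_
    intro y hy
    have hxs : x ∈ s := hsub (Or.inr ⟨⟨x, le_refl x⟩, self_mem_flag x C, rfl⟩)
    rcases hs.total hxs hy with h | h
    · rcases eq_or_lt_of_le h with h1 | h1
      · right
        exact ⟨⟨x, le_refl x⟩, self_mem_flag x C, h1⟩
      · left
        rcases eq_or_lt_of_le (ht y) with h2 | h2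
        · exact h2
        · exact absurd h2 (hx.2 h1)
    · right
      refine ⟨⟨y, h⟩, ?_, rfl⟩
      change (⟨y, h⟩ : Set.Iic x) ∈ C
      rw [Flag.mem_iff_forall_le_or_ge]
      intro b hb
      have hbs : (b : L) ∈ s := hsub (Or.inr ⟨b, hb, rfl⟩)
      exact hs.total hy hbs

private theorem mem_upFlag {L : Type} [PartialOrder L] (t : L) (ht : ∀ x, x ≤ t) (x : L)
    (hx : x ⋖ t) (C : Flag (Set.Iic x)) (y : L) :
    y ∈ upFlag t ht x hx C ↔ y = t ∨ ∃ h : y ≤ x, (⟨y, h⟩ : Set.Iic x) ∈ C := by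
  constructor
  · rintro (h | ⟨a, ha, rfl⟩)
    · exact Or.inl h
    · exact Or.inr ⟨a.2, ha⟩
  · rintro (h | ⟨h, h'⟩)
    · exact Or.inl h
    · exact Or.inr ⟨⟨y, h⟩, h', rfl⟩

/-- the flag below a coatom obtained from a flag of `L` -/
private noncomputable def dnFlag {L : Type} [PartialOrder L] (t : L) (ht : ∀ x, x ≤ t) (x : L)
    (C : Flag L) (hC : ∀ z ∈ C, z ≠ t → z ≤ x) : Flag (Set.Iic x) where
  carrier := {z | (z : L) ∈ C}
  Chain' := by
    intro a ha b hb _
    exact C.le_or_le ha hb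
  max_chain' := by
    intro s hs hsub
    refine Set.Subset.antisymm hsub ?_
    intro y hy
    change (y : L) ∈ C
    rw [Flag.mem_iff_forall_le_or_ge]
    intro b hb
    by_cases hbt : b = t
    · exact Or.inl (hbt ▸ ht _)
    · have h1 : (⟨b, hC b hb hbt⟩ : Set.Iic x) ∈ s := hsub hb
      exact hs.total hy h1

theorem fl_sum {L : Type} [PartialOrder L] [Finite L] (t : L) (ht : ∀ x, x ≤ t)
    (hne : ∃ x, x ≠ t) (S : Finset L) (hS : ∀ x, x ∈ S ↔ x ⋖ t) :
    fl L = ∑ x ∈ S, fl (Set.Iic x) := by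
  classical
  let f : (Σ x : {x // x ∈ S}, Flag (Set.Iic x.1)) → Flag L :=
    fun p => upFlag t ht p.1.1 ((hS _).1 p.1.2) p.2
  have hinj : Function.Injective f := by
    rintro ⟨⟨x, hx⟩, C⟩ ⟨⟨y, hy⟩, D⟩ hCD
    have hxt := (hS _).1 hx
    have hyt := (hS _).1 hy
    have key : ∀ (x y : L) (hxt : x ⋖ t) (hyt : y ⋖ t) (C : Flag (Set.Iic x))
        (D : Flag (Set.Iic y)), upFlag t ht x hxt C = upFlag t ht y hyt D →
        ∀ z (hz : z ≤ x), (⟨z, hz⟩ : Set.Iic x) ∈ C → ∃ h : z ≤ y, (⟨z, h⟩ : Set.Iic y) ∈ D := by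
      intro x y hxt hyt C D h z hz hzC
      have h1 : z ∈ upFlag t ht x hxt C := (mem_upFlag t ht x hxt C z).2 (Or.inr ⟨hz, hzC⟩)
      rw [h, mem_upFlag] at h1
      rcases h1 with h1 | h1
      · exact absurd (h1 ▸ hz) (not_le_of_gt hxt.lt)
      · exact h1
    have hCD' : upFlag t ht x hxt C = upFlag t ht y hyt D := hCD
    have h1 : x ≤ y := (key x y hxt hyt C D hCD' x (le_refl x) (self_mem_flag x C)).1
    have h2 : y ≤ x := (key y x hyt hxt D C hCD'.symm y (le_refl y) (self_mem_flag y D)).1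
    have h3 : x = y := le_antisymm h1 h2
    subst h3
    have h4 : C = D := by
      apply SetLike.ext
      rintro ⟨z, hz⟩
      constructor
      · intro h
        exact (key x x hxt hyt C D hCD' z hz h).2
      · intro h
        exact (key x x hyt hxt D C hCD'.symm z hz h).2
    rw [h4]
  have hsurj : Function.Surjective f := by
    intro C
    have htC : t ∈ C := top_mem_flag t ht C
    have hfin : ({z | z ∈ C ∧ z ≠ t} : Set L).Finite := Set.toFinite _
    have hnon : ({z | z ∈ C ∧ z ≠ t} : Set L).Nonempty := by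
      by_contra h
      rw [Set.not_nonempty_iff_eq_empty] at h
      obtain ⟨x0, hx0⟩ := hne
      have h1 : x0 ∈ C := by
        rw [Flag.mem_iff_forall_le_or_ge]
        intro b hb
        have hbt : b = t := by
          by_contra hbt
          have : b ∈ ({z | z ∈ C ∧ z ≠ t} : Set L) := ⟨hb, hbt⟩
          rw [h] at this
          exact this
        exact Or.inl (hbt ▸ ht x0)
      have : x0 ∈ ({z | z ∈ C ∧ z ≠ t} : Set L) := ⟨h1, hx0⟩
      rw [h] at this
      exact this
    obtain ⟨x, hxmax⟩ := hfin.exists_maximal hnon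
    have hxC : x ∈ C := hxmax.prop.1
    have hxt : x ≠ t := hxmax.prop.2
    have hgr : ∀ z ∈ C, z ≠ t → z ≤ x := by
      intro z hz hzt
      rcases C.le_or_le hz hxC with h | h
      · exact h
      · exact hxmax.2 ⟨hz, hzt⟩ h
    have hcov : x ⋖ t := by
      refine ⟨lt_of_le_of_ne (ht x) hxt, ?_⟩
      intro y hxy hyt
      have hyC : y ∈ C := by
        rw [Flag.mem_iff_forall_le_or_ge]
        intro b hb
        by_cases hbt : b = t
        · exact Or.inl (hbt ▸ ht y)
        · exact Or.inr ((hgr b hb hbt).trans hxy.le)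
      exact absurd (hgr y hyC hyt.ne) (not_le_of_gt hxy)
    refine ⟨⟨⟨x, (hS x).2 hcov⟩, dnFlag t ht x C hgr⟩, ?_⟩
    apply SetLike.ext
    intro z
    change z ∈ upFlag t ht x hcov (dnFlag t ht x C hgr) ↔ z ∈ C
    rw [mem_upFlag]
    constructor
    · rintro (h | ⟨h, h'⟩)
      · rw [h]
        exact htC
      · exact h'
    · intro hz
      by_cases hzt : z = t
      · exact Or.inl hzt
      · exact Or.inr ⟨hgr z hz hzt, hz⟩
  have h1 : fl L = Nat.card (Σ x : {x // x ∈ S}, Flag (Set.Iic x.1)) :=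
    (Nat.card_congr (Equiv.ofBijective f ⟨hinj, hsurj⟩)).symm
  have hfinF : ∀ x : {x // x ∈ S}, Finite (Flag (Set.Iic x.1)) := fun x =>
    Finite.of_injective (fun C : Flag (Set.Iic x.1) => (C : Set (Set.Iic x.1)))
      SetLike.coe_injective
  rw [h1, Nat.card_sigma, ← Finset.sum_coe_sort S (fun x => fl (Set.Iic x))]
  rfl

end H47.KO
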