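import Pool.Agent.H47.KO.GlueCl

/-! # KO.GlueSx : simplex facets of a glued family

`isSx_glue_inl`: `F.image inl = F.disjSum ∅` is a facet, card `D`. Let `f ∈ F`, `G ∈ 𝓕` with `F ∩ G = F.erase f`. If `G` is not glued: `G.disjSum ∅`. If `G = im (e i)`: `F.erase f ⊆ im (e i)`, it has `D - 1` elements, so `F.erase f = (im (e i)).erase (e i j)` for some `j`; by `sx0` there is `A ∈ 𝓖` with
`im inl ∩ A = (im inl).erase (inl j)`, `A ≠ im inl`; `F.disjSum ∅ ∩ A.image (phi e i) = inl '' (F ∩ im (e i) ∩ (im (e i)).erase (e i j)) = inl '' (F.erase f)`.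
`isSx_glue_phi`: `A.image (phi e i)` is a facet, card `D`. Let `x ∈ A`, `A' ∈ 𝓖` with `A ∩ A' = A.erase x`. If `A' ≠ im inl`: `A'.image (phi e i)` (`phi` injective). If `A' = im inl`: `A.erase x ⊆ im inl` has `D - 1` elements, `A.erase x = (im inl).erase (inl j)`. By `sx i` there is `G ∈ 𝓕` with
`im (e i) ∩ G = (im (e i)).erase (e i j)`. If `G` is not glued: `A.image (phi e i) ∩ G.disjSum ∅ = inl '' ((im (e i)).erase (e i j))`. If `G = im (e i')`, `i' ≠ i`: this set has `D - 1` elements so it is `(im (e i')).erase (e i' j')`; take `A2 ∈ 𝓖` with `im inl ∩ A2 = (im inl).erase (inl j')`: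
`A.image (phi e i) ∩ A2.image (phi e i')` contains no `inr` (`i ≠ i'`) and is `inl '' ((im (e i)).erase (e i j) ∩ (im (e i')).erase (e i' j'))`. -/

namespace H47.KO

open Finset

variable {V : Type} [Fintype V] [DecidableEq V] {D : ℕ} {𝓕 : Finset (Finset V)}
variable {ι W : Type} [Fintype ι] [DecidableEq ι] [Fintype W] [DecidableEq W]
variable {𝓖 : Finset (Finset (Fin D ⊕ W))} {e : ι → Fin D → V}

private theorem gsx_erase {U : Type} [Fintype U] [DecidableEq U] (f : Fin D → U) (hf : Function.Injective f)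
    (S : Finset U) (hS : S ⊆ im f) (hc : S.card + 1 = D) : ∃ j, (im f).erase (f j) = S := by
  have h1 : (im f).card = D := im_card f hf
  have h2 : ∃ x ∈ im f, x ∉ S := by
    by_contra h
    push Not at h
    have h3 := Finset.card_le_card h
    omega
  obtain ⟨x, hx, hxS⟩ := h2
  obtain ⟨j, rfl⟩ := (mem_im f x).1 hx
  refine ⟨j, ?_⟩
  symm
  apply Finset.eq_of_subset_of_card_le
  · intro y hy
    refine Finset.mem_erase.2 ⟨?_, hS hy⟩
    rintro rfl
    exact hxS hy
  · rw [Finset.card_erase_of_mem hx]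
    omega

private theorem gsx_mem {U : Type} [Fintype U] [DecidableEq U] (f : Fin D → U) (hf : Function.Injective f)
    (A : Finset U) (j : Fin D) (h : im f ∩ A = (im f).erase (f j)) (j' : Fin D) :
    f j' ∈ A ↔ j' ≠ j := by
  have h1 : f j' ∈ im f := (mem_im f _).2 ⟨j', rfl⟩
  constructor
  · rintro h2 rfl
    have h3 : f j' ∈ im f ∩ A := Finset.mem_inter.2 ⟨h1, h2⟩
    rw [h] at h3
    exact (Finset.mem_erase.1 h3).1 rfl
  · intro h2
    have h3 : f j' ∈ (im f).erase (f j) := Finset.mem_erase.2 ⟨fun h4 => h2 (hf h4), h1⟩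
    rw [← h] at h3
    exact (Finset.mem_inter.1 h3).2

private theorem gsx_ne {U : Type} [Fintype U] [DecidableEq U] (f : Fin D → U) (hf : Function.Injective f)
    (A : Finset U) (j : Fin D) (h : im f ∩ A = (im f).erase (f j)) : A ≠ im f := by
  intro h1
  exact (gsx_mem f hf A j h j).1 (h1 ▸ (mem_im f _).2 ⟨j, rfl⟩) rfl

private theorem gsx_inl (F : Finset V) :
    (F.disjSum ∅ : Finset (V ⊕ (ι × W))) = F.image Sum.inl := by
  ext x
  cases x with
  | inl v => simp
  | inr v => simp

/-- simplex facets which are not glued remain simplex facets -/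
theorem isSx_glue_inl (h : GlueOK D 𝓕 𝓖 e) {F : Finset V} (hF : IsSx D 𝓕 F)
    (hF' : ∀ i, im (e i) ≠ F) : IsSx D (glue 𝓕 𝓖 e) (F.image Sum.inl) := by
  obtain ⟨hF1, hF2, hF3⟩ := hF
  refine ⟨mem_glue.2 (Or.inl ⟨F, hF1, hF', (gsx_inl F).symm⟩), ?_, ?_⟩
  · rw [Finset.card_image_of_injective _ Sum.inl_injective, hF2]
  · intro x hx
    obtain ⟨f, hf, rfl⟩ := Finset.mem_image.1 hx
    obtain ⟨G, hG, hFG⟩ := hF3 f hf
    by_cases hgl : ∀ i, im (e i) ≠ G
    · refine ⟨G.disjSum ∅, mem_glue.2 (Or.inl ⟨G, hG, hgl, rfl⟩), ?_⟩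
      rw [gsx_inl, ← Finset.image_inter _ _ Sum.inl_injective, hFG,
        Finset.image_erase Sum.inl_injective]
    · push Not at hgl
      obtain ⟨i, rfl⟩ := hgl
      have hsub : F.erase f ⊆ im (e i) := by
        rw [← hFG]
        exact Finset.inter_subset_right
      have hc : (F.erase f).card + 1 = D := by
        rw [Finset.card_erase_add_one hf, hF2]
      obtain ⟨j, hj⟩ := gsx_erase (e i) (h.inj i) _ hsub hc
      obtain ⟨A, hA, hA1⟩ := h.sx0.2.2 (Sum.inl j) ((mem_im _ _).2 ⟨j, rfl⟩)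
      have hAm := gsx_mem (Sum.inl : Fin D → Fin D ⊕ W) Sum.inl_injective A j hA1
      have hAn := gsx_ne (Sum.inl : Fin D → Fin D ⊕ W) Sum.inl_injective A j hA1
      refine ⟨A.image (phi e i), mem_glue.2 (Or.inr ⟨i, A, hA, hAn, rfl⟩), ?_⟩
      ext x
      rw [Finset.mem_inter, Finset.mem_erase]
      cases x with
      | inr w => simp
      | inl v =>
        rw [inl_mem_phi]
        constructor
        · rintro ⟨h1, j', rfl, h2⟩
          refine ⟨?_, h1⟩
          intro h3
          have h4 : e i j' ∈ (im (e i)).erase (e i j) :=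
            Finset.mem_erase.2 ⟨fun h5 => (hAm j').1 h2 (h.inj i h5), (mem_im _ _).2 ⟨j', rfl⟩⟩
          rw [hj] at h4
          exact (Finset.mem_erase.1 h4).1 (Sum.inl_injective h3)
        · rintro ⟨h1, h2⟩
          refine ⟨h2, ?_⟩
          have h3 : v ∈ F.erase f := by
            refine Finset.mem_erase.2 ⟨fun h4 => h1 (by rw [h4]), ?_⟩
            obtain ⟨v', hv', h5⟩ := Finset.mem_image.1 h2
            exact Sum.inl_injective h5 ▸ hv'
          rw [← hj] at h3
          obtain ⟨j', hj'⟩ := (mem_im _ _).1 (Finset.mem_erase.1 h3).2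
          refine ⟨j', hj', (hAm j').2 ?_⟩
          rintro rfl
          exact (Finset.mem_erase.1 h3).1 hj'.symm

/-- simplex facets of the gadget become simplex facets -/
theorem isSx_glue_phi (h : GlueOK D 𝓕 𝓖 e) (i : ι) {A : Finset (Fin D ⊕ W)} (hA : IsSx D 𝓖 A)
    (hA' : A ≠ im Sum.inl) : IsSx D (glue 𝓕 𝓖 e) (A.image (phi e i)) := by
  obtain ⟨hA1, hA2, hA3⟩ := hA
  have hphi : Function.Injective (phi (W := W) e i) := phi_inj h i
  refine ⟨mem_glue.2 (Or.inr ⟨i, A, hA1, hA', rfl⟩), ?_, ?_⟩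
  · rw [Finset.card_image_of_injective _ hphi, hA2]
  · intro x hx
    obtain ⟨a, ha, rfl⟩ := Finset.mem_image.1 hx
    obtain ⟨A', hA'1, hAA⟩ := hA3 a ha
    rw [← Finset.image_erase hphi]
    by_cases hgl : A' = im Sum.inl
    · subst hgl
      have hsub : A.erase a ⊆ im (Sum.inl : Fin D → Fin D ⊕ W) := by
        rw [← hAA]
        exact Finset.inter_subset_right
      have hc : (A.erase a).card + 1 = D := by
        rw [Finset.card_erase_add_one ha, hA2]
      obtain ⟨j, hj⟩ := gsx_erase (Sum.inl : Fin D → Fin D ⊕ W) Sum.inl_injective _ hsub hc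
      have hmem : ∀ j' : Fin D, (Sum.inl j' : Fin D ⊕ W) ∈ A.erase a ↔ j' ≠ j := by
        intro j'
        rw [← hj, Finset.mem_erase]
        constructor
        · rintro ⟨h1, _⟩ h2
          exact h1 (by rw [h2])
        · intro h1
          exact ⟨fun h2 => h1 (Sum.inl_injective h2), (mem_im _ _).2 ⟨j', rfl⟩⟩
      have hnoinr : ∀ w, (Sum.inr w : Fin D ⊕ W) ∉ A.erase a := by
        intro w hw
        obtain ⟨j', hj'⟩ := (mem_im _ _).1 (hsub hw)
        exact Sum.inl_ne_inr hj'
      have hane : ∀ j', a ≠ Sum.inl j' := by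
        intro j' haj
        apply hA'
        have h1 : A ⊆ im (Sum.inl : Fin D → Fin D ⊕ W) := by
          intro y hy
          by_cases hya : y = a
          · rw [hya, haj]
            exact (mem_im _ _).2 ⟨j', rfl⟩
          · exact hsub (Finset.mem_erase.2 ⟨hya, hy⟩)
        apply Finset.eq_of_subset_of_card_le h1
        rw [im_card _ Sum.inl_injective, hA2]
      have hmemA : ∀ j' : Fin D, (Sum.inl j' : Fin D ⊕ W) ∈ A ↔ j' ≠ j := by
        intro j'
        rw [← hmem j', Finset.mem_erase]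
        exact ⟨fun h1 => ⟨(hane j').symm, h1⟩, fun h1 => h1.2⟩
      obtain ⟨G, hG, hG1⟩ := (h.sx i).2.2 (e i j) ((mem_im _ _).2 ⟨j, rfl⟩)
      have hGm := gsx_mem (e i) (h.inj i) G j hG1
      have hGn := gsx_ne (e i) (h.inj i) G j hG1
      by_cases hgl : ∀ i', im (e i') ≠ G
      · refine ⟨G.disjSum ∅, mem_glue.2 (Or.inl ⟨G, hG, hgl, rfl⟩), ?_⟩
        ext x
        rw [Finset.mem_inter]
        cases x with
        | inr kw =>
          obtain ⟨k, w⟩ := kw
          rw [inr_mem_phi, inr_mem_phi]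
          constructor
          · rintro ⟨_, h1⟩
            simp at h1
          · rintro ⟨_, h1⟩
            exact absurd h1 (hnoinr _)
        | inl v =>
          rw [inl_mem_phi, inl_mem_phi]
          constructor
          · rintro ⟨⟨j', h1, h2⟩, _⟩
            exact ⟨j', h1, (hmem j').2 ((hmemA j').1 h2)⟩
          · rintro ⟨j', h1, h2⟩
            have h3 := (hmem j').1 h2
            refine ⟨⟨j', h1, (hmemA j').2 h3⟩, ?_⟩
            have h4 := (hGm j').2 h3
            rw [h1] at h4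
            simpa using h4
      · push Not at hgl
        obtain ⟨i', rfl⟩ := hgl
        have hii : i' ≠ i := by
          rintro rfl
          exact hGn rfl
        have hsub2 : (im (e i)).erase (e i j) ⊆ im (e i') := by
          rw [← hG1]
          exact Finset.inter_subset_right
        have hc2 : ((im (e i)).erase (e i j)).card + 1 = D := by
          rw [Finset.card_erase_add_one ((mem_im _ _).2 ⟨j, rfl⟩), im_card _ (h.inj i)]
        obtain ⟨j2, hj2⟩ := gsx_erase (e i') (h.inj i') _ hsub2 hc2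
        obtain ⟨A2, hA2m, hA21⟩ := h.sx0.2.2 (Sum.inl j2) ((mem_im _ _).2 ⟨j2, rfl⟩)
        have hAm := gsx_mem (Sum.inl : Fin D → Fin D ⊕ W) Sum.inl_injective A2 j2 hA21
        have hAn := gsx_ne (Sum.inl : Fin D → Fin D ⊕ W) Sum.inl_injective A2 j2 hA21
        refine ⟨A2.image (phi e i'), mem_glue.2 (Or.inr ⟨i', A2, hA2m, hAn, rfl⟩), ?_⟩
        ext x
        rw [Finset.mem_inter]
        cases x with
        | inr kw =>
          obtain ⟨k, w⟩ := kw
          rw [inr_mem_phi, inr_mem_phi, inr_mem_phi]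
          constructor
          · rintro ⟨⟨h1, _⟩, h2, _⟩
            exact absurd (h2.symm.trans h1) hii
          · rintro ⟨_, h1⟩
            exact absurd h1 (hnoinr _)
        | inl v =>
          rw [inl_mem_phi, inl_mem_phi, inl_mem_phi]
          constructor
          · rintro ⟨⟨j', h1, h2⟩, _⟩
            exact ⟨j', h1, (hmem j').2 ((hmemA j').1 h2)⟩
          · rintro ⟨j', h1, h2⟩
            have h3 := (hmem j').1 h2
            refine ⟨⟨j', h1, (hmemA j').2 h3⟩, ?_⟩
            have h4 : v ∈ (im (e i)).erase (e i j) := by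
              rw [← h1]
              exact Finset.mem_erase.2 ⟨fun h5 => h3 (h.inj i h5), (mem_im _ _).2 ⟨j', rfl⟩⟩
            rw [← hj2] at h4
            obtain ⟨k, hk⟩ := (mem_im _ _).1 (Finset.mem_erase.1 h4).2
            refine ⟨k, hk, (hAm k).2 ?_⟩
            rintro rfl
            exact (Finset.mem_erase.1 h4).1 hk.symm
    · refine ⟨A'.image (phi e i), mem_glue.2 (Or.inr ⟨i, A', hA'1, hgl, rfl⟩), ?_⟩
      rw [← Finset.image_inter _ _ hphi, hAA]

end H47.KO
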