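import Pool.Agent.H47.KO.GoodGlue
import Pool.Agent.H47.KO.GlueSx

/-! # KO.FreeGlue : gluing on a free orbit

`e = eG act e0`, index type `G`, `aι = actL G`, `τ = 1`. `glueOK_free`: `im (eG act e0 g) = (im e0).image (act g)`, a simplex facet because `act g` preserves `𝓕` (also `act g⁻¹`); `dist`: `(im e0).image (act g) = (im e0).image (act h)` gives `(im e0).image (act (h⁻¹ * g)) = im e0`, `free`.
`eqGlue_free`: `σ = 1`: `act g (act h (e0 j)) = act (g * h) (e0 j)`.
`core_free`: `FreeF.core`.
`freeF_glue_gad`: `e' j = phi (eG act e0) 1 (e1 j)`; `im e' = (im e1).image (phi .. 1)`, a simplex facet by `isSx_glue_phi`. It contains some `inr (1, w)` (`im e1 ≠ im inl` and both have `D` elements). Its image under `g` contains `inr (g, w')` and only `inr`'s with first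
component `g`: equal to `im e'` only for `g = 1`. It is never `C.image (inl ∘ κ) ∪ W₀.image inl`. -/

namespace H47.KO

open Finset

variable {V G : Type} [Fintype V] [DecidableEq V] [Group G] [Fintype G] [DecidableEq G] {D : ℕ}
  {𝓕 : Finset (Finset V)} {act : G →* Equiv.Perm V} {r : G} {κ : Fin 11 → V} {W₀ : Finset V}
variable {W : Type} [Fintype W] [DecidableEq W] {𝓖 : Finset (Finset (Fin D ⊕ W))}

omit [Fintype V] [Fintype G] [DecidableEq G] in
private theorem im_eG (e0 : Fin D → V) (g : G) : im (eG act e0 g) = (im e0).image (act g) := by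
  unfold im
  rw [image_image]
  rfl

theorem glueOK_free (h : Good D 𝓕 act r κ W₀) {e0 : Fin D → V} (h0 : FreeF D 𝓕 act κ W₀ e0)
    (hG : Cplx D 𝓖) (hF0 : IsSx D 𝓖 (im (Sum.inl : Fin D → Fin D ⊕ W))) :
    GlueOK D 𝓕 𝓖 (eG act e0) := by
  have h4 := h.four
  exact
    { two := by omega
      cF := h.cx
      cG := hG
      sx := by
        intro g
        rw [im_eG]
        obtain ⟨h1, h2, h3⟩ := h0.sx
        refine ⟨h.inv g _ h1, ?_, ?_⟩
        · rw [card_image_of_injective _ (act g).injective, h2]
        · intro f hf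
          obtain ⟨f0, hf0, rfl⟩ := mem_image.1 hf
          obtain ⟨G0, hG0, hG0'⟩ := h3 f0 hf0
          refine ⟨G0.image (act g), h.inv g _ hG0, ?_⟩
          rw [← image_inter _ _ (act g).injective, hG0', ← image_erase (act g).injective]
      inj := fun g => (act g).injective.comp h0.inj
      dist := by
        intro g g' hgg
        rw [im_eG, im_eG] at hgg
        have h1 := congrArg (fun B => B.image (act g'⁻¹)) hgg
        simp only [image_image] at h1
        have h2 : (act g'⁻¹ : V → V) ∘ (act g') = id := by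
          funext v
          simp
        have h3 : (act g'⁻¹ : V → V) ∘ (act g) = act (g'⁻¹ * g) := by
          funext v
          simp
        rw [h2, h3, image_id] at h1
        have h5 := h0.free _ h1
        exact (inv_mul_eq_one.1 h5).symm
      sx0 := hF0 }

theorem eqGlue_free (e0 : Fin D → V) :
    EqGlue act 𝓖 (eG act e0) (actL G) 1 := by
  intro g i
  refine ⟨1, fun j => ?_, fun A hA => ?_⟩
  · change act g (act i (e0 j)) = act (g * i) (e0 j)
    rw [map_mul]
    rfl
  · have h1 : (Sum.map ((1 : Equiv.Perm (Fin D)) : Fin D → Fin D)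
        (((1 : G →* Equiv.Perm W) g : Equiv.Perm W) : W → W)) = id := by
      funext x
      cases x <;> rfl
    rw [h1, image_id]
    exact hA

theorem core_free {e0 : Fin D → V} (h0 : FreeF D 𝓕 act κ W₀ e0) :
    ∀ g, ∀ C ∈ coreF, im (eG act e0 g) ≠ C.image κ ∪ W₀ := by
  intro g C hC
  rw [im_eG]
  exact h0.core g C hC

theorem freeF_glue_gad (h : Good D 𝓕 act r κ W₀) {e0 : Fin D → V}
    (h0 : FreeF D 𝓕 act κ W₀ e0) (hok : GlueOK D 𝓕 𝓖 (eG act e0)) {e1 : Fin D → Fin D ⊕ W}
    (hi : Function.Injective e1) (hs : IsSx D 𝓖 (im e1)) (hne : im e1 ≠ im Sum.inl) :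
    FreeF D (glue 𝓕 𝓖 (eG act e0)) (actSum act (actProd (actL G) 1))
      (fun i => Sum.inl (κ i)) (W₀.image Sum.inl) (fun j => phi (eG act e0) 1 (e1 j)) := by
  have him : im (fun j => phi (W := W) (eG act e0) 1 (e1 j))
      = (im e1).image (phi (eG act e0) 1) := by
    unfold im
    rw [image_image]
    rfl
  obtain ⟨w, hw⟩ := exists_inr hok hs.1 hne
  have hmem : ∀ g : G, (Sum.inr (g, w) : V ⊕ (G × W)) ∈
      (im (fun j => phi (W := W) (eG act e0) 1 (e1 j))).image
        (actSum act (actProd (actL G) 1) g) := by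
    intro g
    refine mem_image.2 ⟨Sum.inr (1, w), ?_, ?_⟩
    · rw [him]
      exact inr_mem_phi.2 ⟨rfl, hw⟩
    · rw [actSum_inr, actProd_apply, actL_apply, mul_one]
      rfl
  exact
    { inj := (phi_inj hok 1).comp hi
      sx := by
        rw [him]
        exact isSx_glue_phi hok 1 hs hne
      free := by
        intro g hg
        have h1 := hmem g
        rw [hg, him] at h1
        exact (inr_mem_phi.1 h1).1
      core := by
        intro g C hC hg
        have h1 := hmem g
        rw [hg] at h1
        rcases mem_union.1 h1 with h2 | h2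
        · obtain ⟨i, -, hi'⟩ := mem_image.1 h2
          exact absurd hi' (by simp)
        · obtain ⟨i, -, hi'⟩ := mem_image.1 h2
          exact absurd hi' (by simp) }

end H47.KO
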