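import Pool.Agent.H47.KO.Ren

/-! # KO.GadN : gadgets in normal form

`W = {u : U // u ∉ Set.range e0}` (or `∀ j, e0 j ≠ u`), `f : U ≃ Fin D ⊕ W` with `f (e0 j) = inl j`, `f u = inr u` otherwise (e.g. `(Equiv.Set.sumCompl (Set.range e0)).symm` and `Equiv.ofInjective e0`). The gadget is `ren f 𝓖`, the enumerations `inl` (`= f ∘ e0`) and `f ∘ e1`. Everything is transported by the lemmas of
`Ren`; `im (f ∘ e) = (im e).image f`; `Fintype.card` by `Fintype.card_congr f`; for `deg`, `SS` at `x` write `x = f (f.symm x)`. -/

namespace H47.KO

open Finset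

theorem gadN_of_gadS {D f : ℕ} (h : GadS D f) : GadN D f := by
  classical
  obtain ⟨U, hU1, hU2, 𝓖, e0, e1, hG, hSS⟩ := h
  let W : Type := ↥(Set.range e0)ᶜ
  let φ : Fin D ⊕ W ≃ U := (Equiv.sumCongr (Equiv.ofInjective e0 hG.i0) (Equiv.refl W)).trans
    (Equiv.Set.sumCompl (Set.range e0))
  have hφ : ∀ j, φ (Sum.inl j) = e0 j := fun j => rfl
  let g : U ≃ Fin D ⊕ W := φ.symm
  have hg : ∀ j, g (e0 j) = Sum.inl j := by
    intro j
    rw [← hφ j]
    exact φ.symm_apply_apply _
  have him : ∀ e : Fin D → U, im (fun j => g (e j)) = (im e).image g := by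
    intro e
    unfold im
    rw [Finset.image_image]
    rfl
  have him0 : im (Sum.inl : Fin D → Fin D ⊕ W) = (im e0).image g := by
    rw [← him e0]
    congr 1
    funext j
    exact (hg j).symm
  refine ⟨W, inferInstance, inferInstance, ren g 𝓖, fun j => g (e1 j), ?_, ?_⟩
  · exact
      { cx := (cplx_ren g).2 hG.cx
        i0 := Sum.inl_injective
        i1 := g.injective.comp hG.i1
        s0 := by
          rw [him0]
          exact (isSx_ren g).2 hG.s0
        s1 := by
          rw [him e1]
          exact (isSx_ren g).2 hG.s1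
        ne := by
          rw [him0, him e1]
          exact fun h => hG.ne (Finset.image_injective g.injective h)
        deg := fun v => by
          have h1 := hG.deg (g.symm v)
          rw [← deg_ren g, Equiv.apply_symm_apply] at h1
          exact h1
        cU := by
          rw [← Fintype.card_congr g]
          exact hG.cU
        cF := by
          rw [card_ren]
          exact hG.cF
        fl := by
          rw [fl_ren]
          exact hG.fl }
  · intro v hv
    apply hSS (g.symm v)
    rw [← ss_ren g, Equiv.apply_symm_apply]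
    exact hv

end H47.KO
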