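import Pool.Agent.H47.KO.PyrCx
import Pool.Agent.H47.KO.BipCx
import Pool.Agent.H47.KO.BipCl

/-! # KO.Small : the segment, the square pyramid and the triangular bipyramid

`seg : Finset (Finset Bool) = {{false}, {true}}`, dimension 1: `E = ℝ × ℝ` (or `Bool → ℝ`), `s false = (1, 0)`, `s true = (0, 1)`, the functional of `{false}` is the second coordinate, of `{true}` the first. `CLat seg` has 4 elements `∅, {false}, {true}, univ`, 2 flags: `fl_facets`, and `seg_sx`, `low_sx`:
`fl = 1! + 1!`.
`sqp = pyr (bip seg)`, `tbp = bip (pyr seg)`: `cplx_pyr`, `cplx_bip`, `fl_pyr`, `fl_bip`: `fl (bip seg) = 2 * 2 * 2 = 8`, `fl sqp = 4 * 8 = 32`; `fl (pyr seg) = 3 * 2 = 6`, `fl tbp = 2 * 3 * 6 = 36`.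
The simplex facets, degrees and cardinalities: `decide` (or `decide +kernel`) on `IsSx 3 sqp (im e0)` etc. needs `IsSx` unfolded (`IsSx` is a decidable statement: `unfold IsSx; decide +kernel`), or use `isSx_pyr`, `isSx_bip` twice from `seg_sx`. Any two different simplex facets `e0, e1` do. -/

namespace H47.KO

open Finset

/-- the segment -/
def seg : Finset (Finset Bool) := {{false}, {true}}

theorem seg_cplx : Cplx 1 seg where
  anti := by decide
  out := by decide
  sep := by decide
  real := by
    refine ⟨ℝ × ℝ, inferInstance, inferInstance, fun b => if b then (0, 1) else (1, 0),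
      fun F => if F = {false} then LinearMap.snd ℝ ℝ ℝ else LinearMap.fst ℝ ℝ ℝ, ?_⟩
    have hne : ({true} : Finset Bool) ≠ {false} := by decide
    refine ⟨inferInstance, by simp, ?_, ?_, ?_⟩
    · intro F hF v
      have hF' : F = {false} ∨ F = {true} := by
        unfold seg at hF
        simpa using hF
      rcases hF' with rfl | rfl <;> cases v <;> simp [hne]
    · intro F hF v
      have hF' : F = {false} ∨ F = {true} := by
        unfold seg at hF
        simpa using hF
      rcases hF' with rfl | rfl <;> cases v <;> simp [hne]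
    · intro x hx
      have h1 := hx {false} (by decide)
      have h2 := hx {true} (by decide)
      rw [if_pos rfl] at h1
      rw [if_neg hne] at h2
      refine ⟨fun b => if b then x.2 else x.1, ?_, ?_⟩
      · intro v
        cases v
        · simpa using h2
        · simpa using h1
      · rw [Fintype.sum_bool]
        ext <;> simp

theorem seg_sx (b : Bool) : IsSx 1 seg {b} := by
  revert b
  unfold IsSx
  decide

theorem seg_fl : fl (CLat seg) = 2 := by
  rw [fl_facets le_rfl seg_cplx]
  have h : ∀ F ∈ seg, fl (Low seg F) = 1 := by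
    intro F hF
    have hF' : F = {false} ∨ F = {true} := by
      unfold seg at hF
      simpa using hF
    rcases hF' with rfl | rfl
    · exact low_sx (seg_sx false)
    · exact low_sx (seg_sx true)
  rw [Finset.sum_congr rfl h]
  decide

private theorem small_bip : Cplx 2 (bip seg) := cplx_bip le_rfl seg_cplx

private theorem small_pyr : Cplx 2 (pyr seg) := cplx_pyr le_rfl seg_cplx

/-- the square pyramid -/
theorem gad_sqp : GadW 3 32 := by
  refine ⟨(Bool ⊕ Bool) ⊕ Unit, inferInstance, inferInstance, pyr (bip seg),
    ![Sum.inl (Sum.inl false), Sum.inl (Sum.inr false), Sum.inr ()],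
    ![Sum.inl (Sum.inl true), Sum.inl (Sum.inr true), Sum.inr ()], ?_⟩
  refine ⟨cplx_pyr (by norm_num) small_bip, by decide, by decide, ?_, ?_, by decide,
    by decide +kernel, by decide, by decide +kernel, ?_⟩
  · unfold IsSx
    decide +kernel
  · unfold IsSx
    decide +kernel
  · rw [fl_pyr (by norm_num) small_bip, fl_bip le_rfl seg_cplx small_bip, seg_fl]

/-- the triangular bipyramid -/
theorem gad_tbp : GadW 3 36 := by
  refine ⟨(Bool ⊕ Unit) ⊕ Bool, inferInstance, inferInstance, bip (pyr seg),
    ![Sum.inl (Sum.inl false), Sum.inl (Sum.inr ()), Sum.inr false],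
    ![Sum.inl (Sum.inl true), Sum.inl (Sum.inr ()), Sum.inr true], ?_⟩
  refine ⟨cplx_bip (by norm_num) small_pyr, by decide, by decide, ?_, ?_, by decide,
    by decide +kernel, by decide, by decide +kernel, ?_⟩
  · unfold IsSx
    decide +kernel
  · unfold IsSx
    decide +kernel
  · rw [fl_bip (by norm_num) small_pyr (cplx_bip (by norm_num) small_pyr),
      fl_pyr le_rfl seg_cplx, seg_fl]

end H47.KO
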