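import Pool.Agent.H47.KO.GadPB
import Pool.Agent.H47.KO.GadN
import Pool.Agent.H47.KO.Small

/-! # KO.GadCl : the contributions of the gadgets generate the multiples of `2 ^ ((D + 1) / 2)`

`clW`: induction from `D = 3` (`4 = 2 ^ 2`: `gad_sqp`, `gad_tbp`). `clS_succ`: if `t` is such that `GadW D (8 t)`, `GadW D (9 t)` then `(D + 2) * t` and `2 * (D + 1) * t` have the property for `D + 1` with `GadS` (`gad_pyr`, `gad_bip`: `(D + 2) * (8 * t) = 8 * ((D + 2) * t)`).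
So with `g = 2 ^ ((D + 1) / 2)` in the closure for `D`, `(D + 2) * g` and `2 * (D + 1) * g` are in the closure for `D + 1` (`AddSubgroup.closure_induction`, or map the closure by multiplication). `D` even: `2 * g = 2 * ((D + 2) * g) - 2 * (D + 1) * g` and `2 ^ ((D + 2) / 2) = 2 * g`.
`D` odd, `D + 1 = 2 h`: `g = (D + 2) * ((D + 2) * g) - (h + 1) * (2 * (D + 1) * g)` (`(2h+1)^2 - 4h(h+1) = 1`), and `2 ^ ((D + 2) / 2) = g`.
`cl_contrib`: for `t` with `GadS D (8 t)`, `GadS D (9 t)`: `t = (9 t - 2 D!) - (8 t - 2 D!)` (`gad_ge`, `gadN_of_gadS`). -/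

namespace H47.KO

open Finset

private def ClW (D : ℕ) : AddSubgroup ℤ := AddSubgroup.closure
    ((fun n : ℕ => (n : ℤ)) '' {t | GadW D (8 * t) ∧ GadW D (9 * t)})

private def ClS (D : ℕ) : AddSubgroup ℤ := AddSubgroup.closure
    ((fun n : ℕ => (n : ℤ)) '' {t | GadS D (8 * t) ∧ GadS D (9 * t)})

private theorem clS_le (D : ℕ) : ClS D ≤ ClW D := by
  refine AddSubgroup.closure_mono ?_
  rintro _ ⟨t, ⟨h1, h2⟩, rfl⟩
  exact ⟨t, ⟨gad_weak h1, gad_weak h2⟩, rfl⟩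

private theorem cl_mul {D : ℕ} (c : ℕ)
    (h : ∀ f, GadW D f → GadS (D + 1) (c * f)) {g : ℤ} (hg : g ∈ ClW D) :
    (c : ℤ) * g ∈ ClS (D + 1) := by
  unfold ClW at hg
  induction hg using AddSubgroup.closure_induction with
  | mem x hx =>
    obtain ⟨t, ⟨h1, h2⟩, rfl⟩ := hx
    refine AddSubgroup.subset_closure ⟨c * t, ⟨?_, ?_⟩, ?_⟩
    · have h3 := h _ h1
      rwa [show c * (8 * t) = 8 * (c * t) by ring] at h3
    · have h3 := h _ h2
      rwa [show c * (9 * t) = 9 * (c * t) by ring] at h3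
    · push_cast
      rfl
  | zero =>
    rw [mul_zero]
    exact zero_mem _
  | add x y _ _ hx hy =>
    rw [mul_add]
    exact add_mem hx hy
  | neg x _ hx =>
    rw [mul_neg]
    exact neg_mem hx

private theorem cl_step {D : ℕ} (hD : 2 ≤ D) (h : ((2 ^ ((D + 1) / 2) : ℕ) : ℤ) ∈ ClW D) :
    ((2 ^ ((D + 1 + 1) / 2) : ℕ) : ℤ) ∈ ClS (D + 1) := by
  have h1 := cl_mul (D + 2) (fun f hf => gad_pyr hD hf) h
  have h2 := cl_mul (2 * (D + 1)) (fun f hf => gad_bip hD hf) h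
  set g : ℤ := ((2 ^ ((D + 1) / 2) : ℕ) : ℤ) with hg
  rcases Nat.even_or_odd' D with ⟨m, hm | hm⟩
  · have e1 : (D + 1) / 2 = m := by omega
    have e2 : (D + 1 + 1) / 2 = m + 1 := by omega
    have e3 : ((2 ^ ((D + 1 + 1) / 2) : ℕ) : ℤ) =
        (2 : ℤ) • (((D + 2 : ℕ) : ℤ) * g) - ((2 * (D + 1) : ℕ) : ℤ) * g := by
      rw [hg, e1, e2]
      push_cast
      rw [smul_eq_mul]
      ring
    rw [e3]
    exact sub_mem (zsmul_mem h1 2) h2
  · have e1 : (D + 1) / 2 = m + 1 := by omega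
    have e2 : (D + 1 + 1) / 2 = m + 1 := by omega
    have e3 : ((2 ^ ((D + 1 + 1) / 2) : ℕ) : ℤ) =
        ((D + 2 : ℕ) : ℤ) • (((D + 2 : ℕ) : ℤ) * g) -
          ((m : ℤ) + 2) • (((2 * (D + 1) : ℕ) : ℤ) * g) := by
      rw [hg, e1, e2, hm]
      push_cast
      rw [smul_eq_mul, smul_eq_mul]
      ring
    rw [e3]
    exact sub_mem (zsmul_mem h1 _) (zsmul_mem h2 _)

theorem clW (D : ℕ) (hD : 3 ≤ D) : ((2 ^ ((D + 1) / 2) : ℕ) : ℤ) ∈ AddSubgroup.closure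
    ((fun n : ℕ => (n : ℤ)) '' {t | GadW D (8 * t) ∧ GadW D (9 * t)}) := by
  induction D, hD using Nat.le_induction with
  | base =>
    exact AddSubgroup.subset_closure ⟨4, ⟨gad_sqp, gad_tbp⟩, by norm_num⟩
  | succ D hD ih => exact clS_le _ (cl_step (by omega) ih)

theorem clS (D : ℕ) (hD : 4 ≤ D) : ((2 ^ ((D + 1) / 2) : ℕ) : ℤ) ∈ AddSubgroup.closure
    ((fun n : ℕ => (n : ℤ)) '' {t | GadS D (8 * t) ∧ GadS D (9 * t)}) := by
  obtain ⟨E, rfl⟩ : ∃ E, D = E + 1 := ⟨D - 1, by omega⟩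
  exact cl_step (by omega) (clW E (by omega))

theorem cl_contrib (D : ℕ) (hD : 4 ≤ D) : ((2 ^ ((D + 1) / 2) : ℕ) : ℤ) ∈ AddSubgroup.closure
    ((fun n : ℕ => (n : ℤ)) '' {c | GadN D (2 * D.factorial + c)}) := by
  refine (AddSubgroup.closure_le _).2 ?_ (clS D hD)
  rintro _ ⟨t, ⟨h1, h2⟩, rfl⟩
  have g1 := gad_ge (by omega) (gad_weak h1)
  have g2 := gad_ge (by omega) (gad_weak h2)
  obtain ⟨c1, hc1⟩ := Nat.exists_eq_add_of_le g1
  obtain ⟨c2, hc2⟩ := Nat.exists_eq_add_of_le g2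
  have n1 : GadN D (2 * D.factorial + c1) := hc1 ▸ gadN_of_gadS h1
  have n2 : GadN D (2 * D.factorial + c2) := hc2 ▸ gadN_of_gadS h2
  have e : (t : ℤ) = (c2 : ℤ) - (c1 : ℤ) := by omega
  show (t : ℤ) ∈ AddSubgroup.closure _
  rw [e]
  exact sub_mem (AddSubgroup.subset_closure ⟨c2, n2, rfl⟩)
    (AddSubgroup.subset_closure ⟨c1, n1, rfl⟩)

end H47.KO
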