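import Pool.Agent.H47.KO.PyrCx
import Pool.Agent.H47.KO.BipCx
import Pool.Agent.H47.KO.BipCl

/-! # KO.GadPB : pyramids and bipyramids over gadgets

`gad_pyr`: `pyr 𝓖` on `U ⊕ Unit`, enumerations `Fin.snoc (inl ∘ e) (inr ())`, `im = (im e).disjSum univ` (`isSx_pyr`), distinct for `im e0 ≠ im e1`. `deg`: `deg_pyr_inl`, `deg_pyr_inr`. `cU`, `cF`: `+ 1`. `fl_pyr`, `ss_pyr`.
`gad_bip`: the same with `Fin.snoc (inl ∘ e) (inr true)`, `deg_bip_inl` (`2 * D ≥ D + 1`), `cU`: `+ 2`, `cF`: `2 * card`, `fl_bip`, `ss_bip`.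
`gad_weak`: forget. `gad_ge`: `fl_facets`: the two facets `im e0 ≠ im e1` contribute `2 * D!` (`low_sx`). -/

namespace H47.KO

open Finset

/-- extended enumeration -/
private def GadPB_sn {D : ℕ} {U X : Type} (e : Fin D → U) (x : X) : Fin (D + 1) → U ⊕ X :=
  Fin.snoc (α := fun _ => U ⊕ X) (fun j => Sum.inl (e j)) (Sum.inr x)

private theorem GadPB_last {D : ℕ} {U X : Type} (e : Fin D → U) (x : X) :
    GadPB_sn e x (Fin.last D) = Sum.inr x := by
  unfold GadPB_sn
  rw [Fin.snoc_last]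

private theorem GadPB_cast {D : ℕ} {U X : Type} (e : Fin D → U) (x : X) (j : Fin D) :
    GadPB_sn e x j.castSucc = Sum.inl (e j) := by
  unfold GadPB_sn
  rw [Fin.snoc_castSucc]

private theorem GadPB_inj {D : ℕ} {U X : Type} (e : Fin D → U) (x : X)
    (he : Function.Injective e) : Function.Injective (GadPB_sn e x) := by
  intro i j
  refine Fin.lastCases ?_ (fun i => ?_) i
  · refine Fin.lastCases ?_ (fun j => ?_) j
    · intro _
      rfl
    · rw [GadPB_last, GadPB_cast]
      intro h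
      exact absurd h (by simp)
  · refine Fin.lastCases ?_ (fun j => ?_) j
    · rw [GadPB_last, GadPB_cast]
      intro h
      exact absurd h (by simp)
    · rw [GadPB_cast, GadPB_cast]
      intro h
      rw [he (Sum.inl.inj h)]

private theorem GadPB_im {D : ℕ} {U X : Type} [DecidableEq U] [DecidableEq X] (e : Fin D → U)
    (x : X) : im (GadPB_sn e x) = (im e).disjSum {x} := by
  ext y
  unfold im
  rw [mem_image]
  rcases y with u | z
  · rw [inl_mem_disjSum, mem_image]
    constructor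
    · rintro ⟨i, -, hi⟩
      revert hi
      refine Fin.lastCases ?_ (fun i => ?_) i
      · rw [GadPB_last]
        intro h
        exact absurd h (by simp)
      · rw [GadPB_cast]
        intro h
        exact ⟨i, mem_univ _, Sum.inl.inj h⟩
    · rintro ⟨i, -, rfl⟩
      exact ⟨i.castSucc, mem_univ _, GadPB_cast e x i⟩
  · rw [inr_mem_disjSum, mem_singleton]
    constructor
    · rintro ⟨i, -, hi⟩
      revert hi
      refine Fin.lastCases ?_ (fun i => ?_) i
      · rw [GadPB_last]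
        intro h
        exact (Sum.inr.inj h).symm
      · rw [GadPB_cast]
        intro h
        exact absurd h (by simp)
    · rintro rfl
      exact ⟨Fin.last D, mem_univ _, GadPB_last e z⟩

private theorem GadPB_ne {U X : Type} [DecidableEq U] [DecidableEq X] {A B : Finset U}
    {C : Finset X} (h : A ≠ B) : A.disjSum C ≠ B.disjSum C := by
  intro hcon
  apply h
  ext u
  rw [← inl_mem_disjSum (t := C), hcon, inl_mem_disjSum]

theorem gad_pyr {D f : ℕ} (hD : 2 ≤ D) (h : GadW D f) : GadS (D + 1) ((D + 2) * f) := by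
  obtain ⟨U, i1, i2, 𝓖, e0, e1, hg⟩ := h
  have hD1 : 1 ≤ D := by omega
  refine ⟨U ⊕ Unit, inferInstance, inferInstance, pyr 𝓖, GadPB_sn e0 (), GadPB_sn e1 (), ?_,
    fun v => ss_pyr hD1 hg.cx hg.cU hg.cF v⟩
  have hu : ({()} : Finset Unit) = univ := rfl
  constructor
  · exact cplx_pyr hD1 hg.cx
  · exact GadPB_inj e0 () hg.i0
  · exact GadPB_inj e1 () hg.i1
  · rw [GadPB_im, hu]
    exact isSx_pyr hg.s0
  · rw [GadPB_im, hu]
    exact isSx_pyr hg.s1
  · rw [GadPB_im, GadPB_im]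
    exact GadPB_ne hg.ne
  · rintro (v | u)
    · rw [deg_pyr_inl hD1 hg.cx]
      have := hg.deg v
      omega
    · rw [deg_pyr_inr hD1 hg.cx]
      have := hg.cF
      omega
  · rw [Fintype.card_sum, Fintype.card_unit]
    have := hg.cU
    omega
  · rw [card_pyr hD1 hg.cx]
    have := hg.cF
    omega
  · rw [fl_pyr hD1 hg.cx, hg.fl]

theorem gad_bip {D f : ℕ} (hD : 2 ≤ D) (h : GadW D f) : GadS (D + 1) (2 * (D + 1) * f) := by
  obtain ⟨U, i1, i2, 𝓖, e0, e1, hg⟩ := h
  have hD1 : 1 ≤ D := by omega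
  have hcx : Cplx (D + 1) (bip 𝓖) := cplx_bip hD1 hg.cx
  refine ⟨U ⊕ Bool, inferInstance, inferInstance, bip 𝓖, GadPB_sn e0 true, GadPB_sn e1 true, ?_,
    fun v => ss_bip hD hg.deg hg.cF v⟩
  constructor
  · exact hcx
  · exact GadPB_inj e0 true hg.i0
  · exact GadPB_inj e1 true hg.i1
  · rw [GadPB_im]
    exact isSx_bip hg.s0 true
  · rw [GadPB_im]
    exact isSx_bip hg.s1 true
  · rw [GadPB_im, GadPB_im]
    exact GadPB_ne hg.ne
  · rintro (v | b)
    · rw [deg_bip_inl]
      have := hg.deg v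
      omega
    · rw [deg_bip_inr]
      have := hg.cF
      omega
  · rw [Fintype.card_sum, Fintype.card_bool]
    have := hg.cU
    omega
  · rw [card_bip]
    have := hg.cF
    omega
  · rw [fl_bip hD1 hg.cx hcx, hg.fl]

theorem gad_weak {D f : ℕ} (h : GadS D f) : GadW D f := by
  obtain ⟨U, i1, i2, 𝓖, e0, e1, h, -⟩ := h
  exact ⟨U, i1, i2, 𝓖, e0, e1, h⟩

theorem gad_ge {D f : ℕ} (hD : 1 ≤ D) (h : GadW D f) : 2 * D.factorial ≤ f := by
  obtain ⟨U, i1, i2, 𝓖, e0, e1, hg⟩ := h
  have h1 := fl_facets hD hg.cx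
  rw [hg.fl] at h1
  have hsub : ({im e0, im e1} : Finset (Finset U)) ⊆ 𝓖 := by
    intro F hF
    rw [mem_insert, mem_singleton] at hF
    rcases hF with rfl | rfl
    · exact hg.s0.1
    · exact hg.s1.1
  have h2 := sum_le_sum_of_subset (f := fun F => fl (Low 𝓖 F)) hsub
  rw [sum_pair hg.ne, low_sx hg.s0, low_sx hg.s1] at h2
  rw [h1]
  omega

end H47.KO
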