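import Pool.Agent.H47.KO.GlueMem

/-! # KO.GlueCl : facets and closed sets of a glued family

Write `F0 = im Sum.inl`, `F i = im (e i)`. Facets of `glue 𝓕 𝓖 e`: `F.disjSum ∅` for `F ∈ 𝓕` different from all `F i`, and `A.image (phi e i)` for `A ∈ 𝓖`, `A ≠ F0`.
`phi e i` is injective; `A.image (phi e i)` meets the `inl` part in `e i '' {j : inl j ∈ A} ⊆ F i`.
Only the closed sets inside a facet are needed.
`isCl_glue_inl`: `F ∈ 𝓕`, `F ≠ F i` for all `i`, `A ⊆ F`: `A.disjSum ∅` is closed in the glued family iff `A` is closed in `𝓕`.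
 (<=) let `x` be in all facets `⊇ A.disjSum ∅`; `x ∈ F.disjSum ∅`, so `x = inl v`, `v ∈ F`. Suppose `v ∉ A`: there is `G ∈ 𝓕`, `A ⊆ G`, `v ∉ G` (`A` closed). If `G` is not glued: contradiction with
  `G.disjSum ∅`. If `G = F i`: `A ⊆ F i` and `A ≠ F i` (`F` is another facet, `A = F i ⊆ F` contradicts `anti`); take `f ∈ F i`, `f ∉ A`, `f = e i j`; by `sx0` there is `A' ∈ 𝓖` with `F0 ∩ A' = F0.erase (inl j)`;
  `A' ≠ F0`; `A' .image (phi e i) ⊇ A.disjSum ∅`, and it does not contain `inl v` as `v ∉ F i`.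
 (=>) let `v` be in all `G ∈ 𝓕`, `A ⊆ G`. Then `inl v` is in all facets of the glued family containing `A.disjSum ∅`: clear for `G.disjSum ∅`; if `A.disjSum ∅ ⊆ A'.image (phi e i)` then
  `A ⊆ F i`, so `v ∈ F i`, `v = e i j`; if `inl j ∉ A'` then `A ⊆ (F i).erase v` and by `sx i` there is `G ∈ 𝓕` with `F i ∩ G = (F i).erase v`, so `A ⊆ G`, `v ∉ G`, contradiction.
`isCl_glue_phi`: `G ∈ 𝓖`, `G ≠ F0`, `A ⊆ G`: `A.image (phi e i)` is closed in the glued family iff `A` is closed in `𝓖`. The same proof with the two sides exchanged: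
 (<=) let `x` be in all facets containing `A.image (phi e i)`; `x = phi e i u`, `u ∈ G`. If `u ∉ A` there is `G' ∈ 𝓖`, `A ⊆ G'`, `u ∉ G'`. If `G' ≠ F0`: contradiction. If `G' = F0`: `A ⊆ F0`, `A ≠ F0` (`anti`), take `inl j ∈ F0 \ A`,
  `G2 ∈ 𝓕` with `F i ∩ G2 = (F i).erase (e i j)`. `u = inr w`. If `G2` is not glued: `A.image (phi e i) ⊆ G2.disjSum ∅`, which contains no `inr`. If `G2 = F i'`, `i' ≠ i`: `A.image ⊆ inl '' (F i')` is a proper subset of
  `F i ∩ F i' = (F i).erase (e i j)` or equal to it, in any case a proper subset of `F i'` (cardinality: `A` has at most `D - 1` elements), take `j'` with `e i' j'` outside and the `A' ∈ 𝓖` with `F0 ∩ A' = F0.erase (inl j')`: `A'.image (phi e i')` contains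
  `A.image (phi e i)` and no `inr (i, w)`.
 (=>) let `u` be in all `G' ∈ 𝓖`, `A ⊆ G'`; facets containing `A.image (phi e i)`: `A'.image (phi e i)`: then `A ⊆ A'`, fine. `G2.disjSum ∅` or `A'.image (phi e i')`, `i' ≠ i`: then `A ⊆ F0`, so `u ∈ F0`, `u = inl j`; if
  `phi e i u` is not in that facet, then `A ⊆ F0.erase u`, and by `sx0` some `A2 ∈ 𝓖` has `F0 ∩ A2 = F0.erase u`, so `A ⊆ A2`, `u ∉ A2`, contradiction. -/

namespace H47.KO

open Finset

variable {V : Type} [Fintype V] [DecidableEq V] {D : ℕ} {𝓕 : Finset (Finset V)}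
variable {ι W : Type} [Fintype ι] [DecidableEq ι] [Fintype W] [DecidableEq W]
variable {𝓖 : Finset (Finset (Fin D ⊕ W))} {e : ι → Fin D → V}

private theorem ne_of_inter {α : Type} [DecidableEq α] {S G : Finset α} {f : α} (hf : f ∈ S)
    (h : S ∩ G = S.erase f) : f ∉ G := by
  intro hG
  have h1 : f ∈ S ∩ G := mem_inter.2 ⟨hf, hG⟩
  rw [h] at h1
  exact notMem_erase f S h1

private theorem sub_of_inter {α : Type} [DecidableEq α] {S G A : Finset α} {f : α}
    (h : S ∩ G = S.erase f) (hA : A ⊆ S) (hf : f ∉ A) : A ⊆ G := by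
  intro a ha
  have h1 : a ∈ S.erase f := mem_erase.2 ⟨fun hh => hf (hh ▸ ha), hA ha⟩
  rw [← h] at h1
  exact (mem_inter.1 h1).2

omit [Fintype V] [DecidableEq V] [Fintype ι] [DecidableEq ι] in
private theorem mem_F0 (j : Fin D) : (Sum.inl j : Fin D ⊕ W) ∈ im (Sum.inl : Fin D → Fin D ⊕ W) := by
  rw [mem_im]
  exact ⟨j, rfl⟩

theorem isCl_glue_inl (h : GlueOK D 𝓕 𝓖 e) {F : Finset V} (hF : F ∈ 𝓕)
    (hF' : ∀ i, im (e i) ≠ F) {A : Finset V} (hA : A ⊆ F) :
    IsCl (glue 𝓕 𝓖 e) (A.image Sum.inl) ↔ IsCl 𝓕 A := by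
  have hdis : ∀ G : Finset V, (A.image Sum.inl : Finset (V ⊕ (ι × W))) ⊆ G.disjSum ∅ ↔ A ⊆ G := by
    intro G
    constructor
    · intro h1 a ha
      have := h1 (mem_image_of_mem Sum.inl ha)
      simpa using this
    · intro h1 x hx
      obtain ⟨a, ha, rfl⟩ := mem_image.1 hx
      simpa using h1 ha
  constructor
  · intro hcl v hv
    have h1 : (Sum.inl v : V ⊕ (ι × W)) ∈ A.image Sum.inl := by
      apply hcl
      intro B hB hAB
      rcases mem_glue.1 hB with ⟨G, hG, _, rfl⟩ | ⟨i, A', hA', hne, rfl⟩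
      · simpa using hv G hG ((hdis G).1 hAB)
      · have hAi : A ⊆ im (e i) := by
          intro a ha
          obtain ⟨j, hj, _⟩ := inl_mem_phi.1 (hAB (mem_image_of_mem Sum.inl ha))
          rw [mem_im]
          exact ⟨j, hj⟩
        obtain ⟨j, rfl⟩ := (mem_im _ _).1 (hv _ (h.sx i).1 hAi)
        rw [inl_mem_phi]
        refine ⟨j, rfl, ?_⟩
        by_contra hj
        obtain ⟨G, hG, hGe⟩ := (h.sx i).2.2 (e i j) ((mem_im _ _).2 ⟨j, rfl⟩)
        have hnA : e i j ∉ A := by
          intro ha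
          obtain ⟨j', hj', hj''⟩ := inl_mem_phi.1 (hAB (mem_image_of_mem Sum.inl ha))
          rw [h.inj i hj'] at hj''
          exact hj hj''
        exact ne_of_inter ((mem_im _ _).2 ⟨j, rfl⟩) hGe (hv G hG (sub_of_inter hGe hAi hnA))
    obtain ⟨a, ha, hav⟩ := mem_image.1 h1
    rw [← Sum.inl.inj hav]
    exact ha
  · intro hcl x hx
    have hB : (F.disjSum ∅ : Finset (V ⊕ (ι × W))) ∈ glue 𝓕 𝓖 e :=
      mem_glue.2 (Or.inl ⟨F, hF, hF', rfl⟩)
    have hxF := hx _ hB ((hdis F).2 hA)
    rcases x with v | x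
    · apply mem_image_of_mem
      apply hcl
      intro G hG hAG
      by_cases hGi : ∀ i, im (e i) ≠ G
      · have := hx _ (mem_glue.2 (Or.inl ⟨G, hG, hGi, rfl⟩)) ((hdis G).2 hAG)
        simpa using this
      · push Not at hGi
        obtain ⟨i, rfl⟩ := hGi
        by_contra hv
        have hne : A ≠ im (e i) := by
          intro hh
          apply hF' i
          apply h.cF.anti _ hG _ hF
          rw [← hh]
          exact hA
        obtain ⟨f, hf, hfA⟩ := exists_of_ssubset (hAG.ssubset_of_ne hne)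
        obtain ⟨j, rfl⟩ := (mem_im _ _).1 hf
        obtain ⟨A', hA', hAe⟩ := h.sx0.2.2 (Sum.inl j) (mem_F0 j)
        have hA0 : A' ≠ im Sum.inl := by
          intro hh
          exact ne_of_inter (mem_F0 j) hAe (hh ▸ mem_F0 j)
        have hsub : (A.image Sum.inl : Finset (V ⊕ (ι × W))) ⊆ A'.image (phi e i) := by
          intro y hy
          obtain ⟨a, ha, rfl⟩ := mem_image.1 hy
          obtain ⟨j', rfl⟩ := (mem_im _ _).1 (hAG ha)
          rw [inl_mem_phi]
          refine ⟨j', rfl, ?_⟩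
          have h1 : (Sum.inl j' : Fin D ⊕ W) ∈ (im Sum.inl).erase (Sum.inl j) := by
            rw [mem_erase]
            refine ⟨?_, mem_F0 j'⟩
            intro hh
            rw [Sum.inl.inj hh] at ha
            exact hfA ha
          rw [← hAe] at h1
          exact (mem_inter.1 h1).2
        obtain ⟨j', hj', _⟩ := inl_mem_phi.1
          (hx _ (mem_glue.2 (Or.inr ⟨i, A', hA', hA0, rfl⟩)) hsub)
        exact hv ((mem_im _ _).2 ⟨j', hj'⟩)
    · simp at hxF

theorem isCl_glue_phi (h : GlueOK D 𝓕 𝓖 e) (i : ι) {G : Finset (Fin D ⊕ W)} (hG : G ∈ 𝓖)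
    (hG' : G ≠ im Sum.inl) {A : Finset (Fin D ⊕ W)} (hA : A ⊆ G) :
    IsCl (glue 𝓕 𝓖 e) (A.image (phi e i)) ↔ IsCl 𝓖 A := by
  have hinj := phi_inj h i
  have himg : ∀ u (S : Finset (Fin D ⊕ W)), phi e i u ∈ S.image (phi e i) ↔ u ∈ S := by
    intro u S
    constructor
    · intro h1
      obtain ⟨a, ha, hau⟩ := mem_image.1 h1
      rw [← hinj hau]
      exact ha
    · exact mem_image_of_mem _
  constructor
  · intro hcl u hu
    have key : ∀ j : Fin D, u = Sum.inl j → A ⊆ im Sum.inl → Sum.inl j ∉ A → False := by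
      intro j hj hAF hjA
      obtain ⟨A2, hA2, hAe⟩ := h.sx0.2.2 (Sum.inl j) (mem_F0 j)
      apply ne_of_inter (mem_F0 j) hAe
      rw [← hj]
      exact hu A2 hA2 (sub_of_inter hAe hAF hjA)
    rw [← himg u A]
    apply hcl
    intro B hB hAB
    rcases mem_glue.1 hB with ⟨G2, hG2, _, rfl⟩ | ⟨i', A', hA', hne, rfl⟩
    · have hAF : A ⊆ im Sum.inl := by
        intro a ha
        rcases a with j | w
        · exact mem_F0 j
        · have h1 := hAB (mem_image_of_mem (phi e i) ha)
          simp [phi] at h1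
      obtain ⟨j, rfl⟩ := (mem_im _ _).1 (hu _ h.sx0.1 hAF)
      by_contra hB2
      apply key j rfl hAF
      intro hjA
      exact hB2 (hAB (mem_image_of_mem (phi e i) hjA))
    · by_cases hi : i' = i
      · subst hi
        rw [himg]
        apply hu A' hA'
        intro a ha
        exact (himg a A').1 (hAB (mem_image_of_mem (phi e i') ha))
      · have hAF : A ⊆ im Sum.inl := by
          intro a ha
          rcases a with j | w
          · exact mem_F0 j
          · have h1 : (Sum.inr (i, w) : V ⊕ (ι × W)) ∈ A'.image (phi e i') :=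
              hAB (mem_image_of_mem (phi e i) ha)
            exact absurd (inr_mem_phi.1 h1).1.symm hi
        obtain ⟨j, rfl⟩ := (mem_im _ _).1 (hu _ h.sx0.1 hAF)
        by_contra hB2
        apply key j rfl hAF
        intro hjA
        exact hB2 (hAB (mem_image_of_mem (phi e i) hjA))
  · intro hcl x hx
    have hB : G.image (phi e i) ∈ glue 𝓕 𝓖 e := mem_glue.2 (Or.inr ⟨i, G, hG, hG', rfl⟩)
    obtain ⟨u, huG, rfl⟩ := mem_image.1 (hx _ hB (image_subset_image hA))
    rw [himg]
    apply hcl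
    intro G' hGG hAG
    by_cases hG0 : G' = im Sum.inl
    · subst hG0
      rcases u with j0 | w
      · exact mem_F0 j0
      · exfalso
        have hne : A ≠ im Sum.inl := by
          intro hh
          apply hG'
          symm
          apply h.cG.anti _ hGG _ hG
          rw [← hh]
          exact hA
        obtain ⟨f, hf, hfA⟩ := exists_of_ssubset (hAG.ssubset_of_ne hne)
        obtain ⟨j, rfl⟩ := (mem_im _ _).1 hf
        obtain ⟨G2, hG2, hGe⟩ := (h.sx i).2.2 (e i j) ((mem_im _ _).2 ⟨j, rfl⟩)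
        have hsub0 : ∀ y ∈ A.image (phi e i), ∃ v, y = Sum.inl v ∧
            v ∈ (im (e i)).erase (e i j) := by
          intro y hy
          obtain ⟨a, ha, rfl⟩ := mem_image.1 hy
          obtain ⟨j', rfl⟩ := (mem_im _ _).1 (hAG ha)
          refine ⟨e i j', rfl, ?_⟩
          rw [mem_erase]
          refine ⟨?_, (mem_im _ _).2 ⟨j', rfl⟩⟩
          intro hh
          rw [h.inj i hh] at ha
          exact hfA ha
        by_cases hGi : ∀ i', im (e i') ≠ G2
        · have h1 := hx _ (mem_glue.2 (Or.inl ⟨G2, hG2, hGi, rfl⟩)) (by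
            intro y hy
            obtain ⟨v, rfl, hv⟩ := hsub0 y hy
            rw [← hGe] at hv
            simpa using (mem_inter.1 hv).2)
          simp [phi] at h1
        · push Not at hGi
          obtain ⟨i', rfl⟩ := hGi
          have hii : i ≠ i' := by
            rintro rfl
            exact ne_of_inter ((mem_im _ _).2 ⟨j, rfl⟩) hGe ((mem_im _ _).2 ⟨j, rfl⟩)
          have hD := h.two
          have hcard : ((im (e i)).erase (e i j)).card < (im (e i')).card := by
            rw [card_erase_of_mem ((mem_im _ _).2 ⟨j, rfl⟩), im_card _ (h.inj i),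
              im_card _ (h.inj i')]
            omega
          obtain ⟨y, hy, hyn⟩ := exists_mem_notMem_of_card_lt_card hcard
          obtain ⟨j', rfl⟩ := (mem_im _ _).1 hy
          obtain ⟨A', hA', hAe⟩ := h.sx0.2.2 (Sum.inl j') (mem_F0 j')
          have hA0 : A' ≠ im Sum.inl := by
            intro hh
            exact ne_of_inter (mem_F0 j') hAe (hh ▸ mem_F0 j')
          have h1 := hx _ (mem_glue.2 (Or.inr ⟨i', A', hA', hA0, rfl⟩)) (by
            intro y hy
            obtain ⟨v, rfl, hv⟩ := hsub0 y hy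
            have hv2 := hv
            rw [← hGe] at hv2
            obtain ⟨j2, rfl⟩ := (mem_im _ _).1 (mem_inter.1 hv2).2
            rw [inl_mem_phi]
            refine ⟨j2, rfl, ?_⟩
            have h3 : (Sum.inl j2 : Fin D ⊕ W) ∈ (im Sum.inl).erase (Sum.inl j') := by
              rw [mem_erase]
              refine ⟨?_, mem_F0 j2⟩
              intro hh
              rw [Sum.inl.inj hh] at hv
              exact hyn hv
            rw [← hAe] at h3
            exact (mem_inter.1 h3).2)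
          exact hii (inr_mem_phi.1 h1).1
    · exact (himg u G').1 (hx _ (mem_glue.2 (Or.inr ⟨i, G', hGG, hG0, rfl⟩))
        (image_subset_image hAG))

end H47.KO
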