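import Pool.Agent.H47.KO.GlueMem

/-! # KO.GlueComb : the combinatorial axioms of a glued family

`glue_anti`: `F.disjSum ∅ ⊆ F'.disjSum ∅`: `anti`. `F.disjSum ∅ ⊆ A.image (phi e i)`: then `F ⊆ F i`, so `F = F i`, but `F` is not glued. `A.image (phi e i) ⊆ F.disjSum ∅`: `A ⊆ F0`, so `A = F0`.
`A.image (phi e i) ⊆ A'.image (phi e i')`: `A` contains some `inr w` (otherwise `A ⊆ F0`), so `i = i'` and `A ⊆ A'` by injectivity.
`glue_out`: if some `F ∈ 𝓕` is not glued then it is a facet without `inr`'s; for `x = inr p` done. If all facets of `𝓕` are glued: there are at least two (`out`: `im (e i)` contains a vertex `v` as `D ≥ 2`, `out v` is another facet), so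
there are two indices; for `x = inr (i, w)` take `i' ≠ i` and any `A ∈ 𝓖`, `A ≠ F0` (exists by `sx0`). For `x = inl v`: if `ι` is empty or `v` is in no `im (e i)`: `out v` is not glued, or it is `im (e i)` and then take
`A.image (phi e i)` for any `A ≠ F0`, it does not contain `inl v`. If `v = e i j`: `A` with `F0 ∩ A = F0.erase (inl j)`.
`glue_sep`: `inl v, inl w`: `F` from `sep v w`; if `F` is not glued, done; if `F = im (e i)`, `v = e i j`: a facet `A ≠ F0` of `𝓖` containing `inl j` (`sep (inl j) (inl j')` for some `j' ≠ j`, as `D ≥ 2`): `A.image (phi e i)`.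
`inl v, inr (i, w)`: a facet `F ∋ v` of `𝓕` which is not glued, or glued with an index `i' ≠ i` (then `A.image (phi e i')` with `inl j' ∈ A`, `A ≠ F0`, `e i' j' = v`), does it. Otherwise the only facet containing `v` is `im (e i)`; but `sx i`
for some `f ≠ v` in `im (e i)` gives another one. (`v` is in some facet: `sep v v'` for `v' ≠ v`, `nontrivial_of_cplx`.)
`inr (i, w), inl v`: if `v ∉ im (e i)`: `A.image (phi e i)` for `A ∋ inr w` (`A ≠ F0`; exists by `sep (inr w) _`). If `v = e i j`: `sep (inr w) (inl j)` in `𝓖`. `inr (i, w), inr (i', w')`: `i = i'`: `sep (inr w) (inr w')`; `i ≠ i'`: any `A ∋ inr w`. -/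

namespace H47.KO

open Finset

variable {V : Type} [Fintype V] [DecidableEq V] {D : ℕ} {𝓕 : Finset (Finset V)}
variable {ι W : Type} [Fintype ι] [DecidableEq ι] [Fintype W] [DecidableEq W]
variable {𝓖 : Finset (Finset (Fin D ⊕ W))} {e : ι → Fin D → V}

theorem glueComb_d0 (h : GlueOK D 𝓕 𝓖 e) : 0 < D := by
  have := h.two
  omega

private theorem gc_ne_of_inr {A : Finset (Fin D ⊕ W)} {w : W} (hw : Sum.inr w ∈ A) :
    A ≠ im Sum.inl := by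
  intro hA
  rw [hA, mem_im] at hw
  obtain ⟨j, hj⟩ := hw
  cases hj

private theorem gc_ne_of_inl {A : Finset (Fin D ⊕ W)} {j : Fin D} (hw : Sum.inl j ∉ A) :
    A ≠ im Sum.inl := by
  intro hA
  apply hw
  rw [hA, mem_im]
  exact ⟨j, rfl⟩

/-- a second facet of the gadget through `inl j` -/
private theorem gc_inl (h : GlueOK D 𝓕 𝓖 e) (j : Fin D) :
    ∃ A ∈ 𝓖, A ≠ im Sum.inl ∧ Sum.inl j ∈ A := by
  have hD := h.two
  obtain ⟨j', hj'⟩ : ∃ j' : Fin D, j' ≠ j := by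
    have : Nontrivial (Fin D) := Fin.nontrivial_iff_two_le.mpr hD
    exact exists_ne j
  obtain ⟨A, hA, h1, h2⟩ := h.cG.sep (Sum.inl j) (Sum.inl j') (by
    intro hh
    exact hj' (Sum.inl.inj hh).symm)
  exact ⟨A, hA, gc_ne_of_inl h2, h1⟩

private theorem gc_inr (h : GlueOK D 𝓕 𝓖 e) (w : W) :
    ∃ A ∈ 𝓖, A ≠ im Sum.inl ∧ Sum.inr w ∈ A := by
  obtain ⟨A, hA, h1, h2⟩ := h.cG.sep (Sum.inr w) (Sum.inl ⟨0, glueComb_d0 h⟩) (by simp)
  exact ⟨A, hA, gc_ne_of_inr h1, h1⟩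

private theorem gc_any (h : GlueOK D 𝓕 𝓖 e) : ∃ A ∈ 𝓖, A ≠ im Sum.inl := by
  obtain ⟨A, hA, h1, _⟩ := gc_inl h ⟨0, glueComb_d0 h⟩
  exact ⟨A, hA, h1⟩

private theorem gc_inl_mem {F : Finset V} {v : V} :
    (Sum.inl v : V ⊕ (ι × W)) ∈ F.disjSum (∅ : Finset (ι × W)) ↔ v ∈ F := by
  simp [Finset.mem_disjSum]

private theorem gc_inr_mem {F : Finset V} {p : ι × W} :
    (Sum.inr p : V ⊕ (ι × W)) ∉ F.disjSum (∅ : Finset (ι × W)) := by
  simp [Finset.mem_disjSum]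

theorem glue_anti (h : GlueOK D 𝓕 𝓖 e) : ∀ B ∈ glue 𝓕 𝓖 e, ∀ B' ∈ glue 𝓕 𝓖 e, B ⊆ B' → B = B' := by
  intro B hB B' hB' hs
  rcases mem_glue.mp hB with ⟨F, hF, hFg, rfl⟩ | ⟨i, A, hA, hA0, rfl⟩
  · rcases mem_glue.mp hB' with ⟨F', hF', hFg', rfl⟩ | ⟨i', A', hA', hA0', rfl⟩
    · have hFF : F ⊆ F' := fun v hv => gc_inl_mem.mp (hs (gc_inl_mem.mpr hv))
      rw [h.cF.anti F hF F' hF' hFF]
    · exfalso
      have hFF : F ⊆ im (e i') := fun v hv => by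
        obtain ⟨j, hj, _⟩ := inl_mem_phi.mp (hs (gc_inl_mem.mpr hv))
        exact (mem_im _ _).mpr ⟨j, hj⟩
      exact hFg i' (h.cF.anti F hF _ (h.sx i').1 hFF).symm
  · obtain ⟨w, hw⟩ := exists_inr h hA hA0
    have hwB := hs (inr_mem_phi.mpr ⟨rfl, hw⟩ : (Sum.inr (i, w) : V ⊕ (ι × W)) ∈ A.image (phi e i))
    rcases mem_glue.mp hB' with ⟨F', hF', hFg', rfl⟩ | ⟨i', A', hA', hA0', rfl⟩
    · exact absurd hwB gc_inr_mem
    · obtain ⟨rfl, _⟩ := inr_mem_phi.mp hwB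
      have hAA : A ⊆ A' := by
        intro x hx
        have := hs (mem_image_of_mem _ hx)
        obtain ⟨y, hy, hyx⟩ := mem_image.mp this
        rwa [← phi_inj h i hyx]
      rw [h.cG.anti A hA A' hA' hAA]

theorem glue_out (h : GlueOK D 𝓕 𝓖 e) : ∀ x, ∃ B ∈ glue 𝓕 𝓖 e, x ∉ B := by
  rintro (v | ⟨i, w⟩)
  · obtain ⟨F, hF, hv⟩ := h.cF.out v
    by_cases hg : ∀ i, im (e i) ≠ F
    · exact ⟨_, mem_glue.mpr (Or.inl ⟨F, hF, hg, rfl⟩), fun hh => hv (gc_inl_mem.mp hh)⟩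
    · push Not at hg
      obtain ⟨i, hi⟩ := hg
      obtain ⟨A, hA, hA0⟩ := gc_any h
      refine ⟨_, mem_glue.mpr (Or.inr ⟨i, A, hA, hA0, rfl⟩), fun hh => hv ?_⟩
      obtain ⟨j, hj, _⟩ := inl_mem_phi.mp hh
      rw [← hi, mem_im]
      exact ⟨j, hj⟩
  · obtain ⟨F, hF, hv⟩ := h.cF.out (e i ⟨0, glueComb_d0 h⟩)
    by_cases hg : ∀ i, im (e i) ≠ F
    · exact ⟨_, mem_glue.mpr (Or.inl ⟨F, hF, hg, rfl⟩), gc_inr_mem⟩
    · push Not at hg
      obtain ⟨i', hi'⟩ := hg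
      obtain ⟨A, hA, hA0⟩ := gc_any h
      refine ⟨_, mem_glue.mpr (Or.inr ⟨i', A, hA, hA0, rfl⟩), fun hh => hv ?_⟩
      obtain ⟨hii, _⟩ := inr_mem_phi.mp hh
      rw [← hi', ← hii, mem_im]
      exact ⟨_, rfl⟩

/-- a facet of the glued family over a facet of `𝓕` through `v` -/
private theorem gc_over (h : GlueOK D 𝓕 𝓖 e) {F : Finset V} (hF : F ∈ 𝓕) {v : V} (hv : v ∈ F)
    (i : ι) (hi : im (e i) ≠ F) (w : W) :
    ∃ B ∈ glue 𝓕 𝓖 e, (Sum.inl v : V ⊕ (ι × W)) ∈ B ∧ (Sum.inr (i, w) : V ⊕ (ι × W)) ∉ B := by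
  by_cases hg : ∀ i, im (e i) ≠ F
  · exact ⟨_, mem_glue.mpr (Or.inl ⟨F, hF, hg, rfl⟩), gc_inl_mem.mpr hv, gc_inr_mem⟩
  · push Not at hg
    obtain ⟨i', hi'⟩ := hg
    obtain ⟨j, hj⟩ := (mem_im _ _).mp (hi'.symm ▸ hv : v ∈ im (e i'))
    obtain ⟨A, hA, hA0, hjA⟩ := gc_inl h j
    refine ⟨_, mem_glue.mpr (Or.inr ⟨i', A, hA, hA0, rfl⟩), inl_mem_phi.mpr ⟨j, hj, hjA⟩,
      fun hh => ?_⟩
    obtain ⟨hii, _⟩ := inr_mem_phi.mp hh
    exact hi (hii ▸ hi')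

theorem glue_sep (h : GlueOK D 𝓕 𝓖 e) : ∀ x y, x ≠ y → ∃ B ∈ glue 𝓕 𝓖 e, x ∈ B ∧ y ∉ B := by
  rintro (v | ⟨i, w⟩) (v' | ⟨i', w'⟩) hne
  · have hvv : v ≠ v' := fun hh => hne (by rw [hh])
    obtain ⟨F, hF, hv, hv'⟩ := h.cF.sep v v' hvv
    by_cases hg : ∀ i, im (e i) ≠ F
    · exact ⟨_, mem_glue.mpr (Or.inl ⟨F, hF, hg, rfl⟩), gc_inl_mem.mpr hv,
        fun hh => hv' (gc_inl_mem.mp hh)⟩
    · push Not at hg
      obtain ⟨i, hi⟩ := hg
      obtain ⟨j, hj⟩ := (mem_im _ _).mp (hi.symm ▸ hv : v ∈ im (e i))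
      obtain ⟨A, hA, hA0, hjA⟩ := gc_inl h j
      refine ⟨_, mem_glue.mpr (Or.inr ⟨i, A, hA, hA0, rfl⟩), inl_mem_phi.mpr ⟨j, hj, hjA⟩,
        fun hh => hv' ?_⟩
      obtain ⟨j', hj', _⟩ := inl_mem_phi.mp hh
      rw [← hi, mem_im]
      exact ⟨j', hj'⟩
  · have hnt : Nontrivial V := nontrivial_of_cplx (glueComb_d0 h) h.cF
    obtain ⟨v2, hv2⟩ := exists_ne v
    obtain ⟨F, hF, hv, _⟩ := h.cF.sep v v2 hv2.symm
    by_cases hi : im (e i') = F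
    · -- another facet through `v`
      have hnt2 : Nontrivial (Fin D) := Fin.nontrivial_iff_two_le.mpr h.two
      obtain ⟨j, hj⟩ := (mem_im _ _).mp (hi.symm ▸ hv : v ∈ im (e i'))
      obtain ⟨j', hj'⟩ := exists_ne j
      have hf : e i' j' ∈ im (e i') := (mem_im _ _).mpr ⟨j', rfl⟩
      obtain ⟨G, hG, hFG⟩ := (h.sx i').2.2 (e i' j') hf
      have hvG : v ∈ G := by
        have h1 : v ∈ (im (e i')).erase (e i' j') := by
          rw [mem_erase]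
          refine ⟨?_, (mem_im _ _).mpr ⟨j, hj⟩⟩
          rw [← hj]
          intro hh
          exact hj' (h.inj i' hh).symm
        rw [← hFG] at h1
        exact (mem_inter.mp h1).2
      have hneG : im (e i') ≠ G := by
        intro hh
        rw [← hh, inter_self] at hFG
        rw [hFG] at hf
        exact (notMem_erase _ _) hf
      exact gc_over h hG hvG i' hneG w'
    · exact gc_over h hF hv i' hi w'
  · by_cases hv : ∃ j, e i j = v'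
    · obtain ⟨j, hj⟩ := hv
      obtain ⟨A, hA, h1, h2⟩ := h.cG.sep (Sum.inr w) (Sum.inl j) (by simp)
      refine ⟨_, mem_glue.mpr (Or.inr ⟨i, A, hA, gc_ne_of_inr h1, rfl⟩),
        inr_mem_phi.mpr ⟨rfl, h1⟩, fun hh => h2 ?_⟩
      obtain ⟨j', hj', hjA⟩ := inl_mem_phi.mp hh
      rwa [← h.inj i (hj'.trans hj.symm)]
    · obtain ⟨A, hA, hA0, h1⟩ := gc_inr h w
      refine ⟨_, mem_glue.mpr (Or.inr ⟨i, A, hA, hA0, rfl⟩),
        inr_mem_phi.mpr ⟨rfl, h1⟩, fun hh => hv ?_⟩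
      obtain ⟨j', hj', _⟩ := inl_mem_phi.mp hh
      exact ⟨j', hj'⟩
  · by_cases hi : i' = i
    · subst hi
      have hww : w ≠ w' := fun hh => hne (by rw [hh])
      obtain ⟨A, hA, h1, h2⟩ := h.cG.sep (Sum.inr w) (Sum.inr w') (fun hh => hww (Sum.inr.inj hh))
      exact ⟨_, mem_glue.mpr (Or.inr ⟨i', A, hA, gc_ne_of_inr h1, rfl⟩),
        inr_mem_phi.mpr ⟨rfl, h1⟩, fun hh => h2 (inr_mem_phi.mp hh).2⟩
    · obtain ⟨A, hA, hA0, h1⟩ := gc_inr h w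
      exact ⟨_, mem_glue.mpr (Or.inr ⟨i, A, hA, hA0, rfl⟩),
        inr_mem_phi.mpr ⟨rfl, h1⟩, fun hh => hi (inr_mem_phi.mp hh).1⟩

end H47.KO
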