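import Pool.Agent.H47.KO.GlueCl
import Pool.Agent.H47.KO.FlFac

/-! # KO.GlueFl : the number of flags of a glued family

`fl_facets` for `glue 𝓕 𝓖 e` (the hypothesis `hc`, proved in `GlueCx`): the facets are the disjoint union of `F.disjSum ∅ = F.image inl` (`F ∈ 𝓕` not glued; `fl (Low ..) = fl (Low 𝓕 F)` by `low_congr` with `j = Sum.inl` and
`isCl_glue_inl`) and `A.image (phi e i)` (`A ∈ 𝓖`, `A ≠ F0`; `fl (Low 𝓖 A)` by `low_congr` with `j = phi e i`, `isCl_glue_phi`), injectively indexed (`glue_fac_inj`; the two kinds are different because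
`A` contains some `inr w` by `anti`). `∑ F not glued = fl (CLat 𝓕) - card ι * D!` (`low_sx`, the `im (e i)` are `card ι` different facets), `∑ A ≠ F0 = fl (CLat 𝓖) - D!`. The statement avoids subtraction. -/

namespace H47.KO

open Finset

variable {V : Type} [Fintype V] [DecidableEq V] {D : ℕ} {𝓕 : Finset (Finset V)}
variable {ι W : Type} [Fintype ι] [DecidableEq ι] [Fintype W] [DecidableEq W]
variable {𝓖 : Finset (Finset (Fin D ⊕ W))} {e : ι → Fin D → V}

theorem fl_glue (h : GlueOK D 𝓕 𝓖 e) (hc : Cplx D (glue 𝓕 𝓖 e)) :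
    fl (CLat (glue 𝓕 𝓖 e)) + Fintype.card ι * (2 * D.factorial) =
      fl (CLat 𝓕) + Fintype.card ι * fl (CLat 𝓖) := by
  have hD : 1 ≤ D := le_trans (by norm_num) h.two
  -- the flags of `𝓕`
  have h1 : fl (CLat 𝓕) = ∑ F ∈ 𝓕.filter (fun F => ∀ i, im (e i) ≠ F), fl (Low 𝓕 F)
      + Fintype.card ι * D.factorial := by
    rw [fl_facets hD h.cF, ← Finset.sum_filter_add_sum_filter_not 𝓕 (fun F => ∀ i, im (e i) ≠ F)]
    congr 1
    have h2 : 𝓕.filter (fun F => ¬ ∀ i, im (e i) ≠ F) = univ.image fun i => im (e i) := by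
      ext F
      rw [mem_filter, mem_image]
      constructor
      · rintro ⟨_, h3⟩
        push Not at h3
        obtain ⟨i, hi⟩ := h3
        exact ⟨i, mem_univ i, hi⟩
      · rintro ⟨i, _, rfl⟩
        exact ⟨(h.sx i).1, fun h3 => h3 i rfl⟩
    rw [h2, Finset.sum_image (fun i _ j _ hij => h.dist i j hij),
      Finset.sum_congr rfl fun i _ => low_sx (h.sx i), Finset.sum_const, Finset.card_univ,
      smul_eq_mul]
  -- the flags of `𝓖`
  have h2 : fl (CLat 𝓖) = D.factorial + ∑ A ∈ 𝓖.erase (im Sum.inl), fl (Low 𝓖 A) := by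
    rw [fl_facets hD h.cG, ← Finset.add_sum_erase 𝓖 _ h.sx0.1, low_sx h.sx0]
  -- the flags of the glued family
  have h3 : fl (CLat (glue 𝓕 𝓖 e)) =
      ∑ F ∈ 𝓕.filter (fun F => ∀ i, im (e i) ≠ F), fl (Low 𝓕 F)
      + Fintype.card ι * ∑ A ∈ 𝓖.erase (im Sum.inl), fl (Low 𝓖 A) := by
    rw [fl_facets hD hc]
    have h4 : ∀ F ∈ 𝓕.filter (fun F => ∀ i, im (e i) ≠ F),
        fl (Low (glue 𝓕 𝓖 e) (F.disjSum ∅)) = fl (Low 𝓕 F) := by
      intro F hF
      obtain ⟨hF1, hF2⟩ := mem_filter.1 hF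
      have h5 : (F.disjSum ∅ : Finset (V ⊕ (ι × W))) = F.image Sum.inl := by
        ext (v | w) <;> simp
      rw [h5]
      exact low_congr Sum.inl Sum.inl_injective fun A hA => isCl_glue_inl h hF1 hF2 hA
    have h5 : ∀ (i : ι), ∀ A ∈ 𝓖.erase (im Sum.inl),
        fl (Low (glue 𝓕 𝓖 e) (A.image (phi e i))) = fl (Low 𝓖 A) := by
      intro i A hA
      obtain ⟨hA1, hA2⟩ := mem_erase.1 hA
      exact low_congr (phi e i) (phi_inj h i) fun B hB => isCl_glue_phi h i hA2 hA1 hB
    have h6 : glue 𝓕 𝓖 e = (𝓕.filter fun F => ∀ i, im (e i) ≠ F).image (fun F => F.disjSum ∅) ∪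
        (univ : Finset ι).biUnion fun i =>
          (𝓖.erase (im (Sum.inl : Fin D → Fin D ⊕ W))).image fun A => A.image (phi e i) := rfl
    have h7 : Disjoint ((𝓕.filter fun F => ∀ i, im (e i) ≠ F).image
        (fun F => (F.disjSum ∅ : Finset (V ⊕ (ι × W)))))
        ((univ : Finset ι).biUnion fun i =>
          (𝓖.erase (im (Sum.inl : Fin D → Fin D ⊕ W))).image fun A => A.image (phi e i)) := by
      rw [Finset.disjoint_left]
      intro B hB hB'
      obtain ⟨F, -, rfl⟩ := mem_image.1 hB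
      obtain ⟨i, -, hi⟩ := mem_biUnion.1 hB'
      obtain ⟨A, hA, hA'⟩ := mem_image.1 hi
      obtain ⟨hA1, hA2⟩ := mem_erase.1 hA
      exact inl_ne_phi h i hA2 hA1 F hA'.symm
    have h8 : ∀ g : Finset (V ⊕ (ι × W)) → ℕ, ∑ B ∈ glue 𝓕 𝓖 e, g B =
        ∑ F ∈ 𝓕.filter (fun F => ∀ i, im (e i) ≠ F), g (F.disjSum ∅)
        + ∑ i : ι, ∑ A ∈ 𝓖.erase (im Sum.inl), g (A.image (phi e i)) := by
      intro g
      rw [h6, Finset.sum_union h7]
      congr 1
      · rw [Finset.sum_image]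
        intro F _ F' _ hFF
        ext v
        have h9 := congrArg (fun B => Sum.inl v ∈ B) hFF
        simpa only [inl_mem_disjSum, eq_iff_iff] using h9
      · rw [Finset.sum_biUnion]
        · refine Finset.sum_congr rfl fun i _ => ?_
          rw [Finset.sum_image]
          intro A _ A' _ hAA
          exact Finset.image_injective (phi_inj h i) hAA
        · intro i _ j _ hij
          rw [Function.onFun, Finset.disjoint_left]
          intro B hB hB'
          obtain ⟨A, hA, rfl⟩ := mem_image.1 hB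
          obtain ⟨A', hA', hAA⟩ := mem_image.1 hB'
          obtain ⟨hA1, hA2⟩ := mem_erase.1 hA
          obtain ⟨hA1', hA2'⟩ := mem_erase.1 hA'
          exact hij (glue_fac_inj h hA2 hA2' hA1 hA1' hAA.symm).1
    rw [h8, Finset.sum_congr rfl h4, Finset.sum_congr rfl fun i _ => Finset.sum_congr rfl (h5 i),
      Finset.sum_const, Finset.card_univ, smul_eq_mul]
  rw [h1, h2, h3]
  ring

end H47.KO
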