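import Pool.Agent.H47.KO.GlueIter
import Pool.Agent.H47.KO.GlueFl

/-! # KO.GlueCx : a glued family is a complex (glue, no sorry) -/

namespace H47.KO

open Finset

variable {V : Type} [Fintype V] [DecidableEq V] {D : ℕ} {𝓕 : Finset (Finset V)}
variable {ι W : Type} [Fintype ι] [DecidableEq ι] [Fintype W] [DecidableEq W]
variable {𝓖 : Finset (Finset (Fin D ⊕ W))} {e : ι → Fin D → V}

theorem cplx_glue (h : GlueOK D 𝓕 𝓖 e) : Cplx D (glue 𝓕 𝓖 e) :=
  ⟨glue_anti h, glue_out h, glue_sep h, real_glue e h⟩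

theorem fl_glue' (h : GlueOK D 𝓕 𝓖 e) :
    fl (CLat (glue 𝓕 𝓖 e)) + Fintype.card ι * (2 * D.factorial) =
      fl (CLat 𝓕) + Fintype.card ι * fl (CLat 𝓖) := fl_glue h (cplx_glue h)

end H47.KO
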