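import Pool.Agent.H47.KO.GlueMem

/-! # KO.GlueDeg : degrees in a glued family

`deg_glue_inl`: facets containing `inl v`: `F.disjSum ∅` with `F ∋ v` not glued: there are `deg 𝓕 v - #{i : v ∈ im (e i)}` of them (the `im (e i)` are different facets of `𝓕`, `dist`); and for each pair `(i, j)` with `e i j = v` (for each `i` at most one `j`):
`A.image (phi e i)`, `A ∈ 𝓖`, `inl j ∈ A`, `A ≠ F0`: there are `deg 𝓖 (inl j) - 1` of them. The statement avoids subtraction.
`deg_glue_inr`: facets containing `inr (i, w)`: `A.image (phi e i)`, `A ∋ inr w` (`A ≠ F0` automatically).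
`card_glue`: `card 𝓕 - card ι + card ι * (card 𝓖 - 1)`.
(injectivity of the indexing: `glue_fac_inj`, `phi_inj`; `F.disjSum ∅ ≠ A.image (phi e i)` because `A ⊄ F0` by `anti`.)
`card_facet`: the cardinality of a facet containing `inr (i, w)` is that of the gadget facet. -/

namespace H47.KO

open Finset

variable {V : Type} [Fintype V] [DecidableEq V] {D : ℕ} {𝓕 : Finset (Finset V)}
variable {ι W : Type} [Fintype ι] [DecidableEq ι] [Fintype W] [DecidableEq W]
variable {𝓖 : Finset (Finset (Fin D ⊕ W))} {e : ι → Fin D → V}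

theorem gd_disjSum_inj :
    Function.Injective (fun F : Finset V => (F.disjSum ∅ : Finset (V ⊕ (ι × W)))) := by
  intro F F' hFF
  ext v
  have := Finset.ext_iff.1 hFF (Sum.inl v)
  simpa using this

/-- unglued facets -/
theorem gd_card_unglued (h : GlueOK D 𝓕 𝓖 e) :
    (𝓕.filter fun F => ∀ i, im (e i) ≠ F).card + Fintype.card ι = 𝓕.card := by
  have h1 : (𝓕.filter fun F => ¬ ∀ i, im (e i) ≠ F) = (univ : Finset ι).image fun i => im (e i) := by
    ext F
    rw [mem_filter, mem_image]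
    constructor
    · rintro ⟨_, h2⟩
      push Not at h2
      obtain ⟨i, hi⟩ := h2
      exact ⟨i, mem_univ i, hi⟩
    · rintro ⟨i, _, rfl⟩
      exact ⟨(h.sx i).1, fun h2 => h2 i rfl⟩
  have h2 : (𝓕.filter fun F => ¬ ∀ i, im (e i) ≠ F).card = Fintype.card ι := by
    rw [h1, card_image_of_injective _ (fun i j hij => h.dist i j hij), card_univ]
  rw [← h2]
  exact card_filter_add_card_filter_not (s := 𝓕) (fun F => ∀ i, im (e i) ≠ F)

/-- unglued facets at a vertex -/
theorem gd_card_unglued_at (h : GlueOK D 𝓕 𝓖 e) (v : V) :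
    ((𝓕.filter fun F => ∀ i, im (e i) ≠ F).filter fun F => v ∈ F).card +
      ((univ : Finset (ι × Fin D)).filter (fun p => e p.1 p.2 = v)).card = deg 𝓕 v := by
  have h1 : ((𝓕.filter fun F => v ∈ F).filter fun F => ¬ ∀ i, im (e i) ≠ F) =
      ((univ : Finset (ι × Fin D)).filter (fun p => e p.1 p.2 = v)).image
        fun p => im (e p.1) := by
    ext F
    rw [mem_filter, mem_filter, mem_image]
    constructor
    · rintro ⟨⟨_, hv⟩, h2⟩
      push Not at h2
      obtain ⟨i, rfl⟩ := h2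
      obtain ⟨j, hj⟩ := (mem_im _ _).1 hv
      exact ⟨(i, j), mem_filter.2 ⟨mem_univ _, hj⟩, rfl⟩
    · rintro ⟨p, hp, rfl⟩
      exact ⟨⟨(h.sx p.1).1, (mem_im _ _).2 ⟨p.2, (mem_filter.1 hp).2⟩⟩, fun h2 => h2 p.1 rfl⟩
  have h2 : ((𝓕.filter fun F => v ∈ F).filter fun F => ¬ ∀ i, im (e i) ≠ F).card =
      ((univ : Finset (ι × Fin D)).filter (fun p => e p.1 p.2 = v)).card := by
    rw [h1]
    apply card_image_of_injOn
    rintro ⟨i, j⟩ hp ⟨i', j'⟩ hp' hpp
    have hii : i = i' := h.dist i i' hpp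
    subst hii
    have e1 : e i j = v := (mem_filter.1 (mem_coe.1 hp)).2
    have e2 : e i j' = v := (mem_filter.1 (mem_coe.1 hp')).2
    rw [h.inj i (e1.trans e2.symm)]
  unfold deg
  rw [← card_filter_add_card_filter_not (s := 𝓕.filter fun F => v ∈ F)
    (fun F => ∀ i, im (e i) ≠ F), h2]
  congr 2
  ext F
  simp only [mem_filter]
  tauto

theorem gd_deg_pos (h : GlueOK D 𝓕 𝓖 e) (j : Fin D) :
    ((𝓖.erase (im Sum.inl)).filter fun A => Sum.inl j ∈ A).card + 1 = deg 𝓖 (Sum.inl j) := by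
  unfold deg
  have h1 : ((𝓖.erase (im Sum.inl)).filter fun A => Sum.inl j ∈ A) =
      (𝓖.filter fun A => Sum.inl j ∈ A).erase (im Sum.inl) := by
    ext A
    simp only [mem_filter, mem_erase]
    tauto
  rw [h1]
  apply card_erase_add_one
  rw [mem_filter]
  exact ⟨h.sx0.1, (mem_im _ _).2 ⟨j, rfl⟩⟩

theorem deg_glue_inl (h : GlueOK D 𝓕 𝓖 e) (v : V) :
    deg (glue 𝓕 𝓖 e) (Sum.inl v) +
      ∑ p ∈ (univ : Finset (ι × Fin D)).filter (fun p => e p.1 p.2 = v), 2 =
    deg 𝓕 v + ∑ p ∈ (univ : Finset (ι × Fin D)).filter (fun p => e p.1 p.2 = v),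
      deg 𝓖 (Sum.inl p.2) := by
  have h1 : ((glue 𝓕 𝓖 e).filter fun B => Sum.inl v ∈ B) =
      (((𝓕.filter fun F => ∀ i, im (e i) ≠ F).filter fun F => v ∈ F).image
        fun F => F.disjSum ∅) ∪
      (((univ : Finset (ι × Fin D)).filter (fun p => e p.1 p.2 = v)).biUnion fun p =>
        ((𝓖.erase (im Sum.inl)).filter fun A => Sum.inl p.2 ∈ A).image
          fun A => A.image (phi e p.1)) := by
    ext B
    rw [mem_filter, mem_union, mem_image, mem_biUnion, mem_glue]
    constructor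
    · rintro ⟨⟨F, hF, h2, rfl⟩ | ⟨i, A, hA, h2, rfl⟩, hv⟩
      · refine Or.inl ⟨F, ?_, rfl⟩
        rw [mem_filter, mem_filter]
        exact ⟨⟨hF, h2⟩, Finset.inl_mem_disjSum.1 hv⟩
      · obtain ⟨j, hj, hjA⟩ := inl_mem_phi.1 hv
        refine Or.inr ⟨(i, j), mem_filter.2 ⟨mem_univ _, hj⟩, mem_image.2 ⟨A, ?_, rfl⟩⟩
        rw [mem_filter, mem_erase]
        exact ⟨⟨h2, hA⟩, hjA⟩
    · rintro (⟨F, hF, rfl⟩ | ⟨p, hp, hB⟩)
      · rw [mem_filter, mem_filter] at hF
        exact ⟨Or.inl ⟨F, hF.1.1, hF.1.2, rfl⟩, Finset.inl_mem_disjSum.2 hF.2⟩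
      · rw [mem_image] at hB
        obtain ⟨A, hA, rfl⟩ := hB
        rw [mem_filter, mem_erase] at hA
        exact ⟨Or.inr ⟨p.1, A, hA.1.2, hA.1.1, rfl⟩,
          inl_mem_phi.2 ⟨p.2, (mem_filter.1 hp).2, hA.2⟩⟩
  have h2 : (((univ : Finset (ι × Fin D)).filter (fun p => e p.1 p.2 = v)).biUnion fun p =>
        ((𝓖.erase (im Sum.inl)).filter fun A => Sum.inl p.2 ∈ A).image
          fun A => A.image (phi (W := W) e p.1)).card +
      ((univ : Finset (ι × Fin D)).filter (fun p => e p.1 p.2 = v)).card =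
      ∑ p ∈ (univ : Finset (ι × Fin D)).filter (fun p => e p.1 p.2 = v),
      deg 𝓖 (Sum.inl p.2) := by
    rw [card_biUnion, card_eq_sum_ones, ← sum_add_distrib]
    · refine sum_congr rfl fun p _ => ?_
      rw [card_image_of_injective _ (Finset.image_injective (phi_inj h p.1)), gd_deg_pos h]
    · rintro ⟨i, j⟩ hp ⟨i', j'⟩ hp' hne
      rw [Function.onFun, disjoint_left]
      intro B hB hB'
      rw [mem_image] at hB hB'
      obtain ⟨A, hA, rfl⟩ := hB
      obtain ⟨A', hA', hAA⟩ := hB'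
      rw [mem_filter, mem_erase] at hA hA'
      obtain ⟨h3, h4⟩ := glue_fac_inj h hA'.1.2 hA.1.2 hA'.1.1 hA.1.1 hAA
      dsimp only at h3
      subst h3
      apply hne
      have e1 : e i' j = v := (mem_filter.1 (mem_coe.1 hp)).2
      have e2 : e i' j' = v := (mem_filter.1 (mem_coe.1 hp')).2
      rw [h.inj i' (e1.trans e2.symm)]
  have h3 := gd_card_unglued_at h v
  have h4 : deg (glue 𝓕 𝓖 e) (Sum.inl v) =
      ((𝓕.filter fun F => ∀ i, im (e i) ≠ F).filter fun F => v ∈ F).card +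
      (((univ : Finset (ι × Fin D)).filter (fun p => e p.1 p.2 = v)).biUnion fun p =>
        ((𝓖.erase (im Sum.inl)).filter fun A => Sum.inl p.2 ∈ A).image
          fun A => A.image (phi (W := W) e p.1)).card := by
    rw [deg, h1, card_union_of_disjoint, card_image_of_injective _ gd_disjSum_inj]
    rw [disjoint_left]
    intro B hB hB'
    rw [mem_image] at hB
    rw [mem_biUnion] at hB'
    obtain ⟨F, _, rfl⟩ := hB
    obtain ⟨p, _, hB'⟩ := hB'
    rw [mem_image] at hB'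
    obtain ⟨A, hA, hAA⟩ := hB'
    rw [mem_filter, mem_erase] at hA
    exact inl_ne_phi h p.1 hA.1.2 hA.1.1 F hAA.symm
  rw [sum_const, smul_eq_mul, h4]
  omega

theorem deg_glue_inr (h : GlueOK D 𝓕 𝓖 e) (i : ι) (w : W) :
    deg (glue 𝓕 𝓖 e) (Sum.inr (i, w)) = deg 𝓖 (Sum.inr w) := by
  have h1 : ((glue 𝓕 𝓖 e).filter fun B => Sum.inr (i, w) ∈ B) =
      (𝓖.filter fun A => Sum.inr w ∈ A).image fun A => A.image (phi e i) := by
    ext B
    rw [mem_filter, mem_image, mem_glue]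
    constructor
    · rintro ⟨⟨F, hF, h2, rfl⟩ | ⟨i', A, hA, h2, rfl⟩, hv⟩
      · exact absurd (Finset.inr_mem_disjSum.1 hv) (Finset.notMem_empty _)
      · obtain ⟨rfl, hw⟩ := inr_mem_phi.1 hv
        exact ⟨A, mem_filter.2 ⟨hA, hw⟩, rfl⟩
    · rintro ⟨A, hA, rfl⟩
      rw [mem_filter] at hA
      refine ⟨Or.inr ⟨i, A, hA.1, ?_, rfl⟩, inr_mem_phi.2 ⟨rfl, hA.2⟩⟩
      rintro rfl
      obtain ⟨j, hj⟩ := (mem_im _ _).1 hA.2
      exact absurd hj (by simp)
  rw [deg, h1, card_image_of_injective _ (Finset.image_injective (phi_inj h i)), deg]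

theorem card_glue (h : GlueOK D 𝓕 𝓖 e) :
    (glue 𝓕 𝓖 e).card + Fintype.card ι * 2 = 𝓕.card + Fintype.card ι * 𝓖.card := by
  have h1 : (glue 𝓕 𝓖 e).card = (𝓕.filter fun F => ∀ i, im (e i) ≠ F).card +
      ((univ : Finset ι).biUnion fun i =>
        (𝓖.erase (im (Sum.inl : Fin D → Fin D ⊕ W))).image fun A =>
          A.image (phi (W := W) e i)).card := by
    rw [glue, card_union_of_disjoint, card_image_of_injective _ gd_disjSum_inj]
    rw [disjoint_left]
    intro B hB hB'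
    rw [mem_image] at hB
    rw [mem_biUnion] at hB'
    obtain ⟨F, _, rfl⟩ := hB
    obtain ⟨i, _, hB'⟩ := hB'
    rw [mem_image] at hB'
    obtain ⟨A, hA, hAA⟩ := hB'
    rw [mem_erase] at hA
    exact inl_ne_phi h i hA.2 hA.1 F hAA.symm
  have h2 : ((univ : Finset ι).biUnion fun i =>
        (𝓖.erase (im (Sum.inl : Fin D → Fin D ⊕ W))).image fun A =>
          A.image (phi (W := W) e i)).card = Fintype.card ι * (𝓖.card - 1) := by
    rw [card_biUnion]
    · rw [sum_congr rfl (g := fun _ => 𝓖.card - 1), sum_const, card_univ, smul_eq_mul]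
      intro i _
      rw [card_image_of_injective _ (Finset.image_injective (phi_inj h i)),
        card_erase_of_mem h.sx0.1]
    · intro i _ i' _ hne
      rw [Function.onFun, disjoint_left]
      intro B hB hB'
      rw [mem_image] at hB hB'
      obtain ⟨A, hA, rfl⟩ := hB
      obtain ⟨A', hA', hAA⟩ := hB'
      rw [mem_erase] at hA hA'
      exact hne (glue_fac_inj h hA'.2 hA.2 hA'.1 hA.1 hAA).1.symm
  have h3 := gd_card_unglued h
  have h4 : 1 ≤ 𝓖.card := card_pos.2 ⟨_, h.sx0.1⟩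
  obtain ⟨m, hm⟩ := Nat.exists_eq_add_of_le h4
  rw [h1, h2, hm, Nat.add_sub_cancel_left, Nat.mul_add, ← h3]
  ring

end H47.KO
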