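import Pool.Agent.H47.KO.GlueMem
import Pool.Agent.H47.KO.Acts

/-! # KO.GlueInv : the glued family is invariant

`F.disjSum ∅`, `F` not glued: the image is `(F.image (act g)).disjSum ∅`, and `F.image (act g)` is not glued: if it is `im (e i)` then `F = (im (e i)).image (act g⁻¹) = im (e (aι g⁻¹ i))` by `EqGlue` for `g⁻¹` (`act g⁻¹ (e i j) = e (aι g⁻¹ i) (σ j)`). `A.image (phi e i)`: the image under `actSum act (actProd aι τ) g` is
`(A.image (Sum.map σ (τ g))).image (phi e (aι g i))` with `σ` from `EqGlue`, and `A.image (Sum.map σ (τ g)) ≠ im inl` if `A ≠ im inl` (`Sum.map σ (τ g)` is a bijection which preserves `im inl`). -/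

namespace H47.KO

open Finset

variable {V G : Type} [Fintype V] [DecidableEq V] [Group G] {D : ℕ}
  {𝓕 : Finset (Finset V)} {act : G →* Equiv.Perm V}
variable {ι W : Type} [Fintype ι] [DecidableEq ι] [Fintype W] [DecidableEq W]
variable {𝓖 : Finset (Finset (Fin D ⊕ W))} {e : ι → Fin D → V}

omit [Fintype V] [Fintype ι] [DecidableEq ι] [Fintype W] [DecidableEq W] [Group G] in
private theorem im_image_aux {f : V → V} {a b : Fin D → V} {σ : Equiv.Perm (Fin D)}
    (h : ∀ j, f (a j) = b (σ j)) : (im a).image f = im b := by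
  ext v
  rw [mem_image, im, im]
  constructor
  · rintro ⟨u, hu, rfl⟩
    obtain ⟨j, _, rfl⟩ := mem_image.1 hu
    rw [h j]
    exact mem_image.2 ⟨σ j, mem_univ _, rfl⟩
  · intro hv
    obtain ⟨j, _, rfl⟩ := mem_image.1 hv
    refine ⟨a (σ.symm j), mem_image.2 ⟨_, mem_univ _, rfl⟩, ?_⟩
    rw [h, Equiv.apply_symm_apply]

theorem glue_inv (hinv : ∀ g, ∀ F ∈ 𝓕, F.image (act g) ∈ 𝓕)
    (aι : G →* Equiv.Perm ι) (τ : G →* Equiv.Perm W) (heq : EqGlue act 𝓖 e aι τ) (g : G)
    (B : Finset (V ⊕ (ι × W))) (hB : B ∈ glue 𝓕 𝓖 e) :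
    B.image (actSum act (actProd aι τ) g) ∈ glue 𝓕 𝓖 e := by
  rw [mem_glue] at hB
  rw [mem_glue]
  rcases hB with ⟨F, hF, hne, rfl⟩ | ⟨i, A, hA, h1, rfl⟩
  · refine Or.inl ⟨F.image (act g), hinv g F hF, ?_, ?_⟩
    · intro i hi
      obtain ⟨σ, hσ, _⟩ := heq g⁻¹ i
      have h2 : (im (e i)).image (act g⁻¹) = im (e (aι g⁻¹ i)) := im_image_aux hσ
      rw [hi, image_image] at h2
      have h3 : (act g⁻¹ : V → V) ∘ (act g : V → V) = id := by
        funext v
        change (act g⁻¹) ((act g) v) = v
        rw [← Equiv.Perm.mul_apply, ← map_mul, inv_mul_cancel, map_one, Equiv.Perm.one_apply]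
      rw [h3, image_id] at h2
      exact hne _ h2.symm
    · ext x
      rw [mem_image]
      cases x with
      | inl v =>
        rw [Finset.inl_mem_disjSum, mem_image]
        constructor
        · rintro ⟨y, hy, hyv⟩
          cases y with
          | inl u =>
            rw [Finset.inl_mem_disjSum] at hy
            rw [actSum_inl] at hyv
            exact ⟨u, hy, Sum.inl_injective hyv⟩
          | inr z =>
            rw [Finset.inr_mem_disjSum] at hy
            exact absurd hy (Finset.notMem_empty _)
        · rintro ⟨u, hu, rfl⟩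
          exact ⟨Sum.inl u, Finset.inl_mem_disjSum.2 hu, rfl⟩
      | inr z =>
        rw [Finset.inr_mem_disjSum]
        constructor
        · rintro ⟨y, hy, hyv⟩
          cases y with
          | inl u =>
            rw [actSum_inl] at hyv
            exact absurd hyv (by simp)
          | inr z =>
            rw [Finset.inr_mem_disjSum] at hy
            exact absurd hy (Finset.notMem_empty _)
        · intro h
          exact absurd h (Finset.notMem_empty _)
  · obtain ⟨σ, hσ, hσ2⟩ := heq g i
    refine Or.inr ⟨aι g i, A.image (Sum.map σ (τ g)), hσ2 A hA, ?_, ?_⟩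
    · intro h3
      apply h1
      have h4 : (im (Sum.inl : Fin D → Fin D ⊕ W)).image (Sum.map σ (τ g)) = im Sum.inl := by
        ext x
        rw [mem_image, im]
        constructor
        · rintro ⟨y, hy, rfl⟩
          obtain ⟨j, _, rfl⟩ := mem_image.1 hy
          exact mem_image.2 ⟨σ j, mem_univ _, rfl⟩
        · intro hx
          obtain ⟨j, _, rfl⟩ := mem_image.1 hx
          refine ⟨Sum.inl (σ.symm j), mem_image.2 ⟨_, mem_univ _, rfl⟩, ?_⟩
          rw [Sum.map_inl, Equiv.apply_symm_apply]
      have h5 : Function.Injective (Sum.map (σ : Fin D → Fin D) (τ g : W → W)) :=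
        Sum.map_injective.2 ⟨σ.injective, (τ g).injective⟩
      exact Finset.image_injective h5 (h3.trans h4.symm)
    · rw [image_image, image_image]
      refine image_congr fun x _ => ?_
      cases x with
      | inl j =>
        change Sum.inl (act g (e i j)) = Sum.inl (e (aι g i) (σ j))
        rw [hσ]
      | inr w => rfl

end H47.KO
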