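import Pool.Agent.H47.KO.FlSum
import Pool.Agent.H47.KO.Cl

/-! # KO.Ren : renaming the vertices by a bijection

All routine. `ren f 𝓕 = 𝓕.image (·.image f)`. `Realiz`: vectors `s ∘ f.symm`, functionals `a (B.image f.symm)`. -/

namespace H47.KO

open Finset

variable {V V' : Type} [Fintype V] [DecidableEq V] [Fintype V'] [DecidableEq V']
variable {D : ℕ} {𝓕 : Finset (Finset V)}

private theorem ren_img_symm (f : V ≃ V') (F : Finset V) : (F.image f).image f.symm = F := by
  rw [Finset.image_image]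
  have e : (f.symm : V' → V) ∘ f = id := by
    funext v
    exact f.symm_apply_apply v
  rw [e, Finset.image_id]

private theorem ren_symm_img (f : V ≃ V') (B : Finset V') : (B.image f.symm).image f = B := by
  have h := ren_img_symm f.symm B
  rwa [Equiv.symm_symm] at h

private theorem ren_mem_img (f : V ≃ V') (F : Finset V) (v : V) : f v ∈ F.image f ↔ v ∈ F := by
  rw [Finset.mem_image]
  constructor
  · rintro ⟨u, hu, huv⟩
    rw [← f.injective huv]
    exact hu
  · intro h
    exact ⟨v, h, rfl⟩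

theorem mem_ren (f : V ≃ V') {B : Finset V'} : B ∈ ren f 𝓕 ↔ B.image f.symm ∈ 𝓕 := by
  unfold ren
  rw [Finset.mem_image]
  constructor
  · rintro ⟨F, hF, rfl⟩
    rw [ren_img_symm]
    exact hF
  · intro h
    exact ⟨_, h, ren_symm_img f B⟩

theorem image_mem_ren (f : V ≃ V') {F : Finset V} : F.image f ∈ ren f 𝓕 ↔ F ∈ 𝓕 := by
  rw [mem_ren, ren_img_symm]

private theorem ren_ren (f : V ≃ V') : ren f.symm (ren f 𝓕) = 𝓕 := by
  ext F
  rw [mem_ren, Equiv.symm_symm, image_mem_ren]

theorem isCl_ren (f : V ≃ V') {A : Finset V} : IsCl (ren f 𝓕) (A.image f) ↔ IsCl 𝓕 A := by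
  constructor
  · intro h v hv
    have h1 := h (f v) (by
      intro B hB hAB
      rw [mem_ren] at hB
      have h2 := hv _ hB (by
        have h3 := Finset.image_subset_image (f := f.symm) hAB
        rwa [ren_img_symm] at h3)
      obtain ⟨u, hu, huv⟩ := Finset.mem_image.1 h2
      rw [← huv, f.apply_symm_apply]
      exact hu)
    exact (ren_mem_img f A v).1 h1
  · intro h v' hv'
    have h1 : f.symm v' ∈ A := by
      apply h
      intro F hF hAF
      have h2 := hv' (F.image f) ((image_mem_ren f).2 hF) (Finset.image_subset_image hAF)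
      obtain ⟨u, hu, huv⟩ := Finset.mem_image.1 h2
      rw [← huv, f.symm_apply_apply]
      exact hu
    exact Finset.mem_image.2 ⟨_, h1, f.apply_symm_apply v'⟩

theorem fl_ren (f : V ≃ V') : fl (CLat (ren f 𝓕)) = fl (CLat 𝓕) := by
  symm
  apply fl_congr
  refine
    { toFun := fun A => ⟨A.1.image f, (isCl_ren f).2 A.2⟩
      invFun := fun B => ⟨B.1.image f.symm, by
        have h := (isCl_ren (𝓕 := ren f 𝓕) f.symm (A := B.1)).2 B.2
        rwa [ren_ren] at h⟩
      left_inv := fun A => Subtype.ext (ren_img_symm f A.1)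
      right_inv := fun B => Subtype.ext (ren_symm_img f B.1)
      map_rel_iff' := ?_ }
  intro A B
  exact Finset.image_subset_image_iff f.injective

private theorem realiz_ren_of (f : V ≃ V') (h : Realiz D 𝓕) : Realiz D (ren f 𝓕) := by
  obtain ⟨E, i1, i2, s, a, hr⟩ := h
  refine ⟨E, i1, i2, fun v' => s (f.symm v'), fun B => a (B.image f.symm), ?_⟩
  constructor
  · exact hr.fin
  · exact hr.rank
  · intro B hB v'
    exact hr.nonneg _ ((mem_ren f).1 hB) _
  · intro B hB v'
    have h1 := hr.zero _ ((mem_ren f).1 hB) (f.symm v')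
    rw [h1]
    have h2 := ren_mem_img f.symm B v'
    exact h2
  · intro x hx
    obtain ⟨c, hc, hxc⟩ := hr.compl x (by
      intro F hF
      have h1 := hx (F.image f) ((image_mem_ren f).2 hF)
      rwa [ren_img_symm] at h1)
    refine ⟨fun v' => c (f.symm v'), fun v' => hc _, ?_⟩
    rw [hxc]
    exact (Equiv.sum_comp f.symm (fun v => c v • s v)).symm

theorem realiz_ren (f : V ≃ V') : Realiz D (ren f 𝓕) ↔ Realiz D 𝓕 := by
  constructor
  · intro h
    have h1 := realiz_ren_of f.symm h
    rwa [ren_ren] at h1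
  · exact realiz_ren_of f

private theorem cplx_ren_of (f : V ≃ V') (h : Cplx D 𝓕) : Cplx D (ren f 𝓕) := by
  constructor
  · intro B hB B' hB' hBB
    have h1 := h.anti _ ((mem_ren f).1 hB) _ ((mem_ren f).1 hB') (Finset.image_subset_image hBB)
    rw [← ren_symm_img f B, h1, ren_symm_img]
  · intro v'
    obtain ⟨F, hF, hv⟩ := h.out (f.symm v')
    refine ⟨F.image f, (image_mem_ren f).2 hF, ?_⟩
    intro hcon
    apply hv
    have h1 := ren_mem_img f F (f.symm v')
    rw [f.apply_symm_apply] at h1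
    exact h1.1 hcon
  · intro v' w' hvw
    obtain ⟨F, hF, hv, hw⟩ := h.sep (f.symm v') (f.symm w') (fun h => hvw (f.symm.injective h))
    have h1 := ren_mem_img f F (f.symm v')
    have h2 := ren_mem_img f F (f.symm w')
    rw [f.apply_symm_apply] at h1 h2
    exact ⟨F.image f, (image_mem_ren f).2 hF, h1.2 hv, fun hcon => hw (h2.1 hcon)⟩
  · exact (realiz_ren f).2 h.real

theorem cplx_ren (f : V ≃ V') : Cplx D (ren f 𝓕) ↔ Cplx D 𝓕 := by
  constructor
  · intro h
    have h1 := cplx_ren_of f.symm h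
    rwa [ren_ren] at h1
  · exact cplx_ren_of f

private theorem isSx_ren_of (f : V ≃ V') {F : Finset V} (h : IsSx D 𝓕 F) :
    IsSx D (ren f 𝓕) (F.image f) := by
  obtain ⟨h1, h2, h3⟩ := h
  refine ⟨(image_mem_ren f).2 h1, ?_, ?_⟩
  · rw [Finset.card_image_of_injective _ f.injective, h2]
  · intro u hu
    obtain ⟨v, hv, rfl⟩ := Finset.mem_image.1 hu
    obtain ⟨G, hG, hFG⟩ := h3 v hv
    refine ⟨G.image f, (image_mem_ren f).2 hG, ?_⟩
    rw [← Finset.image_inter _ _ f.injective, hFG, Finset.image_erase f.injective]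

theorem isSx_ren (f : V ≃ V') {F : Finset V} :
    IsSx D (ren f 𝓕) (F.image f) ↔ IsSx D 𝓕 F := by
  constructor
  · intro h
    have h1 := isSx_ren_of f.symm h
    rwa [ren_ren, ren_img_symm] at h1
  · exact isSx_ren_of f

private theorem ren_filter (f : V ≃ V') (v : V) :
    (ren f 𝓕).filter (fun F => f v ∈ F) = (𝓕.filter fun F => v ∈ F).image (fun F => F.image f) := by
  ext B
  rw [Finset.mem_filter, Finset.mem_image]
  constructor
  · rintro ⟨h1, h2⟩
    refine ⟨B.image f.symm, ?_, ren_symm_img f B⟩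
    rw [Finset.mem_filter]
    refine ⟨(mem_ren f).1 h1, ?_⟩
    have h3 := ren_mem_img f (B.image f.symm) v
    rw [ren_symm_img] at h3
    exact h3.1 h2
  · rintro ⟨F, hF, rfl⟩
    rw [Finset.mem_filter] at hF
    exact ⟨(image_mem_ren f).2 hF.1, (ren_mem_img f F v).2 hF.2⟩

theorem deg_ren (f : V ≃ V') (v : V) : deg (ren f 𝓕) (f v) = deg 𝓕 v := by
  unfold deg
  rw [ren_filter, Finset.card_image_of_injective _ (Finset.image_injective f.injective)]

theorem ss_ren (f : V ≃ V') (v : V) : SS D (ren f 𝓕) (f v) ↔ SS D 𝓕 v := by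
  unfold SS
  rw [deg_ren]
  constructor
  · rintro ⟨h1, h2⟩
    refine ⟨h1, fun F hF hv => ?_⟩
    have h3 := h2 (F.image f) ((image_mem_ren f).2 hF) ((ren_mem_img f F v).2 hv)
    rwa [Finset.card_image_of_injective _ f.injective] at h3
  · rintro ⟨h1, h2⟩
    refine ⟨h1, fun B hB hv => ?_⟩
    have h3 := ren_mem_img f (B.image f.symm) v
    rw [ren_symm_img] at h3
    have h4 := h2 (B.image f.symm) ((mem_ren f).1 hB) (h3.1 hv)
    rwa [Finset.card_image_of_injective _ f.symm.injective] at h4

theorem card_ren (f : V ≃ V') : (ren f 𝓕).card = 𝓕.card := by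
  unfold ren
  exact Finset.card_image_of_injective _ (Finset.image_injective f.injective)

end H47.KO
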