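import Pool.Agent.H47.KO.GlueMem
import Pool.Agent.H47.KO.Ren

/-! # KO.GlueOpt : gluing over `Option ι` is gluing over `ι` and then once more

`e' i = e (some i)`, `e'' (_ : Unit) j = Sum.inl (e none j)`. Facets of the left side: `F.disjSum ∅` with `F` different from all `im (e (some i))` and from `im (e none)`; `A.image (phi e (some i))`; `A.image (phi e none)`. Right side: the facets of `glue 𝓕 𝓖 e'` different from `im (e'' ()) = (im (e none)).disjSum ∅`
(all `A.image (phi e' i)` are: `inl_ne_phi`), and `A.image (phi e'' ())`. `optEquiv` maps `phi e' i` to `phi e (some i)` and `phi e'' ()` to `phi e none`. Use `mem_glue`, `mem_ren` (or `ext B` and the images). `glue_equiv`: for `f : ι' ≃ ι`, the same with `Equiv.sumCongr (Equiv.refl V) (Equiv.prodCongr f (Equiv.refl W))`.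
`glue_empty`: `glue 𝓕 𝓖 e = ren (Equiv.sumEmpty ..).symm 𝓕` for empty `ι`. -/

namespace H47.KO

open Finset

variable {V : Type} [Fintype V] [DecidableEq V] {D : ℕ} {𝓕 : Finset (Finset V)}
variable {W : Type} [Fintype W] [DecidableEq W]
variable {𝓖 : Finset (Finset (Fin D ⊕ W))}

/-- the obvious bijection -/
def optEquiv (V ι W : Type) : (V ⊕ (ι × W)) ⊕ (Unit × W) ≃ V ⊕ (Option ι × W) where
  toFun x := match x with
    | Sum.inl (Sum.inl v) => Sum.inl v
    | Sum.inl (Sum.inr (i, w)) => Sum.inr (some i, w)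
    | Sum.inr (_, w) => Sum.inr (none, w)
  invFun x := match x with
    | Sum.inl v => Sum.inl (Sum.inl v)
    | Sum.inr (some i, w) => Sum.inl (Sum.inr (i, w))
    | Sum.inr (none, w) => Sum.inr ((), w)
  left_inv x := by rcases x with (v | ⟨i, w⟩) | ⟨⟨⟩, w⟩ <;> rfl
  right_inv x := by rcases x with v | ⟨_ | i, w⟩ <;> rfl

private theorem go_disj {X Y : Type} [DecidableEq X] [DecidableEq Y] (F : Finset X) :
    (F.disjSum (∅ : Finset Y)) = F.image Sum.inl := by
  ext x
  simp only [Finset.mem_disjSum, Finset.mem_image, Finset.notMem_empty, false_and, exists_false,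
    or_false]

private theorem go_disj_inj {X Y : Type} [DecidableEq X] [DecidableEq Y] {F G : Finset X}
    (h : F.disjSum (∅ : Finset Y) = G.disjSum (∅ : Finset Y)) : F = G := by
  rw [go_disj, go_disj] at h
  exact Finset.image_injective Sum.inl_injective h

private theorem go_a (ι : Type) [DecidableEq ι] (F : Finset V) :
    ((F.disjSum (∅ : Finset (ι × W))).disjSum (∅ : Finset (Unit × W))).image
      (optEquiv V ι W) = F.disjSum ∅ := by
  simp only [go_disj, Finset.image_image]
  rfl

private theorem go_b {ι : Type} [DecidableEq ι] (e : Option ι → Fin D → V) (i : ι)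
    (A : Finset (Fin D ⊕ W)) :
    ((A.image (phi (fun i => e (some i)) i)).disjSum (∅ : Finset (Unit × W))).image
      (optEquiv V ι W) = A.image (phi e (some i)) := by
  simp only [go_disj, Finset.image_image]
  congr 1
  funext x
  rcases x with x | x <;> rfl

private theorem go_c {ι : Type} [DecidableEq ι] (e : Option ι → Fin D → V)
    (A : Finset (Fin D ⊕ W)) :
    (A.image (phi (fun (_ : Unit) j => (Sum.inl (e none j) : V ⊕ (ι × W))) ())).image
      (optEquiv V ι W) = A.image (phi e none) := by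
  simp only [Finset.image_image]
  congr 1
  funext x
  rcases x with x | x <;> rfl

private theorem go_d {ι : Type} [DecidableEq ι] (e : Option ι → Fin D → V) :
    im (fun j => (Sum.inl (e none j) : V ⊕ (ι × W))) = (im (e none)).disjSum ∅ := by
  unfold im
  rw [go_disj, Finset.image_image]
  rfl

theorem glue_option {ι : Type} [Fintype ι] [DecidableEq ι] (e : Option ι → Fin D → V)
    (h : GlueOK D 𝓕 𝓖 e) :
    glue 𝓕 𝓖 e = ren (optEquiv V ι W) (glue (glue 𝓕 𝓖 (fun i => e (some i))) 𝓖
      (fun (_ : Unit) j => (Sum.inl (e none j) : V ⊕ (ι × W)))) := by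
  have hu : GlueOK D 𝓕 𝓖 (fun i => e (some i)) :=
    ⟨h.two, h.cF, h.cG, fun i => h.sx (some i), fun i => h.inj (some i),
      fun i j hij => Option.some_injective _ (h.dist (some i) (some j) hij), h.sx0⟩
  ext B
  unfold ren
  rw [Finset.mem_image, mem_glue]
  constructor
  · rintro (⟨F, hF, hne, rfl⟩ | ⟨i, A, hA, h1, rfl⟩)
    · refine ⟨(F.disjSum ∅).disjSum ∅, ?_, go_a ι F⟩
      rw [mem_glue]
      refine Or.inl ⟨F.disjSum ∅, ?_, ?_, rfl⟩
      · rw [mem_glue]
        exact Or.inl ⟨F, hF, fun i => hne (some i), rfl⟩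
      · intro _ hc
        rw [go_d] at hc
        exact hne none (go_disj_inj hc)
    · rcases i with _ | i
      · refine ⟨_, ?_, go_c e A⟩
        rw [mem_glue]
        exact Or.inr ⟨(), A, hA, h1, rfl⟩
      · refine ⟨_, ?_, go_b e i A⟩
        rw [mem_glue]
        refine Or.inl ⟨_, ?_, ?_, rfl⟩
        · rw [mem_glue]
          exact Or.inr ⟨i, A, hA, h1, rfl⟩
        · intro _ hc
          rw [go_d] at hc
          exact inl_ne_phi hu i hA h1 _ hc
  · rintro ⟨C, hC, rfl⟩
    rw [mem_glue] at hC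
    rcases hC with ⟨F', hF', hne, rfl⟩ | ⟨i, A, hA, h1, rfl⟩
    · rw [mem_glue] at hF'
      rcases hF' with ⟨F, hF, hne', rfl⟩ | ⟨i, A, hA, h1, rfl⟩
      · refine Or.inl ⟨F, hF, ?_, go_a ι F⟩
        intro i
        rcases i with _ | i
        · intro hc
          apply hne ()
          rw [go_d, hc]
        · exact hne' i
      · exact Or.inr ⟨some i, A, hA, h1, go_b e i A⟩
    · exact Or.inr ⟨none, A, hA, h1, go_c e A⟩

theorem glue_equiv {ι ι' : Type} [Fintype ι] [DecidableEq ι] [Fintype ι'] [DecidableEq ι']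
    (f : ι' ≃ ι) (e : ι → Fin D → V) :
    glue 𝓕 𝓖 e = ren (Equiv.sumCongr (Equiv.refl V) (Equiv.prodCongr f (Equiv.refl W)))
      (glue 𝓕 𝓖 (fun i => e (f i))) := by
  have ha : ∀ F : Finset V, (F.disjSum (∅ : Finset (ι' × W))).image
      (Equiv.sumCongr (Equiv.refl V) (Equiv.prodCongr f (Equiv.refl W))) =
      F.disjSum (∅ : Finset (ι × W)) := by
    intro F
    simp only [go_disj, Finset.image_image]
    rfl
  have hb : ∀ (i : ι') (A : Finset (Fin D ⊕ W)), (A.image (phi (fun i => e (f i)) i)).image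
      (Equiv.sumCongr (Equiv.refl V) (Equiv.prodCongr f (Equiv.refl W))) =
      A.image (phi e (f i)) := by
    intro i A
    simp only [Finset.image_image]
    congr 1
    funext x
    rcases x with x | x <;> rfl
  ext B
  unfold ren
  rw [Finset.mem_image, mem_glue]
  constructor
  · rintro (⟨F, hF, hne, rfl⟩ | ⟨i, A, hA, h1, rfl⟩)
    · refine ⟨F.disjSum ∅, ?_, ha F⟩
      rw [mem_glue]
      exact Or.inl ⟨F, hF, fun i => hne (f i), rfl⟩
    · obtain ⟨i', rfl⟩ := f.surjective i
      refine ⟨_, ?_, hb i' A⟩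
      rw [mem_glue]
      exact Or.inr ⟨i', A, hA, h1, rfl⟩
  · rintro ⟨C, hC, rfl⟩
    rw [mem_glue] at hC
    rcases hC with ⟨F, hF, hne, rfl⟩ | ⟨i, A, hA, h1, rfl⟩
    · refine Or.inl ⟨F, hF, ?_, ha F⟩
      intro i
      obtain ⟨i', rfl⟩ := f.surjective i
      exact hne i'
    · exact Or.inr ⟨f i, A, hA, h1, hb i A⟩

theorem glue_empty {ι : Type} [Fintype ι] [DecidableEq ι] [IsEmpty ι] (e : ι → Fin D → V) :
    glue 𝓕 𝓖 e = ren (Equiv.sumEmpty V (ι × W)).symm 𝓕 := by
  ext B
  unfold ren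
  rw [Finset.mem_image, mem_glue]
  have ha : ∀ F : Finset V, F.image (Equiv.sumEmpty V (ι × W)).symm = F.disjSum ∅ := by
    intro F
    rw [go_disj]
    rfl
  constructor
  · rintro (⟨F, hF, hne, rfl⟩ | ⟨i, A, hA, h1, rfl⟩)
    · exact ⟨F, hF, ha F⟩
    · exact isEmptyElim i
  · rintro ⟨F, hF, rfl⟩
    exact Or.inl ⟨F, hF, fun i => isEmptyElim i, ha F⟩

end H47.KO
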