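import Pool.Agent.H47.KO.GlueOne
import Pool.Agent.H47.KO.GlueComb
import Pool.Agent.H47.KO.GlueSx
import Pool.Agent.H47.KO.GlueOpt

/-! # KO.GlueIter : gluing several gadgets by gluing one after the other

`glue_equiv`: for `f : ι' ≃ ι` the family `glue 𝓕 𝓖 e` is the renaming of `glue 𝓕 𝓖 (e ∘ f)` by `Equiv.sumCongr (Equiv.refl V) (Equiv.prodCongr f (Equiv.refl W))` (note `phi e (f i') = (that map) ∘ phi (e ∘ f) i'`).
`glue_empty`: for `ι` empty `glue 𝓕 𝓖 e = ren inl 𝓕`, `inl : V ≃ V ⊕ (ι × W)` (`Equiv.sumEmpty`).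
`glue_option`: `Option ι`, `e' i = e (some i)`, `e'' (_ : Unit) j = Sum.inl (e none j) : V ⊕ (ι × W)`. Then `glue 𝓕 𝓖 e = ren f (glue (glue 𝓕 𝓖 e') 𝓖 e'')` where `f : (V ⊕ (ι × W)) ⊕ (Unit × W) ≃ V ⊕ (Option ι × W)`,
`inl (inl v) ↦ inl v`, `inl (inr (i, w)) ↦ inr (some i, w)`, `inr ((), w) ↦ inr (none, w)` (defined here as `optEquiv`). (facets: those of `𝓕` different from all `im (e (some i))` and from `im (e none)`; those of the gadgets `some i` are different from
`(im (e none)).disjSum ∅` because they contain an `inr`; those of the gadget `none`.)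
`real_glue`: `Fintype.induction_empty_option` on `ι` (for all `e` with `GlueOK`). Step: `GlueOK` for `e'` is clear; `GlueOK D (glue 𝓕 𝓖 e') 𝓖 e''`: `cF`: induction hypothesis + `glue_anti`, `glue_out`, `glue_sep`; `sx`: `isSx_glue_inl` for `F = im (e none)`
(`dist`); then `real_glue_one`, `realiz_ren`. -/

namespace H47.KO

open Finset

variable {V : Type} [Fintype V] [DecidableEq V] {D : ℕ} {𝓕 : Finset (Finset V)}
variable {W : Type} [Fintype W] [DecidableEq W]
variable {𝓖 : Finset (Finset (Fin D ⊕ W))}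

private theorem glueOK_comp {ι ι' : Type} [Fintype ι] [DecidableEq ι] [Fintype ι']
    [DecidableEq ι'] (f : ι' → ι) (hf : Function.Injective f) {e : ι → Fin D → V}
    (h : GlueOK D 𝓕 𝓖 e) : GlueOK D 𝓕 𝓖 (fun i => e (f i)) where
  two := h.two
  cF := h.cF
  cG := h.cG
  sx := fun i => h.sx (f i)
  inj := fun i => h.inj (f i)
  dist := fun i j hij => hf (h.dist _ _ hij)
  sx0 := h.sx0

private theorem real_glue_aux {ι : Type} [hι : Fintype ι] : ∀ [DecidableEq ι] (e : ι → Fin D → V),
    GlueOK D 𝓕 𝓖 e → Realiz D (glue 𝓕 𝓖 e) := by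
  refine Fintype.induction_empty_option (P := fun ι _ => ∀ [DecidableEq ι] (e : ι → Fin D → V),
    GlueOK D 𝓕 𝓖 e → Realiz D (glue 𝓕 𝓖 e)) ?_ ?_ ?_ ι
  · intro α β _ f ih _ e h
    classical
    let _ : Fintype α := Fintype.ofEquiv β f.symm
    rw [glue_equiv f e, realiz_ren]
    exact ih (fun i => e (f i)) (glueOK_comp f f.injective h)
  · intro _ e h
    rw [glue_empty e, realiz_ren]
    exact h.cF.real
  · intro α _ ih
    let dα : DecidableEq α := Classical.decEq α
    let d0 : DecidableEq (Option α) := inferInstance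
    intro hdec e h
    obtain rfl : hdec = d0 := Subsingleton.elim _ _
    have h' : GlueOK D 𝓕 𝓖 (fun i => e (some i)) :=
      glueOK_comp some (Option.some_injective α) h
    rw [glue_option e h, realiz_ren]
    refine real_glue_one ⟨h.two, ⟨glue_anti h', glue_out h', glue_sep h', ih _ h'⟩, h.cG, ?_, ?_,
      fun i j _ => Subsingleton.elim i j, h.sx0⟩
    · intro _
      have h1 := isSx_glue_inl h' (h.sx none) (fun i hi => by
        have := h.dist (some i) none hi
        cases this)
      have h2 : im (fun j => (Sum.inl (e none j) : V ⊕ (α × W))) =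
          (im (e none)).image Sum.inl := by
        unfold im
        rw [Finset.image_image]
        rfl
      rw [h2]
      exact h1
    · intro _ a b hab
      exact h.inj none (Sum.inl_injective hab)

theorem real_glue {ι : Type} [Fintype ι] [DecidableEq ι] (e : ι → Fin D → V)
    (h : GlueOK D 𝓕 𝓖 e) : Realiz D (glue 𝓕 𝓖 e) :=
  real_glue_aux e h

end H47.KO
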