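import Pool.Agent.H47.KO.Nf
import Pool.Agent.H47.KO.GlueCl

/-! # KO.GlueOne : realisation of a glued family with one gadget (paper 1.1)

`i = default : ι` is the only index, `e = e i`, `F = im e`, `F0 = im inl`. Normal forms (`normal_form`): `(s, a)` for `𝓕` and `e`, `(t, b)` for `𝓖` and `Sum.inl`, both in `(Fin D → ℝ) × ℝ`. For `v ∉ F` `(s v).2 > 0` (`zero`, `nonneg` for `F`); for `w`
`(t (inr w)).2 > 0`. A functional `l` on the space is `l (x, y) = ∑ j, l (Pi.single j 1, 0) * x j + l (0, 1) * y`.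
For `G ∈ 𝓕`, `G ≠ F`: `al j = a G (s (e j)) ≥ 0`, `∑ al j > 0` (`F ⊄ G` by `anti`). For `G ∈ 𝓖`, `G ≠ F0`: `be j = b G (t (inl j)) ≥ 0`, `∑ be j > 0`.
Let `T (x, y) = (x + M * y • 1, - ε * y)`, a linear equivalence with inverse `(x, y) ↦ (x + (M / ε) * y • 1, - y / ε)` (`M, ε > 0`).
New vectors: `inl v ↦ s v`, `inr (i, w) ↦ T (t (inr w))`; note `T (t (inl j)) = s (e j)`. New functionals: `a G` for `G.disjSum ∅`, `b A ∘ T⁻¹` for `A.image (phi e i)`.
Conditions: (1) `a G (T (t (inr w))) > 0` for `G ≠ F`: `= ∑ al j * x j + y * (M * ∑ al j - ε * a G (0,1))`, `(x, y) = t (inr w)`, `y > 0`: holds for all `ε ≤ 1` if `M` is large.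
(2) `b A (T⁻¹ (s v)) > 0` for `A ≠ F0`, `v ∉ F`: `= ∑ be j * x j + (y / ε) * (M * ∑ be j - b A (0,1))`, `(x, y) = s v`, `y > 0`: choose `M` with `M * ∑ be j - b A (0,1) ≥ 1`, then `ε` small. (finitely many conditions: first `M`, then `ε`)
(3) for `v = e j`: `b A (T⁻¹ (s (e j))) = b A (t (inl j))`, zero iff `inl j ∈ A`. So `zero`, `nonneg` hold.
`compl`: let `(x, y)` satisfy all inequalities. If `y ≥ 0`: `a F (x,y) = y ≥ 0`, so `(x, y)` is a nonnegative combination of the `s v`. If `y < 0`: `T⁻¹ (x, y)` has second coordinate `- y / ε > 0 = b F0 (..)`, so all `b A (T⁻¹ (x, y)) ≥ 0`, so `T⁻¹ (x, y)` is a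
nonnegative combination of the `t u`, apply `T`.
The functional as a function of the facet `B`: `if ∃ F.. then ..`; use `Classical.choose` or `if h : ∃ A ∈ 𝓖, A ≠ F0 ∧ B = A.image (phi e i) then b h.choose ∘ T⁻¹ else a (B.toLeft)`. -/

namespace H47.KO

open Finset

variable {V : Type} [Fintype V] [DecidableEq V] {D : ℕ} {𝓕 : Finset (Finset V)}
variable {ι W : Type} [Fintype ι] [DecidableEq ι] [Fintype W] [DecidableEq W]
variable {𝓖 : Finset (Finset (Fin D ⊕ W))} {e : ι → Fin D → V}

/-- the shear used for gluing -/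
private def gTT (D : ℕ) (M r : ℝ) : ((Fin D → ℝ) × ℝ) →ₗ[ℝ] ((Fin D → ℝ) × ℝ) where
  toFun p := (p.1 + (M * p.2) • (1 : Fin D → ℝ), r * p.2)
  map_add' p q := by
    ext j
    · simp
      ring
    · simp
      ring
  map_smul' c p := by
    ext j
    · simp
      ring
    · simp
      ring

private theorem gTT_apply (M r : ℝ) (p : (Fin D → ℝ) × ℝ) :
    gTT D M r p = (p.1 + (M * p.2) • (1 : Fin D → ℝ), r * p.2) := rfl

private theorem gTT_inv {M M' r r' : ℝ} (h1 : M + M' * r = 0) (h2 : r' * r = 1)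
    (p : (Fin D → ℝ) × ℝ) : gTT D M' r' (gTT D M r p) = p := by
  ext j
  · have : M * p.2 + M' * (r * p.2) = 0 := by
      rw [← mul_assoc, ← add_mul, h1, zero_mul]
    simp only [gTT_apply, Pi.add_apply, Pi.smul_apply, Pi.one_apply, smul_eq_mul, mul_one]
    linarith
  · simp only [gTT_apply]
    rw [← mul_assoc, h2, one_mul]

private theorem dual_formula (l : Module.Dual ℝ ((Fin D → ℝ) × ℝ)) (p : (Fin D → ℝ) × ℝ) :
    l p = ∑ j, l (Pi.single j 1, 0) * p.1 j + l (0, 1) * p.2 := by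
  have h : p = ∑ j, p.1 j • ((Pi.single j 1, 0) : (Fin D → ℝ) × ℝ) + p.2 • ((0, 1) : (Fin D → ℝ) × ℝ) := by
    ext k
    · simp [Prod.fst_sum, Finset.sum_apply, Pi.single_apply]
    · simp [Prod.snd_sum]
  conv_lhs => rw [h]
  rw [map_add, map_sum, map_smul, smul_eq_mul, mul_comm p.2]
  congr 1
  apply Finset.sum_congr rfl
  intro j _
  rw [map_smul, smul_eq_mul, mul_comm]

private theorem dual_gTT (l : Module.Dual ℝ ((Fin D → ℝ) × ℝ)) (M r : ℝ)
    (p : (Fin D → ℝ) × ℝ) :
    l (gTT D M r p) = ∑ j, l (Pi.single j 1, 0) * p.1 j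
      + M * (p.2 * ∑ j, l (Pi.single j 1, 0)) + r * (p.2 * l (0, 1)) := by
  rw [dual_formula l, gTT_apply]
  simp only [Pi.add_apply, Pi.smul_apply, Pi.one_apply, smul_eq_mul, mul_one]
  have : ∑ j, l (Pi.single j 1, 0) * (p.1 j + M * p.2) =
      ∑ j, l (Pi.single j 1, 0) * p.1 j + M * (p.2 * ∑ j, l (Pi.single j 1, 0)) := by
    rw [Finset.mul_sum, Finset.mul_sum, ← Finset.sum_add_distrib]
    apply Finset.sum_congr rfl
    intro j _
    ring
  rw [this]
  ring

private theorem ev_big {c0 c : ℝ} (hc : 0 < c) : ∀ᶠ M in Filter.atTop, 0 < c0 + M * c := by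
  have : Filter.Tendsto (fun M : ℝ => c0 + M * c) Filter.atTop Filter.atTop :=
    Filter.tendsto_atTop_add_const_left _ _ (Filter.tendsto_id.atTop_mul_const hc)
  exact this.eventually_gt_atTop 0

private theorem sum_single_pos {U : Type} [Fintype U] [DecidableEq U]
    {𝓗 : Finset (Finset U)} (hc : Cplx D 𝓗) {f : Fin D → U} (hf : im f ∈ 𝓗)
    {s : U → (Fin D → ℝ) × ℝ} {a : Finset U → Module.Dual ℝ ((Fin D → ℝ) × ℝ)}
    (hr : RData D 𝓗 ((Fin D → ℝ) × ℝ) s a) (hs : ∀ j, s (f j) = (Pi.single j 1, 0))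
    {G : Finset U} (hG : G ∈ 𝓗) (hne : im f ≠ G) :
    0 < ∑ j, a G (Pi.single j 1, 0) := by
  have h0 : ∀ j, 0 ≤ a G (Pi.single j 1, 0) := fun j => by
    rw [← hs j]
    exact hr.nonneg G hG _
  obtain ⟨v, hv, hvG⟩ : ∃ v ∈ im f, v ∉ G := by
    by_contra hcon
    push Not at hcon
    exact hne (hc.anti _ hf _ hG hcon)
  obtain ⟨j, rfl⟩ := (mem_im f v).1 hv
  apply Finset.sum_pos' (fun j _ => h0 j)
  refine ⟨j, Finset.mem_univ _, lt_of_le_of_ne (h0 j) ?_⟩
  intro heq
  apply hvG
  rw [← hr.zero G hG, hs j]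
  exact heq.symm

theorem real_glue_one [Unique ι] (h : GlueOK D 𝓕 𝓖 e) : Realiz D (glue 𝓕 𝓖 e) := by
  classical
  have hD : 1 ≤ D := le_trans (by norm_num) h.two
  obtain ⟨s, a, hr, hs, haF⟩ := normal_form hD h.cF (e default) (h.inj default) (h.sx default)
  obtain ⟨t, b, kr, kt, kbF⟩ := normal_form hD h.cG (Sum.inl : Fin D → Fin D ⊕ W)
    Sum.inl_injective h.sx0
  have hFm : im (e default) ∈ 𝓕 := (h.sx default).1
  have kFm : im (Sum.inl : Fin D → Fin D ⊕ W) ∈ 𝓖 := h.sx0.1
  -- the heights of the vectors outside the common facet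
  have ht2 : ∀ w : W, 0 < (t (Sum.inr w)).2 := by
    intro w
    rw [← kbF]
    refine lt_of_le_of_ne (kr.nonneg _ kFm _) ?_
    intro heq
    have := (kr.zero _ kFm (Sum.inr w)).1 heq.symm
    obtain ⟨j, hj⟩ := (mem_im _ _).1 this
    cases hj
  have hs2 : ∀ v : V, v ∉ im (e default) → 0 < (s v).2 := by
    intro v hv
    rw [← haF]
    refine lt_of_le_of_ne (hr.nonneg _ hFm _) ?_
    intro heq
    exact hv ((hr.zero _ hFm v).1 heq.symm)
  -- choice of M
  obtain ⟨M, hM1, hM2⟩ : ∃ M : ℝ,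
      (∀ G : Finset V, G ∈ 𝓕 → im (e default) ≠ G → ∀ w : W,
        0 < (∑ j, a G (Pi.single j 1, 0) * (t (Sum.inr w)).1 j
          - (t (Sum.inr w)).2 * |a G (0, 1)|)
          + M * ((t (Sum.inr w)).2 * ∑ j, a G (Pi.single j 1, 0))) ∧
      (∀ A : Finset (Fin D ⊕ W), A ∈ 𝓖 → im (Sum.inl : Fin D → Fin D ⊕ W) ≠ A →
        0 < (- b A (0, 1) - 1) + M * ∑ j, b A (Pi.single j 1, 0)) := by
    have e1 : ∀ᶠ M : ℝ in Filter.atTop, ∀ G : Finset V, G ∈ 𝓕 → im (e default) ≠ G → ∀ w : W,
        0 < (∑ j, a G (Pi.single j 1, 0) * (t (Sum.inr w)).1 j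
          - (t (Sum.inr w)).2 * |a G (0, 1)|)
          + M * ((t (Sum.inr w)).2 * ∑ j, a G (Pi.single j 1, 0)) := by
      rw [Filter.eventually_all]
      intro G
      by_cases hG : G ∈ 𝓕 ∧ im (e default) ≠ G
      · have : ∀ᶠ M : ℝ in Filter.atTop, ∀ w : W,
            0 < (∑ j, a G (Pi.single j 1, 0) * (t (Sum.inr w)).1 j
              - (t (Sum.inr w)).2 * |a G (0, 1)|)
              + M * ((t (Sum.inr w)).2 * ∑ j, a G (Pi.single j 1, 0)) := by
          rw [Filter.eventually_all]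
          intro w
          exact ev_big (mul_pos (ht2 w) (sum_single_pos h.cF hFm hr hs hG.1 hG.2))
        filter_upwards [this] with M hM _ _ using hM
      · exact Filter.Eventually.of_forall fun M h1 h2 => absurd ⟨h1, h2⟩ hG
    have e2 : ∀ᶠ M : ℝ in Filter.atTop, ∀ A : Finset (Fin D ⊕ W), A ∈ 𝓖 →
        im (Sum.inl : Fin D → Fin D ⊕ W) ≠ A →
        0 < (- b A (0, 1) - 1) + M * ∑ j, b A (Pi.single j 1, 0) := by
      rw [Filter.eventually_all]
      intro A
      by_cases hA : A ∈ 𝓖 ∧ im (Sum.inl : Fin D → Fin D ⊕ W) ≠ A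
      · filter_upwards [ev_big (c0 := - b A (0, 1) - 1)
          (sum_single_pos h.cG kFm kr kt hA.1 hA.2)] with M hM _ _ using hM
      · exact Filter.Eventually.of_forall fun M h1 h2 => absurd ⟨h1, h2⟩ hA
    obtain ⟨M, h1, h2⟩ := (e1.and e2).exists
    exact ⟨M, h1, h2⟩
  -- choice of N
  obtain ⟨N, hN1, hN2⟩ : ∃ N : ℝ, 1 ≤ N ∧
      ∀ A : Finset (Fin D ⊕ W), ∀ v : V, v ∉ im (e default) →
        0 < (∑ j, b A (Pi.single j 1, 0) * (s v).1 j) + N * (s v).2 := by
    have e1 : ∀ᶠ N : ℝ in Filter.atTop, ∀ A : Finset (Fin D ⊕ W), ∀ v : V,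
        v ∉ im (e default) →
        0 < (∑ j, b A (Pi.single j 1, 0) * (s v).1 j) + N * (s v).2 := by
      rw [Filter.eventually_all]
      intro A
      rw [Filter.eventually_all]
      intro v
      by_cases hv : v ∈ im (e default)
      · exact Filter.Eventually.of_forall fun M h1 => absurd hv h1
      · filter_upwards [ev_big (c0 := ∑ j, b A (Pi.single j 1, 0) * (s v).1 j) (hs2 v hv)]
          with M hM _ using hM
    obtain ⟨N, h1, h2⟩ := ((Filter.eventually_ge_atTop (1 : ℝ)).and e1).exists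
    exact ⟨N, h1, h2⟩
  have hN0 : 0 < N := by linarith
  set T : ((Fin D → ℝ) × ℝ) →ₗ[ℝ] ((Fin D → ℝ) × ℝ) := gTT D M (-(1 / N)) with hT
  set T' : ((Fin D → ℝ) × ℝ) →ₗ[ℝ] ((Fin D → ℝ) × ℝ) := gTT D (M * N) (-N) with hT'
  have hT'T : ∀ p, T' (T p) = p := by
    intro p
    apply gTT_inv
    · field_simp
      ring
    · field_simp
  have hTT' : ∀ p, T (T' p) = p := by
    intro p
    apply gTT_inv
    · ring
    · field_simp
  have hTj : ∀ j : Fin D, T' (Pi.single j 1, 0) = ((Pi.single j 1, 0) : (Fin D → ℝ) × ℝ) := by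
    intro j
    rw [hT', gTT_apply]
    simp
  have hTj' : ∀ j : Fin D, T (t (Sum.inl j)) = s (e default j) := by
    intro j
    rw [kt, hs, hT, gTT_apply]
    simp
  -- the new vectors and functionals
  let s' : V ⊕ (ι × W) → (Fin D → ℝ) × ℝ := Sum.elim s (fun p => T (t (Sum.inr p.2)))
  let Q : Finset (V ⊕ (ι × W)) → Finset (Fin D ⊕ W) → Prop := fun B A =>
    A ∈ 𝓖 ∧ A ≠ im Sum.inl ∧ B = A.image (phi e default)
  let a' : Finset (V ⊕ (ι × W)) → Module.Dual ℝ ((Fin D → ℝ) × ℝ) := fun B =>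
    if hB : ∃ A, Q B A then (b hB.choose).comp T' else a B.toLeft
  have ha1 : ∀ A ∈ 𝓖, A ≠ im Sum.inl → a' (A.image (phi e default)) = (b A).comp T' := by
    intro A hA hne
    have hB : ∃ A', Q (A.image (phi e default)) A' := ⟨A, hA, hne, rfl⟩
    have h1 : a' (A.image (phi e default)) = (b hB.choose).comp T' := dif_pos hB
    have h2 := hB.choose_spec
    have h3 := (glue_fac_inj h hA h2.1 hne h2.2.1 h2.2.2).2
    rw [h1, ← h3]
  have ha2 : ∀ G : Finset V, a' (G.disjSum ∅) = a G := by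
    intro G
    have hB : ¬ ∃ A', Q (G.disjSum ∅) A' := by
      rintro ⟨A, hA, hne, heq⟩
      exact inl_ne_phi h default hA hne G heq
    have h1 : a' (G.disjSum ∅) = a (G.disjSum ∅ : Finset (V ⊕ (ι × W))).toLeft := dif_neg hB
    rw [h1, Finset.toLeft_disjSum]
  -- the two positivity statements
  have hp1 : ∀ G ∈ 𝓕, im (e default) ≠ G → ∀ w, 0 < a G (T (t (Sum.inr w))) := by
    intro G hG hne w
    have h1 := hM1 G hG hne w
    rw [hT, dual_gTT]
    have h2 : -(t (Sum.inr w)).2 * |a G (0, 1)| ≤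
        -(1 / N) * ((t (Sum.inr w)).2 * a G (0, 1)) := by
      have h3 : (1 / N) * a G (0, 1) ≤ |a G (0, 1)| := by
        have h4 : (1 / N) ≤ 1 := by
          rw [div_le_one hN0]
          exact hN1
        have h5 : 0 ≤ 1 / N := by positivity
        calc (1 / N) * a G (0, 1) ≤ (1 / N) * |a G (0, 1)| :=
              mul_le_mul_of_nonneg_left (le_abs_self _) h5
          _ ≤ 1 * |a G (0, 1)| := mul_le_mul_of_nonneg_right h4 (abs_nonneg _)
          _ = |a G (0, 1)| := one_mul _
      have := mul_le_mul_of_nonneg_left h3 (ht2 w).le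
      nlinarith [this]
    linarith
  have hp2 : ∀ A ∈ 𝓖, A ≠ im Sum.inl → ∀ v, v ∉ im (e default) → 0 < b A (T' (s v)) := by
    intro A hA hne v hv
    have h1 := hM2 A hA (Ne.symm hne)
    have h2 := hN2 A v hv
    have h3 := hs2 v hv
    rw [hT', dual_gTT]
    have h4 : 0 < N * (s v).2 := mul_pos hN0 h3
    have h5 : 0 < (N * (s v).2) * ((- b A (0, 1) - 1) + M * ∑ j, b A (Pi.single j 1, 0)) :=
      mul_pos h4 h1
    have h6 : M * N * ((s v).2 * ∑ j, b A (Pi.single j 1, 0)) + -N * ((s v).2 * b A (0, 1)) =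
        (N * (s v).2) * ((- b A (0, 1) - 1) + M * ∑ j, b A (Pi.single j 1, 0))
          + N * (s v).2 := by ring
    linarith
  -- facets
  have hfac : ∀ B ∈ glue 𝓕 𝓖 e, (∃ G ∈ 𝓕, im (e default) ≠ G ∧ B = G.disjSum ∅) ∨
      ∃ A ∈ 𝓖, A ≠ im Sum.inl ∧ B = A.image (phi e default) := by
    intro B hB
    rcases mem_glue.1 hB with ⟨G, hG, hne, rfl⟩ | ⟨i, A, hA, hne, rfl⟩
    · exact Or.inl ⟨G, hG, hne default, rfl⟩
    · refine Or.inr ⟨A, hA, hne, ?_⟩
      rw [Subsingleton.elim i default]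
  have hmain : ∀ B ∈ glue 𝓕 𝓖 e, ∀ u, 0 ≤ a' B (s' u) ∧ (a' B (s' u) = 0 ↔ u ∈ B) := by
    intro B hB u
    rcases hfac B hB with ⟨G, hG, hne, rfl⟩ | ⟨A, hA, hne, rfl⟩
    · rw [ha2]
      rcases u with v | p
      · refine ⟨hr.nonneg G hG v, ?_⟩
        rw [Finset.inl_mem_disjSum]
        exact hr.zero G hG v
      · have hpos := hp1 G hG hne p.2
        refine ⟨hpos.le, ?_⟩
        constructor
        · intro h0
          exact absurd h0 hpos.ne'
        · intro h0
          simp at h0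
    · rw [ha1 A hA hne]
      rcases u with v | p
      · by_cases hv : v ∈ im (e default)
        · obtain ⟨j, rfl⟩ := (mem_im _ _).1 hv
          have h1 : ((b A).comp T') (s' (Sum.inl (e default j))) = b A (t (Sum.inl j)) := by
            change b A (T' (s (e default j))) = _
            rw [hs, hTj, kt]
          rw [h1]
          refine ⟨kr.nonneg A hA _, ?_⟩
          rw [kr.zero A hA, inl_mem_phi]
          constructor
          · intro h2
            exact ⟨j, rfl, h2⟩
          · rintro ⟨j', h2, h3⟩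
            rw [← h.inj default h2]
            exact h3
        · have hpos := hp2 A hA hne v hv
          refine ⟨hpos.le, ?_⟩
          constructor
          · intro h0
            exact absurd h0 hpos.ne'
          · intro h0
            obtain ⟨j, h1, _⟩ := inl_mem_phi.1 h0
            exact absurd ((mem_im _ _).2 ⟨j, h1⟩) hv
      · have h1 : ((b A).comp T') (s' (Sum.inr p)) = b A (t (Sum.inr p.2)) := by
          change b A (T' (T (t (Sum.inr p.2)))) = _
          rw [hT'T]
        rw [h1]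
        refine ⟨kr.nonneg A hA _, ?_⟩
        obtain ⟨i, w⟩ := p
        rw [kr.zero A hA, inr_mem_phi]
        constructor
        · intro h2
          exact ⟨Subsingleton.elim _ _, h2⟩
        · exact fun h2 => h2.2
  refine ⟨(Fin D → ℝ) × ℝ, inferInstance, inferInstance, s', a', hr.fin, hr.rank,
    fun B hB u => (hmain B hB u).1, fun B hB u => (hmain B hB u).2, ?_⟩
  intro x hx
  rcases le_or_gt 0 x.2 with hx2 | hx2
  · obtain ⟨c, hc, hxc⟩ := hr.compl x (by
      intro G hG
      by_cases hne : im (e default) = G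
      · rw [← hne, haF]
        exact hx2
      · rw [← ha2]
        apply hx
        rw [mem_glue]
        refine Or.inl ⟨G, hG, fun i => ?_, rfl⟩
        rw [Subsingleton.elim i default]
        exact hne)
    refine ⟨Sum.elim c (fun _ => 0), ?_, ?_⟩
    · rintro (v | p)
      · exact hc v
      · exact le_rfl
    · rw [Fintype.sum_sum_type]
      simp only [Sum.elim_inl, Sum.elim_inr, zero_smul, Finset.sum_const_zero, add_zero]
      exact hxc
  · obtain ⟨c, hc, hxc⟩ := kr.compl (T' x) (by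
      intro A hA
      by_cases hne : A = im Sum.inl
      · rw [hne, kbF, hT', gTT_apply]
        change 0 ≤ -N * x.2
        nlinarith
      · have h1 := hx (A.image (phi e default)) (mem_glue.2 (Or.inr ⟨default, A, hA, hne, rfl⟩))
        rw [ha1 A hA hne] at h1
        exact h1)
    refine ⟨Sum.elim (fun v => ∑ j, if e default j = v then c (Sum.inl j) else 0)
      (fun p => c (Sum.inr p.2)), ?_, ?_⟩
    · rintro (v | p)
      · apply Finset.sum_nonneg
        intro j _
        split_ifs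
        · exact hc _
        · exact le_rfl
      · exact hc _
    · rw [Fintype.sum_sum_type]
      simp only [Sum.elim_inl, Sum.elim_inr]
      have h1 : x = ∑ u, c u • T (t u) := by
        rw [← hTT' x, hxc, map_sum]
        simp only [map_smul]
      rw [Fintype.sum_sum_type] at h1
      have h2 : ∑ v, (∑ j, if e default j = v then c (Sum.inl j) else 0) • s v =
          ∑ j, c (Sum.inl j) • T (t (Sum.inl j)) := by
        have h3 : ∀ v, (∑ j, if e default j = v then c (Sum.inl j) else 0) • s v =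
            ∑ j, if e default j = v then c (Sum.inl j) • s v else 0 := by
          intro v
          rw [Finset.sum_smul]
          apply Finset.sum_congr rfl
          intro j _
          split_ifs
          · rfl
          · rw [zero_smul]
        simp only [h3]
        rw [Finset.sum_comm]
        apply Finset.sum_congr rfl
        intro j _
        rw [Finset.sum_ite_eq]
        simp only [Finset.mem_univ, if_true]
        rw [hTj']
      have h3 : ∑ p : ι × W, c (Sum.inr p.2) • s' (Sum.inr p) =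
          ∑ w, c (Sum.inr w) • T (t (Sum.inr w)) := by
        rw [Fintype.sum_prod_type]
        rw [Fintype.sum_unique]
        rfl
      change x = ∑ v, (∑ j, if e default j = v then c (Sum.inl j) else 0) • s v +
        ∑ p : ι × W, c (Sum.inr p.2) • s' (Sum.inr p)
      rw [h2, h3]
      exact h1

end H47.KO
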