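import Pool.Agent.H47.KO.GlueDeg

/-! # KO.GlueSS : super-simple vertices of a glued family

`deg_of_sx`: the facets containing `v`: `F` itself and, for `f ∈ F`, `f ≠ v`, the `G` with `F ∩ G = F.erase f` (choose one for each `f`: pairwise different, different from `F`, contain `v`): `D` facets.
`ss_glue_inr`: `deg_glue_inr`; the facets containing `inr (i, w)` are the `A.image (phi e i)`, `A ∋ inr w`, `A ≠ im inl` automatically, same cardinality (`phi_inj`).
`ss_glue_inl`: (=>) if `e i j = v`: `v` is in a simplex facet, `deg 𝓕 v ≥ D`; by `deg_glue_inl` `deg (inl v) + 2 n = deg 𝓕 v + ∑ deg 𝓖 (inl ..) ≥ D + n * D` with `n ≥ 1` pairs, so `deg (inl v) ≥ D + n (D - 2) > D`. So no `e i j = v`: the sums are empty, `deg` is the same; a facet `F ∋ v` of `𝓕` is not glued,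
`F.disjSum ∅` has the same cardinality. (<=) the same. -/

namespace H47.KO

open Finset

variable {V : Type} [Fintype V] [DecidableEq V] {D : ℕ} {𝓕 : Finset (Finset V)}
variable {ι W : Type} [Fintype ι] [DecidableEq ι] [Fintype W] [DecidableEq W]
variable {𝓖 : Finset (Finset (Fin D ⊕ W))} {e : ι → Fin D → V}

omit [Fintype V] in
private theorem ss_not_mem_im (w : W) : (Sum.inr w : Fin D ⊕ W) ∉ im (Sum.inl : Fin D → Fin D ⊕ W) := by
  intro h
  obtain ⟨j, hj⟩ := (mem_im _ _).1 h
  exact absurd hj (by simp)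

/-- every vertex of a simplex facet is in at least `D` facets -/
theorem deg_of_sx {F : Finset V} (hF : IsSx D 𝓕 F) {v : V} (hv : v ∈ F) : D ≤ deg 𝓕 v := by
  obtain ⟨h1, h2, h3⟩ := hF
  choose! G hG hFG using h3
  have hmaps : ∀ f ∈ F, (if f = v then F else G f) ∈ 𝓕.filter (fun F => v ∈ F) := by
    intro f hf
    rw [mem_filter]
    split_ifs with hfv
    · exact ⟨h1, hv⟩
    · refine ⟨hG f hf, ?_⟩
      have h4 : v ∈ F ∩ G f := by
        rw [hFG f hf, mem_erase]
        exact ⟨fun h => hfv h.symm, hv⟩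
      exact (mem_inter.1 h4).2
  have hne : ∀ f ∈ F, G f ≠ F := by
    intro f hf hcon
    have h4 := hFG f hf
    rw [hcon, inter_self] at h4
    have h5 : f ∈ F.erase f := by
      rw [← h4]
      exact hf
    exact (notMem_erase f F) h5
  have hinj : Set.InjOn (fun f => if f = v then F else G f) (F : Set V) := by
    intro f hf f' hf' hff
    have hff' : (if f = v then F else G f) = (if f' = v then F else G f') := hff
    split_ifs at hff' with ha hb hb
    · rw [ha, hb]
    · exact absurd hff'.symm (hne f' hf')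
    · exact absurd hff' (hne f hf)
    · have h4 : F.erase f = F.erase f' := by
        rw [← hFG f hf, ← hFG f' hf', hff']
      by_contra hne'
      have h5 : f ∈ F.erase f' := mem_erase.2 ⟨hne', hf⟩
      rw [← h4] at h5
      exact (notMem_erase f F) h5
  have h6 := card_le_card_of_injOn _ hmaps hinj
  rw [h2] at h6
  exact h6

theorem ss_glue_inr (h : GlueOK D 𝓕 𝓖 e) (i : ι) (w : W) :
    SS D (glue 𝓕 𝓖 e) (Sum.inr (i, w)) ↔ SS D 𝓖 (Sum.inr w) := by
  unfold SS
  rw [deg_glue_inr h]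
  constructor
  · rintro ⟨h1, h2⟩
    refine ⟨h1, fun A hA hw => ?_⟩
    have hne : A ≠ im Sum.inl := by
      intro hcon
      rw [hcon] at hw
      exact ss_not_mem_im w hw
    have h3 := h2 (A.image (phi e i)) (mem_glue.2 (Or.inr ⟨i, A, hA, hne, rfl⟩))
      (inr_mem_phi.2 ⟨rfl, hw⟩)
    rwa [card_image_of_injective _ (phi_inj h i)] at h3
  · rintro ⟨h1, h2⟩
    refine ⟨h1, fun B hB hw => ?_⟩
    rcases mem_glue.1 hB with ⟨F, hF, -, rfl⟩ | ⟨i', A, hA, -, rfl⟩
    · rw [Finset.inr_mem_disjSum] at hw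
      exact absurd hw (Finset.notMem_empty _)
    · obtain ⟨rfl, hwA⟩ := inr_mem_phi.1 hw
      rw [card_image_of_injective _ (phi_inj h i)]
      exact h2 A hA hwA

/-- vertices of glued facets are not super-simple -/
theorem ss_glue_inl (h : GlueOK D 𝓕 𝓖 e) (hD : 3 ≤ D) (hd : ∀ x, D ≤ deg 𝓖 x) (v : V) :
    SS D (glue 𝓕 𝓖 e) (Sum.inl v) ↔ SS D 𝓕 v ∧ ∀ i j, e i j ≠ v := by
  have hdeg := deg_glue_inl h v
  constructor
  · rintro ⟨h1, h2⟩
    have hno : ∀ i j, e i j ≠ v := by
      intro i j hij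
      set S := (univ : Finset (ι × Fin D)).filter (fun p => e p.1 p.2 = v) with hS
      have hmem : (i, j) ∈ S := by
        rw [hS, mem_filter]
        exact ⟨mem_univ _, hij⟩
      have hc : 1 ≤ S.card := card_pos.2 ⟨_, hmem⟩
      have h3 : D ≤ deg 𝓕 v := deg_of_sx (h.sx i) ((mem_im _ _).2 ⟨j, hij⟩)
      have h4 : S.card * D ≤ ∑ p ∈ S, deg 𝓖 (Sum.inl p.2) := by
        have := card_nsmul_le_sum S (fun p => deg 𝓖 (Sum.inl p.2)) D (fun p _ => hd _)
        rwa [smul_eq_mul] at this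
      rw [h1, sum_const, smul_eq_mul] at hdeg
      have h5 : S.card * 3 ≤ S.card * D := Nat.mul_le_mul_left _ hD
      omega
    have hS : (univ : Finset (ι × Fin D)).filter (fun p => e p.1 p.2 = v) = ∅ := by
      rw [filter_eq_empty_iff]
      intro p _ hp
      exact hno _ _ hp
    rw [hS, sum_empty, sum_empty] at hdeg
    refine ⟨⟨by rw [← h1]; omega, ?_⟩, hno⟩
    intro F hF hv
    have h3 := h2 (F.disjSum ∅) (mem_glue.2 (Or.inl ⟨F, hF, ?_, rfl⟩))
      (Finset.inl_mem_disjSum.2 hv)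
    · rwa [card_disjSum, card_empty, add_zero] at h3
    · intro i hi
      rw [← hi] at hv
      obtain ⟨j, hj⟩ := (mem_im _ _).1 hv
      exact hno i j hj
  · rintro ⟨⟨h1, h2⟩, hno⟩
    have hS : (univ : Finset (ι × Fin D)).filter (fun p => e p.1 p.2 = v) = ∅ := by
      rw [filter_eq_empty_iff]
      intro p _ hp
      exact hno _ _ hp
    rw [hS, sum_empty, sum_empty] at hdeg
    refine ⟨by omega, ?_⟩
    intro B hB hv
    rcases mem_glue.1 hB with ⟨F, hF, -, rfl⟩ | ⟨i, A, hA, -, rfl⟩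
    · rw [Finset.inl_mem_disjSum] at hv
      rw [card_disjSum, card_empty, add_zero]
      exact h2 F hF hv
    · obtain ⟨j, hj, -⟩ := inl_mem_phi.1 hv
      exact absurd hj (hno i j)

end H47.KO
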