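import Pool.Agent.H47.KO.BipCx
import Pool.Agent.H47.KO.BipCl
import Pool.Agent.H47.KO.Acts

/-! # KO.GoodBip : the bipyramid over a good system (D even)

All fields from `BipCl`, `BipCx`. `cG`: `card (G × Perm Bool) = 2 * card G`, for `D` even `(D + 2) / 2 = (D + 1) / 2 + 1`. `inj`: `V` is nonempty. `inv`: `(F.disjSum {b}).image = (F.image (act g)).disjSum {σ b}`. `core`: `C.image (inl ∘ κ) ∪ W.disjSum {true} = (C.image κ ∪ W).disjSum {true}`.
`freeF_bip`: `im e' = (im e).disjSum {true}`, image under `(g, σ)`: `((im e).image (act g)).disjSum {σ true}`; equal to `im e'` iff `g = 1` and `σ true = true`, that is `σ = 1`. -/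

namespace H47.KO

open Finset

variable {V G : Type} [Fintype V] [DecidableEq V] [Group G] [Fintype G] {D : ℕ}
  {𝓕 : Finset (Finset V)} {act : G →* Equiv.Perm V} {r : G} {κ : Fin 11 → V} {W : Finset V}

private theorem ds_inj {α β : Type} {s s' : Finset α} {t t' : Finset β}
    (h : s.disjSum t = s'.disjSum t') : s = s' ∧ t = t' := by
  constructor
  · ext a
    have := congrArg (fun B => Sum.inl a ∈ B) h
    simpa only [inl_mem_disjSum, eq_iff_iff] using this
  · ext b
    have := congrArg (fun B => Sum.inr b ∈ B) h
    simpa only [inr_mem_disjSum, eq_iff_iff] using this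

omit [Fintype V] [Fintype G] in
private theorem image_bip (act : G →* Equiv.Perm V) (p : G × Equiv.Perm Bool) (A : Finset V)
    (X : Finset Bool) :
    (A.disjSum X).image (actBip act p) = (A.image (act p.1)).disjSum (X.image p.2) := by
  ext (v | b)
  · rw [inl_mem_disjSum, mem_image, mem_image]
    constructor
    · rintro ⟨a | b, ha, hab⟩
      · exact ⟨a, inl_mem_disjSum.1 ha, Sum.inl_injective hab⟩
      · exact absurd hab (by simp)
    · rintro ⟨a, ha, rfl⟩
      exact ⟨Sum.inl a, inl_mem_disjSum.2 ha, rfl⟩
  · rw [inr_mem_disjSum, mem_image, mem_image]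
    constructor
    · rintro ⟨a | c, ha, hab⟩
      · exact absurd hab (by simp)
      · exact ⟨c, inr_mem_disjSum.1 ha, Sum.inr_injective hab⟩
    · rintro ⟨a, ha, rfl⟩
      exact ⟨Sum.inr a, inr_mem_disjSum.2 ha, rfl⟩

omit [Fintype V] in
private theorem core_bip (κ : Fin 11 → V) (W : Finset V) (C : Finset (Fin 11)) :
    C.image (fun i => (Sum.inl (κ i) : V ⊕ Bool)) ∪ W.disjSum {true}
      = (C.image κ ∪ W).disjSum {true} := by
  ext (v | b)
  · rw [inl_mem_disjSum, mem_union, mem_union, inl_mem_disjSum, mem_image, mem_image]
    simp
  · rw [inr_mem_disjSum, mem_union, inr_mem_disjSum, mem_image]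
    simp

theorem good_bip (h : Good D 𝓕 act r κ W) (hD : Even D) :
    Good (D + 1) (bip 𝓕) (actBip act) (r, 1) (fun i => Sum.inl (κ i)) (W.disjSum {true}) := by
  have h4 := h.four
  exact
    { four := by omega
      cx := cplx_bip (by omega) h.cx
      inv := by
        intro g B hB
        obtain ⟨F, hF, b, rfl⟩ := mem_bip.1 hB
        rw [image_bip]
        exact mem_bip.2 ⟨_, h.inv g.1 F hF, g.2 b, by rw [image_singleton]⟩
      cG := by
        rw [Fintype.card_prod, Fintype.card_perm, h.cG, Fintype.card_bool]
        obtain ⟨k, rfl⟩ := hD
        rw [show (k + k + 1) / 2 = k by omega, show (k + k + 1 + 1) / 2 = k + 1 by omega, pow_succ]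
        rfl
      inj := by
        intro p q hpq
        refine Prod.ext ?_ ?_
        · apply h.inj
          ext v
          have := DFunLike.congr_fun hpq (Sum.inl v)
          exact Sum.inl_injective this
        · ext b
          have := DFunLike.congr_fun hpq (Sum.inr b)
          exact Sum.inr_injective this
      deg := by
        rintro (v | b)
        · rw [deg_bip_inl]
          have := h.deg v
          omega
        · rw [deg_bip_inr]
          have := h.cF
          omega
      cF := by
        rw [card_bip]
        have := h.cF
        omega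
      cW := by
        rw [card_disjSum, card_singleton]
        have := h.cW
        omega
      κinj := Sum.inl_injective.comp h.κinj
      κW := by
        intro i hi
        exact h.κW i (inl_mem_disjSum.1 hi)
      core := by
        intro C hC
        rw [core_bip]
        exact mem_bip.2 ⟨_, h.core C hC, true, rfl⟩
      core0 := by
        rw [core_bip]
        exact isSx_bip h.core0 true
      rκ := by
        intro i
        rw [actBip_inl]
        exact congrArg Sum.inl (h.rκ i)
      rW := by
        rintro (w | b) hw
        · rw [actBip_inl]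
          exact congrArg Sum.inl (h.rW w (inl_mem_disjSum.1 hw))
        · rfl }

theorem freeF_bip {e : Fin D → V} (h : FreeF D 𝓕 act κ W e) :
    FreeF (D + 1) (bip 𝓕) (actBip act) (fun i => Sum.inl (κ i)) (W.disjSum {true})
      (Fin.snoc (α := fun _ => V ⊕ Bool) (fun j => Sum.inl (e j)) (Sum.inr true)) := by
  have him : im (Fin.snoc (α := fun _ => V ⊕ Bool) (fun j => Sum.inl (e j)) (Sum.inr true))
      = (im e).disjSum {true} := by
    ext x
    unfold im
    rw [mem_image]
    constructor
    · rintro ⟨i, -, rfl⟩
      refine Fin.lastCases ?_ (fun j => ?_) i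
      · rw [Fin.snoc_last]
        exact inr_mem_disjSum.2 (mem_singleton_self true)
      · rw [Fin.snoc_castSucc]
        exact inl_mem_disjSum.2 (mem_image_of_mem _ (mem_univ j))
    · intro hx
      rcases x with v | b
      · obtain ⟨j, -, rfl⟩ := mem_image.1 (inl_mem_disjSum.1 hx)
        exact ⟨Fin.castSucc j, mem_univ _, by rw [Fin.snoc_castSucc]⟩
      · have := mem_singleton.1 (inr_mem_disjSum.1 hx)
        subst this
        exact ⟨Fin.last D, mem_univ _, by rw [Fin.snoc_last]⟩
  exact
    { inj := by
        intro i j hij
        revert hij
        refine Fin.lastCases ?_ (fun i' => ?_) i <;> refine Fin.lastCases ?_ (fun j' => ?_) j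
        · intro _
          rfl
        · intro hij
          rw [Fin.snoc_last, Fin.snoc_castSucc] at hij
          exact absurd hij (by simp)
        · intro hij
          rw [Fin.snoc_last, Fin.snoc_castSucc] at hij
          exact absurd hij (by simp)
        · intro hij
          rw [Fin.snoc_castSucc, Fin.snoc_castSucc] at hij
          rw [h.inj (Sum.inl_injective hij)]
      sx := by
        rw [him]
        exact isSx_bip h.sx true
      free := by
        intro g hg
        rw [him, image_bip, image_singleton] at hg
        obtain ⟨h1, h2⟩ := ds_inj hg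
        have h3 := h.free g.1 h1
        have h4 : g.2 true = true := by
          rw [singleton_inj] at h2
          exact h2
        refine Prod.ext h3 ?_
        ext b
        cases b
        · rcases hb : g.2 false with _ | _
          · rfl
          · exact absurd (g.2.injective (hb.trans h4.symm)) (by simp)
        · exact h4
      core := by
        intro g C hC hg
        rw [him, image_bip, image_singleton, core_bip] at hg
        exact h.core g.1 C hC (ds_inj hg).1 }

end H47.KO
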