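import Pool.Agent.H47.KO.GlueCx
import Pool.Agent.H47.KO.GlueSS
import Pool.Agent.H47.KO.GlueInv

/-! # KO.GoodGlue : gluing onto a good system, equivariantly, not on core facets

`inv`: `glue_inv`.
`core`: not glued by `hcore`, so `(C.image κ ∪ W).disjSum ∅` is a facet. `core0`: `isSx_glue_inl`. `deg`: `deg_glue_inl`, `deg_glue_inr`, all degrees in `𝓖` are `≥ D ≥ 2`. `cF`: `card_glue`, `2 ≤ 𝓖.card`. `inj`: `actSum` is injective on the `inl` part. -/

namespace H47.KO

open Finset

variable {V G : Type} [Fintype V] [DecidableEq V] [Group G] [Fintype G] {D : ℕ}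
  {𝓕 : Finset (Finset V)} {act : G →* Equiv.Perm V} {r : G} {κ : Fin 11 → V} {W₀ : Finset V}
variable {ι W : Type} [Fintype ι] [DecidableEq ι] [Fintype W] [DecidableEq W]
variable {𝓖 : Finset (Finset (Fin D ⊕ W))} {e : ι → Fin D → V}

omit [Fintype V] [Fintype ι] [Fintype W] in
private theorem gg_core (κ : Fin 11 → V) (W₀ : Finset V) (C : Finset (Fin 11)) :
    C.image (fun i => (Sum.inl (κ i) : V ⊕ (ι × W))) ∪ W₀.image Sum.inl
      = (C.image κ ∪ W₀).image Sum.inl := by
  rw [image_union, image_image]
  rfl

private theorem gg_disj {X Y : Type} [DecidableEq X] [DecidableEq Y] (F : Finset X) :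
    (F.disjSum (∅ : Finset Y)) = F.image Sum.inl := by
  ext x
  simp only [Finset.mem_disjSum, Finset.mem_image, Finset.notMem_empty, false_and, exists_false,
    or_false]

omit [Fintype V] [Fintype G] [Fintype ι] [Fintype W] in
private theorem gg_act (act : G →* Equiv.Perm V) (b : G →* Equiv.Perm (ι × W)) (g : G)
    (F : Finset V) :
    (F.image (Sum.inl : V → V ⊕ (ι × W))).image (actSum act b g)
      = (F.image (act g)).image Sum.inl := by
  rw [image_image, image_image]
  rfl

theorem good_glue (h : Good D 𝓕 act r κ W₀) (hok : GlueOK D 𝓕 𝓖 e) (hdeg : ∀ x, D ≤ deg 𝓖 x)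
    (hcard : 2 ≤ 𝓖.card) (hcore : ∀ i, ∀ C ∈ coreF, im (e i) ≠ C.image κ ∪ W₀)
    (aι : G →* Equiv.Perm ι) (τ : G →* Equiv.Perm W) (heq : EqGlue act 𝓖 e aι τ) :
    Good D (glue 𝓕 𝓖 e) (actSum act (actProd aι τ)) r (fun i => Sum.inl (κ i))
      (W₀.image Sum.inl) := by
  have hD := h.four
  exact
    { four := h.four
      cx := cplx_glue hok
      inv := glue_inv h.inv aι τ heq
      cG := h.cG
      inj := by
        intro g g' hg
        apply h.inj
        ext v
        have := DFunLike.congr_fun hg (Sum.inl v)
        exact Sum.inl_injective this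
      deg := by
        rintro (v | ⟨i, w⟩)
        · have h1 := deg_glue_inl hok v
          have h2 : ∑ p ∈ (univ : Finset (ι × Fin D)).filter (fun p => e p.1 p.2 = v), 2 ≤
              ∑ p ∈ (univ : Finset (ι × Fin D)).filter (fun p => e p.1 p.2 = v),
                deg 𝓖 (Sum.inl p.2) := by
            apply sum_le_sum
            intro p _
            have := hdeg (Sum.inl p.2)
            omega
          have h3 := h.deg v
          omega
        · rw [deg_glue_inr hok i w]
          exact hdeg _
      cF := by
        have h1 := card_glue hok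
        have h2 : Fintype.card ι * 2 ≤ Fintype.card ι * 𝓖.card := Nat.mul_le_mul_left _ hcard
        have h3 := h.cF
        omega
      cW := by
        rw [card_image_of_injective _ Sum.inl_injective]
        exact h.cW
      κinj := Sum.inl_injective.comp h.κinj
      κW := by
        intro i hi
        obtain ⟨w, hw, hwi⟩ := mem_image.1 hi
        have := Sum.inl_injective hwi
        exact h.κW i (this ▸ hw)
      core := by
        intro C hC
        rw [gg_core]
        refine mem_glue.2 (Or.inl ⟨_, h.core C hC, fun i => hcore i C hC, ?_⟩)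
        rw [gg_disj]
      core0 := by
        rw [gg_core]
        exact isSx_glue_inl hok h.core0 (fun i => hcore i _ (by simp [coreF]))
      rκ := by
        intro i
        rw [actSum_inl]
        exact congrArg Sum.inl (h.rκ i)
      rW := by
        intro w hw
        obtain ⟨v, hv, rfl⟩ := mem_image.1 hw
        rw [actSum_inl]
        exact congrArg Sum.inl (h.rW v hv) }

/-- a free facet which is not glued remains a free facet -/
theorem freeF_glue_inl (hok : GlueOK D 𝓕 𝓖 e) (aι : G →* Equiv.Perm ι) (τ : G →* Equiv.Perm W)
    {e0 : Fin D → V} (h0 : FreeF D 𝓕 act κ W₀ e0) (hne : ∀ i, im (e i) ≠ im e0) :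
    FreeF D (glue 𝓕 𝓖 e) (actSum act (actProd aι τ)) (fun i => Sum.inl (κ i))
      (W₀.image Sum.inl) (fun j => Sum.inl (e0 j)) := by
  have him : im (fun j => (Sum.inl (e0 j) : V ⊕ (ι × W))) = (im e0).image Sum.inl := by
    unfold im
    rw [image_image]
    rfl
  exact
    { inj := Sum.inl_injective.comp h0.inj
      sx := by
        rw [him]
        exact isSx_glue_inl hok h0.sx hne
      free := by
        intro g hg
        rw [him, gg_act] at hg
        exact h0.free g (image_injective Sum.inl_injective hg)
      core := by
        intro g C hC hg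
        rw [him, gg_act, gg_core] at hg
        exact h0.core g C hC (image_injective Sum.inl_injective hg) }

end H47.KO
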