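import Pool.Agent.H47.KO.PyrCx
import Pool.Agent.H47.KO.Acts

/-! # KO.GoodPyr : the pyramid over a good system (D odd)

All fields from `PyrCl`, `PyrCx`. `cG`: for `D` odd `(D + 1) / 2 = (D + 2) / 2`. `inv`: `(F.disjSum univ).image = (F.image (act g)).disjSum univ`; the base is mapped to the base. `core`: `C.image (inl ∘ κ) ∪ W.disjSum univ = (C.image κ ∪ W).disjSum univ`.
`deg`: `deg v + 1`, and `card 𝓕 ≥ D + 2`. `freeF_pyr`: `im e' = (im e).disjSum univ`; `X ↦ X.disjSum univ` is injective. Vertices: `card V ≥ 11 + card W = D + 7` (`κ` injective, disjoint from `W`). -/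

namespace H47.KO

open Finset

variable {V G : Type} [Fintype V] [DecidableEq V] [Group G] [Fintype G] {D : ℕ}
  {𝓕 : Finset (Finset V)} {act : G →* Equiv.Perm V} {r : G} {κ : Fin 11 → V} {W : Finset V}

theorem good_cardV (h : Good D 𝓕 act r κ W) : D + 7 ≤ Fintype.card V := by
  have h1 : Disjoint (univ.image κ) W := by
    rw [Finset.disjoint_left]
    intro v hv
    rw [mem_image] at hv
    obtain ⟨i, _, rfl⟩ := hv
    exact h.κW i
  have h2 := card_union_of_disjoint h1
  rw [card_image_of_injective _ h.κinj, card_univ, Fintype.card_fin] at h2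
  have h3 := card_le_univ (univ.image κ ∪ W)
  have h4 := h.cW
  omega

omit [Fintype V] [Fintype G] in
theorem image_actSum (g : G) (A : Finset V) (X : Finset Unit) :
    (A.disjSum X).image (actSum act (1 : G →* Equiv.Perm Unit) g) =
      (A.image (act g)).disjSum X := by
  ext x
  rw [mem_image]
  rcases x with v | u
  · rw [inl_mem_disjSum, mem_image]
    constructor
    · rintro ⟨y, hy, h⟩
      rcases y with w | u
      · rw [actSum_inl] at h
        exact ⟨w, inl_mem_disjSum.1 hy, Sum.inl_injective h⟩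
      · rw [actSum_inr] at h
        cases h
    · rintro ⟨w, hw, h⟩
      exact ⟨Sum.inl w, inl_mem_disjSum.2 hw, by rw [actSum_inl, h]⟩
  · rw [inr_mem_disjSum]
    constructor
    · rintro ⟨y, hy, h⟩
      rcases y with w | u'
      · rw [actSum_inl] at h
        cases h
      · have := inr_mem_disjSum.1 hy
        rwa [Subsingleton.elim u u']
    · intro hu
      exact ⟨Sum.inr u, inr_mem_disjSum.2 hu, rfl⟩

omit [Fintype V] in
theorem image_inl_union (C : Finset (Fin 11)) (W : Finset V) :
    C.image (fun i => (Sum.inl (κ i) : V ⊕ Unit)) ∪ W.disjSum univ =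
      (C.image κ ∪ W).disjSum univ := by
  ext x
  rw [mem_union]
  rcases x with v | u
  · rw [inl_mem_disjSum, inl_mem_disjSum, mem_union, mem_image, mem_image]
    constructor
    · rintro (⟨i, hi, h⟩ | h)
      · exact Or.inl ⟨i, hi, Sum.inl_injective h⟩
      · exact Or.inr h
    · rintro (⟨i, hi, h⟩ | h)
      · exact Or.inl ⟨i, hi, by rw [h]⟩
      · exact Or.inr h
  · rw [inr_mem_disjSum, inr_mem_disjSum]
    exact ⟨fun _ => mem_univ u, fun _ => Or.inr (mem_univ u)⟩

omit [Fintype V] [DecidableEq V] in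
theorem disjSum_univ_inj {A B : Finset V}
    (h : A.disjSum (univ : Finset Unit) = B.disjSum (univ : Finset Unit)) : A = B := by
  ext v
  rw [← inl_mem_disjSum (t := (univ : Finset Unit)), h, inl_mem_disjSum]

theorem good_pyr (h : Good D 𝓕 act r κ W) (hD : Odd D) :
    Good (D + 1) (pyr 𝓕) (actSum act 1) r (fun i => Sum.inl (κ i)) (W.disjSum univ) := by
  have h1 : 1 ≤ D := by have := h.four; omega
  refine
    { four := by have := h.four; omega
      cx := cplx_pyr h1 h.cx
      inv := ?_
      cG := ?_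
      inj := ?_
      deg := ?_
      cF := ?_
      cW := ?_
      κinj := Sum.inl_injective.comp h.κinj
      κW := fun i hi => h.κW i (inl_mem_disjSum.1 hi)
      core := ?_
      core0 := ?_
      rκ := ?_
      rW := ?_ }
  · intro g F hF
    rcases mem_pyr.1 hF with rfl | ⟨F', hF', rfl⟩
    · rw [image_actSum]
      refine mem_pyr.2 (Or.inl ?_)
      rw [image_univ_equiv]
    · rw [image_actSum]
      exact mem_pyr.2 (Or.inr ⟨_, h.inv g F' hF', rfl⟩)
  · rw [h.cG]
    congr 1
    obtain ⟨k, hk⟩ := hD
    omega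
  · intro g g' hg
    refine h.inj (Equiv.ext fun v => ?_)
    have h2 := congrArg (fun σ : Equiv.Perm (V ⊕ Unit) => σ (Sum.inl v)) hg
    exact Sum.inl_injective h2
  · rintro (v | u)
    · rw [deg_pyr_inl h1 h.cx]
      have := h.deg v
      omega
    · rw [deg_pyr_inr h1 h.cx]
      have := h.cF
      omega
  · rw [card_pyr h1 h.cx]
    have := h.cF
    omega
  · rw [card_disjSum]
    have := h.cW
    simp only [card_univ, Fintype.card_unit]
    omega
  · intro C hC
    rw [image_inl_union]
    exact mem_pyr.2 (Or.inr ⟨_, h.core C hC, rfl⟩)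
  · rw [image_inl_union]
    exact isSx_pyr h.core0
  · intro i
    rw [actSum_inl, h.rκ]
  · rintro (v | u) hw
    · rw [actSum_inl, h.rW v (inl_mem_disjSum.1 hw)]
    · rfl

theorem freeF_pyr {e : Fin D → V} (h : FreeF D 𝓕 act κ W e) :
    FreeF (D + 1) (pyr 𝓕) (actSum act 1) (fun i => Sum.inl (κ i)) (W.disjSum univ)
      (Fin.snoc (α := fun _ => V ⊕ Unit) (fun j => Sum.inl (e j)) (Sum.inr ())) := by
  have him : im (Fin.snoc (α := fun _ => V ⊕ Unit) (fun j => Sum.inl (e j)) (Sum.inr ())) =
      (im e).disjSum univ := by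
    unfold im
    ext x
    rw [mem_image]
    constructor
    · rintro ⟨j, _, rfl⟩
      refine Fin.lastCases ?_ (fun j => ?_) j
      · rw [Fin.snoc_last]
        exact inr_mem_disjSum.2 (mem_univ _)
      · rw [Fin.snoc_castSucc]
        exact inl_mem_disjSum.2 (mem_image_of_mem _ (mem_univ j))
    · intro hx
      rcases x with v | u
      · obtain ⟨j, _, hj⟩ := mem_image.1 (inl_mem_disjSum.1 hx)
        exact ⟨Fin.castSucc j, mem_univ _, by rw [Fin.snoc_castSucc, hj]⟩
      · exact ⟨Fin.last D, mem_univ _, by rw [Fin.snoc_last]⟩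
  refine
    { inj := ?_
      sx := ?_
      free := ?_
      core := ?_ }
  · rw [Fin.snoc_injective_iff]
    refine ⟨Sum.inl_injective.comp h.inj, ?_⟩
    rintro ⟨j, hj⟩
    cases hj
  · rw [him]
    exact isSx_pyr h.sx
  · intro g hg
    rw [him, image_actSum] at hg
    exact h.free g (disjSum_univ_inj hg)
  · intro g C hC hg
    rw [him, image_actSum, image_inl_union] at hg
    exact h.core g C hC (disjSum_univ_inj hg)

end H47.KO
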