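import Mathlib

/-! # KO.Sg : semigroups of natural numbers

`exists_diff`: if `x ∈ AddSubgroup.closure (cast '' S)` then there are `P, N ∈ AddSubmonoid.closure S` with `x = P - N` (`AddSubgroup.closure_induction`).
`eventually_mem`: `g = P - N`, replace `(P, N)` by `(P + (g - 1) * N, g * N)` = `(g * N + g, g * N)`: both in the submonoid. If `N = 0`: `g` is in the submonoid, `M = 0`. Otherwise for `m ≥ M = N * N`: `m = q * N + s`, `s < N ≤ q`: `g * m = (q - s) * (g * N) + s * (g * N + g)` is in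
the submonoid. If `a + s ∈ A` for `s ∈ S` then for all `s` in the submonoid (induction, `AddSubmonoid.closure_induction`). -/

namespace H47.KO

private theorem exists_diff (S : Set ℕ) (x : ℤ)
    (hx : x ∈ AddSubgroup.closure ((fun n : ℕ => (n : ℤ)) '' S)) :
    ∃ P ∈ AddSubmonoid.closure S, ∃ N ∈ AddSubmonoid.closure S, x = (P : ℤ) - (N : ℤ) := by
  induction hx using AddSubgroup.closure_induction with
  | mem y hy =>
    obtain ⟨s, hs, rfl⟩ := hy
    exact ⟨s, AddSubmonoid.subset_closure hs, 0, AddSubmonoid.zero_mem _, by simp⟩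
  | zero => exact ⟨0, AddSubmonoid.zero_mem _, 0, AddSubmonoid.zero_mem _, by simp⟩
  | add y z _ _ hy hz =>
    obtain ⟨P, hP, N, hN, e⟩ := hy
    obtain ⟨P', hP', N', hN', e'⟩ := hz
    refine ⟨P + P', AddSubmonoid.add_mem _ hP hP', N + N', AddSubmonoid.add_mem _ hN hN', ?_⟩
    push_cast
    rw [e, e']
    ring
  | neg y _ hy =>
    obtain ⟨P, hP, N, hN, e⟩ := hy
    exact ⟨N, hN, P, hP, by rw [e]; ring⟩

private theorem add_closure (A S : Set ℕ) (hA : ∀ a ∈ A, ∀ s ∈ S, a + s ∈ A) (s : ℕ)
    (hs : s ∈ AddSubmonoid.closure S) : ∀ a ∈ A, a + s ∈ A := by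
  induction hs using AddSubmonoid.closure_induction with
  | mem y hy => exact fun a ha => hA a ha y hy
  | zero => exact fun a ha => by simpa using ha
  | add y z _ _ hy hz =>
    intro a ha
    rw [← add_assoc]
    exact hz _ (hy _ ha)

theorem eventually_mem (A S : Set ℕ) (g : ℕ) (hg : 0 < g)
    (hS : (g : ℤ) ∈ AddSubgroup.closure ((fun n : ℕ => (n : ℤ)) '' S))
    (hA : ∀ a ∈ A, ∀ s ∈ S, a + s ∈ A) :
    ∃ M : ℕ, ∀ a ∈ A, ∀ m, M ≤ m → a + g * m ∈ A := by
  obtain ⟨P, hP, N, hN, e⟩ := exists_diff S _ hS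
  have e' : P = N + g := by omega
  refine ⟨N * N, fun a ha m hm => ?_⟩
  have key : g * m ∈ AddSubmonoid.closure S := by
    have hmul : ∀ (k y : ℕ), y ∈ AddSubmonoid.closure S → k * y ∈ AddSubmonoid.closure S := by
      intro k y hy
      have := AddSubmonoid.nsmul_mem (AddSubmonoid.closure S) hy k
      simpa using this
    rcases Nat.eq_zero_or_pos N with h0 | h0
    · subst h0
      have : P = g := by omega
      subst this
      rw [mul_comm]
      exact hmul _ _ hP
    · have h1 : g * N ∈ AddSubmonoid.closure S := hmul _ _ hN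
      have h2 : g * N + g ∈ AddSubmonoid.closure S := by
        have h3 : g * N + g = (g - 1) * N + P := by
          obtain ⟨g', rfl⟩ : ∃ g', g = g' + 1 := ⟨g - 1, by omega⟩
          rw [e']
          simp
          ring
        rw [h3]
        exact AddSubmonoid.add_mem _ (hmul _ _ hN) hP
      have hq : m % N ≤ m / N := by
        have hlt : m % N < N := Nat.mod_lt _ h0
        have : N ≤ m / N := by
          rw [Nat.le_div_iff_mul_le h0]
          exact hm
        omega
      have h4 : g * m = (m / N - m % N) * (g * N) + (m % N) * (g * N + g) := by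
        have h5 := Nat.div_add_mod m N
        obtain ⟨d, hd⟩ := Nat.exists_eq_add_of_le hq
        have h6 : m / N - m % N = d := by omega
        rw [h6]
        calc g * m = g * (N * (m / N) + m % N) := by rw [h5]
          _ = d * (g * N) + (m % N) * (g * N + g) := by
            rw [hd]
            ring
      rw [h4]
      exact AddSubmonoid.add_mem _ (hmul _ _ h1) (hmul _ _ h2)
  exact add_closure A S hA _ key a ha

/-- all residues: if `A` contains `c * k` for all large `k`, `c` is prime to `g`, and `A` is closed under adding the elements of `S`,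
then `A` contains all large numbers -/
theorem all_large (A S : Set ℕ) (g c K : ℕ) (hg : 0 < g) (hc : Nat.Coprime c g)
    (hS : (g : ℤ) ∈ AddSubgroup.closure ((fun n : ℕ => (n : ℤ)) '' S))
    (hA : ∀ a ∈ A, ∀ s ∈ S, a + s ∈ A) (hK : ∀ k, K ≤ k → c * k ∈ A) :
    ∃ K', ∀ k, K' ≤ k → k ∈ A := by
  obtain ⟨M, hM⟩ := eventually_mem A S g hg hS hA
  refine ⟨c * (K * g + g) + g * M, fun k hk => ?_⟩
  obtain ⟨y, hy⟩ : ∃ y : ℕ, c * y ≡ k [MOD g] := by
    obtain ⟨z, hz0, hzk⟩ := Nat.chineseRemainder hc 0 k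
    obtain ⟨y, rfl⟩ := (Nat.modEq_zero_iff_dvd).1 hz0
    exact ⟨y, hzk⟩
  have hy' : c * (y % g + K * g) ≡ k [MOD g] := by
    have h1 : (y % g + K * g) ≡ y [MOD g] := by
      unfold Nat.ModEq
      simp
    exact (Nat.ModEq.mul_left c h1).trans hy
  have hlt : y % g < g := Nat.mod_lt _ hg
  have hKle : K ≤ y % g + K * g := (Nat.le_mul_of_pos_right K hg).trans (Nat.le_add_left _ _)
  have hle : c * (y % g + K * g) ≤ c * (K * g + g) := Nat.mul_le_mul_left _ (by omega)
  have hmem := hK _ hKle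
  have hdvd : g ∣ k - c * (y % g + K * g) := (Nat.modEq_iff_dvd' (by omega)).1 hy'
  obtain ⟨m, hm⟩ := hdvd
  have hMm : M ≤ m := by
    have : g * M ≤ g * m := by omega
    exact Nat.le_of_mul_le_mul_left this hg
  have := hM _ hmem m hMm
  have h2 : c * (y % g + K * g) + g * m = k := by omega
  rwa [h2] at this

/-- the same from finitely many elements representing all residues -/
theorem all_large' (A S : Set ℕ) (g : ℕ) (hg : 0 < g)
    (hS : (g : ℤ) ∈ AddSubgroup.closure ((fun n : ℕ => (n : ℤ)) '' S))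
    (hA : ∀ a ∈ A, ∀ s ∈ S, a + s ∈ A) (hr : ∀ i, i < g → ∃ a ∈ A, a % g = i) :
    ∃ K', ∀ k, K' ≤ k → k ∈ A := by
  obtain ⟨M, hM⟩ := eventually_mem A S g hg hS hA
  choose! f hf1 hf2 using hr
  refine ⟨(∑ i ∈ Finset.range g, f i) + g * M, fun k hk => ?_⟩
  have hlt : k % g < g := Nat.mod_lt _ hg
  have h1 : f (k % g) ≤ ∑ i ∈ Finset.range g, f i :=
    Finset.single_le_sum (f := f) (fun i _ => Nat.zero_le _) (Finset.mem_range.2 hlt)
  have h2 : f (k % g) ≡ k [MOD g] := hf2 _ hlt
  obtain ⟨m, hm⟩ := (Nat.modEq_iff_dvd' (by omega)).1 h2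
  have hMm : M ≤ m := by
    have : g * M ≤ g * m := by omega
    exact Nat.le_of_mul_le_mul_left this hg
  have := hM _ (hf1 _ hlt) m hMm
  have h3 : f (k % g) + g * m = k := by omega
  rwa [h3] at this

end H47.KO
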