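import Pool.Agent.H47.KO.FinR
import Pool.Agent.H47.KO.GadCl
import Pool.Agent.H47.KO.Sg
import Pool.Agent.H47.KO.Base

/-! # KO.Ind : the induction on the dimension, and the main theorem (glue) -/

namespace H47.KO

open Finset KOrbit

theorem pre_large (D : ℕ) (hD : 4 ≤ D) : ∃ K, ∀ k, K ≤ k → Pre D k := by
  induction D, hD using Nat.le_induction with
  | base =>
    refine all_large' {k | Pre 4 k} {c | GadN 4 (2 * Nat.factorial 4 + c)} 4 (by norm_num)
      (by simpa using cl_contrib 4 le_rfl) (fun a ha s hs => pre_glue ha hs rfl) ?_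
    intro i hi
    interval_cases i
    · exact ⟨264, pre_264, rfl⟩
    · exact ⟨249, pre_249, rfl⟩
    · exact ⟨198, pre_198, rfl⟩
    · exact ⟨315, pre_315, rfl⟩
  | succ D hD ih =>
    obtain ⟨K, hK⟩ := ih
    have hcl := cl_contrib (D + 1) (by omega)
    have hpos : 0 < 2 ^ ((D + 1 + 1) / 2) := by positivity
    rcases Nat.even_or_odd D with he | ho
    · refine all_large {k | Pre (D + 1) k} {c | GadN (D + 1) (2 * (D + 1).factorial + c)}
        (2 ^ ((D + 1 + 1) / 2)) (D + 1) K hpos ?_ hcl (fun a ha s hs => pre_glue ha hs rfl)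
        (fun k hk => pre_bip (hK k hk) he)
      exact Nat.Coprime.pow_right _ ((Nat.coprime_two_right.2 (by
        obtain ⟨m, rfl⟩ := he
        exact ⟨m, by ring⟩)))
    · refine all_large {k | Pre (D + 1) k} {c | GadN (D + 1) (2 * (D + 1).factorial + c)}
        (2 ^ ((D + 1 + 1) / 2)) (D + 2) K hpos ?_ hcl (fun a ha s hs => pre_glue ha hs rfl)
        (fun k hk => pre_pyr (hK k hk) ho)
      exact Nat.Coprime.pow_right _ ((Nat.coprime_two_right.2 (by
        obtain ⟨m, rfl⟩ := ho
        exact ⟨m + 1, by ring⟩)))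

/-- in every dimension `d ≥ 4` property (R) fails for all large `k` -/
theorem main (d : ℕ) (hd : 4 ≤ d) : ∃ K, ∀ k, K ≤ k → ¬ PropertyR k d := by
  obtain ⟨K, hK⟩ := pre_large d hd
  refine ⟨K + (d + 1) * ((d - 1) * d.factorial), fun k hk => ?_⟩
  have := not_R_of_pre (hK (k - (d + 1) * ((d - 1) * d.factorial)) (by omega))
  rwa [Nat.sub_add_cancel (by omega)] at this

end H47.KO
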