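import Pool.Agent.H47.KO.BaseDefs

/-! # KO.ListFam : families given by lists (routine translations, so that the finite checks can be made on lists)

`mem_fam`: `List.mem_toFinset`, `List.mem_map`. The others: unfold, `List.mem_toFinset`, `Finset.ext`. `card_fam`, `deg_fam`: `toFinset` is injective on the members of `L` by `hL` (`l.toFinset ⊆ m.toFinset` gives `∀ x ∈ l, x ∈ m`, so `l = m`), `L.Nodup`: `List.toFinset_card_of_nodup` for `L.map toFinset`, and for the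
filtered list. -/

namespace H47.KO

open Finset

variable {α : Type} [DecidableEq α] {L : List (List α)}

private theorem ListFam_sub {l m : List α} (h : l.toFinset ⊆ m.toFinset) : ∀ x ∈ l, x ∈ m := by
  intro x hx
  exact List.mem_toFinset.1 (h (List.mem_toFinset.2 hx))

theorem mem_fam {F : Finset α} : F ∈ fam L ↔ ∃ l ∈ L, l.toFinset = F := by
  unfold fam
  rw [List.mem_toFinset, List.mem_map]

theorem fam_anti (h : ∀ l ∈ L, ∀ m ∈ L, (∀ x ∈ l, x ∈ m) → l = m) :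
    ∀ F ∈ fam L, ∀ F' ∈ fam L, F ⊆ F' → F = F' := by
  intro F hF F' hF' hs
  obtain ⟨l, hl, rfl⟩ := mem_fam.1 hF
  obtain ⟨m, hm, rfl⟩ := mem_fam.1 hF'
  rw [h l hl m hm (ListFam_sub hs)]

theorem fam_out (h : ∀ v : α, ∃ l ∈ L, v ∉ l) : ∀ v, ∃ F ∈ fam L, v ∉ F := by
  intro v
  obtain ⟨l, hl, hv⟩ := h v
  exact ⟨l.toFinset, mem_fam.2 ⟨l, hl, rfl⟩, fun hc => hv (List.mem_toFinset.1 hc)⟩

theorem fam_sep (h : ∀ v w : α, v ≠ w → ∃ l ∈ L, v ∈ l ∧ w ∉ l) :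
    ∀ v w, v ≠ w → ∃ F ∈ fam L, v ∈ F ∧ w ∉ F := by
  intro v w hvw
  obtain ⟨l, hl, hv, hw⟩ := h v w hvw
  exact ⟨l.toFinset, mem_fam.2 ⟨l, hl, rfl⟩, List.mem_toFinset.2 hv,
    fun hc => hw (List.mem_toFinset.1 hc)⟩

theorem fam_inv (σ : α → α)
    (h : ∀ l ∈ L, ∃ m ∈ L, (∀ x ∈ l, σ x ∈ m) ∧ ∀ y ∈ m, ∃ x ∈ l, σ x = y) :
    ∀ F ∈ fam L, F.image σ ∈ fam L := by
  intro F hF
  obtain ⟨l, hl, rfl⟩ := mem_fam.1 hF
  obtain ⟨m, hm, h1, h2⟩ := h l hl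
  refine mem_fam.2 ⟨m, hm, ?_⟩
  ext y
  rw [List.mem_toFinset, mem_image]
  constructor
  · intro hy
    obtain ⟨x, hx, hxy⟩ := h2 y hy
    exact ⟨x, List.mem_toFinset.2 hx, hxy⟩
  · rintro ⟨x, hx, rfl⟩
    exact h1 x (List.mem_toFinset.1 hx)

theorem fam_sx {D : ℕ} {l : List α} (hl : l ∈ L) (hc : l.length = D) (hn : l.Nodup)
    (h : ∀ f ∈ l, ∃ m ∈ L, ∀ x ∈ l, (x ∈ m ↔ x ≠ f)) : IsSx D (fam L) l.toFinset := by
  refine ⟨mem_fam.2 ⟨l, hl, rfl⟩, ?_, ?_⟩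
  · rw [List.toFinset_card_of_nodup hn, hc]
  · intro f hf
    obtain ⟨m, hm, h1⟩ := h f (List.mem_toFinset.1 hf)
    refine ⟨m.toFinset, mem_fam.2 ⟨m, hm, rfl⟩, ?_⟩
    ext x
    rw [mem_inter, mem_erase, List.mem_toFinset, List.mem_toFinset]
    constructor
    · rintro ⟨h2, h3⟩
      exact ⟨(h1 x h2).1 h3, h2⟩
    · rintro ⟨h2, h3⟩
      exact ⟨h3, (h1 x h3).2 h2⟩

private theorem ListFam_nodup (hL : L.Nodup) (h : ∀ l ∈ L, ∀ m ∈ L, (∀ x ∈ l, x ∈ m) → l = m)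
    {M : List (List α)} (hM : M.Sublist L) : (M.map List.toFinset).Nodup := by
  refine List.Nodup.map_on ?_ (hL.sublist hM)
  intro l hl m hm hlm
  exact h l (hM.subset hl) m (hM.subset hm) (ListFam_sub (hlm ▸ Finset.Subset.refl _))

theorem card_fam (hL : L.Nodup) (h : ∀ l ∈ L, ∀ m ∈ L, (∀ x ∈ l, x ∈ m) → l = m) :
    (fam L).card = L.length := by
  unfold fam
  rw [List.toFinset_card_of_nodup (ListFam_nodup hL h (List.Sublist.refl L)), List.length_map]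

theorem deg_fam (hL : L.Nodup) (h : ∀ l ∈ L, ∀ m ∈ L, (∀ x ∈ l, x ∈ m) → l = m) (v : α) :
    deg (fam L) v = (L.filter fun l => v ∈ l).length := by
  unfold deg
  have h1 : (fam L).filter (fun F => v ∈ F) =
      ((L.filter fun l => v ∈ l).map List.toFinset).toFinset := by
    ext F
    rw [mem_filter, mem_fam, List.mem_toFinset, List.mem_map]
    constructor
    · rintro ⟨⟨l, hl, rfl⟩, hv⟩
      refine ⟨l, ?_, rfl⟩
      rw [List.mem_filter]
      exact ⟨hl, decide_eq_true (List.mem_toFinset.1 hv)⟩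
    · rintro ⟨l, hl, rfl⟩
      rw [List.mem_filter] at hl
      exact ⟨⟨l, hl.1, rfl⟩, List.mem_toFinset.2 (of_decide_eq_true hl.2)⟩
  rw [h1, List.toFinset_card_of_nodup (ListFam_nodup hL h List.filter_sublist),
    List.length_map]

end H47.KO
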