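import Pool.Agent.H47.KO.Faces

/-! # KO.Nf : the normal form of a realisation at a simplex facet

The vectors `s (e j)` are linearly independent: by `sx` there are `G j ∈ 𝓕` with `F ∩ G j = F.erase (e j)`; `a (G j) (s (e j)) > 0` and `a (G j) (s (e i)) = 0` for `i ≠ j`. Let `v ∉ F` (`out` for an element of `F`
gives... simply: `univ_nmem`), `n = (a F (s v))⁻¹ • s v`, `a F n = 1`. The `D + 1` vectors `s (e 0), ..., s (e (D-1)), n` are independent (apply `a F`), so a basis of `E` (`finrank E = D + 1`). Let `Φ : E ≃ₗ (Fin D → ℝ) × ℝ` be the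
coordinates: `Φ (s (e j)) = (Pi.single j 1, 0)`, `Φ n = (0, 1)`; `a F = snd ∘ Φ` (equal on the basis). New realisation: `Φ ∘ s`, `a' G = a G ∘ Φ.symm`; `compl` by linearity. -/

namespace H47.KO

open Finset

variable {V : Type} [Fintype V] [DecidableEq V] {D : ℕ} {𝓕 : Finset (Finset V)}

theorem normal_form (hD : 1 ≤ D) (h : Cplx D 𝓕) (e : Fin D → V) (he : Function.Injective e)
    (hsx : IsSx D 𝓕 (im e)) :
    ∃ (s : V → (Fin D → ℝ) × ℝ) (a : Finset V → Module.Dual ℝ ((Fin D → ℝ) × ℝ)),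
      RData D 𝓕 ((Fin D → ℝ) × ℝ) s a ∧ (∀ j, s (e j) = (Pi.single j 1, 0)) ∧
      ∀ x, a (im e) x = x.2 := by
  obtain ⟨E, _, _, s, a, hr⟩ := h.real
  have hfin := hr.fin
  have hmem : ∀ j, e j ∈ im e := fun j => Finset.mem_image_of_mem e (Finset.mem_univ j)
  have hG : ∀ j, ∃ G ∈ 𝓕, im e ∩ G = (im e).erase (e j) := fun j => hsx.2.2 _ (hmem j)
  choose G hG1 hG2 using hG
  have hz : ∀ i j, i ≠ j → a (G j) (s (e i)) = 0 := by
    intro i j hij
    rw [hr.zero _ (hG1 j)]
    have h1 : e i ∈ im e ∩ G j := by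
      rw [hG2 j]
      exact Finset.mem_erase.2 ⟨fun h2 => hij (he h2), hmem i⟩
    exact (Finset.mem_inter.1 h1).2
  have hnz : ∀ j, a (G j) (s (e j)) ≠ 0 := by
    intro j h1
    rw [hr.zero _ (hG1 j)] at h1
    have h2 : e j ∈ im e ∩ G j := Finset.mem_inter.2 ⟨hmem j, h1⟩
    rw [hG2 j] at h2
    exact (Finset.mem_erase.1 h2).1 rfl
  have hFz : ∀ j, a (im e) (s (e j)) = 0 := fun j => (hr.zero _ hsx.1 _).2 (hmem j)
  have hnon : Nonempty V := ⟨e ⟨0, hD⟩⟩
  have hne : im e ≠ univ := fun h1 => univ_nmem h (h1 ▸ hsx.1)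
  obtain ⟨v, hv⟩ : ∃ v, v ∉ im e := by
    by_contra hcon
    push Not at hcon
    exact hne (Finset.eq_univ_iff_forall.2 hcon)
  have hav : a (im e) (s v) ≠ 0 := fun h1 => hv ((hr.zero _ hsx.1 v).1 h1)
  let b : Fin D ⊕ Unit → E := Sum.elim (fun j => s (e j)) (fun _ => (a (im e) (s v))⁻¹ • s v)
  have hb1 : ∀ j, b (Sum.inl j) = s (e j) := fun j => rfl
  have hb2 : a (im e) (b (Sum.inr ())) = 1 := by
    have : b (Sum.inr ()) = (a (im e) (s v))⁻¹ • s v := rfl
    rw [this, map_smul, smul_eq_mul, inv_mul_cancel₀ hav]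
  have hli : LinearIndependent ℝ b := by
    rw [Fintype.linearIndependent_iff]
    intro g hg
    rw [Fintype.sum_sum_type] at hg
    simp only [Finset.univ_unique, Finset.sum_singleton] at hg
    have h1 : g (Sum.inr ()) = 0 := by
      have h2 := congrArg (a (im e)) hg
      rw [map_add, map_sum, map_zero] at h2
      have h3 : ∀ j ∈ (univ : Finset (Fin D)), a (im e) (g (Sum.inl j) • b (Sum.inl j)) = 0 := by
        intro j _
        rw [map_smul, hb1, hFz, smul_zero]
      rw [Finset.sum_eq_zero h3, zero_add, map_smul] at h2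
      change g (Sum.inr ()) • (a (im e)) (b (Sum.inr ())) = 0 at h2
      rw [hb2, smul_eq_mul, mul_one] at h2
      exact h2
    have h2 : ∑ j, g (Sum.inl j) • b (Sum.inl j) = 0 := by
      have h3 : g (Sum.inr (default : Unit)) = 0 := h1
      rw [h3, zero_smul, add_zero] at hg
      exact hg
    rintro (j | u)
    · have h3 := congrArg (a (G j)) h2
      rw [map_sum, map_zero, Finset.sum_eq_single j] at h3
      · rw [map_smul, hb1, smul_eq_mul] at h3
        exact (mul_eq_zero.1 h3).resolve_right (hnz j)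
      · intro i _ hij
        rw [map_smul, hb1, hz i j hij, smul_zero]
      · intro h4
        exact absurd (Finset.mem_univ j) h4
    · exact h1
  have hcard : Fintype.card (Fin D ⊕ Unit) = Module.finrank ℝ E := by
    rw [hr.rank]; simp
  let B : Module.Basis (Fin D ⊕ Unit) ℝ E := basisOfLinearIndependentOfCardEqFinrank hli hcard
  have hB : ∀ i, B i = b i := fun i => by
    simp [B]
  let B' : Module.Basis (Fin D ⊕ Unit) ℝ ((Fin D → ℝ) × ℝ) :=
    (Pi.basisFun ℝ (Fin D)).prod (Module.Basis.singleton Unit ℝ)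
  have hB'1 : ∀ j, B' (Sum.inl j) = (Pi.single j 1, 0) := fun j => by
    simp [B', Module.Basis.prod_apply]
  have hB'2 : B' (Sum.inr ()) = (0, 1) := by
    simp [B', Module.Basis.prod_apply]
  let Φ : E ≃ₗ[ℝ] (Fin D → ℝ) × ℝ := B.equiv B' (Equiv.refl _)
  have hΦ : ∀ i, Φ (b i) = B' i := fun i => by
    rw [← hB]; simp [Φ]
  have hΦ' : ∀ i, Φ.symm (B' i) = b i := fun i => by
    rw [← hΦ, LinearEquiv.symm_apply_apply]
  refine ⟨fun w => Φ (s w), fun F => (a F) ∘ₗ Φ.symm.toLinearMap, ?_, ?_, ?_⟩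
  · refine ⟨inferInstance, ?_, ?_, ?_, ?_⟩
    · simp
    · intro F hF w
      simpa using hr.nonneg F hF w
    · intro F hF w
      simpa using hr.zero F hF w
    · intro x hx
      obtain ⟨c, hc, hx2⟩ := hr.compl (Φ.symm x) (fun F hF => by simpa using hx F hF)
      refine ⟨c, hc, ?_⟩
      have h1 := congrArg Φ hx2
      rw [LinearEquiv.apply_symm_apply, map_sum] at h1
      rw [h1]
      exact Finset.sum_congr rfl fun w _ => by rw [map_smul]
  · intro j
    rw [← hB'1, ← hΦ]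
    rfl
  · intro x
    have h1 : (a (im e)) ∘ₗ Φ.symm.toLinearMap = LinearMap.snd ℝ (Fin D → ℝ) ℝ := by
      refine B'.ext ?_
      rintro (j | u)
      · rw [LinearMap.comp_apply, LinearEquiv.coe_coe, hΦ', hb1, hFz, hB'1]
        rfl
      · cases u
        rw [LinearMap.comp_apply, LinearEquiv.coe_coe, hΦ', hb2, hB'2]
        rfl
    change ((a (im e)) ∘ₗ Φ.symm.toLinearMap) x = x.2
    rw [h1]
    rfl

end H47.KO
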