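import Pool.Agent.H47.KO.Defs

/-! # KO.RidgeC : completeness of simplicial systems

Independence: for a facet `F` and `f ∈ F` let `G f ∈ 𝓕`, `F ∩ G f = F.erase f`; `a (G f) (s f) > 0`, `a (G f) (s f') = 0` for `f' ∈ F.erase f`. So the `s f`, `f ∈ F`, are `D` independent vectors in `ker (a F)`, which has dimension `D` (`a F ≠ 0` because `F ≠ univ`: some `v ∉ F`, `a F (s v) > 0`; `finrank E = D + 1`).
So every `z ∈ ker (a F)` is `∑ f ∈ F, c f • s f`, and `a (G f) z = c f * a (G f) (s f)`.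
Let `x` satisfy `a F x ≥ 0` for all `F ∈ 𝓕`, `o = ∑ v, s v`, `a F o > 0` for all `F`. `t = min` over `F ∈ 𝓕` of `a F x / a F o ≥ 0`, attained at `F` (`Finset.exists_min_image`). `z = x - t • o`: `a G z ≥ 0` for all `G`, `a F z = 0`. So `z = ∑ f ∈ F, c f • s f` with `c f ≥ 0`, and `x = z + t • o` is a nonnegative combination of the `s v`. -/

namespace H47.KO

open Finset

theorem compl_of_sx {V : Type} [Fintype V] [DecidableEq V] {D : ℕ} {𝓕 : Finset (Finset V)}
    {E : Type} [AddCommGroup E] [Module ℝ E] [FiniteDimensional ℝ E]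
    (hE : Module.finrank ℝ E = D + 1) {s : V → E} {a : Finset V → Module.Dual ℝ E}
    (hne : 𝓕.Nonempty) (h0 : ∀ F ∈ 𝓕, ∀ v, 0 ≤ a F (s v))
    (h1 : ∀ F ∈ 𝓕, ∀ v, a F (s v) = 0 ↔ v ∈ F) (hF : ∀ F ∈ 𝓕, F ≠ univ)
    (hsx : ∀ F ∈ 𝓕, IsSx D 𝓕 F) :
    ∀ x : E, (∀ F ∈ 𝓕, 0 ≤ a F x) → ∃ c : V → ℝ, (∀ v, 0 ≤ c v) ∧ x = ∑ v, c v • s v := by
  classical
  intro x hx
  -- the sum of all vectors is positive on every facet
  have hpos : ∀ F ∈ 𝓕, 0 < a F (∑ v, s v) := by
    intro F hFm
    rw [map_sum]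
    obtain ⟨v, hv⟩ : ∃ v, v ∉ F := by
      by_contra hcon
      push Not at hcon
      exact hF F hFm (Finset.eq_univ_iff_forall.2 hcon)
    refine Finset.sum_pos' (fun v _ => h0 F hFm v) ⟨v, mem_univ v, ?_⟩
    exact lt_of_le_of_ne (h0 F hFm v) (fun h => hv ((h1 F hFm v).1 h.symm))
  -- the minimum
  obtain ⟨F, hFm, hmin⟩ := Finset.exists_min_image 𝓕 (fun F => a F x / a F (∑ v, s v)) hne
  set t : ℝ := a F x / a F (∑ v, s v) with ht
  have ht0 : 0 ≤ t := div_nonneg (hx F hFm) (hpos F hFm).le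
  set z : E := x - t • ∑ v, s v with hz
  have hzF : a F z = 0 := by
    rw [hz, map_sub, map_smul, smul_eq_mul, ht, div_mul_cancel₀ _ (hpos F hFm).ne', sub_self]
  have hzG : ∀ G ∈ 𝓕, 0 ≤ a G z := by
    intro G hG
    have h2 : t ≤ a G x / a G (∑ v, s v) := hmin G hG
    rw [le_div_iff₀ (hpos G hG)] at h2
    rw [hz, map_sub, map_smul, smul_eq_mul]
    linarith
  -- the neighbours of the facet
  obtain ⟨-, hcard, hadj⟩ := hsx F hFm
  choose! G hGm hG using hadj
  have hGin : ∀ f ∈ F, ∀ g ∈ F, g ≠ f → g ∈ G f := by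
    intro f hf g hg hgf
    have h2 : g ∈ F ∩ G f := by
      rw [hG f hf]
      exact mem_erase.2 ⟨hgf, hg⟩
    exact (mem_inter.1 h2).2
  have hGout : ∀ f ∈ F, f ∉ G f := by
    intro f hf hcon
    have h2 : f ∈ F ∩ G f := mem_inter.2 ⟨hf, hcon⟩
    rw [hG f hf] at h2
    exact (notMem_erase f F) h2
  have hGpos : ∀ f ∈ F, 0 < a (G f) (s f) := fun f hf =>
    lt_of_le_of_ne (h0 _ (hGm f hf) f) (fun h => hGout f hf ((h1 _ (hGm f hf) f).1 h.symm))
  have heval : ∀ (f : V) (hf : f ∈ F) (c : F → ℝ),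
      a (G f) (∑ g : F, c g • s g) = c ⟨f, hf⟩ * a (G f) (s f) := by
    intro f hf c
    rw [map_sum, Finset.sum_eq_single (⟨f, hf⟩ : F)]
    · rw [map_smul, smul_eq_mul]
    · intro g _ hgf
      have h2 : (g : V) ≠ f := fun h => hgf (Subtype.ext h)
      rw [map_smul, (h1 _ (hGm f hf) _).2 (hGin f hf g g.2 h2), smul_zero]
    · intro h
      exact absurd (mem_univ _) h
  have hli : LinearIndependent ℝ (fun g : F => s g) := by
    rw [Fintype.linearIndependent_iff]
    intro c hc f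
    have h2 := heval f f.2 c
    rw [hc, map_zero] at h2
    rcases mul_eq_zero.1 h2.symm with h3 | h3
    · exact h3
    · exact absurd h3 (hGpos f f.2).ne'
  -- the kernel of the facet
  have hker : Module.finrank ℝ (LinearMap.ker (a F)) = D := by
    have hne0 : a F ≠ 0 := by
      intro h
      have h2 := hpos F hFm
      rw [h, LinearMap.zero_apply] at h2
      exact lt_irrefl _ h2
    have h2 := LinearMap.finrank_range_add_finrank_ker (a F)
    have h3 : Module.finrank ℝ (LinearMap.range (a F)) = 1 := by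
      rw [LinearMap.range_eq_top.2 (LinearMap.surjective hne0), finrank_top]
      exact Module.finrank_self ℝ
    omega
  have hspan : Submodule.span ℝ (Set.range fun g : F => s g) = LinearMap.ker (a F) := by
    apply Submodule.eq_of_le_of_finrank_eq
    · rw [Submodule.span_le]
      rintro _ ⟨g, rfl⟩
      exact (h1 F hFm g).2 g.2
    · rw [finrank_span_eq_card hli, hker, Fintype.card_coe, hcard]
  have hzs : z ∈ Submodule.span ℝ (Set.range fun g : F => s g) := by
    rw [hspan]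
    exact hzF
  rw [Submodule.mem_span_range_iff_exists_fun] at hzs
  obtain ⟨c, hc⟩ := hzs
  have hcn : ∀ g : F, 0 ≤ c g := by
    intro g
    have h2 := heval g g.2 c
    rw [hc] at h2
    have h3 := hzG _ (hGm g g.2)
    rw [h2] at h3
    exact nonneg_of_mul_nonneg_left h3 (hGpos g g.2)
  refine ⟨fun v => t + if h : v ∈ F then c ⟨v, h⟩ else 0, ?_, ?_⟩
  · intro v
    by_cases h : v ∈ F
    · simp only [h, dif_pos]
      exact add_nonneg ht0 (hcn _)
    · simp only [h, dif_neg, not_false_iff, add_zero]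
      exact ht0
  · have h2 : ∑ v, (if h : v ∈ F then c ⟨v, h⟩ else 0) • s v = z := by
      rw [← hc, ← Finset.sum_subset (Finset.subset_univ F)]
      · rw [← Finset.sum_coe_sort F]
        refine Finset.sum_congr rfl fun g _ => ?_
        rw [dif_pos g.2]
      · intro v _ hv
        rw [dif_neg hv, zero_smul]
    have h3 : x = z + t • ∑ v, s v := by
      rw [hz]
      abel
    rw [h3, ← h2, Finset.smul_sum, ← Finset.sum_add_distrib]
    refine Finset.sum_congr rfl fun v _ => ?_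
    rw [add_smul, add_comm]

end H47.KO
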