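import Pool.Agent.H47.KO.ListFam
import Pool.Agent.H47.KO.RidgeC
import Pool.Agent.H47.KO.FlFac

/-! # KO.P1Cx : the polytope `P1`

All finite checks by `decide +kernel` on the lists (each 1 second; tested:
`∀ l ∈ P1list, l.length = 4 ∧ l.Nodup ∧ ∀ f ∈ l, ∃ m ∈ P1list, ∀ x ∈ l, (x ∈ m ↔ x ≠ f)`, `∀ l ∈ P1list, ∀ m ∈ P1list, (∀ x ∈ l, x ∈ m) → l = m`, `∀ v : Fin 11, ∃ l ∈ P1list, v ∉ l`, `∀ v w : Fin 11, v ≠ w → ∃ l ∈ P1list, v ∈ l ∧ w ∉ l`,
`∀ i : Fin 33, ∀ v : Fin 11, 0 ≤ dotL (P1nor.getD i []) (P1ver.getD v []) ∧ (dotL (P1nor.getD i []) (P1ver.getD v []) = 0 ↔ v ∈ P1list.getD i [])` with `dotL a b = (List.zipWith (· * ·) a b).sum`).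
`Realiz 4 P1F`: `E = Fin 5 → ℝ`, `s v = fun i => ((P1ver.getD v []).getD i 0 : ℝ)`, the functional of the `i`-th facet is the scalar product with the `i`-th normal (for `F ∈ P1F` choose an index `i` with `(P1list.getD i []).toFinset = F`), `compl_of_sx`.
`P1_fl`: `fl_facets`, `low_sx`: `33 * 24 = 792`, `card_fam`. -/

namespace H47.KO

open Finset

private theorem P1_listA : ∀ l ∈ P1list, ∀ m ∈ P1list, (∀ x ∈ l, x ∈ m) → l = m := by
  decide +kernel

private theorem P1_listS : ∀ l ∈ P1list, l.length = 4 ∧ l.Nodup ∧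
    ∀ f ∈ l, ∃ m ∈ P1list, ∀ x ∈ l, (x ∈ m ↔ x ≠ f) := by
  decide +kernel

private theorem P1_listO : ∀ v : Fin 11, ∃ l ∈ P1list, v ∉ l := by
  decide +kernel

private theorem P1_listSep : ∀ v w : Fin 11, v ≠ w → ∃ l ∈ P1list, v ∈ l ∧ w ∉ l := by
  decide +kernel

private theorem P1_listN : P1list.Nodup := by
  decide +kernel

private theorem P1_listL : P1list.length = 33 := by
  decide +kernel

private theorem P1_listD : ∀ v : Fin 11, 5 ≤ (P1list.filter fun l => v ∈ l).length := by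
  decide +kernel

private theorem P1_int : ∀ i : Fin 33, ∀ v : Fin 11,
    0 ≤ (P1nor.getD i []).getD 0 0 * (P1ver.getD v []).getD 0 0 +
      (P1nor.getD i []).getD 1 0 * (P1ver.getD v []).getD 1 0 +
      (P1nor.getD i []).getD 2 0 * (P1ver.getD v []).getD 2 0 +
      (P1nor.getD i []).getD 3 0 * (P1ver.getD v []).getD 3 0 +
      (P1nor.getD i []).getD 4 0 * (P1ver.getD v []).getD 4 0 ∧
    ((P1nor.getD i []).getD 0 0 * (P1ver.getD v []).getD 0 0 +
      (P1nor.getD i []).getD 1 0 * (P1ver.getD v []).getD 1 0 +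
      (P1nor.getD i []).getD 2 0 * (P1ver.getD v []).getD 2 0 +
      (P1nor.getD i []).getD 3 0 * (P1ver.getD v []).getD 3 0 +
      (P1nor.getD i []).getD 4 0 * (P1ver.getD v []).getD 4 0 = 0 ↔
        v ∈ P1list.getD i []) := by
  decide +kernel

private theorem P1_idx (F : Finset (Fin 11)) (hF : F ∈ P1F) :
    ∃ i : Fin 33, (P1list.getD i []).toFinset = F := by
  obtain ⟨l, hl, rfl⟩ := mem_fam.1 hF
  obtain ⟨n, hn, rfl⟩ := List.getElem_of_mem hl
  have h1 : n < 33 := by rw [← P1_listL]; exact hn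
  refine ⟨⟨n, h1⟩, ?_⟩
  rw [List.getD_eq_getElem _ _ hn]

/-- the functional with integer coefficients -/
private noncomputable def P1a (i : Fin 33) : Module.Dual ℝ (Fin 5 → ℝ) :=
  ∑ j : Fin 5, (((P1nor.getD i []).getD j 0 : ℤ) : ℝ) • LinearMap.proj j

private noncomputable def P1s (v : Fin 11) : Fin 5 → ℝ :=
  fun j => (((P1ver.getD v []).getD j 0 : ℤ) : ℝ)

private theorem P1a_apply (i : Fin 33) (v : Fin 11) : P1a i (P1s v) =
    (((P1nor.getD i []).getD 0 0 * (P1ver.getD v []).getD 0 0 +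
      (P1nor.getD i []).getD 1 0 * (P1ver.getD v []).getD 1 0 +
      (P1nor.getD i []).getD 2 0 * (P1ver.getD v []).getD 2 0 +
      (P1nor.getD i []).getD 3 0 * (P1ver.getD v []).getD 3 0 +
      (P1nor.getD i []).getD 4 0 * (P1ver.getD v []).getD 4 0 : ℤ) : ℝ) := by
  rw [P1a, LinearMap.sum_apply, Fin.sum_univ_five]
  simp only [LinearMap.smul_apply, LinearMap.proj_apply, smul_eq_mul, P1s]
  push_cast
  rfl

theorem P1_sx (F : Finset (Fin 11)) (hF : F ∈ P1F) : IsSx 4 P1F F := by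
  obtain ⟨l, hl, rfl⟩ := mem_fam.1 hF
  obtain ⟨h1, h2, h3⟩ := P1_listS l hl
  exact fam_sx hl h1 h2 h3

theorem P1_real : Realiz 4 P1F := by
  classical
  choose! ix hix using P1_idx
  have h0 : ∀ F ∈ P1F, ∀ v, 0 ≤ P1a (ix F) (P1s v) := by
    intro F _ v
    rw [P1a_apply]
    exact Int.cast_nonneg (P1_int (ix F) v).1
  have h1 : ∀ F ∈ P1F, ∀ v, P1a (ix F) (P1s v) = 0 ↔ v ∈ F := by
    intro F hF v
    rw [P1a_apply, Int.cast_eq_zero, (P1_int (ix F) v).2]
    conv_rhs => rw [← hix F hF]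
    rw [List.mem_toFinset]
  have hne : P1F.Nonempty := by
    obtain ⟨l, hl, _⟩ := P1_listO 0
    exact ⟨_, mem_fam.2 ⟨l, hl, rfl⟩⟩
  have hFu : ∀ F ∈ P1F, F ≠ univ := by
    intro F hF h
    have h2 := (P1_sx F hF).2.1
    rw [h, Finset.card_univ, Fintype.card_fin] at h2
    omega
  have hfr : Module.finrank ℝ (Fin 5 → ℝ) = 4 + 1 := by simp
  exact ⟨Fin 5 → ℝ, inferInstance, inferInstance, P1s, fun F => P1a (ix F),
    ⟨inferInstance, hfr, h0, h1, compl_of_sx hfr hne h0 h1 hFu P1_sx⟩⟩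

theorem P1_cplx : Cplx 4 P1F :=
  ⟨fam_anti P1_listA, fam_out P1_listO, fam_sep P1_listSep, P1_real⟩

theorem P1_card : P1F.card = 33 := by
  rw [P1F, card_fam P1_listN P1_listA, P1_listL]

theorem P1_deg (v : Fin 11) : 5 ≤ deg P1F v := by
  rw [P1F, deg_fam P1_listN P1_listA]
  exact P1_listD v

theorem P1_fl : fl (CLat P1F) = 792 := by
  rw [fl_facets (D := 4) (by norm_num) P1_cplx,
    Finset.sum_congr rfl fun F hF => low_sx (P1_sx F hF), Finset.sum_const, P1_card]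
  rfl

end H47.KO
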