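import Pool.Agent.H47.KO.Lat
import Pool.Agent.H63.KO.FaceIso

/-! # KO.Poly : the polytope of a complex (paper 0.2)

Let `(E, s, a)` realise `𝓕` and `l` be positive on all `s v` (`pos_fun`). `s' v = (l (s v))⁻¹ • s v`, `l (s' v) = 1`; faces of `s'` = faces of `s` (`IsFace` is not changed by positive scaling). A linear
equivalence `Φ : E ≃ Euc D × ℝ` with `(Φ x).2 = l x`: complement of `ker l` (`finrank (ker l) = D`, `V`: `l ≠ 0`), `ker l ≃ Euc D` (`LinearEquiv.ofFinrankEq` or `finrank` equality), e.g. `x ↦ (ψ (x - l x • n), l x)` with `l n = 1`. `p v = (Φ (s' v)).1`, so `Φ (s' v) = (p v, 1)`.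
`p` is injective: `p v = p w` gives `s' v = s' w`, then `v` and `w` are in the same facets, `sep`. `T = univ.image p`, `Q = convexHull ℝ T`. The bijection `V ≃ T` transports `IsFace s'` to `IsFace (polyFam T)` (functionals `m ↦ m ∘ Φ`).
So `Face Q ≃o {A : Set T // IsFace (polyFam T) A} ≃o {A : Set V // IsFace s A} ≃o CLat 𝓕` (`H63.KO.faceIso`, `face_iso`).
Interior: the `(p v, 1)` span `Euc D × ℝ` (`span_top`), so the affine span of the `p v` is everything: `interior_convexHull_nonempty_iff_affineSpan_eq_top`. (If the affine span were proper there would be an affine function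
`x ↦ m x - c`, `m ≠ 0`, zero on all `p v`, so the functional `(x, r) ↦ m x - c r` would vanish on all `(p v, 1)`.) -/

namespace H47.KO

open Finset KOrbit

variable {V : Type} [Fintype V] {D : ℕ} {𝓕 : Finset (Finset V)}

private theorem po_equiv {E : Type} [AddCommGroup E] [Module ℝ E] [FiniteDimensional ℝ E]
    (hr : Module.finrank ℝ E = D + 1) (l : Module.Dual ℝ E) (n : E) (hn : l n = 1) :
    ∃ Φ : E ≃ₗ[ℝ] Euc D × ℝ, ∀ x, (Φ x).2 = l x := by
  have hsurj : LinearMap.range l = ⊤ := by
    rw [LinearMap.range_eq_top]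
    intro r
    exact ⟨r • n, by simp [hn]⟩
  have h1 := LinearMap.finrank_range_add_finrank_ker l
  rw [hsurj, finrank_top, Module.finrank_self, hr] at h1
  have h2 : Module.finrank ℝ (LinearMap.ker l) = Module.finrank ℝ (Euc D) := by
    rw [finrank_euclideanSpace_fin]
    omega
  let ψ : LinearMap.ker l ≃ₗ[ℝ] Euc D := LinearEquiv.ofFinrankEq _ _ h2
  let π : E →ₗ[ℝ] LinearMap.ker l :=
    LinearMap.codRestrict (LinearMap.ker l) (LinearMap.id - l.smulRight n) (fun x => by
      simp [hn])
  let f : E →ₗ[ℝ] Euc D × ℝ := (ψ.toLinearMap.comp π).prod l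
  have hf : Function.Injective f := by
    rw [← LinearMap.ker_eq_bot, LinearMap.ker_eq_bot']
    intro x hx
    have hx1 : ψ (π x) = 0 := congrArg Prod.fst hx
    have hx2 : l x = 0 := congrArg Prod.snd hx
    have hx3 : π x = 0 := by simpa using hx1
    have hx4 : x - l x • n = 0 := congrArg Subtype.val hx3
    rw [hx2, zero_smul, sub_zero] at hx4
    exact hx4
  refine ⟨LinearEquiv.ofInjectiveOfFinrankEq f hf ?_, fun x => rfl⟩
  rw [hr, Module.finrank_prod, finrank_euclideanSpace_fin, Module.finrank_self]

theorem exists_polytope (hD : 1 ≤ D) (h : Cplx D 𝓕) :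
    ∃ Q : Set (Euc D), IsPolytope Q ∧ Nonempty (CLat 𝓕 ≃o Face Q) := by
  classical
  obtain ⟨E, iE1, iE2, s, a, hR⟩ := h.real
  have : FiniteDimensional ℝ E := hR.fin
  obtain ⟨l, hl⟩ := pos_fun hR h
  have hspan := span_top hR h hD
  have := nontrivial_of_cplx hD h
  obtain ⟨v0⟩ : Nonempty V := inferInstance
  obtain ⟨Φ, hΦ⟩ := po_equiv (D := D) hR.rank l ((l (s v0))⁻¹ • s v0) (by
    rw [map_smul, smul_eq_mul, inv_mul_cancel₀ (hl v0).ne'])
  let p : V → Euc D := fun v => (Φ ((l (s v))⁻¹ • s v)).1
  have hp : ∀ v, Φ (s v) = l (s v) • ((p v, 1) : Euc D × ℝ) := by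
    intro v
    have h1 : Φ ((l (s v))⁻¹ • s v) = (p v, 1) := by
      refine Prod.ext rfl ?_
      rw [hΦ, map_smul, smul_eq_mul, inv_mul_cancel₀ (hl v).ne']
    rw [← h1, ← map_smul, smul_smul, mul_inv_cancel₀ (hl v).ne', one_smul]
  have hpinj : Function.Injective p := by
    intro v w hvw
    by_contra hne
    obtain ⟨F, hF, hv, hw⟩ := h.sep v w hne
    have h1 : (l (s w)) • Φ (s v) = (l (s v)) • Φ (s w) := by
      rw [hp v, hp w, hvw, smul_smul, smul_smul, mul_comm]
    rw [← map_smul, ← map_smul] at h1
    have h2 := Φ.injective h1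
    have h3 := congrArg (a F) h2
    rw [map_smul, map_smul, (hR.zero F hF v).2 hv, smul_zero, smul_eq_mul] at h3
    rcases mul_eq_zero.1 h3.symm with h4 | h4
    · exact (hl v).ne' h4
    · exact hw ((hR.zero F hF w).1 h4)
  let T : Finset (Euc D) := univ.image p
  have hpT : ∀ v, p v ∈ T := fun v => mem_image_of_mem p (mem_univ v)
  let β : V ≃ T := Equiv.ofBijective (fun v => ⟨p v, hpT v⟩) (by
    constructor
    · intro v w hvw
      exact hpinj (congrArg Subtype.val hvw)
    · rintro ⟨x, hx⟩
      obtain ⟨v, _, rfl⟩ := mem_image.1 hx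
      exact ⟨v, rfl⟩)
  have hβ : ∀ v, H63.KO.polyFam T (β v) = (p v, 1) := fun v => rfl
  have hface : ∀ A : Set T, H63.KO.IsFace (H63.KO.polyFam T) A ↔ H63.KO.IsFace s (β ⁻¹' A) := by
    intro A
    constructor
    · rintro ⟨m, hm1, hm2⟩
      have key : ∀ v, (m.comp Φ.toLinearMap) (s v) = l (s v) * m (H63.KO.polyFam T (β v)) := by
        intro v
        rw [hβ]
        change m (Φ (s v)) = _
        rw [hp v, map_smul, smul_eq_mul]
      refine ⟨m.comp Φ.toLinearMap, fun v => ?_, fun v => ?_⟩
      · rw [key]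
        exact mul_nonneg (hl v).le (hm1 _)
      · rw [key, mul_eq_zero, or_iff_right (hl v).ne', ← hm2]
        rfl
    · rintro ⟨m, hm1, hm2⟩
      have key : ∀ v, m (s v) =
          l (s v) * (m.comp Φ.symm.toLinearMap) (H63.KO.polyFam T (β v)) := by
        intro v
        rw [hβ]
        change _ = l (s v) * m (Φ.symm (p v, 1))
        rw [← smul_eq_mul, ← map_smul, ← map_smul, ← hp v, LinearEquiv.symm_apply_apply]
      refine ⟨m.comp Φ.symm.toLinearMap, fun i => ?_, fun i => ?_⟩
      · obtain ⟨v, rfl⟩ := β.surjective i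
        have h1 := hm1 v
        rw [key v] at h1
        exact nonneg_of_mul_nonneg_right h1 (hl v)
      · obtain ⟨v, rfl⟩ := β.surjective i
        have h1 := hm2 v
        rw [key v, mul_eq_zero, or_iff_right (hl v).ne'] at h1
        exact h1
  refine ⟨convexHull ℝ (T : Set (Euc D)), ⟨⟨T, rfl⟩, ?_⟩, ?_⟩
  · rw [interior_convexHull_nonempty_iff_affineSpan_eq_top]
    rw [eq_top_iff]
    intro x _
    have hx : ((x, 1) : Euc D × ℝ) ∈ Submodule.span ℝ (Set.range fun v => Φ (s v)) := by
      have h1 : Submodule.span ℝ (Set.range fun v => Φ (s v)) = ⊤ := by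
        have h2 : (Set.range fun v => Φ (s v)) = Φ.toLinearMap '' Set.range s := by
          rw [← Set.range_comp]
          rfl
        rw [h2, Submodule.span_image, hspan, Submodule.map_top, LinearEquiv.range]
      rw [h1]
      trivial
    obtain ⟨c, hc⟩ := (Submodule.mem_span_range_iff_exists_fun ℝ).1 hx
    have hc1 : ∑ v, c v * l (s v) = 1 := by
      have := congrArg Prod.snd hc
      rw [Prod.snd_sum] at this
      change _ = (1 : ℝ) at this
      rw [← this]
      refine sum_congr rfl fun v _ => ?_
      rw [hp v]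
      simp
    have hc2 : ∑ v, (c v * l (s v)) • p v = x := by
      have := congrArg Prod.fst hc
      rw [Prod.fst_sum] at this
      change _ = x at this
      rw [← this]
      refine sum_congr rfl fun v _ => ?_
      rw [hp v]
      simp [smul_smul]
    have h1 : (univ : Finset V).affineCombination ℝ p (fun v => c v * l (s v)) = x := by
      rw [affineCombination_eq_linear_combination _ _ _ hc1, hc2]
    rw [← h1]
    have h2 : Set.range p = (T : Set (Euc D)) := by
      simp [T]
    rw [← h2]
    exact affineCombination_mem_affineSpan hc1 p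
  · obtain ⟨e1⟩ := H63.KO.faceIso T
    obtain ⟨e3, _⟩ := face_iso hR
    have e2 : {A : Set T // H63.KO.IsFace (H63.KO.polyFam T) A} ≃o
        {A : Set V // H63.KO.IsFace s A} :=
      { toFun := fun A => ⟨β ⁻¹' A.1, (hface A.1).1 A.2⟩
        invFun := fun A => ⟨β.symm ⁻¹' A.1, (hface _).2 (by
          rw [← Set.preimage_comp]
          simpa using A.2)⟩
        left_inv := fun A => by
          apply Subtype.ext
          change β.symm ⁻¹' (β ⁻¹' A.1) = A.1
          rw [← Set.preimage_comp]
          simp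
        right_inv := fun A => by
          apply Subtype.ext
          change β ⁻¹' (β.symm ⁻¹' A.1) = A.1
          rw [← Set.preimage_comp]
          simp
        map_rel_iff' := by
          intro A B
          constructor
          · intro hAB x hx
            obtain ⟨v, rfl⟩ := β.surjective x
            exact hAB hx
          · intro hAB v hv
            exact hAB hv }
    exact ⟨(e3.trans e2.symm).trans e1.symm⟩

end H47.KO
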