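import Pool.Agent.H47.KO.FreeGlue
import Pool.Agent.H47.KO.GoodPyr
import Pool.Agent.H47.KO.GoodBip

/-! # KO.PreOps : `Pre` under pyramids, bipyramids, gluing of gadgets (glue) -/

namespace H47.KO

open Finset

theorem pre_pyr {D k : ℕ} (h : Pre D k) (hD : Odd D) : Pre (D + 1) ((D + 2) * k) := by
  obtain ⟨V, G, _, _, _, _, _, 𝓕, act, r, κ, W, e, hg, hf, hs, hfl⟩ := h
  have h1 : 1 ≤ D := by have := hg.four; omega
  refine ⟨V ⊕ Unit, G, inferInstance, inferInstance, inferInstance, inferInstance, inferInstance,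
    pyr 𝓕, actSum act 1, r, _, _, _, good_pyr hg hD, freeF_pyr hf, ?_, ?_⟩
  · exact ss_pyr h1 hg.cx (by have := good_cardV hg; omega) hg.cF
  · rw [fl_pyr h1 hg.cx, hfl]
    obtain ⟨m, rfl⟩ := hD
    have e1 : (2 * m + 1 + 1) / 2 = m + 1 := by omega
    have e2 : (2 * m + 1 + 1 + 1) / 2 = m + 1 := by omega
    rw [e1, e2]; ring

theorem pre_bip {D k : ℕ} (h : Pre D k) (hD : Even D) : Pre (D + 1) ((D + 1) * k) := by
  obtain ⟨V, G, _, _, _, _, _, 𝓕, act, r, κ, W, e, hg, hf, hs, hfl⟩ := h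
  have h1 : 1 ≤ D := by have := hg.four; omega
  refine ⟨V ⊕ Bool, G × Equiv.Perm Bool, inferInstance, inferInstance, inferInstance,
    inferInstance, inferInstance, bip 𝓕, actBip act, (r, 1), _, _, _, good_bip hg hD,
    freeF_bip hf, ?_, ?_⟩
  · exact ss_bip (by have := hg.four; omega) hg.deg hg.cF
  · rw [fl_bip h1 hg.cx (cplx_bip h1 hg.cx), hfl]
    obtain ⟨m, rfl⟩ := hD
    have e1 : (m + m + 1) / 2 = m := by omega
    have e2 : (m + m + 1 + 1) / 2 = m + 1 := by omega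
    rw [e1, e2]; ring

theorem pre_glue {D k f c : ℕ} (h : Pre D k) (hf : GadN D f) (hc : f = 2 * D.factorial + c) :
    Pre D (k + c) := by
  obtain ⟨V, G, _, _, _, _, _, 𝓕, act, r, κ, W₀, e, hg, hfr, hs, hfl⟩ := h
  obtain ⟨W, _, _, 𝓖, e1, hgad, hns⟩ := hf
  have h4 := hg.four
  have hok := glueOK_free hg hfr hgad.cx hgad.s0
  refine ⟨V ⊕ (G × W), G, inferInstance, inferInstance, inferInstance, inferInstance,
    inferInstance, glue 𝓕 𝓖 (eG act e), actSum act (actProd (actL G) 1), r, _, _, _,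
    good_glue hg hok hgad.deg (by have := hgad.cF; omega) (core_free hfr) (actL G) 1
      (eqGlue_free e),
    freeF_glue_gad hg hfr hok hgad.i1 hgad.s1 (fun h => hgad.ne h.symm), ?_, ?_⟩
  · rintro (v | ⟨g, w⟩)
    · rw [ss_glue_inl hok (by omega) hgad.deg]
      exact fun h => hs v h.1
    · rw [ss_glue_inr hok]
      exact hns _
  · have := fl_glue' hok
    rw [hfl, hgad.fl, hg.cG, hc] at this
    have e3 : 2 ^ ((D + 1) / 2) * (2 * D.factorial + c) =
      2 ^ ((D + 1) / 2) * c + 2 ^ ((D + 1) / 2) * (2 * D.factorial) := by ring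
    rw [e3] at this
    rw [mul_add]
    omega

end H47.KO
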