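import Pool.Agent.H47.KO.FlFac
import Pool.Agent.H47.KO.Lat

/-! # KO.PyrCl : closed sets and flags of a pyramid

Facets of `pyr 𝓕`: `univ.disjSum ∅` (the base) and `F.disjSum univ`, `F ∈ 𝓕`. A set is `A.disjSum X` with `X = ∅` or `X = univ` (`Finset Unit`). `A.disjSum univ` is contained in the facets `F.disjSum univ`,
`A ⊆ F`, only; `A.disjSum ∅` in these and in the base. Hence `A.disjSum X` is closed iff `A` is closed.
`cl_pyr_iso`: `CLat (pyr 𝓕) ≃o CLat 𝓕 × Bool` (`X = univ ↔ true`); `fl_pyr` from `fl_prod` and `grd_cl`. -/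

namespace H47.KO

open Finset

variable {V : Type} [Fintype V] [DecidableEq V] {D : ℕ} {𝓕 : Finset (Finset V)}

theorem mem_pyr {B : Finset (V ⊕ Unit)} :
    B ∈ pyr 𝓕 ↔ B = univ.disjSum ∅ ∨ ∃ F ∈ 𝓕, B = F.disjSum univ := by
  unfold pyr
  rw [mem_insert, mem_image]
  constructor
  · rintro (h | ⟨F, hF, h⟩)
    · exact Or.inl h
    · exact Or.inr ⟨F, hF, h.symm⟩
  · rintro (h | ⟨F, hF, h⟩)
    · exact Or.inl h
    · exact Or.inr ⟨F, hF, h.symm⟩

theorem isCl_pyr (A : Finset V) (X : Finset Unit) : IsCl (pyr 𝓕) (A.disjSum X) ↔ IsCl 𝓕 A := by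
  constructor
  · intro h v hv
    have h1 := h (Sum.inl v) (by
      intro B hB hAB
      rcases mem_pyr.1 hB with rfl | ⟨F, hF, rfl⟩
      · exact inl_mem_disjSum.2 (mem_univ v)
      · refine inl_mem_disjSum.2 (hv F hF fun a ha => ?_)
        exact inl_mem_disjSum.1 (hAB (inl_mem_disjSum.2 ha)))
    exact inl_mem_disjSum.1 h1
  · rintro h (v | u) hw
    · refine inl_mem_disjSum.2 (h v fun F hF hAF => ?_)
      exact inl_mem_disjSum.1 (hw _ (mem_pyr.2 (Or.inr ⟨F, hF, rfl⟩))
        (disjSum_mono hAF (subset_univ X)))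
    · by_contra hu
      have hX : X = ∅ := by
        rw [eq_empty_iff_forall_notMem]
        intro u' hu'
        exact hu (inr_mem_disjSum.2 (Subsingleton.elim u' u ▸ hu'))
      subst hX
      have h1 := hw _ (mem_pyr.2 (Or.inl rfl)) (disjSum_mono (subset_univ A) (subset_refl ∅))
      exact absurd (inr_mem_disjSum.1 h1) (notMem_empty u)

/-- The closed sets of a pyramid. -/
noncomputable def cl_pyr_iso : CLat (pyr 𝓕) ≃o CLat 𝓕 × Bool where
  toFun B := (⟨B.1.toLeft, by
    have h := B.2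
    rw [← toLeft_disjSum_toRight (u := B.1)] at h
    exact (isCl_pyr _ _).1 h⟩, decide (Sum.inr () ∈ B.1))
  invFun p := ⟨p.1.1.disjSum (if p.2 = true then univ else ∅), (isCl_pyr _ _).2 p.1.2⟩
  left_inv B := by
    apply Subtype.ext
    ext (v | u)
    · simp
    · cases u
      by_cases h : Sum.inr () ∈ B.1 <;> simp [h]
  right_inv p := by
    obtain ⟨⟨A, hA⟩, b⟩ := p
    refine Prod.ext ?_ ?_
    · apply Subtype.ext
      simp
    · cases b <;> simp
  map_rel_iff' := by
    intro B B'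
    constructor
    · rintro ⟨h1, h2⟩ x hx
      rcases x with v | u
      · exact mem_toLeft.1 (h1 (mem_toLeft.2 hx))
      · cases u
        have h3 : decide (Sum.inr () ∈ B.1) = true := decide_eq_true hx
        have h4 : decide (Sum.inr () ∈ B.1) ≤ decide (Sum.inr () ∈ B'.1) := h2
        rw [h3] at h4
        exact of_decide_eq_true (top_le_iff.1 h4)
    · intro h
      have h' : B.1 ⊆ B'.1 := h
      refine ⟨?_, ?_⟩
      · intro v hv
        exact mem_toLeft.2 (h' (mem_toLeft.1 hv))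
      · change decide (Sum.inr () ∈ B.1) ≤ decide (Sum.inr () ∈ B'.1)
        by_cases h1 : Sum.inr () ∈ B.1
        · rw [decide_eq_true h1, decide_eq_true (h' h1)]
        · rw [decide_eq_false h1]
          exact Bool.false_le _

theorem fl_pyr (hD : 1 ≤ D) (h : Cplx D 𝓕) : fl (CLat (pyr 𝓕)) = (D + 2) * fl (CLat 𝓕) := by
  rw [fl_congr (cl_pyr_iso (𝓕 := 𝓕)), fl_prod (grd_cl h hD)]

end H47.KO
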