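import Pool.Agent.H47.KO.PyrReal

/-! # KO.PyrCx : a pyramid is a complex; simplex facets, degrees

`cplx_pyr`: `anti`: `F.disjSum univ ⊆ F'.disjSum univ` iff `F ⊆ F'`; the base does not contain `inr ()`; the base is not contained in `F.disjSum univ` because `F ≠ univ` (`univ_nmem`). `out`: `inl v`: `out v`;
`inr ()`: the base. `sep`: `inl v, inl w`: `sep v w`; `inl v, inr ()`: the base; `inr (), inl v`: `out v`. `real`: `real_pyr`.
`isSx_pyr`: `F.disjSum univ`: card `D + 1`; erase `inl f`: `G.disjSum univ`; erase `inr ()`: the base.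
`deg`: `deg (inl v) = deg v + 1`, `deg (inr ()) = card 𝓕`. `ss_pyr`: `inl v` is in the base which has `card V ≥ D + 2` elements; `inr ()` has degree `card 𝓕 ≥ D + 2`. -/

namespace H47.KO

open Finset

variable {V : Type} [Fintype V] [DecidableEq V] {D : ℕ} {𝓕 : Finset (Finset V)}

theorem pyrCx_disjSum_inj (X : Finset Unit) :
    Function.Injective (fun F : Finset V => (F.disjSum X : Finset (V ⊕ Unit))) := by
  intro F F' hFF
  ext v
  have := Finset.ext_iff.1 hFF (Sum.inl v)
  simpa using this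

theorem pyrCx_base_ne (F : Finset V) :
    (univ.disjSum ∅ : Finset (V ⊕ Unit)) ≠ F.disjSum univ := by
  intro hh
  have := Finset.ext_iff.1 hh (Sum.inr ())
  simp at this

theorem cplx_pyr (hD : 1 ≤ D) (h : Cplx D 𝓕) : Cplx (D + 1) (pyr 𝓕) := by
  have hnt := nontrivial_of_cplx hD h
  have hun : (univ : Finset V) ∉ 𝓕 := univ_nmem h
  constructor
  · intro B hB B' hB' hs
    rw [mem_pyr] at hB hB'
    rcases hB with rfl | ⟨F, hF, rfl⟩ <;> rcases hB' with rfl | ⟨F', hF', rfl⟩
    · rfl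
    · exfalso
      apply hun
      have : F' = univ := by
        apply eq_univ_of_forall
        intro v
        have := hs (Finset.inl_mem_disjSum.2 (mem_univ v))
        exact Finset.inl_mem_disjSum.1 this
      exact this ▸ hF'
    · exfalso
      have := hs (Finset.inr_mem_disjSum.2 (mem_univ ()))
      exact absurd (Finset.inr_mem_disjSum.1 this) (Finset.notMem_empty _)
    · have hFF : F ⊆ F' := by
        intro v hv
        exact Finset.inl_mem_disjSum.1 (hs (Finset.inl_mem_disjSum.2 hv))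
      rw [h.anti F hF F' hF' hFF]
  · rintro (v | u)
    · obtain ⟨F, hF, hv⟩ := h.out v
      exact ⟨F.disjSum univ, mem_pyr.2 (Or.inr ⟨F, hF, rfl⟩), by
        rw [Finset.inl_mem_disjSum]; exact hv⟩
    · exact ⟨univ.disjSum ∅, mem_pyr.2 (Or.inl rfl), by
        rw [Finset.inr_mem_disjSum]; exact Finset.notMem_empty _⟩
  · rintro (v | u) (w | u') hne
    · have hvw : v ≠ w := fun hh => hne (by rw [hh])
      obtain ⟨F, hF, hv, hw⟩ := h.sep v w hvw
      exact ⟨F.disjSum univ, mem_pyr.2 (Or.inr ⟨F, hF, rfl⟩), by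
        rw [Finset.inl_mem_disjSum]; exact hv, by
        rw [Finset.inl_mem_disjSum]; exact hw⟩
    · exact ⟨univ.disjSum ∅, mem_pyr.2 (Or.inl rfl), by
        rw [Finset.inl_mem_disjSum]; exact mem_univ _, by
        rw [Finset.inr_mem_disjSum]; exact Finset.notMem_empty _⟩
    · obtain ⟨F, hF, hv⟩ := h.out w
      exact ⟨F.disjSum univ, mem_pyr.2 (Or.inr ⟨F, hF, rfl⟩), by
        rw [Finset.inr_mem_disjSum]; exact mem_univ _, by
        rw [Finset.inl_mem_disjSum]; exact hv⟩
    · exact absurd rfl hne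
  · exact real_pyr h.real

theorem isSx_pyr {F : Finset V} (hF : IsSx D 𝓕 F) : IsSx (D + 1) (pyr 𝓕) (F.disjSum univ) := by
  obtain ⟨h1, h2, h3⟩ := hF
  refine ⟨mem_pyr.2 (Or.inr ⟨F, h1, rfl⟩), ?_, ?_⟩
  · rw [Finset.card_disjSum, h2, card_univ, Fintype.card_unit]
  · rintro (f | u) hf
    · obtain ⟨G, hG, hFG⟩ := h3 f (Finset.inl_mem_disjSum.1 hf)
      refine ⟨G.disjSum univ, mem_pyr.2 (Or.inr ⟨G, hG, rfl⟩), ?_⟩
      ext x
      rcases x with v | w
      · have := Finset.ext_iff.1 hFG v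
        rw [mem_inter, mem_erase] at this
        rw [mem_inter, mem_erase, Finset.inl_mem_disjSum, Finset.inl_mem_disjSum, this]
        simp
      · simp
    · refine ⟨univ.disjSum ∅, mem_pyr.2 (Or.inl rfl), ?_⟩
      ext x
      rcases x with v | w
      · simp
      · simp

theorem deg_pyr_inl (hD : 1 ≤ D) (h : Cplx D 𝓕) (v : V) :
    deg (pyr 𝓕) (Sum.inl v) = deg 𝓕 v + 1 := by
  have hnt := nontrivial_of_cplx hD h
  unfold deg pyr
  rw [filter_insert, if_pos (by simp), card_insert_of_notMem, filter_image]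
  · congr 1
    rw [card_image_of_injective _ (pyrCx_disjSum_inj univ)]
    congr 1
    ext F
    simp
  · intro hh
    rw [mem_filter, mem_image] at hh
    obtain ⟨⟨F, _, hF⟩, _⟩ := hh
    exact pyrCx_base_ne F hF.symm

theorem deg_pyr_inr (hD : 1 ≤ D) (h : Cplx D 𝓕) (u : Unit) :
    deg (pyr 𝓕) (Sum.inr u) = 𝓕.card := by
  unfold deg pyr
  rw [filter_insert, if_neg (by simp), filter_image,
    card_image_of_injective _ (pyrCx_disjSum_inj univ)]
  congr 1
  ext F
  simp

theorem card_pyr (hD : 1 ≤ D) (h : Cplx D 𝓕) : (pyr 𝓕).card = 𝓕.card + 1 := by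
  unfold pyr
  rw [card_insert_of_notMem, card_image_of_injective _ (pyrCx_disjSum_inj univ)]
  intro hh
  rw [mem_image] at hh
  obtain ⟨F, _, hF⟩ := hh
  exact pyrCx_base_ne F hF.symm

theorem ss_pyr (hD : 1 ≤ D) (h : Cplx D 𝓕) (hV : D + 2 ≤ Fintype.card V)
    (hF : D + 2 ≤ 𝓕.card) (x : V ⊕ Unit) : ¬ SS (D + 1) (pyr 𝓕) x := by
  rintro ⟨h1, h2⟩
  rcases x with v | u
  · have := h2 (univ.disjSum ∅) (mem_pyr.2 (Or.inl rfl)) (by simp)
    rw [Finset.card_disjSum, card_univ, card_empty] at this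
    omega
  · rw [deg_pyr_inr hD h] at h1
    omega

end H47.KO
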