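import Pool.Agent.H47.KO.PyrCl

/-! # KO.PyrReal : realisation of a pyramid

On `E × ℝ` (`Module.finrank_prod`), `s' (inl v) = (s v, 0)`, `s' (inr ()) = (0, 1)`, functionals: for the base `LinearMap.snd`, for `F.disjSum univ` `a F ∘ LinearMap.fst` (as a function of the set `B`: `if Sum.inr () ∈ B then a B.toLeft ∘ fst else snd`; `Finset.toLeft`: `toLeft_disjSum`).
`compl`: `x = (y, c)`: `c ≥ 0` from the base, `a F y ≥ 0` for all `F`, so `y = ∑ c v • s v`, `x = ∑ c v • (s v, 0) + c • (0, 1)`. -/

namespace H47.KO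

open Finset

variable {V : Type} [Fintype V] [DecidableEq V] {D : ℕ} {𝓕 : Finset (Finset V)}

theorem real_pyr (h : Realiz D 𝓕) : Realiz (D + 1) (pyr 𝓕) := by
  obtain ⟨E, _, _, s, a, h⟩ := h
  have := h.fin
  let s' : V ⊕ Unit → E × ℝ := Sum.elim (fun v => (s v, 0)) (fun _ => (0, 1))
  let a' : Finset (V ⊕ Unit) → Module.Dual ℝ (E × ℝ) := fun B =>
    if Sum.inr () ∈ B then (a B.toLeft).comp (LinearMap.fst ℝ E ℝ) else LinearMap.snd ℝ E ℝ
  have hb : a' (univ.disjSum ∅) = LinearMap.snd ℝ E ℝ := by
    simp only [a']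
    rw [if_neg (by simp)]
  have hF : ∀ F : Finset V, a' (F.disjSum univ) = (a F).comp (LinearMap.fst ℝ E ℝ) := by
    intro F
    simp only [a']
    rw [if_pos (by simp), toLeft_disjSum]
  refine ⟨E × ℝ, inferInstance, inferInstance, s', a', inferInstance, ?_, ?_, ?_, ?_⟩
  · rw [Module.finrank_prod, h.rank, Module.finrank_self]
  · intro B hB w
    rw [mem_pyr] at hB
    rcases hB with rfl | ⟨F, hFm, rfl⟩
    · rw [hb]
      rcases w with v | u
      · simp [s']
      · simp [s']
    · rw [hF]
      rcases w with v | u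
      · simpa [s'] using h.nonneg F hFm v
      · simp [s']
  · intro B hB w
    rw [mem_pyr] at hB
    rcases hB with rfl | ⟨F, hFm, rfl⟩
    · rw [hb]
      rcases w with v | u
      · simp [s']
      · simp [s']
    · rw [hF]
      rcases w with v | u
      · simpa [s'] using h.zero F hFm v
      · simp [s']
  · rintro ⟨y, c⟩ hx
    have hc : 0 ≤ c := by
      have := hx (univ.disjSum ∅) (by rw [mem_pyr]; exact Or.inl rfl)
      rw [hb] at this
      simpa using this
    obtain ⟨d, hd0, hd⟩ := h.compl y (by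
      intro F hFm
      have := hx (F.disjSum univ) (by rw [mem_pyr]; exact Or.inr ⟨F, hFm, rfl⟩)
      rw [hF] at this
      simpa using this)
    refine ⟨Sum.elim d (fun _ => c), ?_, ?_⟩
    · rintro (v | u)
      · exact hd0 v
      · exact hc
    · rw [Fintype.sum_sum_type]
      ext
      · simp only [Sum.elim_inl, Sum.elim_inr, s', Prod.fst_add, Prod.fst_sum, Prod.smul_mk,
          smul_zero, sum_const_zero, add_zero]
        exact hd
      · simp [s', Prod.snd_sum]

end H47.KO
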