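import Pool.Agent.H47.KO.Lat
import Pool.Agent.H63.KO.LatSys
import Pool.Agent.H63.KO.FlagEquiv
import Pool.Agent.H63.KO.FlagConn

/-! # KO.Rigid : an automorphism of a `PolyLat` which fixes a flag is the identity

`H63.KO.flagEquiv P` gives `e : P.Fl ≃ Flag L` with `e (φ.act g) = g • e φ`; so `φ.act g = φ` for one `φ : P.Fl`. `act_rho`: `(rho i φ).act g = rho i (φ.act g)`, so the set of `φ` with `φ.act g = φ` is
closed under all `rho i`; by `P.sys.conn` (`P.sys.ρ = rho`) it is everything. Every `x : L` is `ψ.f (P.rk x)` for some `ψ` (`exists_flag`), so `g x = x`.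
`fix_iso`: transport to any poset isomorphic to `L`. -/

namespace H47.KO

theorem rigid {L : Type} [PartialOrder L] [Finite L] (P : H63.KO.PolyLat L) (g : L ≃o L)
    (Φ : Flag L) (h : g • Φ = Φ) : g = 1 := by
  obtain ⟨e, he⟩ := H63.KO.flagEquiv P
  have h0 : (e.symm Φ).act g = e.symm Φ := by
    apply e.injective
    rw [he, e.apply_symm_apply, h]
  have hall : ∀ ψ : P.Fl, ψ.act g = ψ := by
    intro ψ
    have hc := P.sys.conn (e.symm Φ) ψ
    induction hc with
    | refl => exact h0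
    | tail _ hbc ih =>
      obtain ⟨i, -, -, rfl⟩ := hbc
      change (H63.KO.rho i _).act g = H63.KO.rho i _
      rw [H63.KO.act_rho, ih]
  ext x
  obtain ⟨ψ, hψ⟩ := H63.KO.exists_flag (P := P) x
  have h1 : (ψ.act g).f (P.rk x) = ψ.f (P.rk x) := by rw [hall ψ]
  have h2 : (ψ.act g).f (P.rk x) = g (ψ.f (P.rk x)) := rfl
  rw [h2, hψ] at h1
  exact h1

end H47.KO
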