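import Pool.Agent.H47.KO.FlFac

/-! # KO.SimpG : the simplex as a gadget

`simp D` = the `D`-subsets of the `D + 1` element set `X = Fin D ⊕ Unit`, i.e. the sets `univ.erase x`. Realisation: `E = X → ℝ`, `s x = Pi.single x 1`, the functional of `univ.erase x` is the coordinate `x`; `compl` is clear.
All subsets different from `univ` are closed, so `CLat (simp D) ≃o Finset X` (`univ` is closed too), `fl = (D + 1)!` by `fl_bool`. All facets are simplex facets: `(univ.erase x) ∩ (univ.erase y) = (univ.erase x).erase y`.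
Every vertex is in `D` facets. -/

namespace H47.KO

open Finset

private theorem mem_simp' {D : ℕ} {A : Finset (Fin D ⊕ Unit)} : A ∈ simp D ↔ A.card = D := by
  simp [simp]

private theorem cardX (D : ℕ) : Fintype.card (Fin D ⊕ Unit) = D + 1 := by
  simp

private theorem erase_mem (D : ℕ) (x : Fin D ⊕ Unit) : univ.erase x ∈ simp D := by
  rw [mem_simp', Finset.card_erase_of_mem (Finset.mem_univ x), Finset.card_univ, cardX]
  rfl

private theorem exists_erase {D : ℕ} {A : Finset (Fin D ⊕ Unit)} (hA : A ∈ simp D) :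
    ∃ x, A = univ.erase x := by
  rw [mem_simp'] at hA
  have h1 : Aᶜ.card = 1 := by
    rw [Finset.card_compl, cardX, hA]
    omega
  obtain ⟨x, hx⟩ := Finset.card_eq_one.1 h1
  refine ⟨x, ?_⟩
  rw [← compl_compl A, hx, Finset.compl_singleton]

theorem simp_cplx (D : ℕ) (hD : 1 ≤ D) : Cplx D (simp D) := by
  have _ := hD
  refine ⟨?_, ?_, ?_, ?_⟩
  · intro F hF F' hF' h
    rw [mem_simp'] at hF hF'
    exact Finset.eq_of_subset_of_card_le h (by omega)
  · intro v
    exact ⟨_, erase_mem D v, by simp⟩
  · intro v w hvw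
    exact ⟨_, erase_mem D w, by simpa using hvw, by simp⟩
  · refine ⟨(Fin D ⊕ Unit) → ℝ, inferInstance, inferInstance, fun v => Pi.single v 1,
      fun F => ∑ x ∈ Fᶜ, LinearMap.proj x, ?_⟩
    have hval : ∀ (F : Finset (Fin D ⊕ Unit)) (v : Fin D ⊕ Unit),
        (∑ x ∈ Fᶜ, (LinearMap.proj x : Module.Dual ℝ ((Fin D ⊕ Unit) → ℝ)))
          (Pi.single v 1) = if v ∈ Fᶜ then 1 else 0 := by
      intro F v
      rw [LinearMap.sum_apply]
      simp only [LinearMap.proj_apply]
      exact Finset.sum_pi_single' v (1 : ℝ) Fᶜ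
    refine ⟨inferInstance, ?_, ?_, ?_, ?_⟩
    · rw [Module.finrank_pi, cardX]
    · intro F _ v
      rw [hval]
      split_ifs <;> norm_num
    · intro F _ v
      rw [hval]
      by_cases hv : v ∈ F
      · simp [hv]
      · simp [hv]
    · intro x hx
      refine ⟨x, ?_, ?_⟩
      · intro v
        have h1 := hx _ (erase_mem D v)
        rw [LinearMap.sum_apply] at h1
        simp only [LinearMap.proj_apply] at h1
        have h2 : (univ.erase v)ᶜ = ({v} : Finset (Fin D ⊕ Unit)) := by
          ext z
          simp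
        rw [h2, Finset.sum_singleton] at h1
        exact h1
      · funext z
        rw [Finset.sum_apply]
        simp only [Pi.smul_apply, smul_eq_mul]
        rw [Finset.sum_eq_single z]
        · simp
        · intro b _ hb
          rw [Pi.single_eq_of_ne (Ne.symm hb), mul_zero]
        · intro h
          exact absurd (Finset.mem_univ z) h

theorem simp_sx (D : ℕ) (A : Finset (Fin D ⊕ Unit)) (hA : A ∈ simp D) : IsSx D (simp D) A := by
  refine ⟨hA, mem_simp'.1 hA, fun f _ => ⟨_, erase_mem D f, ?_⟩⟩
  ext z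
  simp [and_comm]

theorem simp_F0 (D : ℕ) : IsSx D (simp D) (im (Sum.inl : Fin D → Fin D ⊕ Unit)) := by
  apply simp_sx
  rw [mem_simp', im, Finset.card_image_of_injective _ Sum.inl_injective, Finset.card_univ,
    Fintype.card_fin]

private theorem simp_eq (D : ℕ) : simp D = univ.image (fun x : Fin D ⊕ Unit => univ.erase x) := by
  ext A
  rw [Finset.mem_image]
  constructor
  · intro hA
    obtain ⟨x, hx⟩ := exists_erase hA
    exact ⟨x, Finset.mem_univ x, hx.symm⟩
  · rintro ⟨x, _, rfl⟩
    exact erase_mem D x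

private theorem erase_inj (D : ℕ) :
    Function.Injective (fun x : Fin D ⊕ Unit => (univ : Finset (Fin D ⊕ Unit)).erase x) := by
  intro x y h
  by_contra hxy
  have h1 : x ∈ (univ : Finset (Fin D ⊕ Unit)).erase y := by simpa using hxy
  have h2 : x ∈ (univ : Finset (Fin D ⊕ Unit)).erase x := by
    have h3 : (univ : Finset (Fin D ⊕ Unit)).erase x = univ.erase y := h
    rw [h3]
    exact h1
  simp at h2

theorem simp_deg (D : ℕ) (x : Fin D ⊕ Unit) : deg (simp D) x = D := by
  have h1 : ((simp D).filter fun F => x ∈ F) =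
      (univ.erase x).image (fun y : Fin D ⊕ Unit => univ.erase y) := by
    rw [simp_eq]
    ext A
    simp only [Finset.mem_filter, Finset.mem_image, Finset.mem_univ, true_and, Finset.mem_erase,
      and_true]
    constructor
    · rintro ⟨⟨y, rfl⟩, hy⟩
      refine ⟨y, ?_, rfl⟩
      intro h
      subst h
      simp at hy
    · rintro ⟨y, hy, rfl⟩
      exact ⟨⟨y, rfl⟩, by simpa using Ne.symm hy⟩
  rw [deg, h1, Finset.card_image_of_injective _ (erase_inj D)]
  exact mem_simp'.1 (erase_mem D x)

theorem simp_card (D : ℕ) : (simp D).card = D + 1 := by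
  rw [simp_eq, Finset.card_image_of_injective _ (erase_inj D), Finset.card_univ, cardX]

theorem simp_fl (D : ℕ) (hD : 1 ≤ D) : fl (CLat (simp D)) = (D + 1).factorial := by
  have _ := hD
  have hcl : ∀ A : Finset (Fin D ⊕ Unit), IsCl (simp D) A := by
    intro A
    by_cases hA : A = univ
    · rw [hA]
      exact isCl_univ _
    · have h1 : ∃ x, x ∉ A := by
        by_contra h
        push Not at h
        exact hA (Finset.eq_univ_iff_forall.2 h)
      obtain ⟨x, hx⟩ := h1
      refine cl_sub_sx (simp_sx D _ (erase_mem D x)) ?_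
      intro z hz
      simp only [Finset.mem_erase, Finset.mem_univ, and_true]
      rintro rfl
      exact hx hz
  have e : CLat (simp D) ≃o Finset (Fin D ⊕ Unit) :=
    { toEquiv := Equiv.subtypeUnivEquiv hcl
      map_rel_iff' := by
        intro a b
        rfl }
  rw [fl_congr e, fl_bool, cardX]

theorem simp_ss (D : ℕ) (x : Fin D ⊕ Unit) : SS D (simp D) x :=
  ⟨simp_deg D x, fun _ hF _ => mem_simp'.1 hF⟩

end H47.KO
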