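import Pool.Agent.H47.KO.SnakeDef

/-! # KO.SnakeB : one round of the snake: degrees, freeness, flags

`snk_deg_inl`: for `j < t` (`h.fr`) the pairs `(g, j')` with `act g (e j') = e j`: then `act g⁻¹ (e j) = e j' ∈ im e`, so `g⁻¹ = 1` by `fr`, and `j' = j` (`free.inj`): exactly the pair `(1, j)`. `deg_glue_inl`, `simp_deg`: `deg' + 2 = D + j * (D - 2) + D`.
`snk_dg`: `j = 0`: `nextE e j = inr (1, ())`, `deg_glue_inr`, `simp_deg`. `j = i + 1`, `i < t`: `snk_deg_inl`, `(i + 1) * (D - 2) = i * (D - 2) + (D - 2)`, `D ≥ 4`.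
`snk_fr`: `j = 0`: the image `inr (g, ())`; the only `inr` in `im (nextE e)` is `inr (1, ())`. `j = i + 1`: `inl (act g (e i)) ∈ im (nextE e)` gives `act g (e i) ∈ im e`, `fr`.
`snk_fl`: `fl_glue'`, `simp_fl`: `fl' + |G| * (2 * D!) = fl + |G| * (D + 1)!`, `(D + 1)! = (D + 1) * D!`. (`GlueOK`: `glueOK_free` with `simp_cplx`, `simp_F0`.) -/

namespace H47.KO

open Finset

variable {V G : Type} [Fintype V] [DecidableEq V] [Group G] [Fintype G] [DecidableEq G] {D : ℕ}
  {𝓕 : Finset (Finset V)} {act : G →* Equiv.Perm V} {r : G} {κ : Fin 11 → V} {W : Finset V}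

private theorem snk_ok {t : ℕ} {e : Fin D → V} (h : Snk D t 𝓕 act r κ W e) :
    GlueOK D 𝓕 (simp D) (eG act e) :=
  glueOK_free h.good h.free (simp_cplx D (le_trans (by norm_num) h.good.four)) (simp_F0 D)

theorem snk_deg_inl {t : ℕ} {e : Fin D → V} (h : Snk D t 𝓕 act r κ W e) (j : Fin D)
    (hj : j.val < t) :
    deg (glue 𝓕 (simp D) (eG act e)) (Sum.inl (e j)) = D + (j.val + 1) * (D - 2) := by
  have h1 := deg_glue_inl (snk_ok h) (e j)
  have h2 : (univ : Finset (G × Fin D)).filter (fun p => eG act e p.1 p.2 = e j) = {(1, j)} := by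
    ext ⟨g, i⟩
    simp only [Finset.mem_filter, Finset.mem_univ, true_and, Finset.mem_singleton, Prod.mk.injEq]
    constructor
    · intro h3
      have h4 : act g⁻¹ (e j) = e i := by
        rw [← h3]
        change act g⁻¹ (act g (e i)) = e i
        rw [← Equiv.Perm.mul_apply, ← map_mul, inv_mul_cancel, map_one, Equiv.Perm.one_apply]
      have h5 : g⁻¹ = 1 := h.fr j hj g⁻¹ (by
        rw [h4]; exact Finset.mem_image_of_mem e (Finset.mem_univ i))
      have h6 : g = 1 := inv_eq_one.1 h5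
      refine ⟨h6, ?_⟩
      subst h6
      rw [h5, map_one, Equiv.Perm.one_apply] at h4
      exact h.free.inj h4.symm
    · rintro ⟨rfl, rfl⟩
      change act 1 (e i) = e i
      rw [map_one, Equiv.Perm.one_apply]
  rw [h2, Finset.sum_singleton, Finset.sum_singleton, simp_deg, h.dg j hj] at h1
  have h4 := h.good.four
  have h5 : (j.val + 1) * (D - 2) = j.val * (D - 2) + (D - 2) := by ring
  omega

theorem snk_dg {t : ℕ} {e : Fin D → V} (h : Snk D t 𝓕 act r κ W e) (j : Fin D)
    (hj : j.val < t + 1) :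
    deg (glue 𝓕 (simp D) (eG act e)) (nextE (G := G) e j) = D + j.val * (D - 2) := by
  by_cases h0 : j.val = 0
  · have h1 : nextE (G := G) e j = Sum.inr (1, ()) := by simp [nextE, h0]
    rw [h1, deg_glue_inr (snk_ok h), simp_deg, h0, zero_mul, add_zero]
  · have h1 : nextE (G := G) e j = Sum.inl (e ⟨j.val - 1, by omega⟩) := by simp [nextE, h0]
    rw [h1, snk_deg_inl h ⟨j.val - 1, by omega⟩ (by simp only; omega)]
    simp only
    rw [Nat.sub_add_cancel (by omega)]

theorem snk_fr {t : ℕ} {e : Fin D → V} (h : Snk D t 𝓕 act r κ W e) (j : Fin D)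
    (hj : j.val < t + 1) (g : G)
    (hg : actSum act (actProd (actL G) 1) g (nextE (G := G) e j) ∈ im (nextE (G := G) e)) :
    g = 1 := by
  obtain ⟨i, _, hi⟩ := Finset.mem_image.1 hg
  by_cases h0 : j.val = 0
  · have h1 : nextE (G := G) e j = Sum.inr (1, ()) := by simp [nextE, h0]
    rw [h1, actSum_inr, actProd_apply, actL_apply, mul_one] at hi
    by_cases h2 : i.val = 0
    · have h3 : nextE (G := G) e i = Sum.inr (1, ()) := by simp [nextE, h2]
      rw [h3] at hi
      have h4 := congrArg Prod.fst (Sum.inr.inj hi)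
      exact h4.symm
    · have h3 : nextE (G := G) e i = Sum.inl (e ⟨i.val - 1, by omega⟩) := by simp [nextE, h2]
      rw [h3] at hi
      exact absurd hi (by simp)
  · have h1 : nextE (G := G) e j = Sum.inl (e ⟨j.val - 1, by omega⟩) := by simp [nextE, h0]
    rw [h1, actSum_inl] at hi
    by_cases h2 : i.val = 0
    · have h3 : nextE (G := G) e i = Sum.inr (1, ()) := by simp [nextE, h2]
      rw [h3] at hi
      exact absurd hi (by simp)
    · have h3 : nextE (G := G) e i = Sum.inl (e ⟨i.val - 1, by omega⟩) := by simp [nextE, h2]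
      rw [h3] at hi
      have h4 := Sum.inl.inj hi
      refine h.fr ⟨j.val - 1, by omega⟩ (by simp only; omega) g ?_
      rw [← h4]
      exact Finset.mem_image_of_mem e (Finset.mem_univ _)

theorem snk_fl {t : ℕ} {e : Fin D → V} (h : Snk D t 𝓕 act r κ W e) :
    fl (CLat (glue 𝓕 (simp D) (eG act e))) =
      fl (CLat 𝓕) + Fintype.card G * ((D - 1) * D.factorial) := by
  have h1 := fl_glue' (snk_ok h)
  have h4 := h.good.four
  rw [simp_fl D (le_trans (by norm_num) h4), Nat.factorial_succ] at h1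
  obtain ⟨d, rfl⟩ : ∃ d, D = d + 1 := ⟨D - 1, by omega⟩
  have h5 : Fintype.card G * ((d + 1 + 1) * (d + 1).factorial) =
      Fintype.card G * (2 * (d + 1).factorial) +
        Fintype.card G * ((d + 1 - 1) * (d + 1).factorial) := by
    rw [Nat.add_sub_cancel]; ring
  omega

end H47.KO
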