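import Pool.Agent.H47.KO.SnakeA
import Pool.Agent.H47.KO.SnakeB

/-! # KO.Snake : one round of the snake (glue, no sorry) -/

namespace H47.KO

open Finset

variable {V G : Type} [Fintype V] [DecidableEq V] [Group G] [Fintype G] [DecidableEq G] {D : ℕ}
  {𝓕 : Finset (Finset V)} {act : G →* Equiv.Perm V} {r : G} {κ : Fin 11 → V} {W : Finset V}

theorem snk_step {t : ℕ} {e : Fin D → V} (h : Snk D t 𝓕 act r κ W e) :
    Snk D (t + 1) (glue 𝓕 (simp D) (eG act e)) (actSum act (actProd (actL G) 1)) r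
      (fun i => Sum.inl (κ i)) (W.image Sum.inl) (nextE (G := G) e) :=
  ⟨snk_good h, snk_free h, snk_ss h, snk_dg h, fun j hj g hg => snk_fr h j hj g hg⟩

end H47.KO
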