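import Pool.Agent.H47.KO.SnakeDef

/-! # KO.SnakeA : one round of the snake: good, free, super-simple vertices

`nextE e = phi (eG act e) 1 ∘ e1` with `e1 j = if j = 0 then inr () else inl (j - 1)` (`act 1 = id`), injective, `im e1 ∈ simp D` (card `D`), `≠ im inl`. `snk_ok`: `glueOK_free` with `simp_cplx`, `simp_F0`. `snk_good`: `good_glue`, `simp_deg`, `simp_card`, `core_free`, `eqGlue_free`. `snk_free`: `freeF_glue_gad` with `simp_sx`.
`snk_ss`: `x = inl w`: `ss_glue_inl` (`simp_deg`): `SS 𝓕 w` and `w` is no `act g (e j)`; but by the field `ss`, `w = act g (e j)`: contradiction. `x = inr (g, ())`: it is the image under `g` of `nextE e 0 = inr (1, ())`. -/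

namespace H47.KO

open Finset

variable {V G : Type} [Fintype V] [DecidableEq V] [Group G] [Fintype G] [DecidableEq G] {D : ℕ}
  {𝓕 : Finset (Finset V)} {act : G →* Equiv.Perm V} {r : G} {κ : Fin 11 → V} {W : Finset V}

theorem snk_ok {t : ℕ} {e : Fin D → V} (h : Snk D t 𝓕 act r κ W e) :
    GlueOK D 𝓕 (simp D) (eG act e) :=
  glueOK_free h.good h.free (simp_cplx D (by have := h.good.four; omega)) (simp_F0 D)

theorem snk_good {t : ℕ} {e : Fin D → V} (h : Snk D t 𝓕 act r κ W e) :
    Good D (glue 𝓕 (simp D) (eG act e)) (actSum act (actProd (actL G) 1)) r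
      (fun i => Sum.inl (κ i)) (W.image Sum.inl) := by
  have h4 := h.good.four
  refine good_glue h.good (snk_ok h) (fun x => (simp_deg D x).ge) ?_ (core_free h.free) (actL G) 1
    (eqGlue_free e)
  rw [simp_card]
  omega

/-- the enumeration of the free facet of the gadget -/
private def e1S (D : ℕ) : Fin D → Fin D ⊕ Unit := fun j =>
  if j.val = 0 then Sum.inr () else Sum.inl ⟨j.val - 1, by omega⟩

private theorem e1S_inj (D : ℕ) : Function.Injective (e1S D) := by
  intro i j hij
  unfold e1S at hij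
  by_cases hi : i.val = 0
  · by_cases hj : j.val = 0
    · exact Fin.ext (by omega)
    · rw [if_pos hi, if_neg hj] at hij
      cases hij
  · by_cases hj : j.val = 0
    · rw [if_neg hi, if_pos hj] at hij
      cases hij
    · rw [if_neg hi, if_neg hj] at hij
      have h1 := Sum.inl.inj hij
      have h2 := congrArg Fin.val h1
      have h3 : i.val - 1 = j.val - 1 := h2
      exact Fin.ext (by omega)

private theorem nextE_eq (act : G →* Equiv.Perm V) (e : Fin D → V) :
    (nextE (G := G) e) = fun j => phi (eG act e) 1 (e1S D j) := by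
  funext j
  unfold nextE e1S
  by_cases hj : j.val = 0
  · rw [if_pos hj, if_pos hj]
    rfl
  · rw [if_neg hj, if_neg hj]
    show _ = Sum.inl ((act 1) (e _))
    rw [map_one]
    rfl

theorem snk_free {t : ℕ} {e : Fin D → V} (h : Snk D t 𝓕 act r κ W e) :
    FreeF D (glue 𝓕 (simp D) (eG act e)) (actSum act (actProd (actL G) 1))
      (fun i => Sum.inl (κ i)) (W.image Sum.inl) (nextE (G := G) e) := by
  have h4 := h.good.four
  rw [nextE_eq act e]
  refine freeF_glue_gad h.good h.free (snk_ok h) (e1S_inj D) (simp_sx D _ ?_) ?_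
  · rw [simp, mem_filter]
    refine ⟨mem_univ _, ?_⟩
    rw [im, card_image_of_injective _ (e1S_inj D), card_univ, Fintype.card_fin]
  · intro h1
    have h2 : (Sum.inr () : Fin D ⊕ Unit) ∈ im (e1S D) := by
      refine mem_image.2 ⟨⟨0, by omega⟩, mem_univ _, ?_⟩
      unfold e1S
      rw [if_pos rfl]
    rw [h1] at h2
    obtain ⟨j, _, hj⟩ := mem_image.1 h2
    cases hj

theorem snk_ss {t : ℕ} {e : Fin D → V} (h : Snk D t 𝓕 act r κ W e) (v : V ⊕ (G × Unit))
    (hv : SS D (glue 𝓕 (simp D) (eG act e)) v) :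
    1 ≤ t + 1 ∧ ∃ g, ∃ j : Fin D, j.val = 0 ∧
      v = actSum act (actProd (actL G) 1) g (nextE (G := G) e j) := by
  have h4 := h.good.four
  refine ⟨by omega, ?_⟩
  rcases v with w | ⟨g, u⟩
  · obtain ⟨h1, h2⟩ := (ss_glue_inl (snk_ok h) (by omega) (fun x => (simp_deg D x).ge) w).1 hv
    obtain ⟨_, g, j, _, hw⟩ := h.ss w h1
    exact absurd hw.symm (h2 g j)
  · refine ⟨g, ⟨0, by omega⟩, rfl, ?_⟩
    have h1 : nextE (G := G) e ⟨0, by omega⟩ = Sum.inr (1, ()) := by
      unfold nextE
      rw [if_pos rfl]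
    rw [h1, actSum_inr, actProd_apply, actL_apply, mul_one]

end H47.KO
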