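import Pool.Agent.H47.KO.FreeGlue
import Pool.Agent.H47.KO.SimpG

/-! # KO.SnakeDef : stacking along a snake, definitions (no sorry) -/

namespace H47.KO

open Finset

/-- the state after `t` rounds of the snake -/
structure Snk (D t : ℕ) {V G : Type} [Fintype V] [DecidableEq V] [Group G] [Fintype G]
    (𝓕 : Finset (Finset V)) (act : G →* Equiv.Perm V) (r : G) (κ : Fin 11 → V) (W : Finset V)
    (e : Fin D → V) : Prop where
  good : Good D 𝓕 act r κ W
  free : FreeF D 𝓕 act κ W e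
  ss : ∀ v, SS D 𝓕 v → 1 ≤ t ∧ ∃ g, ∃ j : Fin D, j.val = 0 ∧ v = act g (e j)
  dg : ∀ j : Fin D, j.val < t → deg 𝓕 (e j) = D + j.val * (D - 2)
  fr : ∀ j : Fin D, j.val < t → ∀ g, act g (e j) ∈ im e → g = 1

variable {V G : Type} [Fintype V] [DecidableEq V] [Group G] [Fintype G] [DecidableEq G] {D : ℕ}
  {𝓕 : Finset (Finset V)} {act : G →* Equiv.Perm V} {r : G} {κ : Fin 11 → V} {W : Finset V}

/-- the next enumeration -/
def nextE (e : Fin D → V) : Fin D → V ⊕ (G × Unit) := fun j =>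
  if j.val = 0 then Sum.inr (1, ()) else Sum.inl (e ⟨j.val - 1, by omega⟩)

end H47.KO
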